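import Pool.Agent.Lib.SHK.Spec

/-!
MP_9a4459_nt, module NumA: the parameters `x`, `y`, `N`.
-/

set_option autoImplicit false

namespace Pool.Agent.Lib.SHK

open Finset Filter Topology
open scoped Classical

private theorem NumA_prim (y : ℕ) (hy : 8 ≤ y) : y ^ 3 ≤ 64 * primorial y := by
  obtain ⟨p1, hp1, h1a, h1b⟩ := Nat.exists_prime_lt_and_le_two_mul (y / 8) (by omega)
  obtain ⟨p2, hp2, h2a, h2b⟩ := Nat.exists_prime_lt_and_le_two_mul (y / 4) (by omega)
  obtain ⟨p3, hp3, h3a, h3b⟩ := Nat.exists_prime_lt_and_le_two_mul (y / 2) (by omega)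
  have h12 : p1 ≠ p2 := by omega
  have h13 : p1 ≠ p3 := by omega
  have h23 : p2 ≠ p3 := by omega
  have hsub : ({p1, p2, p3} : Finset ℕ) ⊆ (range (y + 1)).filter Nat.Prime := by
    intro q hq
    simp only [mem_insert, mem_singleton] at hq
    rw [mem_filter, mem_range]
    rcases hq with rfl | rfl | rfl
    · exact ⟨by omega, hp1⟩
    · exact ⟨by omega, hp2⟩
    · exact ⟨by omega, hp3⟩
  have hprod : ∏ q ∈ ({p1, p2, p3} : Finset ℕ), q = p1 * (p2 * p3) := by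
    rw [prod_insert, prod_insert, prod_singleton]
    · simpa using h23
    · simp [h12, h13]
  have hle : p1 * (p2 * p3) ≤ primorial y := by
    rw [← hprod]
    refine Nat.le_of_dvd (primorial_pos y) ?_
    exact prod_dvd_prod_of_subset _ _ _ hsub
  have k1 : y ≤ 8 * p1 := by omega
  have k2 : y ≤ 4 * p2 := by omega
  have k3 : y ≤ 2 * p3 := by omega
  calc y ^ 3 = y * (y * y) := by ring
    _ ≤ (8 * p1) * ((4 * p2) * (2 * p3)) :=
        Nat.mul_le_mul k1 (Nat.mul_le_mul k2 k3)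
    _ = 64 * (p1 * (p2 * p3)) := by ring
    _ ≤ 64 * primorial y := Nat.mul_le_mul_left _ hle

private theorem NumA_four (y : ℕ) (t : ℝ) (h : (y : ℝ) ≤ t) :
    ((primorial y : ℕ) : ℝ) ≤ Real.exp (7 / 5 * t) := by
  have h0 : (0 : ℝ) ≤ y := Nat.cast_nonneg y
  have h1 : ((primorial y : ℕ) : ℝ) ≤ (4 : ℝ) ^ y := by
    exact_mod_cast primorial_le_four_pow y
  have h2 : (4 : ℝ) ^ y = Real.exp (y * Real.log 4) := by
    rw [Real.exp_nat_mul, Real.exp_log (by norm_num)]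
  have h3 : Real.log 4 ≤ 7 / 5 := by
    have : (4 : ℝ) = 2 ^ 2 := by norm_num
    rw [this, Real.log_pow]
    have := Real.log_two_lt_d9
    push_cast
    linarith
  refine h1.trans ?_
  rw [h2]
  apply Real.exp_le_exp.mpr
  have h4 := mul_le_mul_of_nonneg_left h3 h0
  linarith only [h4, h]

private theorem NumA_main (c η : ℝ) (hc : 1 / 2 ≤ c) (hc1 : c ≤ 1) (hη : 0 < η)
    (hη1 : η ≤ 1 / 10) (R y0 g : ℕ) (s : ℝ) (hs : s = √(g : ℝ)) (h1 : 20 ≤ s)
    (h2 : (y0 : ℝ) ≤ η * s) (h3 : 260 / η ^ 2 + 40 ≤ η * s) (h4 : (2 / η ^ 2) ^ 6 ≤ s ^ 2)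
    (h6 : s ^ (10 * R) ≤ Real.exp (3 / 10 * s)) (h7 : 16 * s ^ 2 ≤ Real.exp (1 / 2 * s)) :
    100 ≤ g ∧ y0 ≤ yy η g ∧ yy η g ≤ g ∧ (g : ℝ) ≤ 2 / η ^ 2 * (yy η g : ℝ) ^ 2 ∧
    g ≤ (yy η g) ^ 3 ∧
    yy η g ≤ g ^ 5 ∧ g ^ 5 ≤ (yy η g) ^ 12 ∧ (g ^ 5) ^ R ≤ NN c η g ∧
    Real.exp ((c - 2 * η) * √(g : ℝ)) ≤ NN c η g ∧ 2 * g < primorial (yy η g) ∧ g ≤ xx c g ∧
    Real.log (2 * (xx c g : ℝ)) ≤ g := by
  have hs0 : 0 < s := by linarith
  have hg : (g : ℝ) = s ^ 2 := by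
    rw [hs, Real.sq_sqrt (Nat.cast_nonneg g)]
  have hη2 : 0 < η ^ 2 := by positivity
  have hηs : 0 ≤ η * s := by positivity
  have c1 : 100 ≤ g := by
    have : (100 : ℝ) ≤ g := by
      rw [hg]
      nlinarith only [h1]
    exact_mod_cast this
  have hyle : (yy η g : ℝ) ≤ η * s := by
    rw [yy, ← hs]
    exact Nat.floor_le hηs
  have hylt : η * s < (yy η g : ℝ) + 1 := by
    rw [yy, ← hs]
    exact Nat.lt_floor_add_one _
  have c2 : y0 ≤ yy η g := by
    rw [yy, ← hs]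
    exact Nat.le_floor h2
  have hd : 0 < 260 / η ^ 2 := by positivity
  have hyy : 3 / 4 * (η * s) ≤ (yy η g : ℝ) := by linarith
  have c3 : yy η g ≤ g := by
    have : (yy η g : ℝ) ≤ g := by
      have k1 : η * s ≤ 1 * s := mul_le_mul_of_nonneg_right (by linarith only [hη1]) hs0.le
      rw [hg]
      nlinarith only [hyle, h1, k1]
    exact_mod_cast this
  have c4' : η ^ 2 / 2 * s ^ 2 ≤ (yy η g : ℝ) ^ 2 := by
    have := pow_le_pow_left₀ (by positivity) hyy 2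
    have h5 : (3 / 4 * (η * s)) ^ 2 = 9 / 16 * (η ^ 2 * s ^ 2) := by ring
    have h6 : 0 ≤ η ^ 2 * s ^ 2 := by positivity
    linarith
  have c4 : (g : ℝ) ≤ 2 / η ^ 2 * (yy η g : ℝ) ^ 2 := by
    rw [hg, div_mul_eq_mul_div, le_div_iff₀ hη2]
    linarith
  have hybig : 260 / η ^ 2 ≤ (yy η g : ℝ) := by linarith
  have hy0 : (0 : ℝ) < yy η g := by linarith
  have c5 : g ≤ (yy η g) ^ 3 := by
    have : (g : ℝ) ≤ (yy η g : ℝ) ^ 3 := by
      refine c4.trans ?_
      have e1 : 2 / η ^ 2 ≤ (yy η g : ℝ) := by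
        refine le_trans ?_ hybig
        gcongr
        norm_num
      calc 2 / η ^ 2 * (yy η g : ℝ) ^ 2 ≤ (yy η g : ℝ) * (yy η g : ℝ) ^ 2 := by gcongr
        _ = (yy η g : ℝ) ^ 3 := by ring
    exact_mod_cast this
  have c6 : yy η g ≤ g ^ 5 := c3.trans (Nat.le_self_pow (by norm_num) g)
  have c7 : g ^ 5 ≤ (yy η g) ^ 12 := by
    have : (g : ℝ) ^ 5 ≤ (yy η g : ℝ) ^ 12 := by
      have e1 : (η ^ 2 / 2 * s ^ 2) ^ 6 ≤ ((yy η g : ℝ) ^ 2) ^ 6 :=
        pow_le_pow_left₀ (by positivity) c4' 6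
      have e2 : ((yy η g : ℝ) ^ 2) ^ 6 = (yy η g : ℝ) ^ 12 := by ring
      have e3 : (η ^ 2 / 2 * s ^ 2) ^ 6 = (g : ℝ) ^ 5 * ((η ^ 2 / 2) ^ 6 * s ^ 2) := by
        rw [hg]
        ring
      have e4 : 1 ≤ (η ^ 2 / 2) ^ 6 * s ^ 2 := by
        have e5 : (η ^ 2 / 2) ^ 6 * (2 / η ^ 2) ^ 6 = 1 := by
          rw [← mul_pow]
          have : η ^ 2 / 2 * (2 / η ^ 2) = 1 := by field_simp
          rw [this, one_pow]
        calc (1 : ℝ) = (η ^ 2 / 2) ^ 6 * (2 / η ^ 2) ^ 6 := e5.symm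
          _ ≤ (η ^ 2 / 2) ^ 6 * s ^ 2 := by gcongr
      have e6 : (0 : ℝ) ≤ (g : ℝ) ^ 5 := by positivity
      calc (g : ℝ) ^ 5 = (g : ℝ) ^ 5 * 1 := by ring
        _ ≤ (g : ℝ) ^ 5 * ((η ^ 2 / 2) ^ 6 * s ^ 2) := by gcongr
        _ = (η ^ 2 / 2 * s ^ 2) ^ 6 := e3.symm
        _ ≤ (yy η g : ℝ) ^ 12 := by rw [← e2]; exact e1
    exact_mod_cast this
  have hexp : Real.exp (1 / 2 * s) ≤ Real.exp (c * s) :=
    Real.exp_le_exp.mpr (mul_le_mul_of_nonneg_right hc hs0.le)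
  have hX : 16 * s ^ 2 ≤ Real.exp (c * s) := h7.trans hexp
  have hxle : (xx c g : ℝ) ≤ Real.exp (c * s) := by
    rw [xx, ← hs]
    exact Nat.floor_le (Real.exp_pos _).le
  have hxlt : Real.exp (c * s) < (xx c g : ℝ) + 1 := by
    rw [xx, ← hs]
    exact Nat.lt_floor_add_one _
  have c11 : g ≤ xx c g := by
    rw [xx, ← hs]
    apply Nat.le_floor
    rw [hg]
    linarith only [hX, sq_nonneg s]
  have c12 : Real.log (2 * (xx c g : ℝ)) ≤ g := by
    have hxpos : (0 : ℝ) < xx c g := by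
      have : 0 < xx c g := by omega
      exact_mod_cast this
    have e1 : Real.log (2 * (xx c g : ℝ)) ≤ Real.log (2 * Real.exp (c * s)) :=
      Real.log_le_log (by positivity) (by linarith)
    rw [Real.log_mul (by norm_num) (Real.exp_pos _).ne', Real.log_exp] at e1
    have e2 := Real.log_two_lt_d9
    have e3 : c * s ≤ 1 * s := mul_le_mul_of_nonneg_right hc1 hs0.le
    rw [hg]
    nlinarith only [e1, e2, e3, h1]
  have c9 : Real.exp ((c - 2 * η) * s) ≤ NN c η g := by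
    by_contra hcon
    rw [not_le] at hcon
    set P : ℕ := primorial (yy η g) with hP
    have hPpos : 0 < P := primorial_pos _
    have hPle : (P : ℝ) ≤ Real.exp (7 / 5 * (η * s)) := NumA_four _ _ hyle
    have hdiv : xx c g / 2 - g < P * (NN c η g + 1) := by
      have e1 := Nat.div_add_mod (xx c g / 2 - g) P
      have e2 := Nat.mod_lt (xx c g / 2 - g) hPpos
      have e3 : NN c η g = (xx c g / 2 - g) / P := rfl
      rw [e3, Nat.mul_add, Nat.mul_one]
      omega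
    have hnat : xx c g ≤ 2 * (P * (NN c η g + 1)) + 2 * g + 1 := by omega
    have hreal : (xx c g : ℝ) ≤ 2 * ((P : ℝ) * ((NN c η g : ℝ) + 1)) + 2 * g + 1 := by
      exact_mod_cast hnat
    have hB : (P : ℝ) * ((NN c η g : ℝ) + 1) ≤
        Real.exp (7 / 5 * (η * s)) * (Real.exp ((c - 2 * η) * s) + 1) := by
      have : (0 : ℝ) ≤ (NN c η g : ℝ) := Nat.cast_nonneg _
      gcongr
    have e1 : Real.exp (7 / 5 * (η * s)) * (Real.exp ((c - 2 * η) * s) + 1) ≤
        Real.exp (c * s) / 4 := by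
      have f1 : Real.exp (7 / 5 * (η * s)) * Real.exp ((c - 2 * η) * s) =
          Real.exp (c * s) * Real.exp (-(3 / 5 * (η * s))) := by
        rw [← Real.exp_add, ← Real.exp_add]
        congr 1
        ring
      have f2 : Real.exp (7 / 5 * (η * s)) =
          Real.exp (c * s) * Real.exp (-(c * s - 7 / 5 * (η * s))) := by
        rw [← Real.exp_add]
        congr 1
        ring
      have f3 : Real.exp (-(3 / 5 * (η * s))) ≤ 1 / 8 := by
        rw [Real.exp_neg, one_div]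
        apply inv_anti₀ (by norm_num)
        have := Real.add_one_le_exp (3 / 5 * (η * s))
        linarith
      have f4 : Real.exp (-(c * s - 7 / 5 * (η * s))) ≤ 1 / 8 := by
        rw [Real.exp_neg, one_div]
        apply inv_anti₀ (by norm_num)
        have := Real.add_one_le_exp (c * s - 7 / 5 * (η * s))
        have g1 : 1 / 2 * s ≤ c * s := mul_le_mul_of_nonneg_right hc hs0.le
        have g2 : η * s ≤ 1 / 10 * s := mul_le_mul_of_nonneg_right hη1 hs0.le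
        linarith only [this, g1, g2, h1]
      have f5 : 0 < Real.exp (c * s) := Real.exp_pos _
      have f6 := mul_le_mul_of_nonneg_left f3 f5.le
      have f7 := mul_le_mul_of_nonneg_left f4 f5.le
      rw [mul_add, mul_one, f1, f2]
      linarith only [f6, f7]
    have hs2 : (400 : ℝ) ≤ s ^ 2 := by nlinarith only [h1]
    rw [hg] at hreal
    linarith
  have c8 : (g ^ 5) ^ R ≤ NN c η g := by
    have e1 : ((g : ℝ) ^ 5) ^ R ≤ (NN c η g : ℝ) := by
      have e2 : ((g : ℝ) ^ 5) ^ R = s ^ (10 * R) := by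
        rw [hg, ← pow_mul, ← pow_mul]
        congr 1
        ring
      rw [e2]
      refine h6.trans (le_trans ?_ c9)
      apply Real.exp_le_exp.mpr
      exact mul_le_mul_of_nonneg_right (by linarith only [hc, hη1]) hs0.le
    exact_mod_cast e1
  have c10 : 2 * g < primorial (yy η g) := by
    have hy8 : 8 ≤ yy η g := by
      have : (8 : ℝ) ≤ yy η g := by linarith
      exact_mod_cast this
    have e1 := NumA_prim (yy η g) hy8
    have e2 : (yy η g : ℝ) ^ 3 ≤ 64 * ((primorial (yy η g) : ℕ) : ℝ) := by exact_mod_cast e1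
    have e3 : 64 * (2 * (g : ℝ)) < (yy η g : ℝ) ^ 3 := by
      have f1 : 64 * (2 * (g : ℝ)) ≤ 256 / η ^ 2 * (yy η g : ℝ) ^ 2 := by
        have : 256 / η ^ 2 * (yy η g : ℝ) ^ 2 = 128 * (2 / η ^ 2 * (yy η g : ℝ) ^ 2) := by ring
        rw [this]
        linarith
      have f2 : 256 / η ^ 2 < (yy η g : ℝ) := by
        refine lt_of_lt_of_le ?_ hybig
        gcongr
        norm_num
      calc 64 * (2 * (g : ℝ)) ≤ 256 / η ^ 2 * (yy η g : ℝ) ^ 2 := f1
        _ < (yy η g : ℝ) * (yy η g : ℝ) ^ 2 := by gcongr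
        _ = (yy η g : ℝ) ^ 3 := by ring
    have e4 : 2 * (g : ℝ) < ((primorial (yy η g) : ℕ) : ℝ) := by linarith
    exact_mod_cast e4
  rw [← hs]
  exact ⟨c1, c2, c3, c4, c5, c6, c7, c8, c9, c10, c11, c12⟩

/-- The parameters `x`, `y`, `N`. -/
theorem tNumA : NumAStmt := by
  intro c η hc hc1 hη hη1 R y0
  have hsq : Tendsto (fun g : ℕ => √(g : ℝ)) atTop atTop :=
    Real.tendsto_sqrt_atTop.comp tendsto_natCast_atTop_atTop
  have t1 : ∀ᶠ s : ℝ in atTop, 20 ≤ s := eventually_ge_atTop 20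
  have tη : Tendsto (fun s : ℝ => η * s) atTop atTop := tendsto_id.const_mul_atTop hη
  have t2 : ∀ᶠ s : ℝ in atTop, (y0 : ℝ) ≤ η * s := tη.eventually_ge_atTop _
  have t3 : ∀ᶠ s : ℝ in atTop, 260 / η ^ 2 + 40 ≤ η * s := tη.eventually_ge_atTop _
  have t4 : ∀ᶠ s : ℝ in atTop, (2 / η ^ 2) ^ 6 ≤ s ^ 2 :=
    (tendsto_pow_atTop (by norm_num : (2 : ℕ) ≠ 0)).eventually_ge_atTop _
  have t6 : ∀ᶠ s : ℝ in atTop, s ^ (10 * R) ≤ Real.exp (3 / 10 * s) := by
    have := (isLittleO_pow_exp_pos_mul_atTop (k := 10 * R) (b := 3 / 10) (by norm_num)).bound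
      (c := 1) one_pos
    filter_upwards [this, eventually_ge_atTop (0 : ℝ)] with s hs hs0
    rw [Real.norm_of_nonneg (by positivity), Real.norm_of_nonneg (Real.exp_pos _).le, one_mul] at hs
    exact hs
  have t7 : ∀ᶠ s : ℝ in atTop, 16 * s ^ 2 ≤ Real.exp (1 / 2 * s) := by
    have := (isLittleO_pow_exp_pos_mul_atTop (k := 2) (b := 1 / 2) (by norm_num)).bound
      (c := 1 / 16) (by norm_num)
    filter_upwards [this, eventually_ge_atTop (0 : ℝ)] with s hs hs0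
    rw [Real.norm_of_nonneg (by positivity), Real.norm_of_nonneg (Real.exp_pos _).le] at hs
    linarith
  have hall := hsq.eventually (t1.and (t2.and (t3.and (t4.and (t6.and t7)))))
  obtain ⟨g0, hg0⟩ := eventually_atTop.mp hall
  refine ⟨g0, fun g hg => ?_⟩
  obtain ⟨a1, a2, a3, a4, a5, a6⟩ := hg0 g hg
  exact NumA_main c η hc hc1 hη hη1 R y0 g _ rfl a1 a2 a3 a4 a5 a6

end Pool.Agent.Lib.SHK
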