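import Pool.Agent.Lib.SHK.Spec

/-! MP_9a4459_nt, SHK, module Bad: the number of bad primes -/

set_option autoImplicit false

namespace Pool.Agent.Lib.SHK

open Finset Filter Topology
open scoped Classical

/-- primes `> w` dividing `D` -/
private theorem Bad_div (w Z D : ℕ) (hw : 2 ≤ w) (hD : 0 < D) :
    (((pr w Z).filter (fun p => p ∣ D)).card : ℝ) * Real.log w ≤ Real.log D := by
  set S := (pr w Z).filter (fun p => p ∣ D) with hS
  have h1 : ∏ p ∈ S, p ∣ D := by
    refine Finset.prod_primes_dvd D ?_ ?_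
    · intro p hp
      exact (mem_pr.1 (mem_filter.1 hp).1).2.2.prime
    · intro p hp
      exact (mem_filter.1 hp).2
  have h2 : w ^ S.card ≤ ∏ p ∈ S, p := by
    rw [← Finset.prod_const]
    refine Finset.prod_le_prod (fun _ _ => Nat.zero_le _) ?_
    intro p hp
    exact (mem_pr.1 (mem_filter.1 hp).1).1.le
  have h3 : w ^ S.card ≤ D := h2.trans (Nat.le_of_dvd hD h1)
  have h4 : ((w : ℝ)) ^ S.card ≤ (D : ℝ) := by exact_mod_cast h3
  have hw0 : (0 : ℝ) < w := by
    have : 0 < w := by omega
    exact_mod_cast this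
  have h5 := Real.log_le_log (pow_pos hw0 _) h4
  rwa [Real.log_pow] at h5

private theorem Bad_main (w Z g n n' X : ℕ) (hw : 2 ≤ w) (hn' : n' ≤ X) (hg : g ≤ X)
    (h : n + g < n') :
    ((bad w Z g n n').card : ℝ) * Real.log w ≤ (2 * (g : ℝ) + 1) * Real.log (2 * X) := by
  have hsub : bad w Z g n n' ⊆ (range (2 * g + 1)).biUnion
      (fun s => (pr w Z).filter (fun p => p ∣ (n' - n - g + s))) := by
    intro p hp
    unfold bad at hp
    simp only [mem_filter] at hp
    obtain ⟨h1, i, hi, i', hi', h2⟩ := hp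
    rw [mem_Icc] at hi hi'
    have h3 : p ∣ (n' + i') - (n + i) :=
      (Nat.modEq_iff_dvd' (by omega)).1 h2
    rw [mem_biUnion]
    refine ⟨g + i' - i, ?_, mem_filter.2 ⟨h1, ?_⟩⟩
    · rw [mem_range]
      omega
    · have h4 : n' - n - g + (g + i' - i) = (n' + i') - (n + i) := by omega
      rw [h4]
      exact h3
  have hlw : 0 ≤ Real.log w := Real.log_natCast_nonneg w
  have h1 : ((bad w Z g n n').card : ℝ) ≤ ∑ s ∈ range (2 * g + 1),
      (((pr w Z).filter (fun p => p ∣ (n' - n - g + s))).card : ℝ) := by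
    have h2 := (card_le_card hsub).trans card_biUnion_le
    exact_mod_cast h2
  have h2 : ∀ s ∈ range (2 * g + 1),
      (((pr w Z).filter (fun p => p ∣ (n' - n - g + s))).card : ℝ) * Real.log w ≤
        Real.log (2 * X) := by
    intro s hs
    rw [mem_range] at hs
    have h3 : 0 < n' - n - g + s := by omega
    refine (Bad_div w Z _ hw h3).trans (Real.log_le_log (by exact_mod_cast h3) ?_)
    have h4 : n' - n - g + s ≤ 2 * X := by omega
    exact_mod_cast h4
  calc ((bad w Z g n n').card : ℝ) * Real.log w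
      ≤ (∑ s ∈ range (2 * g + 1),
      (((pr w Z).filter (fun p => p ∣ (n' - n - g + s))).card : ℝ)) * Real.log w :=
        mul_le_mul_of_nonneg_right h1 hlw
    _ = ∑ s ∈ range (2 * g + 1),
      (((pr w Z).filter (fun p => p ∣ (n' - n - g + s))).card : ℝ) * Real.log w := by
        rw [sum_mul]
    _ ≤ ∑ _s ∈ range (2 * g + 1), Real.log (2 * X) := sum_le_sum h2
    _ = (2 * (g : ℝ) + 1) * Real.log (2 * X) := by
        rw [sum_const, card_range, nsmul_eq_mul]
        push_cast
        ring

/-- the number of bad primes -/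
theorem tBad : BadStmt := by
  intro w Z g n n' X hw hn hn' hg h
  rcases h with h | h
  · exact Bad_main w Z g n n' X hw hn' hg h
  · have e : bad w Z g n n' = bad w Z g n' n := by
      ext p
      simp only [bad, mem_filter]
      constructor
      · rintro ⟨h1, i, hi, i', hi', h2⟩
        exact ⟨h1, i', hi', i, hi, h2.symm⟩
      · rintro ⟨h1, i, hi, i', hi', h2⟩
        exact ⟨h1, i', hi', i, hi, h2.symm⟩
    rw [e]
    exact Bad_main w Z g n' n X hw hn hg h

end Pool.Agent.Lib.SHK
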