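import Pool.Agent.Lib.SHK.Spec

/-! MP_9a4459_nt, Lib/SHK, module Bon: Bonferroni inequalities for residue classes. -/

set_option autoImplicit false

namespace Pool.Agent.Lib.SHK

open Finset Filter Topology
open scoped Classical

/-- the elementary symmetric functions -/
private noncomputable def Bon_es (x : ℕ → ℝ) (Q : Finset ℕ) (j : ℕ) : ℝ :=
  ∑ D ∈ Q.powersetCard j, ∏ p ∈ D, x p

private lemma Bon_es_zero (x : ℕ → ℝ) (Q : Finset ℕ) : Bon_es x Q 0 = 1 := by
  unfold Bon_es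
  rw [powersetCard_zero, sum_singleton, prod_empty]

private lemma Bon_es_empty (x : ℕ → ℝ) (j : ℕ) : Bon_es x ∅ (j + 1) = 0 := by
  unfold Bon_es
  rw [powersetCard_eq_empty.2 (by rw [card_empty]; omega), sum_empty]

private lemma Bon_es_insert (x : ℕ → ℝ) {Q : Finset ℕ} {p : ℕ} (hp : p ∉ Q) (j : ℕ) :
    Bon_es x (insert p Q) (j + 1) = Bon_es x Q (j + 1) + x p * Bon_es x Q j := by
  unfold Bon_es
  rw [powersetCard_succ_insert hp, sum_union, sum_image, mul_sum]
  · congr 1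
    refine sum_congr rfl fun D hD => ?_
    rw [prod_insert fun h => hp ((mem_powersetCard.1 hD).1 h)]
  · intro D hD D' hD' h
    have h1 : p ∉ D := fun h2 => hp ((mem_powersetCard.1 hD).1 h2)
    have h2 : p ∉ D' := fun h2 => hp ((mem_powersetCard.1 hD').1 h2)
    rw [← erase_insert h1, ← erase_insert h2]
    exact congrArg (fun s => s.erase p) h
  · rw [disjoint_left]
    intro D hD hD'
    obtain ⟨D', -, rfl⟩ := mem_image.1 hD'
    exact hp ((mem_powersetCard.1 hD).1 (mem_insert_self _ _))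

private lemma Bon_es_nonneg {x : ℕ → ℝ} {Q : Finset ℕ} (hx : ∀ p ∈ Q, 0 ≤ x p) (j : ℕ) :
    0 ≤ Bon_es x Q j :=
  sum_nonneg fun _ hD => prod_nonneg fun p hp => hx p ((mem_powersetCard.1 hD).1 hp)

/-- the Bonferroni inequality -/
private lemma Bon_alt {x : ℕ → ℝ} (Q : Finset ℕ) (hx : ∀ p ∈ Q, 0 ≤ x p ∧ x p ≤ 1) (R : ℕ) :
    |∏ p ∈ Q, (1 - x p) - ∑ j ∈ range R, (-1) ^ j * Bon_es x Q j| ≤ Bon_es x Q R := by
  induction Q using Finset.induction_on generalizing R with
  | empty =>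
    rw [prod_empty]
    cases R with
    | zero => simp [Bon_es_zero]
    | succ R =>
      rw [sum_range_succ', Bon_es_zero, Bon_es_empty]
      have h1 : ∑ k ∈ range R, (-1 : ℝ) ^ (k + 1) * Bon_es x ∅ (k + 1) = 0 :=
        sum_eq_zero fun k _ => by rw [Bon_es_empty, mul_zero]
      rw [h1]
      simp
  | insert p Q hp ih =>
    have hxQ : ∀ q ∈ Q, 0 ≤ x q ∧ x q ≤ 1 := fun q hq => hx q (mem_insert_of_mem hq)
    obtain ⟨hp0, hp1⟩ := hx p (mem_insert_self _ _)
    have ih' := ih hxQ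
    cases R with
    | zero =>
      rw [range_zero, sum_empty, sub_zero, Bon_es_zero, abs_of_nonneg]
      · exact prod_le_one (fun q hq => by linarith [(hx q hq).2]) fun q hq => by
          linarith [(hx q hq).1]
      · exact prod_nonneg fun q hq => by linarith [(hx q hq).2]
    | succ R =>
      rw [prod_insert hp, Bon_es_insert x hp]
      have h1 : ∑ j ∈ range (R + 1), (-1 : ℝ) ^ j * Bon_es x (insert p Q) j =
          ∑ j ∈ range (R + 1), (-1 : ℝ) ^ j * Bon_es x Q j -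
            x p * ∑ j ∈ range R, (-1 : ℝ) ^ j * Bon_es x Q j := by
        rw [sum_range_succ', sum_range_succ', Bon_es_zero, Bon_es_zero, mul_sum]
        have h2 : ∑ k ∈ range R, (-1 : ℝ) ^ (k + 1) * Bon_es x (insert p Q) (k + 1) =
            ∑ k ∈ range R, (-1 : ℝ) ^ (k + 1) * Bon_es x Q (k + 1) -
              ∑ k ∈ range R, x p * ((-1 : ℝ) ^ k * Bon_es x Q k) := by
          rw [← sum_sub_distrib]
          refine sum_congr rfl fun k _ => ?_
          rw [Bon_es_insert x hp]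
          ring
        rw [h2]
        ring
      rw [h1]
      have h3 : (1 - x p) * ∏ q ∈ Q, (1 - x q) -
          (∑ j ∈ range (R + 1), (-1 : ℝ) ^ j * Bon_es x Q j -
            x p * ∑ j ∈ range R, (-1 : ℝ) ^ j * Bon_es x Q j) =
          (∏ q ∈ Q, (1 - x q) - ∑ j ∈ range (R + 1), (-1 : ℝ) ^ j * Bon_es x Q j) -
            x p * (∏ q ∈ Q, (1 - x q) - ∑ j ∈ range R, (-1 : ℝ) ^ j * Bon_es x Q j) := by ring
      rw [h3]
      refine (abs_sub _ _).trans ?_
      rw [abs_mul, abs_of_nonneg hp0]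
      exact add_le_add (ih' (R + 1)) (mul_le_mul_of_nonneg_left (ih' R) hp0)

private lemma Bon_bern {s x : ℝ} (hs : 0 ≤ s) (hx : 0 ≤ x) (j : ℕ) :
    s ^ (j + 1) + (j + 1) * (x * s ^ j) ≤ (x + s) ^ (j + 1) := by
  induction j with
  | zero =>
    simp
    linarith
  | succ j ih =>
    have h1 := mul_le_mul_of_nonneg_left ih (by linarith : 0 ≤ x + s)
    have h2 : (x + s) ^ (j + 1 + 1) = (x + s) * (x + s) ^ (j + 1) := by ring
    rw [h2]
    refine le_trans ?_ h1
    push_cast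
    have h3 : 0 ≤ x * x * s ^ j := by positivity
    have h4 : 0 ≤ (j : ℝ) * (x * x * s ^ j) := by positivity
    have h5 : (x + s) * (s ^ (j + 1) + ((j : ℝ) + 1) * (x * s ^ j)) =
        s ^ (j + 1 + 1) + ((j : ℝ) + 1 + 1) * (x * s ^ (j + 1)) + (j : ℝ) * (x * x * s ^ j) +
          x * x * s ^ j := by ring
    rw [h5]
    linarith

/-- the bound of the elementary symmetric functions -/
private lemma Bon_es_le {x : ℕ → ℝ} (Q : Finset ℕ) (hx : ∀ p ∈ Q, 0 ≤ x p) (j : ℕ) :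
    Bon_es x Q j ≤ (∑ p ∈ Q, x p) ^ j / (j.factorial : ℝ) := by
  induction Q using Finset.induction_on generalizing j with
  | empty =>
    cases j with
    | zero => simp [Bon_es_zero]
    | succ j =>
      rw [Bon_es_empty, sum_empty]
      positivity
  | insert p Q hp ih =>
    have hxQ : ∀ q ∈ Q, 0 ≤ x q := fun q hq => hx q (mem_insert_of_mem hq)
    have hp0 := hx p (mem_insert_self _ _)
    have hs : 0 ≤ ∑ q ∈ Q, x q := sum_nonneg hxQ
    cases j with
    | zero => simp [Bon_es_zero]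
    | succ j =>
      rw [Bon_es_insert x hp, sum_insert hp]
      have h1 := ih hxQ (j + 1)
      have h2 := mul_le_mul_of_nonneg_left (ih hxQ j) hp0
      refine (add_le_add h1 h2).trans ?_
      have hf : (0 : ℝ) < (j + 1).factorial := by positivity
      have hf' : (0 : ℝ) < j.factorial := by positivity
      have hff : ((j + 1).factorial : ℝ) = ((j : ℝ) + 1) * j.factorial := by
        rw [Nat.factorial_succ]
        push_cast
        ring
      have h3 : (∑ q ∈ Q, x q) ^ (j + 1) / ((j + 1).factorial : ℝ) +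
          x p * ((∑ q ∈ Q, x q) ^ j / (j.factorial : ℝ)) =
          ((∑ q ∈ Q, x q) ^ (j + 1) + ((j : ℝ) + 1) * (x p * (∑ q ∈ Q, x q) ^ j)) /
            ((j + 1).factorial : ℝ) := by
        rw [hff]
        field_simp
      rw [h3]
      exact div_le_div_of_nonneg_right (Bon_bern hs hp0 j) hf.le

/-! ### the Chinese remainder theorem -/

private lemma Bon_crt {p m : ℕ} (hpm : p.Coprime m) (hp : 0 < p) (hm : 0 < m) (A B : Finset ℕ)
    (hA : A ⊆ range p) (hB : B ⊆ range m) :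
    ((range (p * m)).filter (fun t => t % p ∈ A ∧ t % m ∈ B)).card = A.card * B.card := by
  rw [← card_product]
  refine card_bij' (fun t _ => (t % p, t % m))
    (fun w _ => (Nat.chineseRemainder hpm w.1 w.2 : ℕ)) ?_ ?_ ?_ ?_
  · intro t ht
    exact mem_product.2 (mem_filter.1 ht).2
  · intro w hw
    obtain ⟨h1, h2⟩ := mem_product.1 hw
    obtain ⟨h3, h4⟩ := (Nat.chineseRemainder hpm w.1 w.2).2
    refine mem_filter.2 ⟨mem_range.2 (Nat.chineseRemainder_lt_mul hpm _ _ hp.ne' hm.ne'), ?_, ?_⟩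
    · rw [h3.trans (Nat.ModEq.refl _) |> fun h => (show _ % p = _ % p from h),
        Nat.mod_eq_of_lt (mem_range.1 (hA h1))]
      exact h1
    · rw [(show _ % m = _ % m from h4), Nat.mod_eq_of_lt (mem_range.1 (hB h2))]
      exact h2
  · intro t ht
    have h1 := mem_range.1 (mem_filter.1 ht).1
    have h2 : t ≡ Nat.chineseRemainder hpm (t % p) (t % m) [MOD p * m] :=
      Nat.chineseRemainder_modEq_unique hpm (Nat.mod_modEq t p).symm (Nat.mod_modEq t m).symm
    exact (Nat.ModEq.eq_of_lt_of_lt h2 h1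
      (Nat.chineseRemainder_lt_mul hpm _ _ hp.ne' hm.ne')).symm
  · intro w hw
    obtain ⟨h1, h2⟩ := mem_product.1 hw
    obtain ⟨h3, h4⟩ := (Nat.chineseRemainder hpm w.1 w.2).2
    refine Prod.ext ?_ ?_
    · exact (show _ % p = _ % p from h3).trans (Nat.mod_eq_of_lt (mem_range.1 (hA h1)))
    · exact (show _ % m = _ % m from h4).trans (Nat.mod_eq_of_lt (mem_range.1 (hB h2)))

/-- the classes modulo the product -/
private noncomputable def Bon_C (Om : ℕ → Finset ℕ) (D : Finset ℕ) : Finset ℕ :=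
  (range (∏ p ∈ D, p)).filter (fun c => ∀ p ∈ D, c % p ∈ Om p)

private lemma Bon_C_card (Om : ℕ → Finset ℕ) (D : Finset ℕ)
    (hD : ∀ p ∈ D, p.Prime ∧ Om p ⊆ range p) : (Bon_C Om D).card = ∏ p ∈ D, (Om p).card := by
  induction D using Finset.induction_on with
  | empty => simp [Bon_C]
  | insert p D hp ih =>
    have hD' : ∀ q ∈ D, q.Prime ∧ Om q ⊆ range q := fun q hq => hD q (mem_insert_of_mem hq)
    obtain ⟨hp1, hp2⟩ := hD p (mem_insert_self _ _)
    have hm : 0 < ∏ q ∈ D, q := prod_pos fun q hq => (hD' q hq).1.pos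
    have hco : p.Coprime (∏ q ∈ D, q) := Nat.Coprime.prod_right fun q hq =>
      (Nat.coprime_primes hp1 (hD' q hq).1).2 fun h => hp (h ▸ hq)
    rw [prod_insert hp, ← ih hD', ← Bon_crt hco hp1.pos hm (Om p) (Bon_C Om D) hp2
      (filter_subset _ _)]
    congr 1
    unfold Bon_C
    rw [prod_insert hp]
    refine filter_congr fun c _ => ?_
    rw [forall_mem_insert, mem_filter, mem_range]
    constructor
    · rintro ⟨h1, h2⟩
      refine ⟨h1, Nat.mod_lt _ hm, fun q hq => ?_⟩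
      rw [Nat.mod_mod_of_dvd _ (dvd_prod_of_mem _ hq)]
      exact h2 q hq
    · rintro ⟨h1, -, h2⟩
      refine ⟨h1, fun q hq => ?_⟩
      have h3 := h2 q hq
      rwa [Nat.mod_mod_of_dvd _ (dvd_prod_of_mem _ hq)] at h3

/-- the number of t < N in a class -/
private lemma Bon_one (m c N : ℕ) (hm : 0 < m) (hc : c < m) :
    |(((range N).filter (fun t => t % m = c)).card : ℝ) - N / m| ≤ 1 := by
  have h1 : ((range N).filter (fun t => t % m = c)).card =
      N / m + if c % m < N % m then 1 else 0 := by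
    rw [← Nat.count_modEq_card N hm c, Nat.count_eq_card_filter_range]
    congr 1
    refine filter_congr fun t _ => ?_
    unfold Nat.ModEq
    rw [Nat.mod_eq_of_lt hc]
  rw [h1]
  have hmR : (0 : ℝ) < m := by exact_mod_cast hm
  have h2 : ((N / m : ℕ) : ℝ) ≤ (N : ℝ) / m := Nat.cast_div_le
  have h3 : (N : ℝ) / m < (N / m : ℕ) + 1 := by
    rw [div_lt_iff₀ hmR]
    have h4 : N < (N / m + 1) * m := by
      have := Nat.lt_div_mul_add (a := N) hm
      rw [add_mul, one_mul]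
      exact this
    exact_mod_cast h4
  push_cast
  rw [abs_le]
  split_ifs
  · constructor
    · linarith
    · linarith
  · constructor
    · linarith
    · linarith

/-- the number of t < N which lie in the given classes for all p in D -/
private lemma Bon_N (Om : ℕ → Finset ℕ) (D : Finset ℕ) (N : ℕ)
    (hD : ∀ p ∈ D, p.Prime ∧ Om p ⊆ range p) :
    |(((range N).filter (fun t => ∀ p ∈ D, t % p ∈ Om p)).card : ℝ) -
      N * ∏ p ∈ D, ((Om p).card : ℝ) / p| ≤ ∏ p ∈ D, ((Om p).card : ℝ) := by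
  have hm : 0 < ∏ p ∈ D, p := prod_pos fun q hq => (hD q hq).1.pos
  set m := ∏ p ∈ D, p with hmdef
  have h1 : ((range N).filter (fun t => ∀ p ∈ D, t % p ∈ Om p)).card =
      ∑ c ∈ Bon_C Om D, ((range N).filter (fun t => t % m = c)).card := by
    rw [card_eq_sum_card_fiberwise (f := fun t => t % m) (t := Bon_C Om D)]
    · refine sum_congr rfl fun c hc => ?_
      congr 1
      ext t
      rw [mem_filter, mem_filter, mem_filter]
      constructor
      · rintro ⟨⟨a1, -⟩, a3⟩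
        exact ⟨a1, a3⟩
      · rintro ⟨a1, a3⟩
        refine ⟨⟨a1, fun p hp => ?_⟩, a3⟩
        have a4 := (mem_filter.1 hc).2 p hp
        rw [← a3, Nat.mod_mod_of_dvd _ (dvd_prod_of_mem _ hp)] at a4
        exact a4
    · intro t ht
      have ht' := (mem_filter.1 (mem_coe.1 ht)).2
      refine mem_coe.2 (mem_filter.2 ⟨mem_range.2 (Nat.mod_lt _ hm), fun p hp => ?_⟩)
      rw [Nat.mod_mod_of_dvd _ (dvd_prod_of_mem _ hp)]
      exact ht' p hp
  have h2 : (N : ℝ) * ∏ p ∈ D, ((Om p).card : ℝ) / p =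
      ∑ _c ∈ Bon_C Om D, (N : ℝ) / m := by
    rw [sum_const, Bon_C_card Om D hD, prod_div_distrib, nsmul_eq_mul, hmdef]
    push_cast
    ring
  rw [h1, h2]
  push_cast
  rw [← sum_sub_distrib]
  refine (abs_sum_le_sum_abs _ _).trans ?_
  have h3 : ∀ c ∈ Bon_C Om D,
      |(((range N).filter (fun t => t % m = c)).card : ℝ) - (N : ℝ) / m| ≤ 1 :=
    fun c hc => Bon_one m c N hm (mem_range.1 (mem_filter.1 hc).1)
  refine (sum_le_sum h3).trans ?_
  rw [sum_const, Bon_C_card Om D hD, nsmul_eq_mul, mul_one]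
  push_cast
  exact le_rfl

private lemma Bon_sum {om : ℕ → ℝ} (Q : Finset ℕ) (hom0 : ∀ p ∈ Q, 0 ≤ om p) (R : ℕ) :
    ∑ j ∈ range (R + 1), Bon_es om Q j ≤ (1 + ∑ p ∈ Q, om p) ^ R := by
  rw [add_comm 1 (∑ p ∈ Q, om p), add_pow]
  refine sum_le_sum fun j hj => ?_
  rw [one_pow, mul_one]
  refine (Bon_es_le Q hom0 j).trans ?_
  have hs0 : 0 ≤ ∑ p ∈ Q, om p := sum_nonneg hom0
  have c1 : (1 : ℝ) ≤ (j.factorial : ℝ) := by
    have : 1 ≤ j.factorial := Nat.factorial_pos j
    exact_mod_cast this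
  have c2 : (1 : ℝ) ≤ (R.choose j : ℝ) := by
    have : 1 ≤ R.choose j := Nat.choose_pos (Nat.lt_succ_iff.1 (mem_range.1 hj))
    exact_mod_cast this
  have c3 : 0 ≤ (∑ p ∈ Q, om p) ^ j := pow_nonneg hs0 j
  calc (∑ p ∈ Q, om p) ^ j / (j.factorial : ℝ) ≤ (∑ p ∈ Q, om p) ^ j := div_le_self c3 c1
    _ ≤ (∑ p ∈ Q, om p) ^ j * (R.choose j : ℝ) := le_mul_of_one_le_right c3 c2

private lemma Bon_fin {A P S T U V W W' Y Z : ℝ} (h1 : |A - S| ≤ U) (h2 : |S - T| ≤ V)
    (h3 : |P - T| ≤ W) (h4 : U ≤ W + Y) (h5 : V + Y ≤ Z) (h6 : W ≤ W') :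
    |A - P| ≤ 2 * W' + Z := by
  rw [abs_le] at *
  constructor
  · linarith [h1.1, h2.1, h3.2]
  · linarith [h1.2, h2.2, h3.1]

theorem tBon : BonStmt := by
  intro Q Om R N hQ
  set x : ℕ → ℝ := fun p => ((Om p).card : ℝ) / p with hx
  set om : ℕ → ℝ := fun p => ((Om p).card : ℝ) with hom
  have hx01 : ∀ p ∈ Q, 0 ≤ x p ∧ x p ≤ 1 := by
    intro p hp
    obtain ⟨h1, h2⟩ := hQ p hp
    have h3 : (0 : ℝ) < p := by exact_mod_cast h1.pos
    refine ⟨by positivity, ?_⟩
    change ((Om p).card : ℝ) / p ≤ 1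
    rw [div_le_one h3]
    have h4 := card_le_card h2
    rw [card_range] at h4
    exact_mod_cast h4
  have hom0 : ∀ p ∈ Q, 0 ≤ om p := fun p _ => Nat.cast_nonneg _
  -- indicator functions
  set X : ℕ → ℕ → ℝ := fun t p => if t % p ∈ Om p then 1 else 0 with hX
  have hX01 : ∀ t, ∀ p ∈ Q, 0 ≤ X t p ∧ X t p ≤ 1 := by
    intro t p _
    change 0 ≤ (if t % p ∈ Om p then (1 : ℝ) else 0) ∧ (if t % p ∈ Om p then (1 : ℝ) else 0) ≤ 1
    split_ifs
    · exact ⟨zero_le_one, le_rfl⟩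
    · exact ⟨le_rfl, zero_le_one⟩
  set ND : Finset ℕ → ℝ :=
    fun D => (((range N).filter (fun t => ∀ p ∈ D, t % p ∈ Om p)).card : ℝ) with hND
  have hNDs : ∀ D : Finset ℕ, ∑ t ∈ range N, ∏ p ∈ D, X t p = ND D := by
    intro D
    change _ = (((range N).filter (fun t => ∀ p ∈ D, t % p ∈ Om p)).card : ℝ)
    rw [card_filter]
    push_cast
    refine sum_congr rfl fun t _ => ?_
    by_cases h : ∀ p ∈ D, t % p ∈ Om p
    · rw [if_pos h]
      exact prod_eq_one fun p hp => if_pos (h p hp)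
    · rw [if_neg h]
      push Not at h
      obtain ⟨p, hp, hp'⟩ := h
      exact prod_eq_zero hp (if_neg hp')
  have hA : (((range N).filter (fun t => ∀ p ∈ Q, t % p ∉ Om p)).card : ℝ) =
      ∑ t ∈ range N, ∏ p ∈ Q, (1 - X t p) := by
    rw [card_filter]
    push_cast
    refine sum_congr rfl fun t _ => ?_
    by_cases h : ∀ p ∈ Q, t % p ∉ Om p
    · rw [if_pos h]
      refine (prod_eq_one fun p hp => ?_).symm
      change 1 - (if t % p ∈ Om p then (1 : ℝ) else 0) = 1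
      rw [if_neg (h p hp), sub_zero]
    · rw [if_neg h]
      push Not at h
      obtain ⟨p, hp, hp'⟩ := h
      refine (prod_eq_zero hp ?_).symm
      change 1 - (if t % p ∈ Om p then (1 : ℝ) else 0) = 0
      rw [if_pos hp', sub_self]
  have hsumes : ∀ j, ∑ t ∈ range N, Bon_es (X t) Q j = ∑ D ∈ Q.powersetCard j, ND D := by
    intro j
    unfold Bon_es
    rw [sum_comm]
    exact sum_congr rfl fun D _ => hNDs D
  -- the first step
  have s1 : |(((range N).filter (fun t => ∀ p ∈ Q, t % p ∉ Om p)).card : ℝ) -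
      ∑ j ∈ range R, (-1) ^ j * ∑ D ∈ Q.powersetCard j, ND D| ≤
      ∑ D ∈ Q.powersetCard R, ND D := by
    have a1 : ∑ j ∈ range R, (-1 : ℝ) ^ j * ∑ D ∈ Q.powersetCard j, ND D =
        ∑ t ∈ range N, ∑ j ∈ range R, (-1 : ℝ) ^ j * Bon_es (X t) Q j := by
      rw [sum_comm]
      refine sum_congr rfl fun j _ => ?_
      rw [← hsumes, mul_sum]
    rw [hA, a1, ← sum_sub_distrib, ← hsumes]
    exact (abs_sum_le_sum_abs _ _).trans (sum_le_sum fun t _ => Bon_alt Q (hX01 t) R)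
  -- the numbers ND
  have s2 : ∀ j, ∀ D ∈ Q.powersetCard j, |ND D - N * ∏ p ∈ D, x p| ≤ ∏ p ∈ D, om p := by
    intro j D hD
    exact Bon_N Om D N fun p hp => hQ p ((mem_powersetCard.1 hD).1 hp)
  have s3 : ∀ j, |∑ D ∈ Q.powersetCard j, ND D - N * Bon_es x Q j| ≤ Bon_es om Q j := by
    intro j
    unfold Bon_es
    rw [mul_sum, ← sum_sub_distrib]
    exact (abs_sum_le_sum_abs _ _).trans (sum_le_sum fun D hD => s2 j D hD)
  have s4 : |∑ j ∈ range R, (-1 : ℝ) ^ j * ∑ D ∈ Q.powersetCard j, ND D -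
      N * ∑ j ∈ range R, (-1 : ℝ) ^ j * Bon_es x Q j| ≤ ∑ j ∈ range R, Bon_es om Q j := by
    rw [mul_sum, ← sum_sub_distrib]
    refine (abs_sum_le_sum_abs _ _).trans (sum_le_sum fun j _ => ?_)
    have b1 : (-1 : ℝ) ^ j * ∑ D ∈ Q.powersetCard j, ND D - N * ((-1 : ℝ) ^ j * Bon_es x Q j) =
        (-1 : ℝ) ^ j * (∑ D ∈ Q.powersetCard j, ND D - N * Bon_es x Q j) := by ring
    rw [b1, abs_mul, abs_pow, abs_neg, abs_one, one_pow, one_mul]
    exact s3 j
  have s5 : |(N : ℝ) * ∏ p ∈ Q, (1 - x p) - N * ∑ j ∈ range R, (-1 : ℝ) ^ j * Bon_es x Q j| ≤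
      N * Bon_es x Q R := by
    rw [← mul_sub, abs_mul, Nat.abs_cast]
    exact mul_le_mul_of_nonneg_left (Bon_alt Q hx01 R) (Nat.cast_nonneg _)
  have s6 : ∑ D ∈ Q.powersetCard R, ND D ≤ N * Bon_es x Q R + Bon_es om Q R := by
    have := (abs_le.1 (s3 R)).2
    linarith
  -- the sums
  have s7 : Bon_es x Q R ≤ (∑ p ∈ Q, x p) ^ R / (R.factorial : ℝ) :=
    Bon_es_le Q (fun p hp => (hx01 p hp).1) R
  have hs0 : 0 ≤ ∑ p ∈ Q, om p := sum_nonneg hom0
  have s8 := Bon_sum Q hom0 R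
  rw [sum_range_succ] at s8
  have s9 : (N : ℝ) * Bon_es x Q R ≤ N * ((∑ p ∈ Q, x p) ^ R / (R.factorial : ℝ)) :=
    mul_le_mul_of_nonneg_left s7 (Nat.cast_nonneg _)
  have hfin := Bon_fin s1 s4 s5 s6 s8 s9
  rw [← mul_assoc] at hfin
  exact hfin

end Pool.Agent.Lib.SHK
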