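import Pool.Agent.Lib.SHK.Spec

/-! MP_9a4459_nt, directory Lib/SHK, module Che: the second moment inequality (Chebyshev). -/

set_option autoImplicit false

namespace Pool.Agent.Lib.SHK

open Finset Filter Topology

open scoped Classical

private theorem Che_sq (Q M : Finset ℕ) (A : ℕ → (ℕ → ℕ) → Prop) :
    E Q (fun a => (∑ n ∈ M, ind (A n a)) ^ 2) =
      ∑ n ∈ M, ∑ n' ∈ M, E Q (fun a => ind (A n a ∧ A n' a)) := by
  have h : (fun a : ℕ → ℕ => (∑ n ∈ M, ind (A n a)) ^ 2) =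
      fun a => ∑ n ∈ M, ∑ n' ∈ M, ind (A n a ∧ A n' a) := by
    funext a
    rw [sq, sum_mul_sum]
    exact sum_congr rfl fun n _ => sum_congr rfl fun n' _ => (ind_and _ _).symm
  rw [h, E_sum Q M (fun n a => ∑ n' ∈ M, ind (A n a ∧ A n' a))]
  exact sum_congr rfl fun n _ => E_sum Q M (fun n' a => ind (A n a ∧ A n' a))

private theorem Che_bd (Q M : Finset ℕ) (A : ℕ → (ℕ → ℕ) → Prop) (ρ : ℝ) (hρ : 0 ≤ ρ)
    (h : ∀ n ∈ M, ∀ n' ∈ M, n ≠ n' → E Q (fun a => ind (A n a ∧ A n' a)) ≤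
      (1 + ρ) * (E Q (fun a => ind (A n a)) * E Q (fun a => ind (A n' a)))) :
    E Q (fun a => (∑ n ∈ M, ind (A n a)) ^ 2) ≤ (∑ n ∈ M, E Q (fun a => ind (A n a))) +
      (1 + ρ) * (∑ n ∈ M, E Q (fun a => ind (A n a))) ^ 2 := by
  rw [Che_sq]
  have hp : ∀ n, 0 ≤ E Q (fun a => ind (A n a)) := fun n => E_nonneg fun a _ => ind_nonneg _
  have h1 : ∀ n ∈ M, ∑ n' ∈ M, E Q (fun a => ind (A n a ∧ A n' a)) ≤
      E Q (fun a => ind (A n a)) + ∑ n' ∈ M,
        (1 + ρ) * (E Q (fun a => ind (A n a)) * E Q (fun a => ind (A n' a))) := by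
    intro n hn
    rw [← add_sum_erase M _ hn, ← add_sum_erase M (fun n' => (1 + ρ) *
      (E Q (fun a => ind (A n a)) * E Q (fun a => ind (A n' a)))) hn]
    have h2 : E Q (fun a => ind (A n a ∧ A n a)) = E Q (fun a => ind (A n a)) := by
      congr 1
      funext a
      exact ind_congr and_self_iff
    have h3 : ∑ n' ∈ M.erase n, E Q (fun a => ind (A n a ∧ A n' a)) ≤ ∑ n' ∈ M.erase n,
        (1 + ρ) * (E Q (fun a => ind (A n a)) * E Q (fun a => ind (A n' a))) :=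
      sum_le_sum fun n' hn' => h n hn n' (mem_of_mem_erase hn') (ne_of_mem_erase hn').symm
    have h4 : 0 ≤ (1 + ρ) * (E Q (fun a => ind (A n a)) * E Q (fun a => ind (A n a))) :=
      mul_nonneg (by linarith) (mul_nonneg (hp n) (hp n))
    rw [h2]
    linarith
  refine (sum_le_sum h1).trans (le_of_eq ?_)
  rw [sum_add_distrib, sq, sum_mul_sum, mul_sum]
  congr 1
  exact sum_congr rfl fun n _ => by rw [mul_sum]

theorem tChe : CheStmt := by
  intro Q M A ρ hQ hρ hμ h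
  set μ : ℝ := ∑ n ∈ M, E Q (fun a => ind (A n a)) with hμd
  have hX : E Q (fun a => ∑ n ∈ M, ind (A n a)) = μ := E_sum Q M (fun n a => ind (A n a))
  have hB := Che_bd Q M A ρ hρ h
  have hV : E Q (fun a => (∑ n ∈ M, ind (A n a) - μ) ^ 2) ≤ μ + ρ * μ ^ 2 := by
    have h1 : (fun a : ℕ → ℕ => (∑ n ∈ M, ind (A n a) - μ) ^ 2) =
        fun a => (∑ n ∈ M, ind (A n a)) ^ 2 +
          ((-2 * μ) * (∑ n ∈ M, ind (A n a)) + μ ^ 2) := by
      funext a
      ring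
    rw [h1, E_add, E_add, E_const_mul, E_const hQ, hX]
    rw [← hμd] at hB
    linarith
  have hI : μ ^ 2 * E Q (fun a => ind (∀ n ∈ M, ¬ A n a)) ≤ μ + ρ * μ ^ 2 := by
    rw [← E_const_mul]
    refine le_trans (E_le fun a _ => ?_) hV
    by_cases hn : ∀ n ∈ M, ¬ A n a
    · have h2 : ∑ n ∈ M, ind (A n a) = 0 := sum_eq_zero fun n hn' => ind_neg (hn n hn')
      rw [h2, ind_pos hn]
      nlinarith
    · rw [ind_neg hn, mul_zero]
      exact sq_nonneg _
  have h5 : 1 / μ + ρ = (μ + ρ * μ ^ 2) / μ ^ 2 := by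
    field_simp
  rw [h5, le_div_iff₀ (by positivity), mul_comm]
  exact hI

end Pool.Agent.Lib.SHK
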