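import Pool.Agent.Lib.SHK.Spec

/-! MP_9a4459_nt, Lib/SHK, module Cnt: the numbers with few small prime factors. -/

set_option autoImplicit false

namespace Pool.Agent.Lib.SHK

open Finset Filter Topology
open scoped Classical

/-- the smooth part and the rough part -/
private theorem Cnt_dec (y : ℕ) : ∀ m : ℕ, 0 < m → ∃ e r : ℕ, m = e * r ∧
    (∀ p : ℕ, p.Prime → p ∣ e → p ≤ y) ∧ (∀ p : ℕ, p.Prime → p ∣ r → y < p) := by
  intro m
  induction m using Nat.strong_induction_on with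
  | _ m ih =>
    intro hm
    by_cases h : ∀ p : ℕ, p.Prime → p ∣ m → y < p
    · refine ⟨1, m, by ring, ?_, h⟩
      intro p hp hp1
      exact absurd (Nat.dvd_one.1 hp1) hp.one_lt.ne'
    · push Not at h
      obtain ⟨p, hp, ⟨k, hk⟩, hpy⟩ := h
      have hk0 : 0 < k := by
        rcases Nat.eq_zero_or_pos k with h | h
        · rw [h] at hk; omega
        · exact h
      have hkm : k < m := by
        rw [hk]
        nlinarith [hp.two_le]
      obtain ⟨e, r, h1, h2, h3⟩ := ih k hkm hk0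
      refine ⟨p * e, r, by rw [hk, h1]; ring, ?_, h3⟩
      intro q hq hqe
      rcases (Nat.Prime.dvd_mul hq).1 hqe with h | h
      · rw [(Nat.prime_dvd_prime_iff_eq hq hp).1 h]; exact hpy
      · exact h2 q hq h

private theorem Cnt_card (X y : ℕ) (B : Finset ℕ) :
    ((Icc 1 X).filter (fun m => ∀ p : ℕ, p.Prime → p ∣ m → p ≤ y → p ∈ B)).card ≤
      ∑ e ∈ smo B X, (rgh y (X / e)).card := by
  have hsub : (Icc 1 X).filter (fun m => ∀ p : ℕ, p.Prime → p ∣ m → p ≤ y → p ∈ B) ⊆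
      (smo B X).biUnion (fun e => (rgh y (X / e)).image (fun r => e * r)) := by
    intro m hm
    rw [mem_filter, mem_Icc] at hm
    obtain ⟨⟨h1, h2⟩, h3⟩ := hm
    obtain ⟨e, r, h4, h5, h6⟩ := Cnt_dec y m h1
    have he : 0 < e := by
      rcases Nat.eq_zero_or_pos e with h | h
      · rw [h, zero_mul] at h4; omega
      · exact h
    have hr : 0 < r := by
      rcases Nat.eq_zero_or_pos r with h | h
      · rw [h, mul_zero] at h4; omega
      · exact h
    rw [mem_biUnion]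
    refine ⟨e, ?_, ?_⟩
    · rw [smo, mem_filter, mem_Icc]
      refine ⟨⟨he, ?_⟩, ?_⟩
      · calc e ≤ e * r := Nat.le_mul_of_pos_right _ hr
          _ = m := h4.symm
          _ ≤ X := h2
      · intro p hp hpe
        exact h3 p hp (by rw [h4]; exact Dvd.dvd.mul_right hpe r) (h5 p hp hpe)
    · rw [mem_image]
      refine ⟨r, ?_, h4.symm⟩
      rw [rgh, mem_filter, mem_Icc]
      refine ⟨⟨hr, ?_⟩, h6⟩
      rw [Nat.le_div_iff_mul_le he, mul_comm, ← h4]
      exact h2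
  calc ((Icc 1 X).filter (fun m => ∀ p : ℕ, p.Prime → p ∣ m → p ≤ y → p ∈ B)).card
      ≤ ((smo B X).biUnion (fun e => (rgh y (X / e)).image (fun r => e * r))).card :=
        card_le_card hsub
    _ ≤ ∑ e ∈ smo B X, ((rgh y (X / e)).image (fun r => e * r)).card := card_biUnion_le
    _ ≤ ∑ e ∈ smo B X, (rgh y (X / e)).card := sum_le_sum (fun e _ => card_image_le)

private theorem Cnt_ev (δ : ℝ) (hδ : 0 < δ) : ∀ᶠ X : ℕ in atTop,
    1 + (X : ℝ) ^ ((3 : ℝ) / 4) ≤ δ / 4 * (X / Real.log X) := by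
  have t1 : Tendsto (fun X : ℕ => (X : ℝ) ^ ((1 : ℝ) / 8)) atTop atTop :=
    (tendsto_rpow_atTop (by norm_num)).comp tendsto_natCast_atTop_atTop
  filter_upwards [t1.eventually_ge_atTop (64 / δ), eventually_ge_atTop 2] with X hX hX2
  have hX1 : (1 : ℝ) < X := by exact_mod_cast hX2
  have hX0 : (0 : ℝ) < X := by linarith
  have hL : 0 < Real.log X := Real.log_pos hX1
  have e1 : Real.log X ≤ (X : ℝ) ^ ((1 : ℝ) / 8) / (1 / 8) :=
    Real.log_le_rpow_div hX0.le (by norm_num)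
  have e2 : (1 : ℝ) ≤ (X : ℝ) ^ ((3 : ℝ) / 4) := Real.one_le_rpow hX1.le (by norm_num)
  have e3 : (X : ℝ) ^ ((3 : ℝ) / 4) * (X : ℝ) ^ ((1 : ℝ) / 8) * (X : ℝ) ^ ((1 : ℝ) / 8) = X := by
    rw [← Real.rpow_add hX0, ← Real.rpow_add hX0]
    norm_num
  have e4 : 64 ≤ δ * (X : ℝ) ^ ((1 : ℝ) / 8) := by
    rw [div_le_iff₀ hδ] at hX
    linarith
  rw [← mul_div_assoc, le_div_iff₀ hL]
  have e5 : 0 < (X : ℝ) ^ ((3 : ℝ) / 4) := by positivity
  have e6 : 0 < (X : ℝ) ^ ((1 : ℝ) / 8) := by positivity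
  calc (1 + (X : ℝ) ^ ((3 : ℝ) / 4)) * Real.log X
      ≤ (2 * (X : ℝ) ^ ((3 : ℝ) / 4)) * ((X : ℝ) ^ ((1 : ℝ) / 8) / (1 / 8)) := by
        apply mul_le_mul (by linarith) e1 hL.le (by positivity)
    _ = 64 * ((X : ℝ) ^ ((3 : ℝ) / 4) * (X : ℝ) ^ ((1 : ℝ) / 8)) / 4 := by ring
    _ ≤ (δ * (X : ℝ) ^ ((1 : ℝ) / 8)) * ((X : ℝ) ^ ((3 : ℝ) / 4) * (X : ℝ) ^ ((1 : ℝ) / 8)) / 4 := by
        have := mul_le_mul_of_nonneg_right e4
          (show 0 ≤ (X : ℝ) ^ ((3 : ℝ) / 4) * (X : ℝ) ^ ((1 : ℝ) / 8) by positivity)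
        linarith
    _ = δ / 4 * ((X : ℝ) ^ ((3 : ℝ) / 4) * (X : ℝ) ^ ((1 : ℝ) / 8) * (X : ℝ) ^ ((1 : ℝ) / 8)) := by
        ring
    _ = δ / 4 * X := by rw [e3]

theorem tCnt (h1 : PiStmt) (h2 : SmoStmt) (h3 : RghStmt) : CntStmt := by
  intro δ C1 hδ hC1
  obtain ⟨C, hC, y0, hy0, hR⟩ := h3 C1 hC1
  obtain ⟨T0, hT⟩ := h1 (δ / 8) (by positivity)
  have hq : 0 < δ / (12 * C) := by positivity
  have hσ0 : 0 < Real.log (1 + δ / (12 * C)) / 2 := by
    have := Real.log_pos (show 1 < 1 + δ / (12 * C) by linarith)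
    linarith
  have hexp : Real.exp (2 * (Real.log (1 + δ / (12 * C)) / 2)) = 1 + δ / (12 * C) := by
    rw [mul_div_cancel₀ _ (two_ne_zero), Real.exp_log (by linarith)]
  have tc : Tendsto (fun X : ℕ => (X : ℝ)) atTop atTop := tendsto_natCast_atTop_atTop
  have tl : Tendsto (fun X : ℕ => Real.log (X : ℝ)) atTop atTop := Real.tendsto_log_atTop.comp tc
  obtain ⟨X0, hX0⟩ := eventually_atTop.1 ((Cnt_ev δ hδ).and ((tc.eventually_gt_atTop
    (C1 * (y0 : ℝ) ^ 2)).and ((tl.eventually_ge_atTop (3 * Real.log C1)).and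
    ((tl.eventually_ge_atTop (72 * C / δ)).and ((eventually_ge_atTop T0).and
    (eventually_ge_atTop 2))))))
  refine ⟨_, hσ0, X0, ?_⟩
  intro X y B hX hyX hXy hB hprod hsum
  obtain ⟨c1, c2, c3, c4, c5, c6⟩ := hX0 X hX
  have hX1 : (1 : ℝ) < X := by exact_mod_cast c6
  have hXp : (0 : ℝ) < X := by linarith
  have hL : 0 < Real.log X := Real.log_pos hX1
  have hy : y0 ≤ y := by
    by_contra hcon
    push Not at hcon
    have e1 : (y : ℝ) ≤ y0 := by exact_mod_cast hcon.le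
    have e2 : (y : ℝ) ^ 2 ≤ (y0 : ℝ) ^ 2 := pow_le_pow_left₀ (by positivity) e1 2
    have e3 : C1 * (y : ℝ) ^ 2 ≤ C1 * (y0 : ℝ) ^ 2 := mul_le_mul_of_nonneg_left e2 (by linarith)
    linarith
  have hy1 : (1 : ℝ) < y := by
    have : 1 < y := by omega
    exact_mod_cast this
  have hly : Real.log X / 3 ≤ Real.log y := by
    have e1 : Real.log X ≤ Real.log C1 + 2 * Real.log y := by
      calc Real.log X ≤ Real.log (C1 * (y : ℝ) ^ 2) := Real.log_le_log hXp hXy
        _ = Real.log C1 + 2 * Real.log y := by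
          rw [Real.log_mul (by linarith) (by positivity), Real.log_pow]
          norm_num
    linarith
  have hly0 : 0 < Real.log y := by linarith
  obtain ⟨s1, s2⟩ := h2 B X (by omega) (fun p hp => ⟨(hB p hp).1, (hB p hp).2.1⟩) hprod
  have hone : 1 ∈ smo B X := by
    rw [smo, mem_filter, mem_Icc]
    refine ⟨⟨le_refl _, by omega⟩, ?_⟩
    intro p hp hp1
    exact absurd (Nat.dvd_one.1 hp1) hp.one_lt.ne'
  have s3 : ∑ e ∈ smo B X, 1 / (e : ℝ) ≤ 1 + δ / (12 * C) := by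
    refine s2.trans ?_
    rw [← hexp]
    exact Real.exp_le_exp.2 (by linarith)
  -- the term e = 1
  have t1 : ((rgh y (X / 1)).card : ℝ) ≤ 1 + (1 + δ / 8) * (X / Real.log X) +
      δ / 8 * (X / Real.log X) := by
    rw [Nat.div_one]
    refine ((hR y X hy (by omega) hXy).2).trans ?_
    have e1 := hT X c5
    have e2 : C * (X / (Real.log y) ^ 2) ≤ δ / 8 * (X / Real.log X) := by
      have e3 : (Real.log X / 3) ^ 2 ≤ (Real.log y) ^ 2 := pow_le_pow_left₀ (by positivity) hly 2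
      calc C * (X / (Real.log y) ^ 2) ≤ C * (X / (Real.log X / 3) ^ 2) := by gcongr
        _ = (9 * C / Real.log X) * (X / Real.log X) := by
          field_simp
          ring
        _ ≤ δ / 8 * (X / Real.log X) := by
          apply mul_le_mul_of_nonneg_right _ (by positivity)
          rw [div_le_iff₀ hδ] at c4
          rw [div_le_iff₀ hL]
          linarith
    linarith
  -- the terms e > 1
  have t2 : ∀ e ∈ (smo B X).erase 1, ((rgh y (X / e)).card : ℝ) ≤
      1 + 3 * C * (X / Real.log X) * (1 / (e : ℝ)) := by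
    intro e he
    rw [mem_erase, smo, mem_filter, mem_Icc] at he
    obtain ⟨-, ⟨he1, he2⟩, -⟩ := he
    have he0 : (0 : ℝ) < e := by
      have : 0 < e := he1
      exact_mod_cast this
    have f1 : 1 ≤ X / e := (Nat.one_le_div_iff (by omega)).2 he2
    have f2 : ((X / e : ℕ) : ℝ) ≤ X / e := Nat.cast_div_le
    have f3 : ((X / e : ℕ) : ℝ) ≤ C1 * (y : ℝ) ^ 2 := by
      refine le_trans ?_ hXy
      exact_mod_cast Nat.div_le_self X e
    refine ((hR y (X / e) hy f1 f3).1).trans ?_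
    have f4 : C * (((X / e : ℕ) : ℝ) / Real.log y) ≤ 3 * C * (X / Real.log X) * (1 / (e : ℝ)) := by
      calc C * (((X / e : ℕ) : ℝ) / Real.log y) ≤ C * ((X / e) / (Real.log X / 3)) := by
            gcongr
        _ = 3 * C * (X / Real.log X) * (1 / (e : ℝ)) := by
            field_simp
    linarith
  have t3 : ∑ e ∈ (smo B X).erase 1, ((rgh y (X / e)).card : ℝ) ≤
      (X : ℝ) ^ ((3 : ℝ) / 4) + δ / 4 * (X / Real.log X) := by
    have g1 : ∑ e ∈ (smo B X).erase 1, 1 / (e : ℝ) ≤ δ / (12 * C) := by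
      have := Finset.add_sum_erase (smo B X) (fun e : ℕ => 1 / (e : ℝ)) hone
      simp only [Nat.cast_one] at this
      linarith
    have g2 : (((smo B X).erase 1).card : ℝ) ≤ (X : ℝ) ^ ((3 : ℝ) / 4) := by
      refine le_trans ?_ s1
      exact_mod_cast Finset.card_le_card (Finset.erase_subset _ _)
    calc ∑ e ∈ (smo B X).erase 1, ((rgh y (X / e)).card : ℝ)
        ≤ ∑ e ∈ (smo B X).erase 1, (1 + 3 * C * (X / Real.log X) * (1 / (e : ℝ))) :=
          Finset.sum_le_sum t2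
      _ = (((smo B X).erase 1).card : ℝ) +
          3 * C * (X / Real.log X) * ∑ e ∈ (smo B X).erase 1, 1 / (e : ℝ) := by
          rw [Finset.sum_add_distrib, ← Finset.mul_sum]
          simp
      _ ≤ (X : ℝ) ^ ((3 : ℝ) / 4) + 3 * C * (X / Real.log X) * (δ / (12 * C)) := by
          gcongr
      _ = (X : ℝ) ^ ((3 : ℝ) / 4) + δ / 4 * (X / Real.log X) := by
          field_simp
          ring
  have t4 : (((Icc 1 X).filter (fun m => ∀ p : ℕ, p.Prime → p ∣ m → p ≤ y → p ∈ B)).card : ℝ) ≤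
      ((rgh y (X / 1)).card : ℝ) + ∑ e ∈ (smo B X).erase 1, ((rgh y (X / e)).card : ℝ) := by
    rw [Finset.add_sum_erase (smo B X) (fun e : ℕ => ((rgh y (X / e)).card : ℝ)) hone]
    exact_mod_cast Cnt_card X y B
  have hpos : 0 ≤ (X : ℝ) / Real.log X := by positivity
  linarith

end Pool.Agent.Lib.SHK
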