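import Pool.Agent.Lib.SHK.Spec

/-! MP_9a4459_nt, THEOREM H2, module Fin: the theorem (Borel-Cantelli) -/

set_option autoImplicit false

namespace Pool.Agent.Lib.SHK

open Finset Filter Topology
open scoped Classical

open MeasureTheory Pool.Agent.Results.MP_9a4459_nt

private lemma Fin_kappa : √(Real.exp Real.eulerMascheroniConstant / 2) < 1 := by
  have h1 : Real.exp Real.eulerMascheroniConstant < Real.exp (2 / 3) :=
    Real.exp_lt_exp.2 Real.eulerMascheroniConstant_lt_two_thirds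
  have h2 : Real.exp (2 / 3) ^ 3 < 2 ^ 3 := by
    rw [← Real.exp_nat_mul]
    have h3 : ((3 : ℕ) : ℝ) * (2 / 3) = ((2 : ℕ) : ℝ) * 1 := by norm_num
    rw [h3, Real.exp_nat_mul]
    have h4 := Real.exp_one_lt_d9
    have h5 := Real.exp_pos 1
    nlinarith
  have h3 : Real.exp (2 / 3) < 2 := lt_of_pow_lt_pow_left₀ 3 (by norm_num) h2
  rw [Real.sqrt_lt' one_pos]
  rw [one_pow, div_lt_one two_pos]
  linarith

private lemma Fin_det (c : ℝ) (z : ℕ → ℕ) (hz : Monotone z) (g : ℕ) (hg : 2 ≤ g) (a : ℕ → ℕ)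
    (h : Good (xx c g) g (z (xx c g / 2)) (z (xx c g)) a) :
    ∃ m : ℕ, Consec (Sieved z a) m (m + g) ∧ Real.log ((m : ℝ) + g) ≤ c * √(g : ℝ) := by
  obtain ⟨n, hn1, hn2, hav, hht⟩ := h
  have hn : 2 ≤ n := by omega
  refine ⟨n, ⟨⟨hn, fun p hp hpz => ?_⟩, ⟨by omega, fun p hp hpz => ?_⟩, by omega, ?_⟩, ?_⟩
  · refine hav p (mem_pr.2 ⟨hp.pos, hpz.trans (hz (by omega)), hp⟩) n (by simp)
  · refine hav p (mem_pr.2 ⟨hp.pos, hpz.trans (hz (by omega)), hp⟩) (n + g) (by simp)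
  · intro k hk1 hk2 hs
    obtain ⟨p, hp, hpa⟩ := hht (k - n) (mem_Ioo.2 ⟨by omega, by omega⟩)
    have h1 : n + (k - n) = k := by omega
    rw [h1] at hpa
    obtain ⟨-, hp2, hp3⟩ := mem_pr.1 hp
    exact hs.2 p hp3 (hp2.trans (hz (by omega))) hpa
  · have h1 : ((n : ℝ) + g) ≤ Real.exp (c * √(g : ℝ)) := by
      have h2 : ((n + g : ℕ) : ℝ) ≤ (xx c g : ℝ) := by exact_mod_cast hn2
      have h3 : (xx c g : ℝ) ≤ Real.exp (c * √(g : ℝ)) := Nat.floor_le (Real.exp_pos _).le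
      push_cast at h2
      exact h2.trans h3
    have h2 : (0 : ℝ) < (n : ℝ) + g := by positivity
    rw [← Real.log_exp (c * √(g : ℝ))]
    exact Real.log_le_log h2 h1

private lemma Fin_dep (x g Z1 Z : ℕ) (hZ : Z1 ≤ Z) (a b : ℕ → ℕ) (h : ∀ p ∈ pr 0 Z, a p = b p)
    (hG : Good x g Z1 Z a) : Good x g Z1 Z b := by
  obtain ⟨n, hn1, hn2, hav, hht⟩ := hG
  refine ⟨n, hn1, hn2, fun p hp f hf => ?_, fun j hj => ?_⟩
  · rw [← h p hp]
    exact hav p hp f hf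
  · obtain ⟨p, hp, hpa⟩ := hht j hj
    refine ⟨p, hp, ?_⟩
    obtain ⟨h1, h2, h3⟩ := mem_pr.1 hp
    rw [← h p (mem_pr.2 ⟨h1, h2.trans hZ, h3⟩)]
    exact hpa

private lemma Fin_zfun (z : ℕ → ℕ) (hz : Monotone z)
    (h : Tendsto (fun n : ℕ => (∏ p ∈ (Icc 1 (z n)).filter Nat.Prime, (1 - 1 / (p : ℝ))) *
      Real.log n) atTop (𝓝 1)) : ZFun z := by
  refine ⟨hz, ?_⟩
  have h1 : (fun n : ℕ => Vk 1 0 (z n) * Real.log n) =
      fun n : ℕ => (∏ p ∈ (Icc 1 (z n)).filter Nat.Prime, (1 - 1 / (p : ℝ))) * Real.log n := by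
    funext n
    have h2 : pr 0 (z n) = (Icc 1 (z n)).filter Nat.Prime := by
      ext p
      rw [mem_pr, mem_filter, mem_Icc]
      constructor
      · rintro ⟨a, b, c⟩
        exact ⟨⟨a, b⟩, c⟩
      · rintro ⟨⟨a, b⟩, c⟩
        exact ⟨a, b, c⟩
    unfold Vk
    rw [h2]
    simp
  rw [h1]
  exact h

private lemma Fin_one.{u} (h1 : MfStmt) (h2 : MsrStmt.{u}) (Ω : Type u) [MeasurableSpace Ω]
    (P : Measure Ω) [IsProbabilityMeasure P] (a : ℕ → Ω → ℕ) (z : ℕ → ℕ)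
    (ha : UniformClasses P a) (hz : ZFun z) (c : ℝ)
    (hc : √(Real.exp Real.eulerMascheroniConstant / 2) < c) (hc1 : c ≤ 1) :
    ∀ᵐ ω ∂P, ∃ G : ℕ, ∀ g : ℕ, G ≤ g → Even g →
      ∃ m : ℕ, Consec (Sieved z (fun p => a p ω)) m (m + g) ∧
        Real.log ((m : ℝ) + g) ≤ c * √(g : ℝ) := by
  obtain ⟨g0, hg0⟩ := h1 c z hc hc1 hz
  let B : ℕ → Set Ω := fun g => {ω | (g0 ≤ g ∧ Even g) ∧
    ¬ Good (xx c g) g (z (xx c g / 2)) (z (xx c g)) (fun p => a p ω)}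
  have hB : ∀ g, P (B g) ≤ ENNReal.ofReal (200 / (g : ℝ) ^ 2) := by
    intro g
    by_cases hg : g0 ≤ g ∧ Even g
    · have h3 : B g = {ω | ¬ Good (xx c g) g (z (xx c g / 2)) (z (xx c g)) (fun p => a p ω)} := by
        ext ω
        exact ⟨fun h => h.2, fun h => ⟨hg, h⟩⟩
      have hZ : z (xx c g / 2) ≤ z (xx c g) := hz.1 (Nat.div_le_self _ _)
      have h4 := h2 Ω inferInstance P inferInstance a ha (pr 0 (z (xx c g)))
        (fun b => ¬ Good (xx c g) g (z (xx c g / 2)) (z (xx c g)) b)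
        (fun p hp => (mem_pr.1 hp).2.2)
        (fun b b' hb => not_congr ⟨Fin_dep _ _ _ _ hZ b b' hb,
          Fin_dep _ _ _ _ hZ b' b (fun p hp => (hb p hp).symm)⟩)
      rw [h3, h4]
      exact ENNReal.ofReal_le_ofReal (hg0 g hg.1 hg.2)
    · have h3 : B g = ∅ := by
        ext ω
        exact ⟨fun h => hg h.1, fun h => absurd h (Set.notMem_empty ω)⟩
      rw [h3, measure_empty]
      exact bot_le
  have hsum : Summable fun g : ℕ => 200 / (g : ℝ) ^ 2 := by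
    have := (Real.summable_one_div_nat_pow.2 one_lt_two).mul_left (200 : ℝ)
    refine this.congr fun g => ?_
    ring
  have hne : ∑' g, P (B g) ≠ ⊤ :=
    ne_top_of_le_ne_top hsum.tsum_ofReal_ne_top (ENNReal.tsum_le_tsum hB)
  filter_upwards [ae_eventually_notMem hne] with ω hω
  obtain ⟨G, hG⟩ := eventually_atTop.1 hω
  refine ⟨max G (max g0 2), fun g hg hev => ?_⟩
  have hg1 : G ≤ g := (le_max_left _ _).trans hg
  have hg2 : g0 ≤ g := (le_max_left _ _).trans ((le_max_right _ _).trans hg)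
  have hg3 : 2 ≤ g := (le_max_right _ _).trans ((le_max_right _ _).trans hg)
  have h5 := hG g hg1
  have h6 : Good (xx c g) g (z (xx c g / 2)) (z (xx c g)) (fun p => a p ω) := by
    by_contra h7
    exact h5 ⟨⟨hg2, hev⟩, h7⟩
  exact Fin_det c z hz.1 g hg3 _ h6

theorem tFin.{u} (h1 : MfStmt) (h2 : MsrStmt.{u}) : FinStmt.{u} := by
  refine ⟨Fin_kappa, ?_⟩
  intro Ω _ P _ a z ha hz hlim
  have hZ : ZFun z := Fin_zfun z hz hlim
  set κ := √(Real.exp Real.eulerMascheroniConstant / 2) with hκ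
  have hκ0 : 0 ≤ κ := Real.sqrt_nonneg _
  have hκ1 : κ < 1 := Fin_kappa
  have hall : ∀ᵐ ω ∂P, ∀ k : ℕ, ∃ G : ℕ, ∀ g : ℕ, G ≤ g → Even g →
      ∃ m : ℕ, Consec (Sieved z (fun p => a p ω)) m (m + g) ∧
        Real.log ((m : ℝ) + g) ≤ (κ + (1 - κ) * (1 / ((k : ℝ) + 1))) * √(g : ℝ) := by
    rw [ae_all_iff]
    intro k
    refine Fin_one h1 h2 Ω P a z ha hZ _ ?_ ?_
    · have : 0 < (1 - κ) * (1 / ((k : ℝ) + 1)) := mul_pos (by linarith) (by positivity)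
      linarith
    · have h3 : 1 / ((k : ℝ) + 1) ≤ 1 := by
        rw [div_le_one (by positivity)]
        have : (0 : ℝ) ≤ k := Nat.cast_nonneg k
        linarith
      have h4 : (1 - κ) * (1 / ((k : ℝ) + 1)) ≤ (1 - κ) * 1 :=
        mul_le_mul_of_nonneg_left h3 (by linarith)
      linarith
  filter_upwards [hall] with ω hω c hc
  obtain ⟨k, hk⟩ := exists_nat_one_div_lt (show 0 < c - κ by linarith)
  obtain ⟨G, hG⟩ := hω k
  refine ⟨max G 1, fun g hg hev => ?_⟩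
  obtain ⟨m, hm1, hm2⟩ := hG g ((le_max_left _ _).trans hg) hev
  refine ⟨m, hm1, lt_of_le_of_lt hm2 ?_⟩
  have hg1 : 1 ≤ g := (le_max_right _ _).trans hg
  have hs : 0 < √(g : ℝ) := Real.sqrt_pos.2 (by exact_mod_cast hg1)
  refine mul_lt_mul_of_pos_right ?_ hs
  have h5 : (1 - κ) * (1 / ((k : ℝ) + 1)) ≤ 1 * (1 / ((k : ℝ) + 1)) :=
    mul_le_mul_of_nonneg_right (by linarith) (by positivity)
  linarith

end Pool.Agent.Lib.SHK
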