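import Pool.Agent.Lib.SHK.Spec

/-!
MP_9a4459_nt, module Lo: the lower bound for pe, by the recursion in Rec and the inequality in Pk.
-/

set_option autoImplicit false

namespace Pool.Agent.Lib.SHK

open Finset Filter Topology
open scoped Classical

private theorem Lo_nonneg (Q F T : Finset ℕ) : 0 ≤ pe Q F T :=
  E_nonneg fun _ _ => ind_nonneg _

private theorem Lo_base (F T : Finset ℕ) (r : ℝ) : PP r 1 T.card ≤ pe ∅ F T := by
  rcases T.eq_empty_or_nonempty with h | h
  · subst h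
    have h1 : pe ∅ F ∅ = 1 := by
      unfold pe
      rw [E_empty]
      refine ind_pos ⟨?_, ?_⟩
      · intro p hp
        exact absurd hp (Finset.notMem_empty p)
      · intro t ht
        exact absurd ht (Finset.notMem_empty t)
    rw [h1]
    simp [PP]
  · have h2 : PP r 1 T.card = 0 := by
      unfold PP
      refine prod_eq_zero (mem_range.2 (card_pos.2 h)) ?_
      simp
    rw [h2]
    exact Lo_nonneg _ _ _

private theorem Lo_inj {A B : Finset ℕ} {p : ℕ} (h : A ⊆ B) (hB : Inj B p) : Inj A p :=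
  fun s hs t ht he => hB s (h hs) t (h ht) he

private theorem Lo_ind (h1 : RecStmt) (h2 : PkStmt) (F : Finset ℕ) (q0 : ℝ) (h0 : 0 < q0)
    (h01 : q0 < 1) (Q : Finset ℕ) : ∀ T : Finset ℕ, Disjoint F T → (T.card : ℝ) * q0 ≤ 1 →
    (∀ p ∈ Q, F.card < p ∧ 1 / ((p : ℝ) - F.card) ≤ q0 ∧ Inj (F ∪ T) p) →
    (∏ p ∈ Q, (1 - (F.card : ℝ) / p)) *
      PP (1 - q0)⁻¹ (∏ p ∈ Q, (1 - 1 / ((p : ℝ) - F.card))) T.card ≤ pe Q F T := by
  have hr0 : 0 < 1 - q0 := by linarith
  have hr1 : 1 ≤ (1 - q0)⁻¹ := by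
    rw [one_le_inv₀ hr0]
    linarith
  induction Q using Finset.induction_on with
  | empty =>
    intro T _ _ _
    rw [prod_empty, prod_empty, one_mul]
    exact Lo_base F T _
  | insert p Q hp ih =>
    intro T hd hk hQ
    obtain ⟨hfp, hq, hinj⟩ := hQ p (mem_insert_self p Q)
    have hQ' : ∀ p ∈ Q, F.card < p ∧ 1 / ((p : ℝ) - F.card) ≤ q0 ∧ Inj (F ∪ T) p :=
      fun q hq => hQ q (mem_insert_of_mem hq)
    have hp0 : 0 < p := lt_of_le_of_lt (Nat.zero_le _) hfp
    have hpR : (0 : ℝ) < p := Nat.cast_pos.2 hp0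
    have hfR : (F.card : ℝ) + 1 ≤ p := by exact_mod_cast hfp
    have hpf : (1 : ℝ) ≤ (p : ℝ) - F.card := by linarith
    have hpf0 : (0 : ℝ) < (p : ℝ) - F.card := by linarith
    have hP0 : 0 ≤ ∏ p ∈ Q, (1 - (F.card : ℝ) / p) := by
      refine prod_nonneg fun s hs => ?_
      have hs1 : F.card < s := (hQ' s hs).1
      have hs2 : (F.card : ℝ) < s := by exact_mod_cast hs1
      have hs3 : (0 : ℝ) < s := lt_of_le_of_lt (Nat.cast_nonneg _) hs2
      rw [sub_nonneg, div_le_one hs3]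
      exact hs2.le
    have hθ0 : 0 ≤ ∏ p ∈ Q, (1 - 1 / ((p : ℝ) - F.card)) := by
      refine prod_nonneg fun s hs => ?_
      have := (hQ' s hs).2.1
      linarith
    have hf1 : 0 ≤ 1 - (F.card : ℝ) / p := by
      rw [sub_nonneg, div_le_one hpR]
      linarith
    rw [prod_insert hp, prod_insert hp, h1.1 p Q F T hp0 hp hd hinj]
    generalize hW : (∏ p ∈ Q, (1 - (F.card : ℝ) / p)) = W at *
    generalize hθ : (∏ p ∈ Q, (1 - 1 / ((p : ℝ) - F.card))) = θ at *
    have e1 : 1 - ((F.card : ℝ) + T.card) / p =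
        (1 - (F.card : ℝ) / p) * (1 - T.card * (1 / ((p : ℝ) - F.card))) := by
      field_simp
      ring
    have e2 : (1 : ℝ) / p = (1 - (F.card : ℝ) / p) * (1 / ((p : ℝ) - F.card)) := by
      field_simp
    have hq0 : 0 ≤ 1 / ((p : ℝ) - F.card) := by positivity
    have hkq : (T.card : ℝ) * (1 / ((p : ℝ) - F.card)) ≤ 1 :=
      le_trans (mul_le_mul_of_nonneg_left hq (Nat.cast_nonneg _)) hk
    rw [e1, div_eq_mul_one_div (∑ t ∈ T, pe Q F (T.erase t)) (p : ℝ), e2]
    generalize hqq : 1 / ((p : ℝ) - F.card) = q at *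
    have ihT : W * PP (1 - q0)⁻¹ θ T.card ≤ pe Q F T := ih T hd hk hQ'
    have ihS : ∑ t ∈ T, pe Q F (T.erase t) ≥ T.card * (W * PP (1 - q0)⁻¹ θ (T.card - 1)) := by
      rw [ge_iff_le, ← nsmul_eq_mul, ← sum_const]
      refine sum_le_sum fun t ht => ?_
      have hc : (T.erase t).card = T.card - 1 := card_erase_of_mem ht
      have hle : ((T.erase t).card : ℝ) ≤ T.card := by
        exact_mod_cast card_le_card (erase_subset t T)
      have := ih (T.erase t) (hd.mono_right (erase_subset t T))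
        (le_trans (mul_le_mul_of_nonneg_right hle h0.le) hk)
        (fun s hs => ⟨(hQ' s hs).1, (hQ' s hs).2.1,
          Lo_inj (union_subset_union_right (erase_subset t T)) (hQ' s hs).2.2⟩)
      rwa [hc] at this
    have hpk : PP (1 - q0)⁻¹ ((1 - q) * θ) T.card ≤
        (1 - T.card * q) * PP (1 - q0)⁻¹ θ T.card + T.card * q * PP (1 - q0)⁻¹ θ (T.card - 1) := by
      rcases Nat.eq_zero_or_pos T.card with hz | hz
      · rw [hz]
        simp [PP]
      · obtain ⟨k, hk'⟩ : ∃ k, T.card = k + 1 := ⟨T.card - 1, by omega⟩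
        have h3 : (1 - q0) * (1 - q0)⁻¹ = 1 := mul_inv_cancel₀ hr0.ne'
        have h4 : 1 ≤ (1 - q0)⁻¹ * (1 - q) := by
          have h5 : (1 - q0)⁻¹ * (1 - q0) ≤ (1 - q0)⁻¹ * (1 - q) :=
            mul_le_mul_of_nonneg_left (by linarith) (by positivity)
          linarith
        have h6 := h2.1 (1 - q0)⁻¹ q θ k hr1 hq0 (by linarith) h4 hθ0 (by
          rw [hk'] at hkq
          push_cast at hkq
          exact hkq)
        rw [hk']
        push_cast
        simpa using h6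
    have hx : 0 ≤ 1 - T.card * q := by linarith
    have hA : (1 - T.card * q) * (W * PP (1 - q0)⁻¹ θ T.card) ≤ (1 - T.card * q) * pe Q F T :=
      mul_le_mul_of_nonneg_left ihT hx
    have hB : q * (T.card * (W * PP (1 - q0)⁻¹ θ (T.card - 1))) ≤
        q * ∑ t ∈ T, pe Q F (T.erase t) := mul_le_mul_of_nonneg_left ihS hq0
    have hC : W * PP (1 - q0)⁻¹ ((1 - q) * θ) T.card ≤
        W * ((1 - T.card * q) * PP (1 - q0)⁻¹ θ T.card +
          T.card * q * PP (1 - q0)⁻¹ θ (T.card - 1)) := mul_le_mul_of_nonneg_left hpk hP0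
    have hD : W * PP (1 - q0)⁻¹ ((1 - q) * θ) T.card ≤
        (1 - T.card * q) * pe Q F T + q * ∑ t ∈ T, pe Q F (T.erase t) := by linarith
    have hE := mul_le_mul_of_nonneg_left hD hf1
    linarith

theorem tLo (h1 : RecStmt) (h2 : PkStmt) : LoStmt := by
  intro Q F T q0 K hd h0 h01 hK hTK hQ hθ1
  have hr0 : 0 < 1 - q0 := by linarith
  have hr1 : 1 ≤ (1 - q0)⁻¹ := by
    rw [one_le_inv₀ hr0]
    linarith
  have hkK : (T.card : ℝ) ≤ K := by exact_mod_cast hTK
  have hk : (T.card : ℝ) * q0 ≤ 1 := le_trans (mul_le_mul_of_nonneg_right hkK h0.le) hK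
  have hmain := Lo_ind h1 h2 F q0 h0 h01 Q T hd hk hQ
  refine le_trans (mul_le_mul_of_nonneg_left ?_ ?_) hmain
  · have hθ0 : 0 ≤ ∏ p ∈ Q, (1 - 1 / ((p : ℝ) - F.card)) := by
      refine prod_nonneg fun s hs => ?_
      have := (hQ s hs).2.1
      linarith
    generalize (∏ p ∈ Q, (1 - 1 / ((p : ℝ) - F.card))) = θ at *
    have hpow : ((1 - q0)⁻¹) ^ T.card * θ ≤ ((1 - q0)⁻¹) ^ K * θ :=
      mul_le_mul_of_nonneg_right (pow_le_pow_right₀ hr1 hTK) hθ0
    refine le_trans ?_ (h2.2 (1 - q0)⁻¹ θ T.card hr1 hθ0 (hpow.trans hθ1))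
    exact pow_le_pow_left₀ (by linarith) (by linarith) _
  · refine prod_nonneg fun s hs => ?_
    have hs1 : F.card < s := (hQ s hs).1
    have hs2 : (F.card : ℝ) < s := by exact_mod_cast hs1
    have hs3 : (0 : ℝ) < s := lt_of_le_of_lt (Nat.cast_nonneg _) hs2
    rw [sub_nonneg, div_le_one hs3]
    exact hs2.le

end Pool.Agent.Lib.SHK
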