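import Pool.Agent.Lib.SHK.Spec

/-!
MP_9a4459_nt, Lib/SHK, module Lrg (helper62): the large primes.
-/

set_option autoImplicit false

namespace Pool.Agent.Lib.SHK

open Finset Filter Topology
open scoped Classical

private lemma Lrg_big {g w : ℕ} (hg : 100 ≤ g) (hw : g ^ 5 ≤ w) : 100000000 * g ≤ w := by
  have h : 100 ^ 4 * g ≤ g ^ 4 * g := Nat.mul_le_mul_right g (Nat.pow_le_pow_left hg 4)
  calc 100000000 * g = 100 ^ 4 * g := by norm_num
    _ ≤ g ^ 4 * g := h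
    _ = g ^ 5 := by ring
    _ ≤ w := hw

/-- two members of an interval of length < p in the same class are equal -/
private lemma Lrg_same {n g p s t : ℕ} (hgp : g < p) (hs : n ≤ s) (hs' : s ≤ n + g) (ht : n ≤ t)
    (ht' : t ≤ n + g) (h : s % p = t % p) : s = t := by
  rcases le_total s t with h1 | h1
  · have h2 : p ∣ t - s := (Nat.modEq_iff_dvd' h1).1 h
    by_contra h3
    have := Nat.le_of_dvd (by omega) h2
    omega
  · have h2 : p ∣ s - t := (Nat.modEq_iff_dvd' h1).1 h.symm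
    by_contra h3
    have := Nat.le_of_dvd (by omega) h2
    omega

private lemma Lrg_mem2 {n g s : ℕ} (h : s ∈ ({n, n + g} : Finset ℕ)) : n ≤ s ∧ s ≤ n + g ∧ (s = n ∨ s = n + g) := by
  rcases mem_insert.1 h with h | h
  · omega
  · have := mem_singleton.1 h
    omega

private lemma Lrg_one_le {s : Finset ℕ} {f : ℕ → ℝ} (h : ∀ i ∈ s, 1 ≤ f i) : 1 ≤ ∏ i ∈ s, f i :=
  Finset.prod_induction f (fun x => 1 ≤ x) (fun _ _ ha hb => one_le_mul_of_one_le_of_one_le ha hb) le_rfl h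

/-- the factors 1 - 1/(p - k) -/
private lemma Lrg_fac {w p k : ℕ} (hw : 100 ≤ w) (hk : k ≤ 4) (hp : w < p) :
    0 ≤ 1 - 1 / ((p : ℝ) - k) ∧ 1 - 1 / ((p : ℝ) - k) ≤ 1 ∧ 0 ≤ 1 - (k : ℝ) / p := by
  have h1 : (w : ℝ) + 1 ≤ p := by exact_mod_cast hp
  have h2 : (100 : ℝ) ≤ w := by exact_mod_cast hw
  have h3 : (k : ℝ) ≤ 4 := by exact_mod_cast hk
  have hk0 : (0 : ℝ) ≤ k := Nat.cast_nonneg k
  have h4 : (1 : ℝ) ≤ p - k := by linarith
  have h5 : 1 / ((p : ℝ) - k) ≤ 1 := by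
    rw [div_le_one (by linarith)]
    exact h4
  have h6 : 0 ≤ 1 / ((p : ℝ) - k) := by
    apply div_nonneg zero_le_one
    linarith
  have h7 : (k : ℝ) / p ≤ 1 := by
    rw [div_le_one (by linarith)]
    linarith
  exact ⟨by linarith, by linarith, by linarith⟩

private lemma Lrg_Th_nonneg {g w Z1 : ℕ} (hw : 100 ≤ w) :
    0 ≤ Th g w Z1 ∧ ∏ p ∈ pr w Z1, (1 - 1 / ((p : ℝ) - 2)) ≤ Th g w Z1 := by
  have h2 : (100 : ℝ) ≤ w := by exact_mod_cast hw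
  have hP : 0 ≤ ∏ p ∈ pr w Z1, (1 - 1 / ((p : ℝ) - 2)) := by
    refine prod_nonneg (fun p hp => ?_)
    have := (Lrg_fac (k := 2) hw (by norm_num) (mem_pr.1 hp).1).1
    simpa using this
  have h3 : 0 ≤ 1 / ((w : ℝ) - 1) := div_nonneg zero_le_one (by linarith)
  have h4 : 1 / ((w : ℝ) - 1) ≤ 1 / 99 := one_div_le_one_div_of_le (by norm_num) (by linarith)
  have h5 : 1 ≤ ((1 - 1 / ((w : ℝ) - 1))⁻¹) ^ g := by
    refine one_le_pow₀ ?_
    rw [one_le_inv₀ (by linarith)]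
    linarith
  unfold Th
  exact ⟨mul_nonneg (by linarith) hP, le_mul_of_one_le_left hP h5⟩

private lemma Lrg_lower (h2 : LoStmt) (h3 : SplStmt) {g w Z1 Z n : ℕ} {T : Finset ℕ} (hg : 100 ≤ g)
    (hw : g ^ 5 ≤ w) (hZ1 : w ≤ Z1) (hZ : Z1 ≤ Z) (hT : T ⊆ Ioo n (n + g)) (hTh : Th g w Z1 ≤ 1 / 4) :
    Vk 2 w Z * (1 - Th g w Z1) ^ T.card ≤ E (pr w Z) (fun a => ind (Ev g w Z1 Z n T a)) := by
  have hF : ({n, n + g} : Finset ℕ).card = 2 := card_pair (by omega)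
  have hbig := Lrg_big hg hw
  have hw100 : 100 ≤ w := by omega
  have hwr : (100000000 : ℝ) * g ≤ w := by exact_mod_cast hbig
  have hgr : (100 : ℝ) ≤ g := by exact_mod_cast hg
  have hmemT : ∀ s ∈ T, n < s ∧ s < n + g := fun s hs => mem_Ioo.1 (hT hs)
  have hmem : ∀ s ∈ ({n, n + g} : Finset ℕ) ∪ T, n ≤ s ∧ s ≤ n + g := by
    intro s hs
    rcases mem_union.1 hs with h | h
    · exact ⟨(Lrg_mem2 h).1, (Lrg_mem2 h).2.1⟩
    · have := hmemT s h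
      omega
  have hinj : ∀ p, w < p → Inj (({n, n + g} : Finset ℕ) ∪ T) p := by
    intro p hp s hs t ht hst
    exact Lrg_same (by omega) (hmem s hs).1 (hmem s hs).2 (hmem t ht).1 (hmem t ht).2 hst
  have e1 : E (pr w Z) (fun a => ind (Ev g w Z1 Z n T a)) = pf (pr w Z1) (pr Z1 Z) {n, n + g} T := by
    unfold pf Ev
    rw [pr_union hZ1 hZ]
  have e2 := (h3 (pr w Z1) (pr Z1 Z) ∅ {n, n + g} T (pr_disjoint _ _ _) (fun p hp => pr_pos hp) (by
    intro p hp s hs t ht hst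
    have hp' := mem_pr.1 (mem_sdiff.1 hp).1
    exact hinj p (by omega) s (mem_union_left _ hs) t (mem_union_left _ ht) hst)).2 (disjoint_empty_right _)
  have hdis : Disjoint ({n, n + g} : Finset ℕ) T := by
    rw [disjoint_left]
    intro s hs ht
    have h4 := Lrg_mem2 hs
    have h5 := hmemT s ht
    omega
  have hTc : T.card ≤ g := by
    have := card_le_card hT
    rw [Nat.card_Ioo] at this
    omega
  have e3 := h2 (pr w Z1) {n, n + g} T (1 / ((w : ℝ) - 1)) g hdis (by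
      apply one_div_pos.2
      linarith) (by
      rw [div_lt_one (by linarith)]
      linarith) (by
      rw [mul_one_div, div_le_one (by linarith)]
      linarith) hTc (by
      intro p hp
      have hp' := (mem_pr.1 hp).1
      have hp2 : (w : ℝ) + 1 ≤ p := by exact_mod_cast hp'
      rw [hF]
      refine ⟨by omega, ?_, hinj p hp'⟩
      refine one_div_le_one_div_of_le (by linarith) ?_
      push_cast
      linarith) (by
      rw [hF]
      have : Th g w Z1 ≤ 1 := by linarith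
      simpa [Th] using this)
  rw [hF] at e3
  have e4 : ((1 - 1 / ((w : ℝ) - 1))⁻¹) ^ g * ∏ p ∈ pr w Z1, (1 - 1 / ((p : ℝ) - ((2 : ℕ) : ℝ))) = Th g w Z1 := by
    simp [Th]
  rw [e4] at e3
  rw [e1, e2, sdiff_empty, hF]
  have e5 : Vk 2 w Z = (∏ p ∈ pr w Z1, (1 - ((2 : ℕ) : ℝ) / p)) * ∏ p ∈ pr Z1 Z, (1 - ((2 : ℕ) : ℝ) / p) := by
    unfold Vk
    rw [← pr_union hZ1 hZ, prod_union (pr_disjoint _ _ _)]
  rw [e5]
  have h0 : 0 ≤ ∏ p ∈ pr Z1 Z, (1 - ((2 : ℕ) : ℝ) / p) := by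
    refine prod_nonneg (fun p hp => ?_)
    have hp' := (mem_pr.1 hp).1
    exact (Lrg_fac (w := w) (k := 2) hw100 (by norm_num) (by omega)).2.2
  calc (∏ p ∈ pr w Z1, (1 - ((2 : ℕ) : ℝ) / p)) * (∏ p ∈ pr Z1 Z, (1 - ((2 : ℕ) : ℝ) / p)) *
        (1 - Th g w Z1) ^ T.card =
      ((∏ p ∈ pr w Z1, (1 - ((2 : ℕ) : ℝ) / p)) * (1 - Th g w Z1) ^ T.card) *
        ∏ p ∈ pr Z1 Z, (1 - ((2 : ℕ) : ℝ) / p) := by ring
    _ ≤ _ := mul_le_mul_of_nonneg_right e3 h0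

private lemma Lrg_mem_bad {w Z g n n' p : ℕ} : p ∈ bad w Z g n n' ↔
    p ∈ pr w Z ∧ ∃ i ∈ Icc 0 g, ∃ i' ∈ Icc 0 g, (n + i) % p = (n' + i') % p := by
  unfold bad
  exact @Finset.mem_filter _ _ (fun _ => Classical.propDecidable _) _ _

/-- the number of bad primes -/
private lemma Lrg_bad (h4 : BadStmt) {g w Z X n n' : ℕ} (hg : 100 ≤ g) (hw : g ^ 5 ≤ w) (hgX : g ≤ X)
    (hn : n ≤ X) (hn' : n' ≤ X) (hsep : n + 2 * g < n' ∨ n' + 2 * g < n) (hX : Real.log (2 * X) ≤ g) :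
    ((bad w Z g n n').card : ℝ) ≤ (g : ℝ) ^ 2 := by
  have hbig := Lrg_big hg hw
  have hgr : (100 : ℝ) ≤ g := by exact_mod_cast hg
  have hwr : (100000000 : ℝ) * g ≤ w := by exact_mod_cast hbig
  have h5 := h4 w Z g n n' X (by omega) hn hn' hgX (by omega)
  have hlog : 3 ≤ Real.log w := by
    rw [Real.le_log_iff_exp_le (by linarith)]
    have e1 : Real.exp 3 = Real.exp 1 ^ 3 := by
      rw [← Real.exp_nat_mul]
      norm_num
    have e2 := Real.exp_one_lt_d9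
    have e3 : Real.exp 1 ^ 3 ≤ 3 ^ 3 := pow_le_pow_left₀ (Real.exp_pos 1).le (by linarith) 3
    rw [e1]
    linarith
  have h6 : (2 * (g : ℝ) + 1) * Real.log (2 * X) ≤ (2 * (g : ℝ) + 1) * g :=
    mul_le_mul_of_nonneg_left hX (by linarith)
  have h7 : ((bad w Z g n n').card : ℝ) * 3 ≤ ((bad w Z g n n').card : ℝ) * Real.log w :=
    mul_le_mul_of_nonneg_left hlog (Nat.cast_nonneg _)
  nlinarith

private lemma Lrg_upper (h1 : UpStmt) (h3 : SplStmt) (h4 : BadStmt) (h6 : PrtStmt)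
    {g w Z1 Z X n n' : ℕ} {T T' : Finset ℕ} (hg : 100 ≤ g)
    (hw : g ^ 5 ≤ w) (hZ1 : w ≤ Z1) (hZ : Z1 ≤ Z) (hgX : g ≤ X) (hn : n ≤ X) (hn' : n' ≤ X)
    (hT : T ⊆ Ioo n (n + g)) (hT' : T' ⊆ Ioo n' (n' + g))
    (hsep : n + 2 * g < n' ∨ n' + 2 * g < n) (hX : Real.log (2 * X) ≤ g) (hTh : Th g w Z1 ≤ 1 / 4) :
    E (pr w Z) (fun a => ind (Ev g w Z1 Z n T a ∧ Ev g w Z1 Z n' T' a)) ≤
      (1 + 30 / (g : ℝ) ^ 2) * ((Vk 2 w Z * (1 - Th g w Z1) ^ T.card) * (Vk 2 w Z * (1 - Th g w Z1) ^ T'.card)) := by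
  have hbig := Lrg_big hg hw
  have hw100 : 100 ≤ w := by omega
  have hwr : (100000000 : ℝ) * g ≤ w := by exact_mod_cast hbig
  have hgr : (100 : ℝ) ≤ g := by exact_mod_cast hg
  have hg5 : (g : ℝ) ^ 5 ≤ w := by exact_mod_cast hw
  have hmemT : ∀ s ∈ T, n < s ∧ s < n + g := fun s hs => mem_Ioo.1 (hT hs)
  have hmemT' : ∀ s ∈ T', n' < s ∧ s < n' + g := fun s hs => mem_Ioo.1 (hT' hs)
  set B := bad w Z g n n' with hB
  have hBc : (B.card : ℝ) ≤ (g : ℝ) ^ 2 := Lrg_bad h4 hg hw hgX hn hn' hsep hX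
  have hBsub : B ⊆ pr w Z := fun p hp => (Lrg_mem_bad.1 hp).1
  set F : Finset ℕ := {n, n + g} ∪ {n', n' + g} with hFdef
  have hFdis : Disjoint ({n, n + g} : Finset ℕ) {n', n' + g} := by
    rw [disjoint_left]
    intro s hs ht
    have a1 := Lrg_mem2 hs
    have a2 := Lrg_mem2 ht
    omega
  have hF : F.card = 4 := by
    rw [hFdef, card_union_of_disjoint hFdis, card_pair (by omega), card_pair (by omega)]
  have hTdis : Disjoint T T' := by
    rw [disjoint_left]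
    intro s hs ht
    have a1 := hmemT s hs
    have a2 := hmemT' s ht
    omega
  have hTc : T.card ≤ g := by
    have := card_le_card hT
    rw [Nat.card_Ioo] at this
    omega
  have hTc' : T'.card ≤ g := by
    have := card_le_card hT'
    rw [Nat.card_Ioo] at this
    omega
  have hTT : (T ∪ T').card = T.card + T'.card := card_union_of_disjoint hTdis
  have hFT : Disjoint F (T ∪ T') := by
    rw [disjoint_left]
    intro s hs ht
    rcases mem_union.1 hs with hs | hs <;> rcases mem_union.1 ht with ht | ht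
    · have a1 := Lrg_mem2 hs
      have a2 := hmemT s ht
      omega
    · have a1 := Lrg_mem2 hs
      have a2 := hmemT' s ht
      omega
    · have a1 := Lrg_mem2 hs
      have a2 := hmemT s ht
      omega
    · have a1 := Lrg_mem2 hs
      have a2 := hmemT' s ht
      omega
  have hmem : ∀ s ∈ F ∪ (T ∪ T'), (n ≤ s ∧ s ≤ n + g) ∨ (n' ≤ s ∧ s ≤ n' + g) := by
    intro s hs
    rcases mem_union.1 hs with hs | hs
    · rcases mem_union.1 hs with hs | hs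
      · have a1 := Lrg_mem2 hs
        omega
      · have a1 := Lrg_mem2 hs
        omega
    · rcases mem_union.1 hs with hs | hs
      · have a2 := hmemT s hs
        omega
      · have a2 := hmemT' s hs
        omega
  -- for the primes outside B the classes are different
  have hcross : ∀ p ∈ pr w Z, p ∉ B → ∀ s t, n ≤ s → s ≤ n + g → n' ≤ t → t ≤ n' + g → s % p ≠ t % p := by
    intro p hp hpB s t b1 b2 b3 b4 hst
    apply hpB
    rw [hB]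
    refine Lrg_mem_bad.2 ⟨hp, s - n, mem_Icc.2 ⟨by omega, by omega⟩, t - n', mem_Icc.2 ⟨by omega, by omega⟩, ?_⟩
    have c1 : n + (s - n) = s := by omega
    have c2 : n' + (t - n') = t := by omega
    rw [c1, c2]
    exact hst
  have hinj : ∀ p ∈ pr w Z, p ∉ B → Inj (F ∪ (T ∪ T')) p := by
    intro p hp hpB s hs t ht hst
    have hp' := (mem_pr.1 hp).1
    rcases hmem s hs with h | h <;> rcases hmem t ht with h' | h'
    · exact Lrg_same (by omega) h.1 h.2 h'.1 h'.2 hst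
    · exact absurd hst (hcross p hp hpB s t h.1 h.2 h'.1 h'.2)
    · exact absurd hst.symm (hcross p hp hpB t s h'.1 h'.2 h.1 h.2)
    · exact Lrg_same (by omega) h.1 h.2 h'.1 h'.2 hst
  have hQZ : pr w Z1 ⊆ pr w Z := by
    rw [← pr_union hZ1 hZ]
    exact subset_union_left
  have hQ'Z : pr Z1 Z ⊆ pr w Z := by
    rw [← pr_union hZ1 hZ]
    exact subset_union_right
  have e1 : E (pr w Z) (fun a => ind (Ev g w Z1 Z n T a ∧ Ev g w Z1 Z n' T' a)) =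
      pf (pr w Z1) (pr Z1 Z) F (T ∪ T') := by
    unfold pf
    rw [pr_union hZ1 hZ]
    refine E_congr (fun a _ => ind_congr ?_)
    unfold Ev Av Ht
    constructor
    · rintro ⟨⟨a1, a2⟩, a3, a4⟩
      refine ⟨fun p hp f hf => ?_, fun t ht => ?_⟩
      · rcases mem_union.1 hf with hf | hf
        · exact a1 p hp f hf
        · exact a3 p hp f hf
      · rcases mem_union.1 ht with ht | ht
        · exact a2 t ht
        · exact a4 t ht
    · rintro ⟨a1, a2⟩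
      exact ⟨⟨fun p hp f hf => a1 p hp f (mem_union_left _ hf), fun t ht => a2 t (mem_union_left _ ht)⟩,
        fun p hp f hf => a1 p hp f (mem_union_right _ hf), fun t ht => a2 t (mem_union_right _ ht)⟩
  have e2 := (h3 (pr w Z1) (pr Z1 Z) B F (T ∪ T') (pr_disjoint _ _ _) (fun p hp => pr_pos hp) (by
    intro p hp s hs t ht hst
    obtain ⟨hp1, hp2⟩ := mem_sdiff.1 hp
    exact hinj p (hQ'Z hp1) hp2 s (mem_union_left _ hs) t (mem_union_left _ ht) hst)).1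
  rw [hF] at e2
  -- the upper bound for the primes in (w, Z1]
  set G := pr w Z1 \ B with hG
  set B' := pr w Z1 ∩ B with hB'
  have hGB : G ∪ B' = pr w Z1 := sdiff_union_inter _ _
  have hGBd : Disjoint G B' := disjoint_sdiff_inter _ _
  have hBpos : ∀ p ∈ pr w Z, 0 ≤ 1 - 1 / ((p : ℝ) - 4) ∧ 1 - 1 / ((p : ℝ) - 4) ≤ 1 - 1 / ((p : ℝ) - 2) ∧
      0 ≤ 1 - (4 : ℝ) / p := by
    intro p hp
    have hp' := (mem_pr.1 hp).1
    have b1 := Lrg_fac (k := 4) hw100 (by norm_num) hp'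
    have hp2 : (w : ℝ) + 1 ≤ p := by exact_mod_cast hp'
    have b2 : 1 / ((p : ℝ) - 2) ≤ 1 / ((p : ℝ) - 4) := one_div_le_one_div_of_le (by linarith) (by linarith)
    refine ⟨by simpa using b1.1, by linarith, by simpa using b1.2.2⟩
  have hB'c : (B'.card : ℝ) ≤ (g : ℝ) ^ 2 := by
    refine le_trans ?_ hBc
    exact_mod_cast card_le_card inter_subset_right
  have hB'prod : 1 / 2 ≤ ∏ p ∈ B', (1 - 1 / ((p : ℝ) - 2)) := by
    have hε0 : 0 ≤ 1 / ((w : ℝ) - 1) := div_nonneg zero_le_one (by linarith)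
    have hε1 : 1 / ((w : ℝ) - 1) ≤ 1 / 99 := one_div_le_one_div_of_le (by norm_num) (by linarith)
    have b1 : (1 - 1 / ((w : ℝ) - 1)) ^ B'.card ≤ ∏ p ∈ B', (1 - 1 / ((p : ℝ) - 2)) := by
      rw [← prod_const]
      refine prod_le_prod (fun p _ => by linarith) (fun p hp => ?_)
      have hp' := (mem_pr.1 (mem_inter.1 hp).1).1
      have hp2 : (w : ℝ) + 1 ≤ p := by exact_mod_cast hp'
      have b2 : 1 / ((p : ℝ) - 2) ≤ 1 / ((w : ℝ) - 1) := one_div_le_one_div_of_le (by linarith) (by linarith)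
      linarith
    have b3 := one_add_mul_le_pow (a := -(1 / ((w : ℝ) - 1))) (by linarith) B'.card
    have b4 : (B'.card : ℝ) * (1 / ((w : ℝ) - 1)) ≤ 1 / 2 := by
      rw [mul_one_div, div_le_iff₀ (by linarith)]
      have b5 : (g : ℝ) ^ 2 * 1000000 ≤ (g : ℝ) ^ 5 := by
        have : (100 : ℝ) ^ 3 ≤ (g : ℝ) ^ 3 := pow_le_pow_left₀ (by norm_num) hgr 3
        have b6 : (0 : ℝ) ≤ (g : ℝ) ^ 2 := by positivity
        calc (g : ℝ) ^ 2 * 1000000 = (g : ℝ) ^ 2 * 100 ^ 3 := by norm_num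
          _ ≤ (g : ℝ) ^ 2 * (g : ℝ) ^ 3 := mul_le_mul_of_nonneg_left this b6
          _ = (g : ℝ) ^ 5 := by ring
      nlinarith
    have b5 : 1 + (B'.card : ℝ) * -(1 / ((w : ℝ) - 1)) = 1 - (B'.card : ℝ) * (1 / ((w : ℝ) - 1)) := by ring
    have b6 : (1 + -(1 / ((w : ℝ) - 1))) = 1 - 1 / ((w : ℝ) - 1) := by ring
    rw [b5, b6] at b3
    linarith
  have hGnn : 0 ≤ ∏ p ∈ G, (1 - 1 / ((p : ℝ) - 2)) := by
    refine prod_nonneg (fun p hp => ?_)
    have := hBpos p (hQZ (mem_sdiff.1 hp).1)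
    linarith
  have hθ : ∏ p ∈ G, (1 - 1 / ((p : ℝ) - 4)) ≤ 1 / 2 := by
    have b1 : ∏ p ∈ G, (1 - 1 / ((p : ℝ) - 4)) ≤ ∏ p ∈ G, (1 - 1 / ((p : ℝ) - 2)) :=
      prod_le_prod (fun p hp => (hBpos p (hQZ (mem_sdiff.1 hp).1)).1)
        (fun p hp => (hBpos p (hQZ (mem_sdiff.1 hp).1)).2.1)
    have b2 : (∏ p ∈ G, (1 - 1 / ((p : ℝ) - 2))) * ∏ p ∈ B', (1 - 1 / ((p : ℝ) - 2)) =
        ∏ p ∈ pr w Z1, (1 - 1 / ((p : ℝ) - 2)) := by
      rw [← prod_union hGBd, hGB]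
    have b3 := (Lrg_Th_nonneg (g := g) (Z1 := Z1) hw100).2
    have b4 : (∏ p ∈ G, (1 - 1 / ((p : ℝ) - 2))) * (1 / 2) ≤
        (∏ p ∈ G, (1 - 1 / ((p : ℝ) - 2))) * ∏ p ∈ B', (1 - 1 / ((p : ℝ) - 2)) :=
      mul_le_mul_of_nonneg_left hB'prod hGnn
    linarith
  have hcast : ((4 : ℕ) : ℝ) = 4 := by norm_num
  have e3 := h1 G B' F (T ∪ T') hGBd hFT (by
      intro p hp
      obtain ⟨hp1, hp2⟩ := mem_sdiff.1 hp
      have hp' := (mem_pr.1 hp1).1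
      rw [hF]
      exact ⟨by omega, hinj p (hQZ hp1) hp2⟩) (by
      intro p hp
      have hp1 := (mem_inter.1 hp).1
      have hp' := (mem_pr.1 hp1).1
      refine ⟨pr_pos hp1, fun r => ?_⟩
      rw [filter_union]
      refine (card_union_le _ _).trans ?_
      have c1 : (T.filter (fun t => t % p = r)).card ≤ 1 := by
        rw [card_le_one]
        intro s hs t ht
        obtain ⟨s1, s2⟩ := mem_filter.1 hs
        obtain ⟨t1, t2⟩ := mem_filter.1 ht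
        have a1 := hmemT s s1
        have a2 := hmemT t t1
        exact Lrg_same (by omega) a1.1.le a1.2.le a2.1.le a2.2.le (s2.trans t2.symm)
      have c2 : (T'.filter (fun t => t % p = r)).card ≤ 1 := by
        rw [card_le_one]
        intro s hs t ht
        obtain ⟨s1, s2⟩ := mem_filter.1 hs
        obtain ⟨t1, t2⟩ := mem_filter.1 ht
        have a1 := hmemT' s s1
        have a2 := hmemT' t t1
        exact Lrg_same (by omega) a1.1.le a1.2.le a2.1.le a2.2.le (s2.trans t2.symm)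
      omega) (by
      rw [hF, hcast]
      exact hθ)
  rw [hGB, hF, hcast] at e3
  rw [hcast] at e2
  set k : ℕ := (T ∪ T').card with hk
  have hk2 : k ≤ 2 * g := by omega
  -- the factors of the primes in B
  have e4 : ∏ p ∈ B', (1 + 4 * (k : ℝ) / p) ≤ ∏ p ∈ B, (1 + 8 * (g : ℝ) / p) := by
    have b1 : ∏ p ∈ B', (1 + 4 * (k : ℝ) / p) ≤ ∏ p ∈ B', (1 + 8 * (g : ℝ) / p) := by
      refine prod_le_prod (fun p _ => by positivity) (fun p hp => ?_)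
      have hk3 : (k : ℝ) ≤ 2 * g := by exact_mod_cast hk2
      have : 4 * (k : ℝ) / p ≤ 8 * (g : ℝ) / p := div_le_div_of_nonneg_right (by linarith) (Nat.cast_nonneg p)
      linarith
    have b2 : ∏ p ∈ B, (1 + 8 * (g : ℝ) / p) = (∏ p ∈ B \ B', (1 + 8 * (g : ℝ) / p)) * ∏ p ∈ B', (1 + 8 * (g : ℝ) / p) :=
      (prod_sdiff inter_subset_right).symm
    have b3 : 1 ≤ ∏ p ∈ B \ B', (1 + 8 * (g : ℝ) / p) := by
      refine Lrg_one_le (fun p _ => ?_)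
      have : 0 ≤ 8 * (g : ℝ) / p := by positivity
      linarith
    rw [b2]
    refine b1.trans (le_mul_of_one_le_left ?_ b3)
    exact prod_nonneg (fun p _ => by positivity)
  have e5 : ∏ p ∈ pr w Z \ B, (1 - (4 : ℝ) / p) = (∏ p ∈ G, (1 - (4 : ℝ) / p)) * ∏ p ∈ pr Z1 Z \ B, (1 - (4 : ℝ) / p) := by
    rw [← pr_union hZ1 hZ, union_sdiff_distrib, prod_union]
    exact (pr_disjoint w Z1 Z).mono sdiff_subset sdiff_subset
  have n1 : 0 ≤ ∏ p ∈ pr Z1 Z \ B, (1 - (4 : ℝ) / p) :=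
    prod_nonneg (fun p hp => (hBpos p (hQ'Z (mem_sdiff.1 hp).1)).2.2)
  have n2 : 0 ≤ ∏ p ∈ G, (1 - (4 : ℝ) / p) :=
    prod_nonneg (fun p hp => (hBpos p (hQZ (mem_sdiff.1 hp).1)).2.2)
  have n3 : 0 ≤ (1 - ∏ p ∈ G, (1 - 1 / ((p : ℝ) - 4))) ^ k := pow_nonneg (by linarith) _
  have hBg : 10 * (g : ℝ) * ((B.card : ℝ) + g) ≤ w := by
    refine le_trans ?_ hg5
    have b1 : (B.card : ℝ) + g ≤ 2 * (g : ℝ) ^ 2 := by nlinarith
    have b2 : 10 * (g : ℝ) * ((B.card : ℝ) + g) ≤ 10 * (g : ℝ) * (2 * (g : ℝ) ^ 2) :=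
      mul_le_mul_of_nonneg_left b1 (by positivity)
    have b3 : (100 : ℝ) ^ 2 ≤ (g : ℝ) ^ 2 := pow_le_pow_left₀ (by norm_num) hgr 2
    have b4 : (0 : ℝ) ≤ (g : ℝ) ^ 3 := by positivity
    have b5 : (g : ℝ) ^ 3 * 100 ^ 2 ≤ (g : ℝ) ^ 3 * (g : ℝ) ^ 2 := mul_le_mul_of_nonneg_left b3 b4
    nlinarith
  have e6 := h6 g w Z1 Z k B hg hw hZ1 hZ hBsub hk2 hTh hBg
  have e7 : 20 * (g : ℝ) * ((B.card : ℝ) + g) / w ≤ 30 / (g : ℝ) ^ 2 := by
    rw [div_le_div_iff₀ (by linarith) (by positivity)]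
    have b1 : (B.card : ℝ) + g ≤ (g : ℝ) ^ 2 + g := by linarith
    have b2 : 20 * (g : ℝ) * ((B.card : ℝ) + g) * (g : ℝ) ^ 2 ≤ 20 * (g : ℝ) * ((g : ℝ) ^ 2 + g) * (g : ℝ) ^ 2 :=
      mul_le_mul_of_nonneg_right (mul_le_mul_of_nonneg_left b1 (by positivity)) (by positivity)
    have b3 : 20 * (g : ℝ) * ((g : ℝ) ^ 2 + g) * (g : ℝ) ^ 2 ≤ 30 * (g : ℝ) ^ 5 := by
      have b4 : (0 : ℝ) ≤ (g : ℝ) ^ 4 := by positivity
      have b5 : (g : ℝ) ^ 5 = (g : ℝ) ^ 4 * g := by ring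
      have b6 : (g : ℝ) ^ 4 * 100 ≤ (g : ℝ) ^ 4 * g := mul_le_mul_of_nonneg_left hgr b4
      have b7 : 20 * (g : ℝ) * ((g : ℝ) ^ 2 + g) * (g : ℝ) ^ 2 = 20 * ((g : ℝ) ^ 4 * g) + 20 * (g : ℝ) ^ 4 := by ring
      rw [b7, b5]
      linarith
    linarith
  have hVk0 : 0 ≤ Vk 2 w Z := by
    refine prod_nonneg (fun p hp => ?_)
    exact (Lrg_fac (k := 2) hw100 (by norm_num) (mem_pr.1 hp).1).2.2
  have hTh1 : 0 ≤ 1 - Th g w Z1 := by linarith
  rw [e1]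
  refine e2.trans ?_
  calc pe (pr w Z1) F (T ∪ T') * ∏ p ∈ pr Z1 Z \ B, (1 - (4 : ℝ) / p) ≤
      ((∏ p ∈ G, (1 - (4 : ℝ) / p)) * (1 - ∏ p ∈ G, (1 - 1 / ((p : ℝ) - 4))) ^ k *
        ∏ p ∈ B', (1 + 4 * (k : ℝ) / p)) * ∏ p ∈ pr Z1 Z \ B, (1 - (4 : ℝ) / p) :=
        mul_le_mul_of_nonneg_right e3 n1
    _ ≤ ((∏ p ∈ G, (1 - (4 : ℝ) / p)) * (1 - ∏ p ∈ G, (1 - 1 / ((p : ℝ) - 4))) ^ k *
        ∏ p ∈ B, (1 + 8 * (g : ℝ) / p)) * ∏ p ∈ pr Z1 Z \ B, (1 - (4 : ℝ) / p) :=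
        mul_le_mul_of_nonneg_right (mul_le_mul_of_nonneg_left e4 (mul_nonneg n2 n3)) n1
    _ = (∏ p ∈ pr w Z \ B, (1 - (4 : ℝ) / p)) * (1 - ∏ p ∈ G, (1 - 1 / ((p : ℝ) - 4))) ^ k *
        ∏ p ∈ B, (1 + 8 * (g : ℝ) / p) := by rw [e5]; ring
    _ ≤ (1 + 20 * (g : ℝ) * ((B.card : ℝ) + g) / w) * ((Vk 2 w Z) ^ 2 * (1 - Th g w Z1) ^ k) := e6
    _ ≤ (1 + 30 / (g : ℝ) ^ 2) * ((Vk 2 w Z) ^ 2 * (1 - Th g w Z1) ^ k) :=
        mul_le_mul_of_nonneg_right (by linarith) (by positivity)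
    _ = _ := by rw [hTT, pow_add]; ring

theorem tLrg (h1 : UpStmt) (h2 : LoStmt) (h3 : SplStmt) (h4 : BadStmt) (h5 : CheStmt) (h6 : PrtStmt) :
    LrgStmt := by
  intro g w Z1 Z X M T k0 hg hw hZ1 hZ hgX hM hsep hX hTh hcard
  have hbig := Lrg_big hg hw
  have hw100 : 100 ≤ w := by omega
  have hgr : (100 : ℝ) ≤ g := by exact_mod_cast hg
  have hg2 : (0 : ℝ) < (g : ℝ) ^ 2 := by positivity
  have hTh0 := (Lrg_Th_nonneg (g := g) (Z1 := Z1) hw100).1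
  have hVk0 : 0 ≤ Vk 2 w Z := by
    refine prod_nonneg (fun p hp => ?_)
    exact (Lrg_fac (k := 2) hw100 (by norm_num) (mem_pr.1 hp).1).2.2
  set q : ℕ → ℝ := fun n => E (pr w Z) (fun a => ind (Ev g w Z1 Z n (T n) a)) with hq
  have hlow : ∀ n ∈ M, Vk 2 w Z * (1 - Th g w Z1) ^ (T n).card ≤ q n := fun n hn =>
    Lrg_lower h2 h3 hg hw hZ1 hZ (hM n hn).2.1 hTh
  have hlow2 : ∀ n ∈ M, Vk 2 w Z * (1 - Th g w Z1) ^ k0 ≤ q n := by
    intro n hn
    refine le_trans ?_ (hlow n hn)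
    refine mul_le_mul_of_nonneg_left ?_ hVk0
    rw [← Real.rpow_natCast]
    exact Real.rpow_le_rpow_of_exponent_ge (by linarith) (by linarith) (hM n hn).2.2
  have hsum : (g : ℝ) ^ 2 ≤ ∑ n ∈ M, q n := by
    refine hcard.trans ?_
    have := card_nsmul_le_sum M q _ hlow2
    rw [nsmul_eq_mul] at this
    exact this
  have hρ : (0 : ℝ) ≤ 30 / (g : ℝ) ^ 2 := by positivity
  have h7 := h5 (pr w Z) M (fun n a => Ev g w Z1 Z n (T n) a) (30 / (g : ℝ) ^ 2) (fun p hp => pr_pos hp) hρ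
    (lt_of_lt_of_le hg2 hsum) (by
    intro n hn n' hn' hne
    refine (Lrg_upper h1 h3 h4 h6 hg hw hZ1 hZ hgX (hM n hn).1 (hM n' hn').1 (hM n hn).2.1 (hM n' hn').2.1
      (hsep n hn n' hn' hne) hX hTh).trans ?_
    refine mul_le_mul_of_nonneg_left ?_ (by positivity)
    exact mul_le_mul (hlow n hn) (hlow n' hn') (mul_nonneg hVk0 (pow_nonneg (by linarith) _))
      (E_nonneg (fun a _ => ind_nonneg _)))
  refine h7.trans ?_
  have h8 : 1 / (∑ n ∈ M, q n) ≤ 1 / (g : ℝ) ^ 2 := one_div_le_one_div_of_le hg2 hsum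
  have h9 : 1 / (g : ℝ) ^ 2 + 30 / (g : ℝ) ^ 2 ≤ 200 / (g : ℝ) ^ 2 := by
    rw [← add_div]
    exact div_le_div_of_nonneg_right (by norm_num) hg2.le
  have h10 : 1 / (∑ n ∈ M, q n) + 30 / (g : ℝ) ^ 2 ≤ 1 / (g : ℝ) ^ 2 + 30 / (g : ℝ) ^ 2 := by linarith
  exact h10.trans h9

end Pool.Agent.Lib.SHK
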