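import Pool.Agent.Lib.SHK.Spec

/-!
MP_9a4459_nt, Lib/SHK, module Mf: the assembly over all primes (see SHK/Spec.lean, MfStmt).
-/

set_option autoImplicit false

namespace Pool.Agent.Lib.SHK

open Finset Filter Topology
open scoped Classical

/-- the combined system of classes -/
private def Mf_cmb (Q : Finset ℕ) (a b : ℕ → ℕ) : ℕ → ℕ := fun p => if p ∈ Q then a p else b p

private theorem Mf_start (m b D : ℕ) (hD : 0 < D) :
    ∃ n0 : ℕ, m < n0 ∧ n0 ≤ m + D ∧ n0 ≡ b [MOD D] := by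
  have h1 : m + 1 ≤ D * (m + 1) := Nat.le_mul_of_pos_left _ hD
  refine ⟨m + 1 + (b + D * (m + 1) - (m + 1)) % D, by omega, ?_, ?_⟩
  · have := Nat.mod_lt (b + D * (m + 1) - (m + 1)) hD
    omega
  · have h2 : m + 1 + (b + D * (m + 1) - (m + 1)) % D ≡
        m + 1 + (b + D * (m + 1) - (m + 1)) [MOD D] :=
      Nat.ModEq.add_left _ (Nat.mod_modEq _ _)
    have h3 : m + 1 + (b + D * (m + 1) - (m + 1)) = b + D * (m + 1) := by omega
    rw [h3] at h2
    refine h2.trans ?_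
    simp

private theorem Mf_Vk1_nonneg (x y : ℕ) : 0 ≤ Vk 1 x y := by
  refine prod_nonneg fun p hp => ?_
  have h1 : (1 : ℝ) ≤ p := by exact_mod_cast pr_pos hp
  have h2 : (0 : ℝ) < p := by linarith
  have h3 : ((1 : ℕ) : ℝ) / p ≤ 1 := by
    rw [div_le_one h2]
    exact_mod_cast h1
  linarith

private theorem Mf_Vk2_nonneg (x y : ℕ) : 0 ≤ Vk 2 x y := by
  refine prod_nonneg fun p hp => ?_
  have h1 : 2 ≤ p := (mem_pr.1 hp).2.2.two_le
  have h0 : (2 : ℝ) ≤ p := by exact_mod_cast h1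
  have h2 : (0 : ℝ) < p := by linarith
  have h3 : ((2 : ℕ) : ℝ) / p ≤ 1 := by
    rw [div_le_one h2]
    exact_mod_cast h1
  linarith

/-- Ev for the large primes gives Good for the combined classes -/
private theorem Mf_good {x g y w Z1 Z D β n : ℕ} {S Tn : Finset ℕ} {a b : ℕ → ℕ}
    (hyw : y ≤ w) (hwZ : w ≤ Z1)
    (hn1 : x / 2 < n) (hn2 : n + g ≤ x) (hnβ : n ≡ β [MOD D])
    (hβ : ∀ n : ℕ, n ≡ β [MOD D] →
        (∀ p ∈ pr 0 y, n % p ≠ a p ∧ (n + g) % p ≠ a p) ∧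
        ∀ j ∈ Ioo 0 g, j ∉ S → ∃ p ∈ pr 0 y, (n + j) % p = a p)
    (hmed : ∀ p ∈ pr y w, n % p ≠ a p ∧ (n + g) % p ≠ a p)
    (hTn : ∀ j ∈ S, (∀ p ∈ pr y w, (n + j) % p ≠ a p) → n + j ∈ Tn)
    (hev : Ev g w Z1 Z n Tn b) :
    Good x g Z1 Z (Mf_cmb (pr 0 w) a b) := by
  have hc1 : ∀ p, p.Prime → p ≤ w → Mf_cmb (pr 0 w) a b p = a p := by
    intro p hp hpw
    have : p ∈ pr 0 w := mem_pr.2 ⟨hp.pos, hpw, hp⟩
    simp [Mf_cmb, this]
  have hc2 : ∀ p, w < p → Mf_cmb (pr 0 w) a b p = b p := by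
    intro p hpw
    have : p ∉ pr 0 w := fun h => absurd (mem_pr.1 h).2.1 (not_le.2 hpw)
    simp [Mf_cmb, this]
  obtain ⟨hb1, hb2⟩ := hβ n hnβ
  obtain ⟨hA, hH⟩ := hev
  refine ⟨n, hn1, hn2, ?_, ?_⟩
  · intro p hp f hf
    obtain ⟨hp0, hpZ, hpp⟩ := mem_pr.1 hp
    rcases le_or_gt p w with hpw | hpw
    · rw [hc1 p hpp hpw]
      have key : n % p ≠ a p ∧ (n + g) % p ≠ a p := by
        rcases le_or_gt p y with hpy | hpy
        · exact hb1 p (mem_pr.2 ⟨hp0, hpy, hpp⟩)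
        · exact hmed p (mem_pr.2 ⟨hpy, hpw, hpp⟩)
      rcases mem_insert.1 hf with h | h
      · rw [h]; exact key.1
      · rw [mem_singleton.1 h]; exact key.2
    · rw [hc2 p hpw]
      exact hA p (mem_pr.2 ⟨hpw, hpZ, hpp⟩) f hf
  · intro j hj
    by_cases hjS : j ∈ S
    · by_cases hm : ∃ p ∈ pr y w, (n + j) % p = a p
      · obtain ⟨p, hp, hpe⟩ := hm
        obtain ⟨hpy, hpw, hpp⟩ := mem_pr.1 hp
        exact ⟨p, mem_pr.2 ⟨hpp.pos, hpw.trans hwZ, hpp⟩, by rw [hc1 p hpp hpw]; exact hpe⟩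
      · have hm' : ∀ p ∈ pr y w, (n + j) % p ≠ a p := fun p hp he => hm ⟨p, hp, he⟩
        obtain ⟨p, hp, hpe⟩ := hH (n + j) (hTn j hjS hm')
        obtain ⟨hpw, hpZ, hpp⟩ := mem_pr.1 hp
        exact ⟨p, mem_pr.2 ⟨hpp.pos, hpZ, hpp⟩, by rw [hc2 p hpw]; exact hpe⟩
    · obtain ⟨p, hp, hpe⟩ := hb2 j hj hjS
      obtain ⟨hp0, hpy, hpp⟩ := mem_pr.1 hp
      exact ⟨p, mem_pr.2 ⟨hpp.pos, (hpy.trans hyw).trans hwZ, hpp⟩, by
        rw [hc1 p hpp (hpy.trans hyw)]; exact hpe⟩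

theorem tMf (h1 : SmlStmt) (h2 : MedStmt) (h3 : LrgStmt) (h4 : NumCStmt) : MfStmt := by
  intro c z hc hc1 hz
  obtain ⟨η, δ, hη, hδ, hδ4, hnum⟩ := h4 c z hc hc1 hz
  have hδ1 : δ ≤ 1 := by linarith
  obtain ⟨g1, hsml⟩ := h1 δ (max 1 (2 / η ^ 2)) hδ hδ1 (le_max_left _ _)
  obtain ⟨c', hc', R, y0, hmed⟩ := h2 δ hδ hδ1
  obtain ⟨g2, hnum2⟩ := hnum c' R y0 hc'
  refine ⟨max g1 g2, fun g hg hev => ?_⟩
  obtain ⟨a1, a2, a3, a4, a5, a6, a7, a8, a9, a10, a11, a12, a13, a14, a15⟩ :=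
    hnum2 g (le_trans (le_max_right _ _) hg)
  have hg1 : g1 ≤ g := le_trans (le_max_left _ _) hg
  generalize hx : xx c g = x at *
  generalize hy : yy η g = y at *
  generalize hw : g ^ 5 = w at *
  generalize hZ1 : z (x / 2) = Z1 at *
  generalize hZ : z x = Z at *
  generalize hD : primorial y = D at *
  generalize hN : NN c η g = N at *
  have hNval : N = (x / 2 - g) / D := by
    rw [← hN, ← hD, ← hx, ← hy]
    rfl
  have hDpos : 0 < D := by
    rw [← hD]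
    exact primorial_pos y
  have hgC : (g : ℝ) ≤ max 1 (2 / η ^ 2) * (y : ℝ) ^ 2 :=
    a4.trans (mul_le_mul_of_nonneg_right (le_max_right _ _) (by positivity))
  rw [← pr_union (Nat.zero_le w) (a12.trans a13), E_union (pr_disjoint 0 w Z)]
  have key : ∀ a, Box (pr 0 w) a → E (pr w Z) (fun b => ind (¬ Good x g Z1 Z
      (fun p => if p ∈ pr 0 w then a p else b p))) ≤ 200 / (g : ℝ) ^ 2 := by
    intro a ha
    obtain ⟨β, S, hS, hScard, hβ⟩ := hsml g y a hg1 hev a3 hgC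
      (fun p hp => ha.1 p (mem_pr.2 ⟨(mem_pr.1 hp).1, (mem_pr.1 hp).2.1.trans a6, (mem_pr.1 hp).2.2⟩))
    rw [hD] at hβ
    obtain ⟨n0, hn01, hn02, hn03⟩ := Mf_start (x / 2) β D hDpos
    have hmed' := hmed y w g N n0 D a S a2 a6 a7 (by omega) a5 a8 hS (by
      intro p hp
      obtain ⟨hpy, hpw, hpp⟩ := mem_pr.1 hp
      refine ⟨?_, ha.1 p (mem_pr.2 ⟨hpp.pos, hpw, hpp⟩)⟩
      rw [Nat.Prime.coprime_iff_not_dvd hpp, ← hD, hpp.dvd_primorial_iff]
      exact not_le.2 hpy)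
    set G : Finset ℕ := (range N).filter (fun t =>
      (∀ p ∈ pr y w, (n0 + D * t) % p ≠ a p ∧ (n0 + D * t + g) % p ≠ a p) ∧
      ((S.filter (fun j => ∀ p ∈ pr y w, (n0 + D * t + j) % p ≠ a p)).card : ℝ) ≤
        (1 + δ) * (S.card * Vk 1 y w)) with hG
    have hinj : Function.Injective (fun t : ℕ => n0 + D * t) := by
      intro s t hst
      have : D * s = D * t := by simpa using hst
      exact Nat.eq_of_mul_eq_mul_left hDpos this
    set M : Finset ℕ := G.image (fun t => n0 + D * t) with hM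
    have hMcard : M.card = G.card := card_image_of_injective _ hinj
    set T : ℕ → Finset ℕ := fun n =>
      (S.filter (fun j => ∀ p ∈ pr y w, (n + j) % p ≠ a p)).image (fun j => n + j) with hT
    -- the range of the members of M
    have hrange : ∀ t, t < N → n0 + D * t + g ≤ x := by
      intro t ht
      have h5 : D * N ≤ x / 2 - g := by
        rw [hNval]
        exact Nat.mul_div_le _ _
      have h6 : D * (t + 1) ≤ D * N := Nat.mul_le_mul_left D ht
      have h7 : D * (t + 1) = D * t + D := by ring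
      omega
    have hk0 : ∀ t ∈ G, ((T (n0 + D * t)).card : ℝ) ≤
        (1 + δ) * ((1 + δ) * (g / Real.log g) * Vk 1 y w) := by
      intro t ht
      have h5 : ((T (n0 + D * t)).card : ℝ) ≤
          ((S.filter (fun j => ∀ p ∈ pr y w, (n0 + D * t + j) % p ≠ a p)).card : ℝ) := by
        exact_mod_cast card_image_le
      have h6 := (mem_filter.1 ht).2.2
      refine h5.trans (h6.trans ?_)
      refine mul_le_mul_of_nonneg_left ?_ (by linarith)
      exact mul_le_mul_of_nonneg_right hScard (Mf_Vk1_nonneg y w)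
    have hM1 : ∀ n ∈ M, n ≤ x ∧ T n ⊆ Ioo n (n + g) ∧ ((T n).card : ℝ) ≤
        (1 + δ) * ((1 + δ) * (g / Real.log g) * Vk 1 y w) := by
      intro n hn
      obtain ⟨t, ht, rfl⟩ := mem_image.1 hn
      have htN : t < N := mem_range.1 (mem_filter.1 ht).1
      have h5 := hrange t htN
      refine ⟨by omega, ?_, hk0 t ht⟩
      intro m hm
      obtain ⟨j, hj, rfl⟩ := mem_image.1 hm
      have hj' := mem_Ioo.1 (hS (mem_filter.1 hj).1)
      exact mem_Ioo.2 ⟨by omega, by omega⟩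
    have hM2 : ∀ n ∈ M, ∀ n' ∈ M, n ≠ n' → n + 2 * g < n' ∨ n' + 2 * g < n := by
      intro n hn n' hn' hne
      obtain ⟨t, -, rfl⟩ := mem_image.1 hn
      obtain ⟨t', -, rfl⟩ := mem_image.1 hn'
      have hD2 : 2 * g < D := a9
      rcases lt_trichotomy t t' with h | h | h
      · left
        have h6 : D * (t + 1) ≤ D * t' := Nat.mul_le_mul_left D h
        have h7 : D * (t + 1) = D * t + D := by ring
        show n0 + D * t + 2 * g < n0 + D * t'
        omega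
      · exact absurd (by rw [h]) hne
      · right
        have h6 : D * (t' + 1) ≤ D * t := Nat.mul_le_mul_left D h
        have h7 : D * (t' + 1) = D * t' + D := by ring
        show n0 + D * t' + 2 * g < n0 + D * t
        omega
    have hTh : (0 : ℝ) ≤ Vk 2 w Z * (1 - Th g w Z1) ^
        ((1 + δ) * ((1 + δ) * (g / Real.log g) * Vk 1 y w)) := by
      refine mul_nonneg (Mf_Vk2_nonneg w Z) (Real.rpow_nonneg ?_ _)
      linarith
    have hlast : (g : ℝ) ^ 2 ≤ M.card * (Vk 2 w Z * (1 - Th g w Z1) ^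
        ((1 + δ) * ((1 + δ) * (g / Real.log g) * Vk 1 y w))) := by
      refine a15.trans ?_
      rw [hMcard]
      exact mul_le_mul_of_nonneg_right hmed' hTh
    have h5 := h3 g w Z1 Z x M T _ a1 (le_of_eq hw) a12 a13 a10 hM1 hM2 a11 a14 hlast
    refine le_trans (E_le fun b _ => ind_mono ?_) h5
    intro hnot n hn hevn
    apply hnot
    obtain ⟨t, ht, rfl⟩ := mem_image.1 hn
    have htN : t < N := mem_range.1 (mem_filter.1 ht).1
    have hnβ : n0 + D * t ≡ β [MOD D] := by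
      have h6 : n0 + D * t ≡ n0 + 0 [MOD D] :=
        Nat.ModEq.add_left _ ((Nat.modEq_zero_iff_dvd).2 (dvd_mul_right _ _))
      exact h6.trans hn03
    exact Mf_good (a := a) (b := b) (S := S) (D := D) (β := β) a6 a12
      (by show x / 2 < n0 + D * t; omega) (hrange t htN) hnβ hβ ((mem_filter.1 ht).2.1)
      (fun j hj hjm => mem_image.2 ⟨j, mem_filter.2 ⟨hj, hjm⟩, rfl⟩) hevn
  refine le_trans (E_le key) (le_of_eq ?_)
  exact E_const (fun p hp => pr_pos hp) _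

end Pool.Agent.Lib.SHK
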