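import Pool.Agent.Lib.SHK.Spec

/-!
Module Msr: from means to probabilities (independence).
-/

set_option autoImplicit false

namespace Pool.Agent.Lib.SHK

open Finset Filter Topology
open scoped Classical

open MeasureTheory in
private theorem Msr_sum.{u} {Ω : Type u} [MeasurableSpace Ω] (P : Measure Ω)
    [IsProbabilityMeasure P] (X : Ω → ℕ) (hX : Measurable X) (p : ℕ) (hp : 0 < p)
    (h : ∀ r < p, P {ω | X ω = r} = ENNReal.ofReal (1 / p)) (S : Set Ω) (hS : MeasurableSet S) :
    P S = ∑ r ∈ range p, P (S ∩ {ω | X ω = r}) := by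
  have h1 : ∀ T : Set Ω, MeasurableSet T →
      P (T ∩ {ω | X ω < p}) = ∑ r ∈ range p, P (T ∩ {ω | X ω = r}) := by
    intro T hT
    have h2 : T ∩ {ω | X ω < p} = ⋃ r ∈ range p, (T ∩ {ω | X ω = r}) := by
      ext ω
      simp only [Set.mem_inter_iff, Set.mem_ofPred_eq, Set.mem_iUnion, mem_range]
      constructor
      · rintro ⟨h3, h4⟩
        exact ⟨X ω, h4, h3, rfl⟩
      · rintro ⟨r, h3, h4, h5⟩
        exact ⟨h4, h5 ▸ h3⟩
    rw [h2, measure_biUnion_finset]
    · intro r _ r' _ hne
      exact Set.disjoint_left.2 fun ω h3 h4 => hne (h3.2.symm.trans h4.2)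
    · intro r _
      exact hT.inter (hX (measurableSet_singleton r))
  have h2 : P {ω | X ω < p} = 1 := by
    have h3 := h1 Set.univ MeasurableSet.univ
    simp only [Set.univ_inter] at h3
    rw [h3, Finset.sum_congr rfl (fun r hr => h r (mem_range.1 hr)), sum_const, card_range,
      nsmul_eq_mul, ← ENNReal.ofReal_natCast, ← ENNReal.ofReal_mul (Nat.cast_nonneg p),
      mul_one_div_cancel (by positivity), ENNReal.ofReal_one]
  have h3 : P {ω | X ω < p}ᶜ = 0 :=
    (prob_compl_eq_zero_iff (hX measurableSet_Iio)).2 h2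
  rw [← h1 S hS, measure_inter_conull h3]

private theorem Msr_fac (Q : Finset ℕ) (Φ : (ℕ → ℕ) → Prop)
    (hΦ : ∀ a b : ℕ → ℕ, (∀ p ∈ Q, a p = b p) → (Φ a ↔ Φ b)) :
    ∃ T : Set (Q → ℕ), ∀ a : ℕ → ℕ, Φ a ↔ (fun i : Q => a i) ∈ T := by
  refine ⟨{v | Φ (fun n => if h : n ∈ Q then v ⟨n, h⟩ else 0)}, fun a => ?_⟩
  refine hΦ _ _ fun p hp => ?_
  simp [hp]

open MeasureTheory Pool.Agent.Results.MP_9a4459_nt in
theorem tMsr.{u} : MsrStmt.{u} := by
  intro Ω _ P _ a ha Q
  induction Q using Finset.induction_on with
  | empty =>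
    intro Φ _ hΦ
    rw [E_empty]
    by_cases h : Φ (fun _ => 0)
    · have h1 : {ω | Φ (fun p => a p ω)} = Set.univ :=
        Set.eq_univ_of_forall fun ω => (hΦ _ _ (by simp)).1 h
      rw [ind_pos h, ENNReal.ofReal_one, h1, measure_univ]
    · have h1 : {ω | Φ (fun p => a p ω)} = ∅ :=
        Set.eq_empty_of_forall_notMem fun ω h' => h ((hΦ _ _ (by simp)).1 h')
      rw [ind_neg h, ENNReal.ofReal_zero, h1, measure_empty]
  | insert p Q hp ih =>
    intro Φ hprime hΦ
    have hpp : 0 < p := (hprime p (mem_insert_self p Q)).pos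
    have hX := ha.unif p (hprime p (mem_insert_self p Q))
    -- measurability
    have hmeas : MeasurableSet {ω | Φ (fun p => a p ω)} := by
      obtain ⟨T, hT⟩ := Msr_fac _ Φ hΦ
      have h1 : {ω | Φ (fun p => a p ω)} =
          (fun ω (i : (insert p Q : Finset ℕ)) => a i ω) ⁻¹' T := by
        ext ω
        exact hT (fun q => a q ω)
      have h2 : MeasurableSet T := MeasurableSet.of_discrete
      have h3 : Measurable (fun ω (i : (insert p Q : Finset ℕ)) => a i ω) :=
        measurable_pi_lambda _ fun i => ha.meas i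
      rw [h1]
      exact h3 h2
    rw [Msr_sum P (a p) (ha.meas p) p hpp hX _ hmeas, E_insert hp]
    have hΨ : ∀ r : ℕ, ∀ b c : ℕ → ℕ, (∀ q ∈ Q, b q = c q) →
        (Φ (Function.update b p r) ↔ Φ (Function.update c p r)) := by
      intro r b c hbc
      refine hΦ _ _ fun q hq => ?_
      rcases mem_insert.1 hq with h | h
      · subst h
        simp
      · have hne : q ≠ p := fun he => hp (he ▸ h)
        rw [Function.update_of_ne hne, Function.update_of_ne hne]
        exact hbc q h
    have hr : ∀ r ∈ range p, P ({ω | Φ (fun q => a q ω)} ∩ {ω | a p ω = r}) =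
        ENNReal.ofReal (E Q (fun b => ind (Φ (Function.update b p r))) / p) := by
      intro r hr
      obtain ⟨T, hT⟩ := Msr_fac Q (fun b => Φ (Function.update b p r)) (hΨ r)
      have h1 : {ω | Φ (fun q => a q ω)} ∩ {ω | a p ω = r} =
          (fun ω (i : ({p} : Finset ℕ)) => a i ω) ⁻¹' {v | v ⟨p, mem_singleton_self p⟩ = r} ∩
          (fun ω (i : Q) => a i ω) ⁻¹' T := by
        ext ω
        constructor
        · rintro ⟨h3, h4⟩
          refine ⟨h4, (hT (fun q => a q ω)).1 ?_⟩
          have h5 : Function.update (fun q => a q ω) p r = fun q => a q ω := by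
            have h6 : a p ω = r := h4
            rw [← h6]
            exact Function.update_eq_self p (fun q => a q ω)
          change Φ (Function.update (fun q => a q ω) p r)
          rw [h5]
          exact h3
        · rintro ⟨h3, h4⟩
          refine ⟨?_, h3⟩
          have h7 := (hT (fun q => a q ω)).2 h4
          have h5 : Function.update (fun q => a q ω) p r = fun q => a q ω := by
            have h6 : a p ω = r := h3
            rw [← h6]
            exact Function.update_eq_self p (fun q => a q ω)
          change Φ (Function.update (fun q => a q ω) p r) at h7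
          rw [h5] at h7
          exact h7
      have h2 := ha.indep.indepFun_finset ({p} : Finset ℕ) Q
        (disjoint_singleton_left.2 hp) ha.meas
      rw [h1, h2.measure_inter_preimage_eq_mul _ _ MeasurableSet.of_discrete
        MeasurableSet.of_discrete]
      have h3 := ih (fun b => Φ (Function.update b p r))
        (fun q hq => hprime q (mem_insert_of_mem hq)) (hΨ r)
      have h4 : (fun ω (i : Q) => a i ω) ⁻¹' T = {ω | Φ (Function.update (fun q => a q ω) p r)} := by
        ext ω
        exact (hT (fun q => a q ω)).symm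
      have h5 : (fun ω (i : ({p} : Finset ℕ)) => a i ω) ⁻¹'
          {v | v ⟨p, mem_singleton_self p⟩ = r} = {ω | a p ω = r} := rfl
      rw [h4, h5, h3, hX r (mem_range.1 hr), ← ENNReal.ofReal_mul (by positivity)]
      congr 1
      ring
    rw [Finset.sum_congr rfl hr, ← ENNReal.ofReal_sum_of_nonneg, sum_div]
    intro r _
    exact div_nonneg (E_nonneg fun b _ => ind_nonneg _) (Nat.cast_nonneg p)

end Pool.Agent.Lib.SHK
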