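import Pool.Agent.Lib.SHK.Spec

/-!
Lib/SHK, module Mta: an Abelian theorem.
-/

set_option autoImplicit false

namespace Pool.Agent.Lib.SHK

open Finset Filter Topology
open scoped Classical

private lemma Mta_int : MeasureTheory.IntegrableOn (fun v : ℝ => |Real.log v| * Real.exp (-v)) (Set.Ioi 0) := by
  have h1 := Real.GammaIntegral_convergent (s := 1 / 2) (by norm_num)
  have h2 := Real.GammaIntegral_convergent (s := 2) (by norm_num)
  have h3 := (h1.const_mul 2).add h2
  refine MeasureTheory.Integrable.mono' h3 ?_ ?_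
  · exact ((Real.measurable_log.abs).mul (Real.measurable_exp.comp measurable_neg)).aestronglyMeasurable
  · rw [MeasureTheory.ae_restrict_iff' measurableSet_Ioi]
    refine Filter.Eventually.of_forall fun v hv => ?_
    have hv0 : (0 : ℝ) < v := hv
    rw [Real.norm_of_nonneg (by positivity)]
    show |Real.log v| * Real.exp (-v) ≤ 2 * (Real.exp (-v) * v ^ ((1 : ℝ) / 2 - 1)) +
      Real.exp (-v) * v ^ ((2 : ℝ) - 1)
    have e1 : (2 : ℝ) - 1 = 1 := by norm_num
    rw [e1, Real.rpow_one]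
    have hpow : 0 < v ^ ((1 : ℝ) / 2 - 1) := Real.rpow_pos_of_pos hv0 _
    have hlog : |Real.log v| ≤ 2 * v ^ ((1 : ℝ) / 2 - 1) + v := by
      rw [abs_le]
      constructor
      · have := Real.log_le_sub_one_of_pos hpow
        rw [Real.log_rpow hv0] at this
        nlinarith [hv0.le]
      · have := Real.log_le_sub_one_of_pos hv0
        linarith
    nlinarith [Real.exp_pos (-v)]

private lemma Mta_log : ∫ v in Set.Ioi (0 : ℝ), Real.log v * Real.exp (-v) =
    -Real.eulerMascheroniConstant := by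
  have h1 := Complex.hasDerivAt_GammaIntegral (s := 1) (by simp)
  have h2 : HasDerivAt Complex.GammaIntegral (-(Real.eulerMascheroniConstant : ℂ)) 1 := by
    refine Complex.hasDerivAt_Gamma_one.congr_of_eventuallyEq ?_
    have : {s : ℂ | 0 < s.re} ∈ 𝓝 (1 : ℂ) :=
      (isOpen_lt continuous_const Complex.continuous_re).mem_nhds (by simp)
    filter_upwards [this] with s hs
    exact (Complex.Gamma_eq_integral hs).symm
  have h3 := h1.unique h2
  have h4 : (∫ t : ℝ in Set.Ioi 0, (t : ℂ) ^ ((1 : ℂ) - 1) * ((Real.log t : ℂ) * (Real.exp (-t) : ℂ))) =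
      ((∫ t : ℝ in Set.Ioi 0, Real.log t * Real.exp (-t) : ℝ) : ℂ) := by
    rw [← integral_complex_ofReal]
    refine MeasureTheory.setIntegral_congr_fun measurableSet_Ioi fun t _ => ?_
    simp
  rw [h4] at h3
  exact_mod_cast h3

/-- `log log x - log log ⌊x⌋` -/
private lemma Mta_ll (x : ℝ) (hx : 2 ≤ x) : |Real.log (Real.log x) - Real.log (Real.log (⌊x⌋₊ : ℝ))| ≤
    1 / ((⌊x⌋₊ : ℝ) * Real.log 2) := by
  have hN2 : 2 ≤ ⌊x⌋₊ := Nat.le_floor (by exact_mod_cast hx)
  set N : ℝ := (⌊x⌋₊ : ℝ) with hN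
  have hN2' : (2 : ℝ) ≤ N := by rw [hN]; exact_mod_cast hN2
  have hle : N ≤ x := Nat.floor_le (by linarith)
  have hlt : x < N + 1 := Nat.lt_floor_add_one x
  have hl2 : 0 < Real.log 2 := Real.log_pos (by norm_num)
  have hlN2 : Real.log 2 ≤ Real.log N := Real.log_le_log (by norm_num) hN2'
  have hlN : 0 < Real.log N := lt_of_lt_of_le hl2 hlN2
  have hlx : Real.log N ≤ Real.log x := Real.log_le_log (by linarith) hle
  have h0 : 0 ≤ Real.log (Real.log x) - Real.log (Real.log N) :=
    sub_nonneg.2 (Real.log_le_log hlN hlx)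
  rw [abs_of_nonneg h0]
  have h1 : Real.log (Real.log x) - Real.log (Real.log N) = Real.log (Real.log x / Real.log N) := by
    rw [Real.log_div (by linarith) hlN.ne']
  have h2 : Real.log (Real.log x / Real.log N) ≤ Real.log x / Real.log N - 1 :=
    Real.log_le_sub_one_of_pos (div_pos (by linarith) hlN)
  have h3 : Real.log x - Real.log N ≤ 1 / N := by
    have e : Real.log x - Real.log N = Real.log (x / N) := by
      rw [Real.log_div (by linarith) (by linarith)]
    rw [e]
    have := Real.log_le_sub_one_of_pos (show 0 < x / N from div_pos (by linarith) (by linarith))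
    have h4 : x / N - 1 ≤ 1 / N := by
      rw [div_sub_one (by linarith)]
      exact div_le_div_of_nonneg_right (by linarith) (by linarith)
    linarith
  have h5 : Real.log x / Real.log N - 1 = (Real.log x - Real.log N) / Real.log N := by
    field_simp
  rw [h1]
  refine h2.trans ?_
  rw [h5]
  calc (Real.log x - Real.log N) / Real.log N ≤ (1 / N) / Real.log 2 :=
        div_le_div₀ (by positivity) h3 hl2 hlN2
    _ = 1 / (N * Real.log 2) := by rw [div_div]

/-- the partial sums as a series -/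
private lemma Mta_sum (f : ℕ → ℝ) (h0 : f 0 = 0) (hf : ∀ n, 0 ≤ f n) (x c : ℝ) (hx : 0 ≤ x) (hc : 0 ≤ c) :
    ENNReal.ofReal ((∑ k ∈ Icc 1 ⌊x⌋₊, f k) * c) =
      ∑' n : ℕ, ENNReal.ofReal (f n) * (if (n : ℝ) ≤ x then ENNReal.ofReal c else 0) := by
  rw [tsum_eq_sum (s := Icc 1 ⌊x⌋₊)]
  · rw [Finset.sum_mul, ENNReal.ofReal_sum_of_nonneg fun k _ => mul_nonneg (hf k) hc]
    refine Finset.sum_congr rfl fun k hk => ?_
    rw [Finset.mem_Icc] at hk
    rw [if_pos ((Nat.le_floor_iff hx).1 hk.2), ENNReal.ofReal_mul (hf k)]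
  · intro n hn
    rw [Finset.mem_Icc] at hn
    by_cases hz : n = 0
    · rw [hz, h0]
      simp
    · rw [if_neg, mul_zero]
      intro hnx
      exact hn ⟨by omega, (Nat.le_floor_iff hx).2 hnx⟩

private lemma Mta_one (δ : ℝ) (hδ : 0 < δ) (n : ℕ) (hn : 2 ≤ n) :
    ∫⁻ v in Set.Ioi (0 : ℝ), (if (n : ℝ) ≤ Real.exp (v / δ) then ENNReal.ofReal (Real.exp (-v)) else 0) =
      ENNReal.ofReal ((n : ℝ) ^ (-δ)) := by
  have hn0 : (0 : ℝ) < n := by exact_mod_cast (by omega : 0 < n)
  have hln : 0 < Real.log n := Real.log_pos (by exact_mod_cast (by omega : 1 < n))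
  set c : ℝ := δ * Real.log n with hc
  have hc0 : 0 < c := mul_pos hδ hln
  have e1 : ∀ v : ℝ, ((n : ℝ) ≤ Real.exp (v / δ)) ↔ v ∈ Set.Ici c := by
    intro v
    rw [Set.mem_Ici, hc, ← Real.log_le_iff_le_exp hn0, le_div_iff₀ hδ, mul_comm]
  have e2 : (fun v : ℝ => if (n : ℝ) ≤ Real.exp (v / δ) then ENNReal.ofReal (Real.exp (-v)) else 0) =
      (Set.Ici c).indicator fun v => ENNReal.ofReal (Real.exp (-v)) := by
    funext v
    by_cases hv : v ∈ Set.Ici c
    · rw [Set.indicator_of_mem hv, if_pos ((e1 v).2 hv)]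
    · rw [Set.indicator_of_notMem hv, if_neg (fun h => hv ((e1 v).1 h))]
  rw [e2, MeasureTheory.setLIntegral_indicator measurableSet_Ici]
  have e3 : Set.Ici c ∩ Set.Ioi 0 = Set.Ici c := by
    apply Set.inter_eq_left.2
    intro v hv
    exact lt_of_lt_of_le hc0 hv
  rw [e3, ← MeasureTheory.setLIntegral_congr MeasureTheory.Ioi_ae_eq_Ici,
    ← MeasureTheory.ofReal_integral_eq_lintegral_ofReal (integrableOn_exp_neg_Ioi c)
      (Filter.Eventually.of_forall fun v => (Real.exp_pos _).le), integral_exp_neg_Ioi]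
  congr 1
  rw [Real.rpow_def_of_pos hn0, hc]
  congr 1
  ring

private lemma Mta_meas (S : ℕ → ℝ) (δ : ℝ) : Measurable fun v : ℝ => S ⌊Real.exp (v / δ)⌋₊ :=
  (measurable_from_nat (f := S)).comp
    (Nat.measurable_floor.comp (Real.measurable_exp.comp (measurable_id.div_const δ)))

/-- the Laplace transform -/
private lemma Mta_lap (f : ℕ → ℝ) (h0 : f 0 = 0) (h1 : f 1 = 0) (hf : ∀ n, 0 ≤ f n) (δ : ℝ) (hδ : 0 < δ) :
    ∫ v in Set.Ioi (0 : ℝ), (∑ k ∈ Icc 1 ⌊Real.exp (v / δ)⌋₊, f k) * Real.exp (-v) =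
      ∑' n : ℕ, f n * (n : ℝ) ^ (-δ) := by
  have hm : Measurable fun v : ℝ => (∑ k ∈ Icc 1 ⌊Real.exp (v / δ)⌋₊, f k) * Real.exp (-v) :=
    (Mta_meas (fun N => ∑ k ∈ Icc 1 N, f k) δ).mul (Real.measurable_exp.comp measurable_neg)
  rw [MeasureTheory.integral_eq_lintegral_of_nonneg_ae
    (Filter.Eventually.of_forall fun v => mul_nonneg (Finset.sum_nonneg fun k _ => hf k) (Real.exp_pos _).le)
    hm.aestronglyMeasurable]
  have e1 : ∀ v : ℝ, ENNReal.ofReal ((∑ k ∈ Icc 1 ⌊Real.exp (v / δ)⌋₊, f k) * Real.exp (-v)) =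
      ∑' n : ℕ, ENNReal.ofReal (f n) *
        (if (n : ℝ) ≤ Real.exp (v / δ) then ENNReal.ofReal (Real.exp (-v)) else 0) :=
    fun v => Mta_sum f h0 hf _ _ (Real.exp_pos _).le (Real.exp_pos _).le
  simp_rw [e1]
  have hmn : ∀ n : ℕ, Measurable fun v : ℝ =>
      (if (n : ℝ) ≤ Real.exp (v / δ) then ENNReal.ofReal (Real.exp (-v)) else 0) := by
    intro n
    refine Measurable.ite ?_ (Real.measurable_exp.comp measurable_neg).ennreal_ofReal measurable_const
    exact measurableSet_le measurable_const (Real.measurable_exp.comp (measurable_id.div_const δ))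
  rw [MeasureTheory.lintegral_tsum fun n => ((hmn n).const_mul _).aemeasurable]
  have e2 : ∀ n : ℕ, ∫⁻ v in Set.Ioi (0 : ℝ), ENNReal.ofReal (f n) *
      (if (n : ℝ) ≤ Real.exp (v / δ) then ENNReal.ofReal (Real.exp (-v)) else 0) =
      ENNReal.ofReal (f n * (n : ℝ) ^ (-δ)) := by
    intro n
    rw [MeasureTheory.lintegral_const_mul _ (hmn n), ENNReal.ofReal_mul (hf n)]
    rcases Nat.lt_or_ge n 2 with hn | hn
    · have : f n = 0 := by
        interval_cases n
        · exact h0
        · exact h1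
      rw [this]
      simp
    · rw [Mta_one δ hδ n hn]
  simp_rw [e2]
  rw [ENNReal.tsum_toReal_eq fun n => ENNReal.ofReal_ne_top]
  refine tsum_congr fun n => ?_
  exact ENNReal.toReal_ofReal (mul_nonneg (hf n) (Real.rpow_nonneg (Nat.cast_nonneg n) _))

theorem tMta : MtaStmt := by
  intro f κ hf h0 h1 _ hκ
  set S : ℕ → ℝ := fun N => ∑ k ∈ Icc 1 N, f k with hS
  -- uniform bound
  obtain ⟨C, hC⟩ : ∃ C : ℝ, ∀ N : ℕ, |S N - Real.log (Real.log N)| ≤ C := by
    obtain ⟨C, hC⟩ := (hκ.norm.bddAbove_range)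
    exact ⟨C, fun N => hC ⟨N, rfl⟩⟩
  have hC0 : 0 ≤ C := (abs_nonneg _).trans (hC 0)
  have hl2 : 0 < Real.log 2 := Real.log_pos (by norm_num)
  have hl2' : (1 : ℝ) / 2 < Real.log 2 := by
    have := Real.log_two_gt_d9
    linarith
  set K : ℝ := C + 1 with hK
  have hbound : ∀ δ : ℝ, 0 < δ → δ < 1 / 2 → ∀ v : ℝ, 0 < v →
      |(S ⌊Real.exp (v / δ)⌋₊ + Real.log δ) * Real.exp (-v)| ≤
        |Real.log v| * Real.exp (-v) + K * Real.exp (-v) := by
    intro δ hδ hδ2 v hv
    rw [abs_mul, abs_of_pos (Real.exp_pos (-v)), ← add_mul]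
    refine mul_le_mul_of_nonneg_right ?_ (Real.exp_pos _).le
    have hvd : 0 < v / δ := div_pos hv hδ
    rcases lt_or_ge (Real.exp (v / δ)) 2 with hx | hx
    · have hfl : ⌊Real.exp (v / δ)⌋₊ = 1 := by
        rw [Nat.floor_eq_iff (Real.exp_pos _).le]
        refine ⟨?_, by norm_num; linarith⟩
        have := Real.one_lt_exp_iff.2 hvd
        norm_num
        linarith
      have hS1 : S ⌊Real.exp (v / δ)⌋₊ = 0 := by
        rw [hfl, hS]
        simp [h1]
      rw [hS1, zero_add]
      have hvδ : v < δ := by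
        have h2 : v / δ < Real.log 2 := by
          rw [Real.lt_log_iff_exp_lt (by norm_num)]
          exact hx
        have h3 : Real.log 2 < 1 := by
          have := Real.log_two_lt_d9
          linarith
        rw [div_lt_iff₀ hδ] at h2
        nlinarith
      have hlδ : Real.log δ ≤ 0 := Real.log_nonpos hδ.le (by linarith)
      have hlv : Real.log v ≤ Real.log δ := Real.log_le_log hv hvδ.le
      rw [abs_of_nonpos hlδ, abs_of_nonpos (hlv.trans hlδ)]
      linarith
    · have h2 := hC ⌊Real.exp (v / δ)⌋₊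
      have h3 := Mta_ll _ hx
      rw [Real.log_exp, Real.log_div hv.ne' hδ.ne'] at h3
      have h4 : 1 / ((⌊Real.exp (v / δ)⌋₊ : ℝ) * Real.log 2) ≤ 1 := by
        have hN : (2 : ℝ) ≤ (⌊Real.exp (v / δ)⌋₊ : ℝ) := by
          exact_mod_cast Nat.le_floor (by exact_mod_cast hx)
        rw [div_le_one (by positivity)]
        nlinarith
      have h5 : |S ⌊Real.exp (v / δ)⌋₊ + Real.log δ| ≤
          |S ⌊Real.exp (v / δ)⌋₊ - Real.log (Real.log (⌊Real.exp (v / δ)⌋₊ : ℝ))| +
          |Real.log v - Real.log δ - Real.log (Real.log (⌊Real.exp (v / δ)⌋₊ : ℝ))| + |Real.log v| := by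
        have e : S ⌊Real.exp (v / δ)⌋₊ + Real.log δ =
            (S ⌊Real.exp (v / δ)⌋₊ - Real.log (Real.log (⌊Real.exp (v / δ)⌋₊ : ℝ))) -
            (Real.log v - Real.log δ - Real.log (Real.log (⌊Real.exp (v / δ)⌋₊ : ℝ))) + Real.log v := by
          ring
        rw [e]
        exact (abs_add_le _ _).trans (add_le_add (abs_sub _ _) le_rfl)
      linarith
  have hexpInt : MeasureTheory.IntegrableOn (fun v : ℝ => Real.exp (-v)) (Set.Ioi 0) :=
    integrableOn_exp_neg_Ioi 0
  have hBint : MeasureTheory.IntegrableOn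
      (fun v : ℝ => |Real.log v| * Real.exp (-v) + K * Real.exp (-v)) (Set.Ioi 0) :=
    Mta_int.add (hexpInt.const_mul K)
  have hmeas : ∀ δ : ℝ, Measurable fun v : ℝ => (S ⌊Real.exp (v / δ)⌋₊ + Real.log δ) * Real.exp (-v) :=
    fun δ => ((Mta_meas S δ).add_const _).mul (Real.measurable_exp.comp measurable_neg)
  have hev : ∀ᶠ δ : ℝ in 𝓝[>] 0, 0 < δ ∧ δ < 1 / 2 :=
    Ioo_mem_nhdsGT (by norm_num)
  -- the limit of the integrals
  have hlim : Tendsto (fun δ : ℝ => ∫ v in Set.Ioi (0 : ℝ),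
      (S ⌊Real.exp (v / δ)⌋₊ + Real.log δ) * Real.exp (-v)) (𝓝[>] 0)
      (𝓝 (∫ v in Set.Ioi (0 : ℝ), (Real.log v + κ) * Real.exp (-v))) := by
    refine MeasureTheory.tendsto_integral_filter_of_dominated_convergence
      (fun v => |Real.log v| * Real.exp (-v) + K * Real.exp (-v)) ?_ ?_ hBint ?_
    · exact Filter.Eventually.of_forall fun δ => (hmeas δ).aestronglyMeasurable
    · filter_upwards [hev] with δ hδ
      rw [MeasureTheory.ae_restrict_iff' measurableSet_Ioi]
      exact Filter.Eventually.of_forall fun v hv => hbound δ hδ.1 hδ.2 v hv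
    · rw [MeasureTheory.ae_restrict_iff' measurableSet_Ioi]
      refine Filter.Eventually.of_forall fun v hv => ?_
      have hv0 : (0 : ℝ) < v := hv
      refine Tendsto.mul_const _ ?_
      -- x = exp (v / δ) tends to infinity
      have hx : Tendsto (fun δ : ℝ => Real.exp (v / δ)) (𝓝[>] 0) atTop := by
        refine Real.tendsto_exp_atTop.comp ?_
        have := tendsto_inv_nhdsGT_zero (𝕜 := ℝ)
        exact (this.const_mul_atTop hv0).congr fun δ => (div_eq_mul_inv v δ).symm
      have hN : Tendsto (fun δ : ℝ => ⌊Real.exp (v / δ)⌋₊) (𝓝[>] 0) atTop :=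
        tendsto_nat_floor_atTop.comp hx
      have t1 : Tendsto (fun δ : ℝ => S ⌊Real.exp (v / δ)⌋₊ -
          Real.log (Real.log (⌊Real.exp (v / δ)⌋₊ : ℝ))) (𝓝[>] 0) (𝓝 κ) := hκ.comp hN
      have t2 : Tendsto (fun δ : ℝ => Real.log (Real.log (Real.exp (v / δ))) -
          Real.log (Real.log (⌊Real.exp (v / δ)⌋₊ : ℝ))) (𝓝[>] 0) (𝓝 0) := by
        have t3 : Tendsto (fun δ : ℝ => 1 / ((⌊Real.exp (v / δ)⌋₊ : ℝ) * Real.log 2)) (𝓝[>] 0) (𝓝 0) := by
          refine Tendsto.div_atTop tendsto_const_nhds ?_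
          exact (tendsto_natCast_atTop_atTop.comp hN).atTop_mul_const hl2
        refine squeeze_zero_norm' ?_ t3
        filter_upwards [hx.eventually_ge_atTop 2] with δ hδ
        exact Mta_ll _ hδ
      have t4 : Tendsto (fun δ : ℝ => (S ⌊Real.exp (v / δ)⌋₊ -
          Real.log (Real.log (⌊Real.exp (v / δ)⌋₊ : ℝ))) -
          (Real.log (Real.log (Real.exp (v / δ))) -
          Real.log (Real.log (⌊Real.exp (v / δ)⌋₊ : ℝ))) + Real.log v) (𝓝[>] 0) (𝓝 (Real.log v + κ)) := by
        have := (t1.sub t2).add_const (Real.log v)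
        rw [sub_zero, add_comm κ] at this
        exact this
      refine t4.congr' ?_
      filter_upwards [hev] with δ hδ
      rw [Real.log_exp, Real.log_div hv0.ne' hδ.1.ne']
      ring
  have hval : ∫ v in Set.Ioi (0 : ℝ), (Real.log v + κ) * Real.exp (-v) =
      κ - Real.eulerMascheroniConstant := by
    have hli : MeasureTheory.IntegrableOn (fun v : ℝ => Real.log v * Real.exp (-v)) (Set.Ioi 0) := by
      refine MeasureTheory.Integrable.mono' Mta_int
        (Real.measurable_log.mul (Real.measurable_exp.comp measurable_neg)).aestronglyMeasurable ?_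
      refine Filter.Eventually.of_forall fun v => ?_
      rw [norm_mul, Real.norm_eq_abs, Real.norm_of_nonneg (Real.exp_pos _).le]
    have e : (fun v : ℝ => (Real.log v + κ) * Real.exp (-v)) =
        fun v => Real.log v * Real.exp (-v) + κ * Real.exp (-v) := by
      funext v
      ring
    rw [e, MeasureTheory.integral_add hli (hexpInt.const_mul κ), Mta_log,
      MeasureTheory.integral_const_mul, integral_exp_neg_Ioi_zero]
    ring
  rw [hval] at hlim
  refine hlim.congr' ?_
  filter_upwards [hev] with δ hδ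
  have hI : MeasureTheory.IntegrableOn
      (fun v : ℝ => (S ⌊Real.exp (v / δ)⌋₊ + Real.log δ) * Real.exp (-v)) (Set.Ioi 0) := by
    refine MeasureTheory.Integrable.mono' hBint (hmeas δ).aestronglyMeasurable ?_
    rw [MeasureTheory.ae_restrict_iff' measurableSet_Ioi]
    exact Filter.Eventually.of_forall fun v hv => hbound δ hδ.1 hδ.2 v hv
  have hlap := Mta_lap f h0 h1 hf δ hδ.1
  have e2 : (fun v : ℝ => (∑ k ∈ Icc 1 ⌊Real.exp (v / δ)⌋₊, f k) * Real.exp (-v)) =
      fun v => (S ⌊Real.exp (v / δ)⌋₊ + Real.log δ) * Real.exp (-v) - Real.log δ * Real.exp (-v) := by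
    funext v
    rw [hS]
    ring
  rw [e2, MeasureTheory.integral_sub hI (hexpInt.const_mul _), MeasureTheory.integral_const_mul,
    integral_exp_neg_Ioi_zero] at hlap
  rw [← hlap]
  ring

end Pool.Agent.Lib.SHK
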