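import Pool.Agent.Lib.SHK.Spec

set_option autoImplicit false

namespace Pool.Agent.Lib.SHK

open Finset Filter Topology

open scoped Classical

/-! Module Mtb: `log ζ(1+δ) + log δ → 0` through the Euler product. -/

private lemma Mtb_log (u : ℝ) (h0 : 0 ≤ u) (h1 : u ≤ 1 / 2) : |-Real.log (1 - u) - u| ≤ 2 * u ^ 2 := by
  have h2 : |u| < 1 := by rw [abs_of_nonneg h0]; linarith
  have h3 := Real.abs_log_sub_add_sum_range_le h2 1
  simp only [Finset.range_one, Finset.sum_singleton, zero_add, pow_one, Nat.cast_zero, div_one] at h3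
  rw [abs_of_nonneg h0] at h3
  have h4 : -Real.log (1 - u) - u = -(u + Real.log (1 - u)) := by ring
  rw [h4, abs_neg]
  refine h3.trans ?_
  rw [div_le_iff₀ (by linarith)]
  have h5 : u ^ (1 + 1) = u ^ 2 := by norm_num
  rw [h5]
  nlinarith [mul_nonneg (sq_nonneg u) (by linarith : 0 ≤ 1 - 2 * u)]

private lemma Mtb_log_nonneg (u : ℝ) (h0 : 0 ≤ u) (h1 : u ≤ 1 / 2) : 0 ≤ -Real.log (1 - u) := by
  have := Real.log_nonpos (x := 1 - u) (by linarith) (by linarith)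
  linarith

private lemma Mtb_log_le (u : ℝ) (h0 : 0 ≤ u) (h1 : u ≤ 1 / 2) : -Real.log (1 - u) ≤ 2 * u := by
  have := (abs_le.1 (Mtb_log u h0 h1)).2
  nlinarith

/-- the terms of the Euler product -/
private noncomputable def Mtb_g (δ : ℝ) (n : ℕ) : ℝ :=
  if n.Prime then -Real.log (1 - (n : ℝ) ^ (-(1 + δ))) else 0

private lemma Mtb_rpow {δ : ℝ} (n : ℕ) (hn : n.Prime) :
    (n : ℝ) ^ (-(1 + δ)) = 1 / (n : ℝ) * (n : ℝ) ^ (-δ) := by
  have h0 : (0 : ℝ) < n := by exact_mod_cast hn.pos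
  rw [neg_add, Real.rpow_add h0, Real.rpow_neg_one, one_div]

private lemma Mtb_inv (n : ℕ) (hn : n.Prime) : 0 ≤ 1 / (n : ℝ) ∧ 1 / (n : ℝ) ≤ 1 / 2 := by
  have h0 : (2 : ℝ) ≤ n := by exact_mod_cast hn.two_le
  refine ⟨by positivity, ?_⟩
  exact one_div_le_one_div_of_le (by norm_num) h0

private lemma Mtb_r {δ : ℝ} (hδ : 0 < δ) (n : ℕ) (hn : n.Prime) :
    0 < (n : ℝ) ^ (-δ) ∧ (n : ℝ) ^ (-δ) ≤ 1 := by
  have h0 : (1 : ℝ) ≤ n := by exact_mod_cast hn.one_lt.le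
  refine ⟨Real.rpow_pos_of_pos (by linarith) _, ?_⟩
  exact Real.rpow_le_one_of_one_le_of_nonpos h0 (by linarith)

private lemma Mtb_u {δ : ℝ} (hδ : 0 < δ) (n : ℕ) (hn : n.Prime) :
    0 ≤ (n : ℝ) ^ (-(1 + δ)) ∧ (n : ℝ) ^ (-(1 + δ)) ≤ 1 / (n : ℝ) ∧
      (n : ℝ) ^ (-(1 + δ)) ≤ 1 / 2 := by
  obtain ⟨h1, h2⟩ := Mtb_inv n hn
  obtain ⟨h3, h4⟩ := Mtb_r hδ n hn
  rw [Mtb_rpow n hn]
  have h5 : 1 / (n : ℝ) * (n : ℝ) ^ (-δ) ≤ 1 / (n : ℝ) := mul_le_of_le_one_right h1 h4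
  exact ⟨mul_nonneg h1 h3.le, h5, h5.trans h2⟩

private lemma Mtb_sum_rpow {δ : ℝ} (hδ : 0 < δ) : Summable fun n : ℕ => 2 * (n : ℝ) ^ (-(1 + δ)) :=
  (Real.summable_nat_rpow.2 (by linarith)).mul_left 2

private lemma Mtb_sum_g {δ : ℝ} (hδ : 0 < δ) : Summable (Mtb_g δ) := by
  refine Summable.of_nonneg_of_le (fun n => ?_) (fun n => ?_) (Mtb_sum_rpow hδ)
  · unfold Mtb_g
    split_ifs with hn
    · exact Mtb_log_nonneg _ (Mtb_u hδ n hn).1 (Mtb_u hδ n hn).2.2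
    · exact le_rfl
  · unfold Mtb_g
    split_ifs with hn
    · exact Mtb_log_le _ (Mtb_u hδ n hn).1 (Mtb_u hδ n hn).2.2
    · positivity

private lemma Mtb_sum_lp {δ : ℝ} (hδ : 0 < δ) : Summable fun n : ℕ => lp n * (n : ℝ) ^ (-δ) := by
  refine Summable.of_nonneg_of_le (fun n => ?_) (fun n => ?_) (Mtb_sum_rpow hδ)
  · unfold lp
    split_ifs with hn
    · exact mul_nonneg (Mtb_log_nonneg _ (Mtb_inv n hn).1 (Mtb_inv n hn).2) (Mtb_r hδ n hn).1.le
    · simp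
  · unfold lp
    split_ifs with hn
    · rw [Mtb_rpow n hn]
      have := Mtb_log_le _ (Mtb_inv n hn).1 (Mtb_inv n hn).2
      have h2 := mul_le_mul_of_nonneg_right this (Mtb_r hδ n hn).1.le
      linarith
    · rw [zero_mul]
      positivity

/-- the real form of the Euler product -/
private lemma Mtb_euler {δ : ℝ} (hδ : 0 < δ) :
    Real.exp (∑' n, Mtb_g δ n) = ∑' n : ℕ, 1 / (n : ℝ) ^ (1 + δ) := by
  have hs : 1 < ((1 + δ : ℝ) : ℂ).re := by rw [Complex.ofReal_re]; linarith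
  have h1 := riemannZeta_eulerProduct_exp_log hs
  rw [zeta_eq_tsum_one_div_nat_cpow hs] at h1
  have h2 : ∀ p : Nat.Primes, -Complex.log (1 - (p : ℂ) ^ (-((1 + δ : ℝ) : ℂ))) =
      ((Mtb_g δ p : ℝ) : ℂ) := by
    intro p
    have h3 : ((p : ℕ) : ℂ) ^ (-((1 + δ : ℝ) : ℂ)) = (((p : ℕ) : ℝ) ^ (-(1 + δ)) : ℝ) := by
      rw [Complex.ofReal_cpow (by positivity)]
      push_cast
      rfl
    rw [h3]
    unfold Mtb_g
    rw [if_pos p.2]
    rw [Complex.ofReal_neg, Complex.ofReal_log]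
    · push_cast
      rfl
    · have := (Mtb_u hδ p p.2).2.2
      linarith
  rw [tsum_congr h2, ← Complex.ofReal_tsum] at h1
  have h4 : ∑' p : Nat.Primes, Mtb_g δ p = ∑' n, Mtb_g δ n := by
    have h5 := tsum_subtype {p : ℕ | p.Prime} (Mtb_g δ)
    have h6 : Set.indicator {p : ℕ | p.Prime} (Mtb_g δ) = Mtb_g δ := by
      funext n
      by_cases hn : n.Prime
      · rw [Set.indicator_of_mem (show n ∈ {p : ℕ | p.Prime} from hn)]
      · rw [Set.indicator_of_notMem (show n ∉ {p : ℕ | p.Prime} from hn)]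
        unfold Mtb_g
        rw [if_neg hn]
    rw [h6] at h5
    exact h5
  rw [h4] at h1
  have h7 : ∀ n : ℕ, 1 / (n : ℂ) ^ ((1 + δ : ℝ) : ℂ) = ((1 / (n : ℝ) ^ (1 + δ) : ℝ) : ℂ) := by
    intro n
    rw [Complex.ofReal_div, Complex.ofReal_cpow (by positivity)]
    push_cast
    rfl
  rw [tsum_congr h7, ← Complex.ofReal_tsum, ← Complex.ofReal_exp] at h1
  exact_mod_cast h1

private lemma Mtb_zeta : Tendsto (fun δ : ℝ => (∑' n : ℕ, Mtb_g δ n) + Real.log δ) (𝓝[>] 0) (𝓝 0) := by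
  have h1 := tendsto_sub_mul_tsum_nat_rpow
  have h2 : Tendsto (fun δ : ℝ => 1 + δ) (𝓝[>] 0) (𝓝[>] 1) := by
    rw [tendsto_nhdsWithin_iff]
    constructor
    · have : Tendsto (fun δ : ℝ => 1 + δ) (𝓝 0) (𝓝 (1 + 0)) := (continuous_const.add continuous_id).tendsto 0
      rw [add_zero] at this
      exact this.mono_left nhdsWithin_le_nhds
    · filter_upwards [self_mem_nhdsWithin] with δ hδ
      have : (0 : ℝ) < δ := hδ
      show (1 : ℝ) < 1 + δ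
      linarith
  have h3 := h1.comp h2
  have h4 := (Real.continuousAt_log (one_ne_zero)).tendsto.comp h3
  rw [Real.log_one] at h4
  refine h4.congr' ?_
  filter_upwards [self_mem_nhdsWithin] with δ hδ
  have hδ' : (0 : ℝ) < δ := hδ
  simp only [Function.comp]
  rw [← Mtb_euler hδ', Real.log_mul (by linarith) (Real.exp_pos _).ne', Real.log_exp]
  rw [add_sub_cancel_left, add_comm]

private lemma Mtb_diff : Tendsto (fun δ : ℝ => ∑' n : ℕ, (lp n * (n : ℝ) ^ (-δ) - Mtb_g δ n))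
    (𝓝[>] 0) (𝓝 0) := by
  suffices h : Tendsto (fun δ : ℝ => ∑' n : ℕ, (lp n * (n : ℝ) ^ (-δ) - Mtb_g δ n))
      (𝓝[>] 0) (𝓝 (∑' _ : ℕ, (0 : ℝ))) by
    rwa [tsum_zero] at h
  refine tendsto_tsum_of_dominated_convergence (bound := fun n : ℕ => 4 * (1 / (n : ℝ) ^ 2)) ?_ ?_ ?_
  · exact (Real.summable_one_div_nat_pow.2 (by norm_num)).mul_left 4
  · intro n
    refine Tendsto.mono_left ?_ nhdsWithin_le_nhds
    by_cases hn : n.Prime
    · have hn0 : (0 : ℝ) < n := by exact_mod_cast hn.pos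
      simp only [lp, Mtb_g, if_pos hn]
      have h1 : Tendsto (fun δ : ℝ => (n : ℝ) ^ (-δ)) (𝓝 0) (𝓝 1) := by
        have : Tendsto (fun δ : ℝ => (n : ℝ) ^ (-δ)) (𝓝 0) (𝓝 ((n : ℝ) ^ (-(0 : ℝ)))) :=
          (Real.continuous_const_rpow hn0.ne').tendsto _ |>.comp (continuous_neg.tendsto 0)
        rw [neg_zero, Real.rpow_zero] at this
        exact this
      have h2 : Tendsto (fun δ : ℝ => (n : ℝ) ^ (-(1 + δ))) (𝓝 0) (𝓝 (1 / (n : ℝ))) := by
        have := h1.const_mul (1 / (n : ℝ))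
        rw [mul_one] at this
        refine this.congr fun δ => ?_
        rw [Mtb_rpow n hn]
      have h3 : 1 - 1 / (n : ℝ) ≠ 0 := by
        have := (Mtb_inv n hn).2
        linarith
      have h4 : Tendsto (fun δ : ℝ => -Real.log (1 - (n : ℝ) ^ (-(1 + δ)))) (𝓝 0)
          (𝓝 (-Real.log (1 - 1 / (n : ℝ)))) :=
        ((Real.continuousAt_log h3).tendsto.comp (h2.const_sub 1)).neg
      have h5 := (h1.const_mul (-Real.log (1 - 1 / (n : ℝ)))).sub h4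
      rw [mul_one, sub_self] at h5
      exact h5
    · simp only [lp, Mtb_g, if_neg hn, zero_mul, sub_self]
      exact tendsto_const_nhds
  · filter_upwards [self_mem_nhdsWithin] with δ hδ n
    have hδ' : (0 : ℝ) < δ := hδ
    by_cases hn : n.Prime
    · simp only [lp, Mtb_g, if_pos hn]
      obtain ⟨ha0, ha1⟩ := Mtb_inv n hn
      obtain ⟨hr0, hr1⟩ := Mtb_r hδ' n hn
      obtain ⟨hu0, hu1, hu2⟩ := Mtb_u hδ' n hn
      have h1 := Mtb_log _ ha0 ha1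
      have h2 := Mtb_log _ hu0 hu2
      have h3 : -Real.log (1 - 1 / (n : ℝ)) * (n : ℝ) ^ (-δ) - -Real.log (1 - (n : ℝ) ^ (-(1 + δ))) =
          (-Real.log (1 - 1 / (n : ℝ)) - 1 / (n : ℝ)) * (n : ℝ) ^ (-δ) -
            (-Real.log (1 - (n : ℝ) ^ (-(1 + δ))) - (n : ℝ) ^ (-(1 + δ))) := by
        have h4 := Mtb_rpow (δ := δ) n hn
        linear_combination -h4
      rw [h3, Real.norm_eq_abs]
      refine (abs_sub _ _).trans ?_
      rw [abs_mul, abs_of_pos hr0]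
      have h5 : |-Real.log (1 - 1 / (n : ℝ)) - 1 / (n : ℝ)| * (n : ℝ) ^ (-δ) ≤ 2 * (1 / (n : ℝ)) ^ 2 :=
        (mul_le_of_le_one_right (abs_nonneg _) hr1).trans h1
      have h7 : (1 / (n : ℝ)) ^ 2 = 1 / (n : ℝ) ^ 2 := by rw [div_pow, one_pow]
      have h8 : ((n : ℝ) ^ (-(1 + δ))) ^ 2 ≤ (1 / (n : ℝ)) ^ 2 := pow_le_pow_left₀ hu0 hu1 2
      rw [← h7]
      linarith
    · simp only [lp, Mtb_g, if_neg hn, zero_mul, sub_self, norm_zero]
      positivity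

theorem tMtb : MtbStmt := by
  unfold MtbStmt
  have h1 := Mtb_diff.add Mtb_zeta
  rw [add_zero] at h1
  refine h1.congr' ?_
  filter_upwards [self_mem_nhdsWithin] with δ hδ
  have hδ' : (0 : ℝ) < δ := hδ
  rw [(Mtb_sum_lp hδ').tsum_sub (Mtb_sum_g hδ')]
  ring

end Pool.Agent.Lib.SHK
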