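import Pool.Agent.Lib.SHK.Spec

/-!
MP_9a4459_nt, Lib/SHK, module Mtc (helper62): the constant in Mertens' product theorem.
-/

set_option autoImplicit false

namespace Pool.Agent.Lib.SHK

open Finset Filter Topology
open scoped Classical

private lemma Mtc_fac {n : ℕ} (hn : n.Prime) : (1 : ℝ) / 2 ≤ 1 - 1 / (n : ℝ) ∧ 1 - 1 / (n : ℝ) < 1 := by
  have h2 : (2 : ℝ) ≤ n := by exact_mod_cast hn.two_le
  constructor
  · have : 1 / (n : ℝ) ≤ 1 / 2 := one_div_le_one_div_of_le (by norm_num) h2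
    linarith
  · have : 0 < 1 / (n : ℝ) := by positivity
    linarith

private lemma Mtc_Vk (z : ℕ) : Vk 1 0 z = ∏ p ∈ (Icc 1 z).filter Nat.Prime, (1 - 1 / (p : ℝ)) := by
  unfold Vk pr
  have : (Ioc 0 z) = Icc 1 z := by
    ext k
    rw [mem_Ioc, mem_Icc]
    omega
  rw [this]
  simp

private lemma Mtc_sum (N : ℕ) :
    ∑ k ∈ Icc 1 N, lp k = -Real.log (∏ p ∈ (Icc 1 N).filter Nat.Prime, (1 - 1 / (p : ℝ))) := by
  rw [Real.log_prod (fun p hp => by
    have := (Mtc_fac (mem_filter.1 hp).2).1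
    linarith), ← sum_neg_distrib, sum_filter]
  rfl

private lemma Mtc_nonneg (n : ℕ) : 0 ≤ lp n := by
  unfold lp
  split_ifs with h
  · have h1 := Mtc_fac h
    have := Real.log_nonpos (by linarith [h1.1]) h1.2.le
    linarith
  · exact le_rfl

private lemma Mtc_le (n : ℕ) : lp n ≤ Real.log 2 := by
  unfold lp
  split_ifs with h
  · have h1 := Mtc_fac h
    have h2 := Real.log_le_log (by norm_num) h1.1
    rw [one_div, Real.log_inv] at h2
    linarith
  · exact Real.log_nonneg (by norm_num)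

theorem tMtc (h1 : MtaStmt) (h2 : MtbStmt) (h3 : MerStmt) : MtcStmt := by
  obtain ⟨c, hc, h3⟩ := h3
  have hlim : Tendsto (fun N : ℕ => ∑ k ∈ Icc 1 N, lp k - Real.log (Real.log N)) atTop (𝓝 (-Real.log c)) := by
    have h4 := (((Real.continuousAt_log hc.ne').tendsto.comp h3).neg)
    refine h4.congr' ?_
    filter_upwards [eventually_ge_atTop 3] with N hN
    rw [Mtc_sum]
    have hP : 0 < ∏ p ∈ (Icc 1 N).filter Nat.Prime, (1 - 1 / (p : ℝ)) :=
      prod_pos (fun p hp => by
        have := (Mtc_fac (mem_filter.1 hp).2).1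
        linarith)
    have hlog : 0 < Real.log N := Real.log_pos (by
      have : (3 : ℝ) ≤ N := by exact_mod_cast hN
      linarith)
    simp only [Function.comp]
    rw [Real.log_mul hP.ne' hlog.ne']
    ring
  have h5 := h1 lp (-Real.log c) Mtc_nonneg (by simp [lp, Nat.not_prime_zero]) (by simp [lp, Nat.not_prime_one])
    ⟨Real.log 2, Mtc_le⟩ hlim
  have h6 : -Real.log c - Real.eulerMascheroniConstant = 0 := tendsto_nhds_unique h5 h2
  have h7 : c = Real.exp (-Real.eulerMascheroniConstant) := by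
    rw [← Real.exp_log hc]
    congr 1
    linarith
  unfold MtcStmt
  rw [← h7]
  refine h3.congr (fun z => ?_)
  rw [Mtc_Vk]

end Pool.Agent.Lib.SHK
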