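import Pool.Agent.Lib.SHK.Spec

set_option autoImplicit false

namespace Pool.Agent.Lib.SHK

open Finset Filter Topology
open scoped Classical

private lemma NumB_mul (k : ℕ) {x y z : ℕ} (h : x ≤ y) (h' : y ≤ z) :
    Vk k x y * Vk k y z = Vk k x z := by
  unfold Vk
  rw [← pr_union h h', prod_union (pr_disjoint x y z)]

private lemma NumB_fac {x y p : ℕ} (hp : p ∈ pr x y) :
    1 / 2 ≤ 1 - ((1 : ℕ) : ℝ) / p ∧ 1 - ((1 : ℕ) : ℝ) / p ≤ 1 := by
  have h := (mem_pr.1 hp).2.2.two_le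
  have h2 : (2 : ℝ) ≤ p := by exact_mod_cast h
  have h3 : (1 : ℝ) / p ≤ 1 / 2 := one_div_le_one_div_of_le (by norm_num) h2
  have h4 : 0 ≤ (1 : ℝ) / p := by positivity
  rw [Nat.cast_one]
  constructor <;> linarith

private lemma NumB_pos (x y : ℕ) : 0 < Vk 1 x y :=
  prod_pos fun p hp => by linarith [(NumB_fac hp).1]

private lemma NumB_le1 (x y : ℕ) : Vk 1 x y ≤ 1 :=
  prod_le_one (fun p hp => by linarith [(NumB_fac hp).1]) (fun p hp => (NumB_fac hp).2)

private lemma NumB_anti {a b : ℕ} (h : a ≤ b) : Vk 1 0 b ≤ Vk 1 0 a := by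
  rw [← NumB_mul 1 (Nat.zero_le a) h]
  exact mul_le_of_le_one_right (NumB_pos 0 a).le (NumB_le1 a b)

private lemma NumB_Th {g w Z1 : ℕ} (hw : 3 ≤ w) :
    0 ≤ Th g w Z1 ∧ Th g w Z1 ≤ ((1 - 1 / ((w : ℝ) - 1))⁻¹) ^ g * Vk 1 w Z1 := by
  have hw' : (3 : ℝ) ≤ w := by exact_mod_cast hw
  have h1 : 0 ≤ ((1 - 1 / ((w : ℝ) - 1))⁻¹) ^ g := by
    refine pow_nonneg (inv_nonneg.2 ?_) g
    have h2 : 1 / ((w : ℝ) - 1) ≤ 1 / 2 := one_div_le_one_div_of_le (by norm_num) (by linarith)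
    linarith
  have hf : ∀ p ∈ pr w Z1, 0 ≤ 1 - 1 / ((p : ℝ) - 2) ∧
      1 - 1 / ((p : ℝ) - 2) ≤ 1 - ((1 : ℕ) : ℝ) / p := by
    intro p hp
    have h2 : w + 1 ≤ p := (mem_pr.1 hp).1
    have h3 : (4 : ℝ) ≤ p := by
      have h4 : 4 ≤ p := by omega
      exact_mod_cast h4
    have h4 : 1 / ((p : ℝ) - 2) ≤ 1 / 2 := one_div_le_one_div_of_le (by norm_num) (by linarith)
    have h5 : 1 / (p : ℝ) ≤ 1 / ((p : ℝ) - 2) :=
      one_div_le_one_div_of_le (by linarith) (by linarith)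
    rw [Nat.cast_one]
    constructor <;> linarith
  unfold Th
  refine ⟨mul_nonneg h1 (prod_nonneg fun p hp => (hf p hp).1), ?_⟩
  exact mul_le_mul_of_nonneg_left
    (prod_le_prod (fun p hp => (hf p hp).1) fun p hp => (hf p hp).2) h1

private lemma NumB_V2 {w Z : ℕ} (hw : 3 ≤ w) (hwZ : w ≤ Z) : (Vk 1 0 Z) ^ 3 ≤ Vk 2 w Z := by
  have h1 : Vk 1 0 Z ≤ Vk 1 w Z := by
    rw [← NumB_mul 1 (Nat.zero_le w) hwZ]
    exact mul_le_of_le_one_left (NumB_pos w Z).le (NumB_le1 0 w)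
  refine (pow_le_pow_left₀ (NumB_pos 0 Z).le h1 3).trans ?_
  unfold Vk
  rw [← prod_pow]
  refine prod_le_prod (fun p hp => ?_) fun p hp => ?_
  · have := (NumB_fac hp).1
    positivity
  · have h2 : w + 1 ≤ p := (mem_pr.1 hp).1
    have h3 : (4 : ℝ) ≤ p := by
      have h4 : 4 ≤ p := by omega
      exact_mod_cast h4
    have h4 : 1 / (p : ℝ) ≤ 1 / 4 := one_div_le_one_div_of_le (by norm_num) h3
    have h5 : 0 ≤ 1 / (p : ℝ) := by positivity
    have h6 : ((2 : ℕ) : ℝ) / p = 2 * (1 / (p : ℝ)) := by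
      rw [Nat.cast_ofNat]
      ring
    rw [h6, Nat.cast_one]
    generalize 1 / (p : ℝ) = t at h4 h5
    nlinarith [mul_nonneg h5 (by nlinarith : (0 : ℝ) ≤ 1 - 3 * t + t ^ 2)]

private lemma NumB_lim {f : ℕ → ℕ} {u : ℕ → ℝ} (hu : Tendsto u atTop atTop)
    (h : ∀ᶠ g in atTop, Real.exp (u g) / 4 ≤ f g ∧ (f g : ℝ) ≤ Real.exp (u g)) :
    Tendsto f atTop atTop ∧ Tendsto (fun g => u g / Real.log (f g)) atTop (𝓝 1) := by
  have h1 : Tendsto f atTop atTop := by
    rw [← tendsto_natCast_atTop_iff (R := ℝ)]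
    refine tendsto_atTop_mono' _ (f₁ := fun g => Real.exp (u g) / 4) ?_ ?_
    · filter_upwards [h] with g hg
      exact hg.1
    · exact (Real.tendsto_exp_atTop.comp hu).atTop_div_const (by norm_num)
  refine ⟨h1, ?_⟩
  have h4 : Real.log 4 ≤ 2 := by
    have h5 : Real.log 4 = 2 * Real.log 2 := by
      rw [show (4 : ℝ) = 2 ^ 2 by norm_num, Real.log_pow]
      norm_num
    have h6 := Real.log_two_lt_d9
    linarith
  have h2 : Tendsto (fun g => Real.log (f g) / u g) atTop (𝓝 1) := by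
    have h3 : Tendsto (fun g => 1 - 2 / u g) atTop (𝓝 1) := by
      have := (tendsto_const_nhds (x := (1 : ℝ))).sub (hu.const_div_atTop 2)
      simpa using this
    refine tendsto_of_tendsto_of_tendsto_of_le_of_le' h3 tendsto_const_nhds ?_ ?_
    · filter_upwards [h, hu.eventually_gt_atTop 0] with g hg hg0
      have h5 : u g - Real.log 4 ≤ Real.log (f g) := by
        have h6 := Real.log_le_log (by positivity) hg.1
        rwa [Real.log_div (Real.exp_pos _).ne' (by norm_num), Real.log_exp] at h6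
      rw [le_div_iff₀ hg0, sub_mul, div_mul_cancel₀ _ hg0.ne', one_mul]
      linarith
    · filter_upwards [h, hu.eventually_gt_atTop 0] with g hg hg0
      have h5 : 0 < (f g : ℝ) := lt_of_lt_of_le (by positivity) hg.1
      have h6 := Real.log_le_log h5 hg.2
      rw [Real.log_exp] at h6
      rw [div_le_one hg0]
      exact h6
  have h3 := h2.inv₀ one_ne_zero
  rw [inv_one] at h3
  refine h3.congr fun g => ?_
  rw [inv_div]

/-- the factor A -/
private lemma NumB_A : Tendsto (fun g : ℕ => ((1 - 1 / (((g ^ 5 : ℕ) : ℝ) - 1))⁻¹) ^ g) atTop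
    (𝓝 1) := by
  have h1 : Tendsto (fun g : ℕ => (1 - 2 / (g : ℝ))⁻¹) atTop (𝓝 1) := by
    have h2 := ((tendsto_const_nhds (x := (1 : ℝ))).sub
      (tendsto_const_div_atTop_nhds_zero_nat (2 : ℝ))).inv₀ (by norm_num)
    simpa using h2
  refine tendsto_of_tendsto_of_tendsto_of_le_of_le' tendsto_const_nhds h1 ?_ ?_
  · filter_upwards [eventually_ge_atTop 3] with g hg
    have hg' : (3 : ℝ) ≤ g := by exact_mod_cast hg
    have h3 : (3 : ℝ) ≤ ((g ^ 5 : ℕ) : ℝ) := by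
      have : 3 ≤ g ^ 5 := le_trans hg (Nat.le_self_pow (by norm_num) g)
      exact_mod_cast this
    refine one_le_pow₀ (one_le_inv₀ ?_ |>.2 ?_)
    · have h2 : 1 / (((g ^ 5 : ℕ) : ℝ) - 1) ≤ 1 / 2 :=
        one_div_le_one_div_of_le (by norm_num) (by linarith)
      linarith
    · have h2 : 0 ≤ 1 / (((g ^ 5 : ℕ) : ℝ) - 1) := by
        apply div_nonneg zero_le_one
        linarith
      linarith
  · filter_upwards [eventually_ge_atTop 3] with g hg
    have hg' : (3 : ℝ) ≤ g := by exact_mod_cast hg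
    have h3 : (g : ℝ) ^ 2 + 1 ≤ ((g ^ 5 : ℕ) : ℝ) := by
      push_cast
      have h4 : (g : ℝ) ^ 5 = (g : ℝ) ^ 2 * (g : ℝ) ^ 3 := by ring
      have h5 : (2 : ℝ) ≤ (g : ℝ) ^ 3 := by
        calc (2 : ℝ) ≤ 3 ^ 3 := by norm_num
          _ ≤ (g : ℝ) ^ 3 := pow_le_pow_left₀ (by norm_num) hg' 3
      rw [h4]
      nlinarith [sq_nonneg (g : ℝ), mul_le_mul_of_nonneg_left h5 (sq_nonneg (g : ℝ))]
    have hg0 : (0 : ℝ) < g := by linarith
    have h6 : 1 / (((g ^ 5 : ℕ) : ℝ) - 1) ≤ 1 / (g : ℝ) ^ 2 :=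
      one_div_le_one_div_of_le (by positivity) (by linarith)
    have h6' : 1 / (g : ℝ) ^ 2 ≤ 1 := by
      rw [div_le_one (by positivity)]
      nlinarith
    have h7 : 1 - 2 / (g : ℝ) ≤ (1 - 1 / (((g ^ 5 : ℕ) : ℝ) - 1)) ^ g := by
      have h8 := one_add_mul_le_pow (a := -(1 / (((g ^ 5 : ℕ) : ℝ) - 1))) (by linarith) g
      have h9 : (g : ℝ) * (1 / (((g ^ 5 : ℕ) : ℝ) - 1)) ≤ 2 / (g : ℝ) := by
        calc (g : ℝ) * (1 / (((g ^ 5 : ℕ) : ℝ) - 1)) ≤ (g : ℝ) * (1 / (g : ℝ) ^ 2) :=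
              mul_le_mul_of_nonneg_left h6 hg0.le
          _ = 1 / (g : ℝ) := by field_simp
          _ ≤ 2 / (g : ℝ) := div_le_div_of_nonneg_right (by norm_num) hg0.le
      have h10 : 1 + -(1 / (((g ^ 5 : ℕ) : ℝ) - 1)) = 1 - 1 / (((g ^ 5 : ℕ) : ℝ) - 1) := by ring
      rw [h10] at h8
      linarith
    have h11 : 0 < 1 - 2 / (g : ℝ) := by
      have : 2 / (g : ℝ) < 1 := by
        rw [div_lt_one hg0]
        linarith
      linarith
    rw [inv_pow]
    exact inv_anti₀ h11 h7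

theorem tNumB (h1 : MtcStmt) : NumBStmt := by
  intro c η δ z hc1 hc2 hη hη1 hδ hz
  obtain ⟨hmono, hzt⟩ := hz
  have hc0 : 0 < c := by linarith
  have hs : Tendsto (fun g : ℕ => √(g : ℝ)) atTop atTop :=
    Real.tendsto_sqrt_atTop.comp tendsto_natCast_atTop_atTop
  have hu : Tendsto (fun g : ℕ => c * √(g : ℝ)) atTop atTop := hs.const_mul_atTop hc0
  have hexp : Tendsto (fun g : ℕ => Real.exp (c * √(g : ℝ))) atTop atTop :=
    Real.tendsto_exp_atTop.comp hu
  have hx : ∀ᶠ g : ℕ in atTop, Real.exp (c * √(g : ℝ)) / 4 ≤ xx c g ∧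
      (xx c g : ℝ) ≤ Real.exp (c * √(g : ℝ)) := by
    filter_upwards [hexp.eventually_ge_atTop 4] with g hg
    have h2 := Nat.sub_one_lt_floor (Real.exp (c * √(g : ℝ)))
    have h3 := Nat.floor_le (Real.exp_pos (c * √(g : ℝ))).le
    unfold xx
    exact ⟨by linarith, h3⟩
  have hx2 : ∀ᶠ g : ℕ in atTop, Real.exp (c * √(g : ℝ)) / 4 ≤ ((xx c g / 2 : ℕ) : ℝ) ∧
      ((xx c g / 2 : ℕ) : ℝ) ≤ Real.exp (c * √(g : ℝ)) := by
    filter_upwards [hexp.eventually_ge_atTop 4] with g hg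
    have h2 := Nat.sub_one_lt_floor (Real.exp (c * √(g : ℝ)))
    have h3 := Nat.floor_le (Real.exp_pos (c * √(g : ℝ))).le
    have h4 : (xx c g : ℝ) ≤ 2 * ((xx c g / 2 : ℕ) : ℝ) + 1 := by
      have : xx c g ≤ 2 * (xx c g / 2) + 1 := by omega
      exact_mod_cast this
    have h5 : ((xx c g / 2 : ℕ) : ℝ) ≤ xx c g := by
      exact_mod_cast Nat.div_le_self _ _
    have h6 : (xx c g : ℝ) = (⌊Real.exp (c * √(g : ℝ))⌋₊ : ℝ) := rfl
    constructor <;> linarith
  obtain ⟨hf1, hf2⟩ := NumB_lim hu hx2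
  obtain ⟨hf3, hf4⟩ := NumB_lim hu hx
  have hgen : ∀ f : ℕ → ℕ, Tendsto f atTop atTop →
      Tendsto (fun g : ℕ => c * √(g : ℝ) / Real.log (f g)) atTop (𝓝 1) →
      Tendsto (fun g : ℕ => Vk 1 0 (z (f g)) * (c * √(g : ℝ))) atTop (𝓝 1) := by
    intro f hf hf'
    have h2 := (hzt.comp hf).mul hf'
    rw [one_mul] at h2
    refine h2.congr' ?_
    filter_upwards [hf.eventually_ge_atTop 2] with g hg
    have h3 : (1 : ℝ) < f g := by exact_mod_cast hg
    have h4 := Real.log_pos h3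
    simp only [Function.comp]
    field_simp
  have t1 := hgen _ hf1 hf2
  have t2 := hgen _ hf3 hf4
  have hg5 : Tendsto (fun g : ℕ => g ^ 5) atTop atTop := tendsto_pow_atTop (by norm_num)
  have t3 := h1.comp hg5
  have hy : Tendsto (fun g : ℕ => yy η g) atTop atTop :=
    tendsto_nat_floor_atTop.comp (hs.const_mul_atTop hη)
  have t4 := h1.comp hy
  have t5 : Tendsto (fun g : ℕ => Real.log (g : ℝ) / √(g : ℝ)) atTop (𝓝 0) := by
    have h2 := (isLittleO_log_rpow_atTop (r := 1 / 2) (by norm_num)).tendsto_div_nhds_zero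
    refine (h2.comp tendsto_natCast_atTop_atTop).congr fun g => ?_
    simp only [Function.comp]
    rw [Real.sqrt_eq_rpow]
  have hγ : 0 < Real.exp (-Real.eulerMascheroniConstant) := Real.exp_pos _
  -- R = V(Z1)/V(w) → 0
  have tR : Tendsto (fun g : ℕ => Vk 1 0 (z (xx c g / 2)) / Vk 1 0 (g ^ 5)) atTop (𝓝 0) := by
    have h2 := (t1.div t3 hγ.ne').mul (t5.const_mul (5 / c))
    rw [mul_zero, mul_zero] at h2
    refine h2.congr' ?_
    filter_upwards [eventually_ge_atTop 2] with g hg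
    have hg1 : (1 : ℝ) < g := by exact_mod_cast hg
    have hlog := Real.log_pos hg1
    have hsq : 0 < √(g : ℝ) := Real.sqrt_pos.2 (by linarith)
    have hV := NumB_pos 0 (g ^ 5)
    have h3 : Real.log ((g ^ 5 : ℕ) : ℝ) = 5 * Real.log (g : ℝ) := by
      rw [Nat.cast_pow, Real.log_pow]
      norm_num
    simp only [Function.comp, Pi.div_apply]
    rw [h3]
    field_simp
  have tAR : Tendsto (fun g : ℕ => ((1 - 1 / (((g ^ 5 : ℕ) : ℝ) - 1))⁻¹) ^ g *
      (Vk 1 0 (z (xx c g / 2)) / Vk 1 0 (g ^ 5))) atTop (𝓝 0) := by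
    have h2 := NumB_A.mul tR
    rwa [mul_zero] at h2
  have tS : Tendsto (fun g : ℕ => ((1 - 1 / (((g ^ 5 : ℕ) : ℝ) - 1))⁻¹) ^ g *
      ((Vk 1 0 (z (xx c g / 2)) * (c * √(g : ℝ))) /
        (Vk 1 0 (yy η g) * Real.log (yy η g)))) atTop
      (𝓝 (Real.exp Real.eulerMascheroniConstant)) := by
    have h2 := NumB_A.mul (t1.div t4 hγ.ne')
    rw [one_mul, Real.exp_neg, one_div, inv_inv] at h2
    exact h2
  have eS := tS.eventually_lt_const (u := (1 + δ) * Real.exp Real.eulerMascheroniConstant)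
    (by nlinarith [Real.exp_pos Real.eulerMascheroniConstant])
  have eR := tR.eventually_lt_const (u := (1 : ℝ)) one_pos
  have eAR := tAR.eventually_lt_const hδ
  have e2 := t2.eventually_const_lt (u := (1 / 2 : ℝ)) (by norm_num)
  have ey := hy.eventually_ge_atTop 2
  obtain ⟨g0, hg0⟩ := eventually_atTop.1
    (eS.and (eR.and (eAR.and (e2.and (ey.and (eventually_ge_atTop 100))))))
  refine ⟨g0, fun g hg => ?_⟩
  obtain ⟨aS, aR, aAR, a2, ay, a100⟩ := hg0 g hg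
  have hgr : (100 : ℝ) ≤ g := by exact_mod_cast a100
  have hsq : 0 < √(g : ℝ) := Real.sqrt_pos.2 (by linarith)
  have hss : √(g : ℝ) * √(g : ℝ) = g := Real.mul_self_sqrt (by linarith)
  have hlog : 0 < Real.log (g : ℝ) := Real.log_pos (by linarith)
  have hw3 : 3 ≤ g ^ 5 := le_trans (by omega : 3 ≤ g) (Nat.le_self_pow (by norm_num) g)
  have hZZ : z (xx c g / 2) ≤ z (xx c g) := hmono (Nat.div_le_self _ _)
  have hwZ : g ^ 5 ≤ z (xx c g / 2) := by
    by_contra hlt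
    have h2 := NumB_anti (not_le.1 hlt).le
    have h3 := NumB_pos 0 (g ^ 5)
    rw [div_lt_one h3] at aR
    linarith
  obtain ⟨hTh0, hTh1⟩ := NumB_Th (g := g) (Z1 := z (xx c g / 2)) hw3
  have hVw : Vk 1 (g ^ 5) (z (xx c g / 2)) =
      Vk 1 0 (z (xx c g / 2)) / Vk 1 0 (g ^ 5) := by
    rw [eq_div_iff (NumB_pos 0 (g ^ 5)).ne', mul_comm]
    exact NumB_mul 1 (Nat.zero_le _) hwZ
  refine ⟨hwZ, hZZ, ?_, hTh0, ?_, ?_⟩
  · refine le_trans ?_ (NumB_V2 hw3 (hwZ.trans hZZ))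
    have h2 : 1 / (2 * √(g : ℝ)) ≤ Vk 1 0 (z (xx c g)) := by
      have hV := NumB_pos 0 (z (xx c g))
      rw [div_le_iff₀ (by positivity)]
      have h3 : Vk 1 0 (z (xx c g)) * (c * √(g : ℝ)) ≤ Vk 1 0 (z (xx c g)) * √(g : ℝ) := by
        refine mul_le_mul_of_nonneg_left ?_ hV.le
        nlinarith
      nlinarith
    refine le_trans ?_ (pow_le_pow_left₀ (by positivity) h2 3)
    rw [div_pow, one_pow]
    refine one_div_le_one_div_of_le (by positivity) ?_
    have h3 : (2 * √(g : ℝ)) ^ 3 = 8 * (√(g : ℝ) * g) := by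
      calc (2 * √(g : ℝ)) ^ 3 = 8 * (√(g : ℝ) * (√(g : ℝ) * √(g : ℝ))) := by ring
        _ = 8 * (√(g : ℝ) * g) := by rw [hss]
    have h4 : √(g : ℝ) ≤ g := by
      rw [Real.sqrt_le_left (by linarith)]
      nlinarith
    rw [h3]
    calc 8 * (√(g : ℝ) * g) ≤ 8 * (g * g) := by
          refine mul_le_mul_of_nonneg_left ?_ (by norm_num)
          exact mul_le_mul_of_nonneg_right h4 (by linarith)
      _ ≤ (g : ℝ) ^ 4 := by
          have h5 : (8 : ℝ) ≤ (g : ℝ) * g := by nlinarith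
          have h6 : 0 ≤ (g : ℝ) * g := by nlinarith
          nlinarith [mul_le_mul_of_nonneg_right h5 h6]
  · refine hTh1.trans ?_
    rw [hVw]
    exact aAR.le
  · have hyg : yy η g ≤ g ^ 5 := by
      have h2 : (yy η g : ℝ) ≤ g := by
        have h3 := Nat.floor_le (show 0 ≤ η * √(g : ℝ) by positivity)
        have h4 : √(g : ℝ) ≤ g := by
          rw [Real.sqrt_le_left (by linarith)]
          nlinarith
        have h5 : (yy η g : ℝ) = (⌊η * √(g : ℝ)⌋₊ : ℝ) := rfl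
        have h6 : η * √(g : ℝ) ≤ √(g : ℝ) := by nlinarith
        linarith
      have h3 : yy η g ≤ g := by exact_mod_cast h2
      exact h3.trans (Nat.le_self_pow (by norm_num) g)
    have hVy : Vk 1 (yy η g) (g ^ 5) * Vk 1 (g ^ 5) (z (xx c g / 2)) =
        Vk 1 0 (z (xx c g / 2)) / Vk 1 0 (yy η g) := by
      rw [eq_div_iff (NumB_pos 0 (yy η g)).ne', NumB_mul 1 hyg hwZ, mul_comm]
      exact NumB_mul 1 (Nat.zero_le _) (hyg.trans hwZ)
    have hy1 : (1 : ℝ) < yy η g := by exact_mod_cast ay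
    have hly : 0 < Real.log (yy η g) := Real.log_pos hy1
    have hly2 : Real.log (yy η g) ≤ Real.log g / 2 := by
      have h3 := Nat.floor_le (show 0 ≤ η * √(g : ℝ) by positivity)
      have h5 : (yy η g : ℝ) = (⌊η * √(g : ℝ)⌋₊ : ℝ) := rfl
      have h6 : η * √(g : ℝ) ≤ √(g : ℝ) := by nlinarith
      have h7 : (yy η g : ℝ) ≤ √(g : ℝ) := by linarith
      have h8 := Real.log_le_log (by linarith) h7
      rwa [Real.log_sqrt (by linarith)] at h8
    have hVy0 := NumB_pos 0 (yy η g)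
    have hVyw := NumB_pos (yy η g) (g ^ 5)
    have hgl : 0 < (g : ℝ) / Real.log g := by positivity
    calc Th g (g ^ 5) (z (xx c g / 2)) * (Vk 1 (yy η g) (g ^ 5) * (g / Real.log g))
        ≤ (((1 - 1 / (((g ^ 5 : ℕ) : ℝ) - 1))⁻¹) ^ g * Vk 1 (g ^ 5) (z (xx c g / 2))) *
            (Vk 1 (yy η g) (g ^ 5) * (g / Real.log g)) :=
          mul_le_mul_of_nonneg_right hTh1 (by positivity)
      _ = ((1 - 1 / (((g ^ 5 : ℕ) : ℝ) - 1))⁻¹) ^ g *
            (Vk 1 (yy η g) (g ^ 5) * Vk 1 (g ^ 5) (z (xx c g / 2))) * (g / Real.log g) := by ring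
      _ = (((1 - 1 / (((g ^ 5 : ℕ) : ℝ) - 1))⁻¹) ^ g *
            ((Vk 1 0 (z (xx c g / 2)) * (c * √(g : ℝ))) /
              (Vk 1 0 (yy η g) * Real.log (yy η g)))) *
            (Real.log (yy η g) / (c * √(g : ℝ)) * (g / Real.log g)) := by
          rw [hVy]
          field_simp
      _ ≤ ((1 + δ) * Real.exp Real.eulerMascheroniConstant) *
            (Real.log (yy η g) / (c * √(g : ℝ)) * (g / Real.log g)) :=
          mul_le_mul_of_nonneg_right aS.le (by positivity)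
      _ ≤ ((1 + δ) * Real.exp Real.eulerMascheroniConstant) *
            (Real.log g / 2 / (c * √(g : ℝ)) * (g / Real.log g)) := by
          refine mul_le_mul_of_nonneg_left ?_ (by positivity)
          refine mul_le_mul_of_nonneg_right ?_ hgl.le
          exact div_le_div_of_nonneg_right hly2 (by positivity)
      _ = (1 + δ) * (Real.exp Real.eulerMascheroniConstant / (2 * c) * √(g : ℝ)) := by
          have h9 : Real.log g / 2 / (c * √(g : ℝ)) * (g / Real.log g) =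
              √(g : ℝ) / (2 * c) := by
            have h10 : (g : ℝ) = √(g : ℝ) * √(g : ℝ) := hss.symm
            have h11 : Real.log g / 2 / (c * √(g : ℝ)) * (g / Real.log g) =
                g / (2 * c * √(g : ℝ)) := by
              field_simp
            rw [h11, div_eq_div_iff (by positivity) (by positivity)]
            nlinarith
          rw [h9]
          ring

end Pool.Agent.Lib.SHK
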