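import Pool.Agent.Lib.SHK.Spec

/-! Module NumC: parameters, final inequality. -/

set_option autoImplicit false

namespace Pool.Agent.Lib.SHK

open Finset Filter Topology
open scoped Classical

private theorem NumC_vk (x y : ℕ) : 0 ≤ Vk 1 x y := by
  unfold Vk
  refine prod_nonneg fun p hp => ?_
  have h := (mem_pr.1 hp).2.2.one_lt
  have h1 : (1 : ℝ) < p := by exact_mod_cast h
  have h2 : (1 : ℝ) / p ≤ 1 := by
    rw [div_le_one (by linarith)]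
    exact h1.le
  push_cast
  linarith

private theorem NumC_log (t δ : ℝ) (ht : 0 ≤ t) (hδ : 0 < δ) (hδ1 : δ ≤ 1 / 4) (h : t ≤ δ / 2) :
    -((1 + δ) * t) ≤ Real.log (1 - t) := by
  have h1 : 0 < 1 - t := by linarith
  have h2 := Real.one_sub_inv_le_log_of_pos h1
  refine le_trans ?_ h2
  have h3 : (1 - t)⁻¹ ≤ 1 + (1 + δ) * t := by
    have h4 : 1 ≤ (1 + (1 + δ) * t) * (1 - t) := by
      have h5 : (1 + δ) * t ≤ δ := by nlinarith
      nlinarith [mul_nonneg ht (sub_nonneg.2 h5)]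
    calc (1 - t)⁻¹ = 1 * (1 - t)⁻¹ := (one_mul _).symm
      _ ≤ ((1 + (1 + δ) * t) * (1 - t)) * (1 - t)⁻¹ :=
        mul_le_mul_of_nonneg_right h4 (inv_nonneg.2 h1.le)
      _ = 1 + (1 + δ) * t := by
        rw [mul_assoc, mul_inv_cancel₀ h1.ne', mul_one]
  linarith

private theorem NumC_pow (T δ k0 Ks : ℝ) (hT : 0 ≤ T) (hδ : 0 < δ) (hδ1 : δ ≤ 1 / 4)
    (h : T ≤ δ / 2) (hk : 0 ≤ k0) (hs : T * k0 ≤ (1 + δ) ^ 3 * Ks) :
    Real.exp (-((1 + δ) ^ 4 * Ks)) ≤ (1 - T) ^ k0 := by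
  rw [Real.rpow_def_of_pos (by linarith)]
  apply Real.exp_le_exp.2
  have h1 := NumC_log T δ hT hδ hδ1 h
  have h2 := mul_le_mul_of_nonneg_right h1 hk
  have h3 : (1 + δ) * (T * k0) ≤ (1 + δ) * ((1 + δ) ^ 3 * Ks) :=
    mul_le_mul_of_nonneg_left hs (by linarith)
  have h4 : (1 + δ) * ((1 + δ) ^ 3 * Ks) = (1 + δ) ^ 4 * Ks := by ring
  linarith

private theorem NumC_ev (η c' : ℝ) (hη : 0 < η) (hc : 0 < c') :
    ∃ g1 : ℕ, ∀ g : ℕ, g1 ≤ g → (g : ℝ) ^ 6 ≤ c' * Real.exp (η * √(g : ℝ)) := by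
  have h1 := (isLittleO_pow_exp_pos_mul_atTop 12 hη).def hc
  have h2 : Tendsto (fun g : ℕ => √(g : ℝ)) atTop atTop :=
    Real.tendsto_sqrt_atTop.comp tendsto_natCast_atTop_atTop
  obtain ⟨g1, hg1⟩ := eventually_atTop.1 (h2.eventually h1)
  refine ⟨g1, fun g hg => ?_⟩
  have h3 := hg1 g hg
  have h4 : (√(g : ℝ)) ^ 12 = (g : ℝ) ^ 6 := by
    have h5 : (√(g : ℝ)) ^ 2 = (g : ℝ) := Real.sq_sqrt (Nat.cast_nonneg g)
    calc (√(g : ℝ)) ^ 12 = ((√(g : ℝ)) ^ 2) ^ 6 := by ring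
      _ = (g : ℝ) ^ 6 := by rw [h5]
  rw [h4, Real.norm_of_nonneg (by positivity), Real.norm_of_nonneg (Real.exp_pos _).le] at h3
  exact h3

/-- Parameters, final inequality. -/
theorem tNumC (h1 : NumAStmt) (h2 : NumBStmt) : NumCStmt := by
  intro c z hc hc1 hz
  set G : ℝ := Real.exp Real.eulerMascheroniConstant with hG
  have hG1 : 1 < G := by
    rw [hG]
    apply Real.one_lt_exp_iff.2
    linarith [Real.one_half_lt_eulerMascheroniConstant]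
  have hc0 : 1 / 2 < c := by
    refine lt_trans ?_ hc
    rw [Real.lt_sqrt (by norm_num)]
    linarith
  have hcc : G / 2 < c ^ 2 := (Real.sqrt_lt' (by linarith)).1 hc
  set K : ℝ := G / (2 * c) with hK
  have hKpos : 0 < K := by rw [hK]; positivity
  have hKc : K < c := by
    rw [hK, div_lt_iff₀ (by linarith)]
    nlinarith
  set m : ℝ := c - K with hm
  have hm0 : 0 < m := by rw [hm]; linarith
  obtain ⟨η, hη⟩ : ∃ η : ℝ, η = min (1 / 10) (m / 6) := ⟨_, rfl⟩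
  obtain ⟨δ, hδ⟩ : ∃ δ : ℝ, δ = min (1 / 4) (m / (12 * K)) := ⟨_, rfl⟩
  have hη0 : 0 < η := by rw [hη]; exact lt_min (by norm_num) (by linarith)
  have hη1 : η ≤ 1 / 10 := by rw [hη]; exact min_le_left _ _
  have hη2 : η ≤ m / 6 := by rw [hη]; exact min_le_right _ _
  have hδ0 : 0 < δ := by rw [hδ]; exact lt_min (by norm_num) (by positivity)
  have hδ1 : δ ≤ 1 / 4 := by rw [hδ]; exact min_le_left _ _
  have hδ2 : δ * (12 * K) ≤ m := by
    rw [← le_div_iff₀ (by linarith), hδ]; exact min_le_right _ _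
  have hmain : (1 + δ) ^ 4 * K + η ≤ c - 2 * η := by
    have h3 : (1 + δ) ^ 4 ≤ 1 + 6 * δ := by
      have h4 : δ ^ 2 ≤ δ / 4 := by nlinarith
      have h5 : δ ^ 3 ≤ δ / 16 := by nlinarith
      have h6 : δ ^ 4 ≤ δ / 64 := by nlinarith
      have h7 : (1 + δ) ^ 4 = 1 + 4 * δ + 6 * δ ^ 2 + 4 * δ ^ 3 + δ ^ 4 := by ring
      rw [h7]
      linarith
    have h4 : (1 + δ) ^ 4 * K ≤ (1 + 6 * δ) * K := mul_le_mul_of_nonneg_right h3 hKpos.le
    have h5 : (1 + 6 * δ) * K = K + (δ * (12 * K)) / 2 := by ring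
    have h6 : c = K + m := by rw [hm]; ring
    linarith
  refine ⟨η, δ, hη0, hδ0, hδ1, fun c' R y0 hc' => ?_⟩
  obtain ⟨gA, hA⟩ := h1 c η hc0.le hc1 hη0 hη1 R y0
  obtain ⟨gB, hB⟩ := h2 c η (δ / 2) z hc0.le hc1 hη0 hη1 (by linarith) hz
  obtain ⟨gC, hC⟩ := NumC_ev η c' hη0 hc'
  refine ⟨gA + gB + gC, fun g hg => ?_⟩
  obtain ⟨a1, a2, a3, a4, a5, a6, a7, a8, a9, a10, a11, a12⟩ := hA g (by omega)
  obtain ⟨b1, b2, b3, b4, b5, b6⟩ := hB g (by omega)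
  have hCg := hC g (by omega)
  refine ⟨a1, a2, a3, a4, a5, a6, a7, a8, a10, a11, a12, b1, b2, by linarith, ?_⟩
  set T := Th g (g ^ 5) (z (xx c g / 2)) with hT
  set V := Vk 1 (yy η g) (g ^ 5) with hV
  set s := √(g : ℝ) with hs
  have hs0 : 0 ≤ s := Real.sqrt_nonneg _
  have hg100 : (100 : ℝ) ≤ g := by exact_mod_cast a1
  have hg0 : (0 : ℝ) < g := by linarith
  have hV0 : 0 ≤ V := NumC_vk _ _
  have hlog : 0 < Real.log g := Real.log_pos (by linarith)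
  have hgl : 0 ≤ (g : ℝ) / Real.log g := by positivity
  have hk0 : 0 ≤ (1 + δ) * ((1 + δ) * (g / Real.log g) * V) := by positivity
  have hTk : T * ((1 + δ) * ((1 + δ) * (g / Real.log g) * V)) ≤ (1 + δ) ^ 3 * (K * s) := by
    have h3 : T * ((1 + δ) * ((1 + δ) * (g / Real.log g) * V)) =
        (1 + δ) ^ 2 * (T * (V * (g / Real.log g))) := by ring
    have h4 : (1 + δ) ^ 2 * (T * (V * (g / Real.log g))) ≤
        (1 + δ) ^ 2 * ((1 + δ / 2) * (K * s)) := mul_le_mul_of_nonneg_left b6 (by positivity)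
    have h5 : (1 + δ) ^ 2 * ((1 + δ / 2) * (K * s)) ≤ (1 + δ) ^ 2 * ((1 + δ) * (K * s)) := by
      refine mul_le_mul_of_nonneg_left ?_ (by positivity)
      exact mul_le_mul_of_nonneg_right (by linarith) (by positivity)
    have h6 : (1 + δ) ^ 2 * ((1 + δ) * (K * s)) = (1 + δ) ^ 3 * (K * s) := by ring
    linarith
  have hP := NumC_pow T δ _ (K * s) b4 hδ0 hδ1 b5 hk0 hTk
  set P := (1 - T) ^ ((1 + δ) * ((1 + δ) * (g / Real.log g) * V)) with hPdef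
  have hP0 : 0 ≤ P := le_trans (Real.exp_pos _).le hP
  have e1 : Real.exp (η * s) ≤ Real.exp ((c - 2 * η) * s) * Real.exp (-((1 + δ) ^ 4 * (K * s))) := by
    rw [← Real.exp_add]
    apply Real.exp_le_exp.2
    have h3 := mul_le_mul_of_nonneg_right hmain hs0
    have h4 : ((1 + δ) ^ 4 * K + η) * s = (1 + δ) ^ 4 * (K * s) + η * s := by ring
    linarith
  have e2 : Real.exp ((c - 2 * η) * s) * Real.exp (-((1 + δ) ^ 4 * (K * s))) ≤
      (NN c η g : ℝ) * P := mul_le_mul a9 hP (Real.exp_pos _).le (Nat.cast_nonneg _)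
  have e3 : (g : ℝ) ^ 6 ≤ c' * ((NN c η g : ℝ) * P) :=
    hCg.trans (mul_le_mul_of_nonneg_left (e1.trans e2) hc'.le)
  have e4 : 0 ≤ c' * ((NN c η g : ℝ) * P) := le_trans (by positivity) e3
  calc (g : ℝ) ^ 2 = (g : ℝ) ^ 6 * (1 / (g : ℝ) ^ 4) := by field_simp
    _ ≤ c' * ((NN c η g : ℝ) * P) * (1 / (g : ℝ) ^ 4) :=
      mul_le_mul_of_nonneg_right e3 (by positivity)
    _ ≤ c' * ((NN c η g : ℝ) * P) * Vk 2 (g ^ 5) (z (xx c g)) :=
      mul_le_mul_of_nonneg_left b3 e4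
    _ = c' * NN c η g * (Vk 2 (g ^ 5) (z (xx c g)) * P) := by ring

end Pool.Agent.Lib.SHK
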