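import Pool.Agent.Lib.SHK.Spec

set_option autoImplicit false

namespace Pool.Agent.Lib.SHK

open Finset Filter Topology

open scoped Classical

private lemma Pk_nonneg (r θ : ℝ) (k : ℕ) : 0 ≤ PP r θ k :=
  prod_nonneg fun _ _ => le_max_left _ _

private lemma Pk_succ (r θ : ℝ) (k : ℕ) :
    PP r θ (k + 1) = PP r θ k * max 0 (1 - r ^ k * θ) := by
  unfold PP
  rw [prod_range_succ]

private lemma Pk_b (q x : ℝ) (hq : 0 ≤ q) (hq1 : q ≤ 1) (hx : 0 ≤ x) :
    max 0 (1 - (1 - q) * x) ≤ max 0 (1 - x) + q * (1 - max 0 (1 - x)) := by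
  rcases le_total (1 - x) 0 with h | h
  · rw [max_eq_left h]
    refine max_le (by linarith) ?_
    nlinarith [mul_nonneg (by linarith : 0 ≤ 1 - q) (by linarith : 0 ≤ x - 1)]
  · rw [max_eq_right h]
    refine max_le ?_ ?_
    · nlinarith [mul_nonneg hq hx]
    · nlinarith

theorem tPk : PkStmt := by
  refine ⟨?_, ?_⟩
  · intro r q θ k hr hq hq1 hrq hθ
    have hr0 : 0 ≤ r := by linarith
    induction k with
    | zero =>
      intro _
      have hb := Pk_b q θ hq hq1 hθ
      have h1 : PP r θ 0 = 1 := by simp [PP]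
      have h2 : PP r θ (0 + 1) = max 0 (1 - θ) := by simp [PP]
      have h3 : PP r ((1 - q) * θ) (0 + 1) = max 0 (1 - (1 - q) * θ) := by simp [PP]
      rw [h1, h2, h3]
      push_cast
      linarith
    | succ k ih =>
      intro hk
      have hk1 : ((k : ℝ) + 1) * q ≤ 1 := by
        push_cast at hk
        nlinarith
      have ih' := ih hk1
      have hx : 0 ≤ r ^ (k + 1) * θ := mul_nonneg (pow_nonneg hr0 _) hθ
      have hb := Pk_b q (r ^ (k + 1) * θ) hq hq1 hx
      have hb' : (1 - q) * (r ^ (k + 1) * θ) = r ^ (k + 1) * ((1 - q) * θ) := by ring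
      rw [hb'] at hb
      rw [Pk_succ r ((1 - q) * θ) (k + 1), Pk_succ r θ (k + 1)]
      set b := max 0 (1 - r ^ (k + 1) * θ) with hbd
      set b' := max 0 (1 - r ^ (k + 1) * ((1 - q) * θ)) with hbd'
      have hb0 : 0 ≤ b := le_max_left _ _
      have hb'0 : 0 ≤ b' := le_max_left _ _
      have hb1 : b ≤ 1 := max_le zero_le_one (by linarith)
      have hle : PP r θ k * b' ≤ PP r θ (k + 1) := by
        rw [Pk_succ]
        refine mul_le_mul_of_nonneg_left ?_ (Pk_nonneg r θ k)
        refine max_le_max le_rfl ?_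
        have h4 : r ^ k * θ ≤ r ^ (k + 1) * ((1 - q) * θ) := by
          have h5 : r ^ (k + 1) * ((1 - q) * θ) = (r ^ k * θ) * (r * (1 - q)) := by ring
          rw [h5]
          exact le_mul_of_one_le_right (mul_nonneg (pow_nonneg hr0 _) hθ) hrq
        linarith
      have hP1 := Pk_nonneg r θ (k + 1)
      have hkq : 0 ≤ ((k : ℝ) + 1) * q := by positivity
      calc PP r ((1 - q) * θ) (k + 1) * b'
          ≤ ((1 - ((k : ℝ) + 1) * q) * PP r θ (k + 1) + ((k : ℝ) + 1) * q * PP r θ k) * b' :=
            mul_le_mul_of_nonneg_right ih' hb'0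
        _ = (1 - ((k : ℝ) + 1) * q) * PP r θ (k + 1) * b' +
              ((k : ℝ) + 1) * q * (PP r θ k * b') := by ring
        _ ≤ (1 - ((k : ℝ) + 1) * q) * PP r θ (k + 1) * b' +
              ((k : ℝ) + 1) * q * PP r θ (k + 1) := by
            have := mul_le_mul_of_nonneg_left hle hkq
            linarith
        _ = PP r θ (k + 1) * ((1 - ((k : ℝ) + 1) * q) * b' + ((k : ℝ) + 1) * q) := by ring
        _ ≤ PP r θ (k + 1) * (b + ((k : ℝ) + 2) * q * (1 - b)) := by
            refine mul_le_mul_of_nonneg_left ?_ hP1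
            have h6 : (1 - ((k : ℝ) + 1) * q) * b' ≤
                (1 - ((k : ℝ) + 1) * q) * (b + q * (1 - b)) :=
              mul_le_mul_of_nonneg_left hb (by linarith)
            have h7 : 0 ≤ ((k : ℝ) + 1) * q * (q * (1 - b)) :=
              mul_nonneg hkq (mul_nonneg hq (by linarith))
            nlinarith
        _ = (1 - (((k + 1 : ℕ) : ℝ) + 1) * q) * (PP r θ (k + 1) * b) +
              (((k + 1 : ℕ) : ℝ) + 1) * q * PP r θ (k + 1) := by
            push_cast
            ring
  · intro r θ k hr hθ h1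
    have hr0 : 0 ≤ r := by linarith
    calc (1 - r ^ k * θ) ^ k = ∏ _i ∈ range k, (1 - r ^ k * θ) := by
          rw [prod_const, card_range]
      _ ≤ PP r θ k := by
          unfold PP
          refine prod_le_prod (fun _ _ => by linarith) fun i hi => ?_
          refine le_trans ?_ (le_max_right _ _)
          have h2 : r ^ i ≤ r ^ k := pow_le_pow_right₀ hr (mem_range.1 hi).le
          have := mul_le_mul_of_nonneg_right h2 hθ
          linarith

end Pool.Agent.Lib.SHK
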