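import Pool.Agent.Lib.SHK.Spec

/-!
MP_9a4459_nt, directory Lib/SHK, module Prg (helper68): Bonferroni in a progression.
-/

set_option autoImplicit false

namespace Pool.Agent.Lib.SHK

open Finset Filter Topology
open scoped Classical

private lemma Prg_cast {p x b : ℕ} (hb : b < p) : x % p = b ↔ (x : ZMod p) = (b : ZMod p) := by
  rw [ZMod.natCast_eq_natCast_iff', Nat.mod_eq_of_lt hb]

/-- the classes t mod p with n0 + D t + h = b for some h in H -/
private noncomputable def Prg_Om (H : Finset ℕ) (b n0 D p : ℕ) : Finset ℕ :=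
  (range p).filter (fun t => ∃ h ∈ H, (n0 + D * t + h) % p = b)

private lemma Prg_card (H : Finset ℕ) {b n0 D p : ℕ} (hp : p.Prime) (hD : p.Coprime D) (hb : b < p) :
    (Prg_Om H b n0 D p).card = nu H p := by
  have : Fact p.Prime := ⟨hp⟩
  have : NeZero p := ⟨hp.ne_zero⟩
  have hD0 : (D : ZMod p) ≠ 0 := by
    intro h
    rw [ZMod.natCast_eq_zero_iff] at h
    exact hp.one_lt.ne' (Nat.Coprime.eq_one_of_dvd hD h)
  unfold Prg_Om nu
  apply card_nbij' (fun t : ℕ => ((b : ZMod p) - n0 - D * (t : ZMod p)).val)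
    (fun r : ℕ => (((b : ZMod p) - n0 - (r : ZMod p)) / D).val)
  · intro t ht
    rw [Finset.mem_coe, mem_filter] at ht
    obtain ⟨_, h, hh, hht⟩ := ht
    rw [Prg_cast hb] at hht
    rw [Finset.mem_coe, mem_image]
    refine ⟨h, hh, ?_⟩
    have e : (b : ZMod p) - n0 - D * t = (h : ZMod p) := by
      rw [← hht]
      push_cast
      ring
    simp only [e, ZMod.val_natCast]
  · intro r hr
    rw [Finset.mem_coe, mem_image] at hr
    obtain ⟨h, hh, hhr⟩ := hr
    rw [Finset.mem_coe, mem_filter]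
    refine ⟨mem_range.2 (ZMod.val_lt _), h, hh, ?_⟩
    rw [Prg_cast hb]
    have e1 : (r : ZMod p) = (h : ZMod p) := by
      rw [← hhr]
      exact ZMod.natCast_mod h p
    push_cast
    rw [ZMod.natCast_zmod_val, e1]
    field_simp
    ring
  · intro t ht
    rw [Finset.mem_coe, mem_filter, mem_range] at ht
    simp only [ZMod.natCast_zmod_val]
    have e : ((b : ZMod p) - n0 - ((b : ZMod p) - n0 - D * t)) / D = (t : ZMod p) := by
      field_simp
      ring
    rw [e, ZMod.val_natCast, Nat.mod_eq_of_lt ht.1]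
  · intro r hr
    rw [Finset.mem_coe, mem_image] at hr
    obtain ⟨h, _, hhr⟩ := hr
    have hrp : r < p := by
      rw [← hhr]
      exact Nat.mod_lt _ hp.pos
    simp only [ZMod.natCast_zmod_val]
    have e : (b : ZMod p) - n0 - D * (((b : ZMod p) - n0 - r) / D) = (r : ZMod p) := by
      field_simp
      ring
    rw [e, ZMod.val_natCast, Nat.mod_eq_of_lt hrp]

private lemma Prg_mem (H : Finset ℕ) {b n0 D p : ℕ} (hp : 0 < p) (t : ℕ) :
    t % p ∈ Prg_Om H b n0 D p ↔ ∃ h ∈ H, (n0 + D * t + h) % p = b := by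
  unfold Prg_Om
  rw [mem_filter, mem_range]
  have e : ∀ h, (n0 + D * (t % p) + h) % p = (n0 + D * t + h) % p := by
    intro h
    have h1 : n0 + D * (t % p) + h ≡ n0 + D * t + h [MOD p] :=
      Nat.ModEq.add_right _ (Nat.ModEq.add_left _ (Nat.ModEq.mul_left _ (Nat.mod_modEq t p)))
    exact h1
  constructor
  · rintro ⟨_, h, hh, hht⟩
    exact ⟨h, hh, by rw [← e h]; exact hht⟩
  · rintro ⟨h, hh, hht⟩
    exact ⟨Nat.mod_lt _ hp, h, hh, by rw [e h]; exact hht⟩

theorem tPrg (h1 : BonStmt) : PrgStmt := by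
  intro Q H a n0 D N R hQ
  have hB := h1 Q (fun p => Prg_Om H (a p) n0 D p) R N
    (fun p hp => ⟨(hQ p hp).1, filter_subset _ _⟩)
  have hcard : ∀ p ∈ Q, (Prg_Om H (a p) n0 D p).card = nu H p := fun p hp =>
    Prg_card H (hQ p hp).1 (hQ p hp).2.1 (hQ p hp).2.2
  have hset : (range N).filter (fun t => ∀ p ∈ Q, t % p ∉ Prg_Om H (a p) n0 D p) =
      (range N).filter (fun t => ∀ p ∈ Q, ∀ h ∈ H, (n0 + D * t + h) % p ≠ a p) := by
    apply filter_congr
    intro t _
    constructor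
    · intro hh p hp h hh1 he
      exact hh p hp ((Prg_mem H (hQ p hp).1.pos t).2 ⟨h, hh1, he⟩)
    · intro hh p hp hm
      obtain ⟨h, hh1, he⟩ := (Prg_mem H (hQ p hp).1.pos t).1 hm
      exact hh p hp h hh1 he
  have hprod : ∏ p ∈ Q, (1 - ((Prg_Om H (a p) n0 D p).card : ℝ) / p) = ∏ p ∈ Q, (1 - (nu H p : ℝ) / p) :=
    prod_congr rfl (fun p hp => by rw [hcard p hp])
  rw [hset, hprod] at hB
  refine hB.trans ?_
  have hnu : ∀ p, (nu H p : ℝ) ≤ H.card := fun p => by exact_mod_cast card_image_le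
  have hs1 : ∑ p ∈ Q, ((Prg_Om H (a p) n0 D p).card : ℝ) / p ≤ ∑ p ∈ Q, (H.card : ℝ) / p := by
    apply sum_le_sum
    intro p hp
    rw [hcard p hp]
    exact div_le_div_of_nonneg_right (hnu p) (Nat.cast_nonneg p)
  have hs2 : ∑ p ∈ Q, ((Prg_Om H (a p) n0 D p).card : ℝ) ≤ (Q.card : ℝ) * H.card := by
    have : ∑ p ∈ Q, ((Prg_Om H (a p) n0 D p).card : ℝ) ≤ ∑ _p ∈ Q, (H.card : ℝ) := by
      apply sum_le_sum
      intro p hp
      rw [hcard p hp]
      exact hnu p
    rwa [sum_const, nsmul_eq_mul] at this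
  have hn1 : 0 ≤ ∑ p ∈ Q, ((Prg_Om H (a p) n0 D p).card : ℝ) / p :=
    sum_nonneg fun p _ => div_nonneg (Nat.cast_nonneg _) (Nat.cast_nonneg _)
  have hn2 : 0 ≤ ∑ p ∈ Q, ((Prg_Om H (a p) n0 D p).card : ℝ) := sum_nonneg fun p _ => Nat.cast_nonneg _
  apply add_le_add
  · apply mul_le_mul_of_nonneg_left _ (by positivity)
    exact div_le_div_of_nonneg_right (pow_le_pow_left₀ hn1 hs1 R) (Nat.cast_nonneg _)
  · exact pow_le_pow_left₀ (by linarith) (by linarith) R

end Pool.Agent.Lib.SHK
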