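import Pool.Agent.Lib.SHK.Spec

set_option autoImplicit false

namespace Pool.Agent.Lib.SHK

open Finset Filter Topology
open scoped Classical

private theorem Prt_exp_le {u : ℝ} (h0 : 0 ≤ u) (h1 : u ≤ 1) : Real.exp u ≤ 1 + 2 * u := by
  have h := Real.abs_exp_sub_one_le (x := u) (by rwa [abs_of_nonneg h0])
  rw [abs_of_nonneg h0] at h
  have := le_abs_self (Real.exp u - 1)
  linarith

private theorem Prt_one_sub_le {ι : Type} (s : Finset ι) (f : ι → ℝ) (h0 : ∀ i ∈ s, 0 ≤ f i)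
    (h1 : ∀ i ∈ s, f i ≤ 1) : 1 - ∑ i ∈ s, f i ≤ ∏ i ∈ s, (1 - f i) := by
  induction s using Finset.induction_on with
  | empty => simp
  | insert a s ha ih =>
    rw [sum_insert ha, prod_insert ha]
    have h2 := ih (fun i hi => h0 i (mem_insert_of_mem hi)) (fun i hi => h1 i (mem_insert_of_mem hi))
    have h3 := h0 a (mem_insert_self a s)
    have h4 := h1 a (mem_insert_self a s)
    have h5 : 0 ≤ ∑ i ∈ s, f i := sum_nonneg fun i hi => h0 i (mem_insert_of_mem hi)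
    have h6 : (1 - f a) * (1 - ∑ i ∈ s, f i) ≤ (1 - f a) * ∏ i ∈ s, (1 - f i) :=
      mul_le_mul_of_nonneg_left h2 (by linarith)
    nlinarith [mul_nonneg h3 h5]

private theorem Prt_tele (w Z : ℕ) (hw : 10 ≤ w) (h : w ≤ Z) :
    ∑ n ∈ Ioc w Z, 2 / (((n : ℝ) - 4) * ((n : ℝ) - 3)) ≤ 2 / ((w : ℝ) - 3) - 2 / ((Z : ℝ) - 3) := by
  induction Z, h using Nat.le_induction with
  | base => simp
  | succ Z hZ ih =>
    rw [← Finset.insert_Ioc_right_eq_Ioc_add_one (by omega : w ≤ Z), sum_insert (by simp)]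
    have h1 : (10 : ℝ) ≤ (Z : ℝ) := by exact_mod_cast hw.trans hZ
    have h2 : (2 : ℝ) / ((((Z + 1 : ℕ) : ℝ) - 4) * (((Z + 1 : ℕ) : ℝ) - 3)) =
        2 / ((Z : ℝ) - 3) - 2 / (((Z + 1 : ℕ) : ℝ) - 3) := by
      push_cast
      have h3 : ((Z : ℝ) + 1 - 4) ≠ 0 := by linarith
      have h4 : ((Z : ℝ) + 1 - 3) ≠ 0 := by linarith
      have h5 : ((Z : ℝ) - 3) ≠ 0 := by linarith
      field_simp
      ring
    linarith

private theorem Prt_a (w Z : ℕ) (B : Finset ℕ) (hw : 100 ≤ w) (hB : B ⊆ pr w Z) :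
    ∏ p ∈ pr w Z \ B, (1 - (4 : ℝ) / p) ≤
      (Vk 2 w Z) ^ 2 * Real.exp (5 * (B.card : ℝ) / w) := by
  have hW : (100 : ℝ) ≤ (w : ℝ) := by exact_mod_cast hw
  have hp : ∀ p ∈ pr w Z, (w : ℝ) < p := fun p h => by exact_mod_cast (mem_pr.1 h).1
  have h1 : ∏ p ∈ pr w Z \ B, (1 - (4 : ℝ) / p) ≤ ∏ p ∈ pr w Z \ B, (1 - (2 : ℝ) / p) ^ 2 := by
    refine prod_le_prod (fun p h => ?_) (fun p h => ?_)
    · have := hp p (mem_sdiff.1 h).1
      rw [sub_nonneg, div_le_one (by linarith)]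
      linarith
    · have := hp p (mem_sdiff.1 h).1
      have h2 : (4 : ℝ) / p = 2 * (2 / p) := by ring
      rw [h2]
      nlinarith [sq_nonneg ((2 : ℝ) / p)]
  have h2 : (1 : ℝ) ≤ (∏ p ∈ B, (1 - (2 : ℝ) / p) ^ 2) * Real.exp (5 * (B.card : ℝ) / w) := by
    have h3 : Real.exp (5 * (B.card : ℝ) / w) = ∏ p ∈ B, Real.exp (5 / (w : ℝ)) := by
      rw [prod_const, ← Real.exp_nat_mul]
      congr 1
      ring
    rw [h3, ← prod_mul_distrib]
    have h4 : ∏ p ∈ B, (1 : ℝ) ≤ ∏ p ∈ B, ((1 - (2 : ℝ) / p) ^ 2 * Real.exp (5 / (w : ℝ))) := by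
      refine prod_le_prod (fun p _ => zero_le_one) (fun p h => ?_)
      have h5 := hp p (hB h)
      have h6 : (2 : ℝ) / p ≤ 2 / w := by
        apply div_le_div_of_nonneg_left <;> linarith
      have h7 : 1 + 5 / (w : ℝ) ≤ Real.exp (5 / (w : ℝ)) := by
        have := Real.add_one_le_exp (5 / (w : ℝ))
        linarith
      have h8 : 1 - 4 / (w : ℝ) ≤ (1 - (2 : ℝ) / p) ^ 2 := by
        have h9 : (4 : ℝ) / w = 2 * (2 / w) := by ring
        rw [h9]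
        nlinarith [sq_nonneg ((2 : ℝ) / p)]
      have h9 : (0 : ℝ) ≤ 1 - 4 / (w : ℝ) := by
        rw [sub_nonneg, div_le_one (by linarith)]
        linarith
      have h10 : (1 : ℝ) ≤ (1 - 4 / (w : ℝ)) * (1 + 5 / (w : ℝ)) := by
        have h11 : (1 - 4 / (w : ℝ)) * (1 + 5 / (w : ℝ)) = 1 + (w - 20) / w ^ 2 := by
          field_simp
          ring
        rw [h11]
        have : 0 ≤ ((w : ℝ) - 20) / w ^ 2 := by
          apply div_nonneg
          · linarith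
          · positivity
        linarith
      calc (1 : ℝ) ≤ (1 - 4 / (w : ℝ)) * (1 + 5 / (w : ℝ)) := h10
        _ ≤ (1 - (2 : ℝ) / p) ^ 2 * Real.exp (5 / (w : ℝ)) := by
          apply mul_le_mul h8 h7
          · positivity
          · positivity
    simpa using h4
  have h3 : (Vk 2 w Z) ^ 2 = (∏ p ∈ pr w Z \ B, (1 - (2 : ℝ) / p) ^ 2) *
      ∏ p ∈ B, (1 - (2 : ℝ) / p) ^ 2 := by
    rw [prod_sdiff hB, prod_pow]
    simp [Vk]
  have h4 : 0 ≤ ∏ p ∈ pr w Z \ B, (1 - (2 : ℝ) / p) ^ 2 := prod_nonneg fun p _ => sq_nonneg _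
  rw [h3, mul_assoc]
  calc _ ≤ _ := h1
    _ = (∏ p ∈ pr w Z \ B, (1 - (2 : ℝ) / p) ^ 2) * 1 := by rw [mul_one]
    _ ≤ _ := mul_le_mul_of_nonneg_left h2 h4

private theorem Prt_b (g w Z : ℕ) (B : Finset ℕ) (hw : 100 ≤ w) (hB : B ⊆ pr w Z) :
    ∏ p ∈ B, (1 + 8 * (g : ℝ) / p) ≤ Real.exp (8 * (g : ℝ) * (B.card : ℝ) / w) := by
  have hW : (100 : ℝ) ≤ (w : ℝ) := by exact_mod_cast hw
  have hp : ∀ p ∈ pr w Z, (w : ℝ) < p := fun p h => by exact_mod_cast (mem_pr.1 h).1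
  have h3 : Real.exp (8 * (g : ℝ) * (B.card : ℝ) / w) =
      ∏ p ∈ B, Real.exp (8 * (g : ℝ) / (w : ℝ)) := by
    rw [prod_const, ← Real.exp_nat_mul]
    congr 1
    ring
  rw [h3]
  refine prod_le_prod (fun p _ => by positivity) (fun p h => ?_)
  have h5 := hp p (hB h)
  have h6 : 8 * (g : ℝ) / p ≤ 8 * (g : ℝ) / w := by
    apply div_le_div_of_nonneg_left
    · positivity
    · linarith
    · linarith
  have := Real.add_one_le_exp (8 * (g : ℝ) / w)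
  linarith

private theorem Prt_c (g w Z1 : ℕ) (B : Finset ℕ) (hg : 100 ≤ g) (hw : g ^ 5 ≤ w)
    (h1 : w ≤ Z1) :
    Th g w Z1 * (1 - 2 * (g : ℝ) / w) ≤ ∏ p ∈ pr w Z1 \ B, (1 - 1 / ((p : ℝ) - 4)) := by
  have hG : (100 : ℝ) ≤ (g : ℝ) := by exact_mod_cast hg
  have hgw : 100 * g ≤ w := by
    calc 100 * g ≤ g * g := Nat.mul_le_mul_right g hg
      _ = g ^ 2 := by ring
      _ ≤ g ^ 5 := Nat.pow_le_pow_right (by omega) (by norm_num)
      _ ≤ w := hw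
  have hGW : 100 * (g : ℝ) ≤ (w : ℝ) := by exact_mod_cast hgw
  have hW : (10000 : ℝ) ≤ (w : ℝ) := by linarith
  have hp : ∀ p ∈ pr w Z1, (w : ℝ) < p := fun p h => by exact_mod_cast (mem_pr.1 h).1
  -- the factor of Θ
  set r : ℝ := 1 - 1 / ((w : ℝ) - 1) with hr
  have hr0 : 0 < r := by
    rw [hr, sub_pos, div_lt_one (by linarith)]
    linarith
  have hrg : 1 - (g : ℝ) / ((w : ℝ) - 1) ≤ r ^ g := by
    have h2 := one_add_mul_le_pow (a := -(1 / ((w : ℝ) - 1))) (by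
      have : 1 / ((w : ℝ) - 1) ≤ 1 := by
        rw [div_le_one (by linarith)]
        linarith
      linarith) g
    have h3 : (1 : ℝ) + g * -(1 / ((w : ℝ) - 1)) = 1 - (g : ℝ) / ((w : ℝ) - 1) := by ring
    rw [h3] at h2
    have h4 : (1 : ℝ) + -(1 / ((w : ℝ) - 1)) = r := by
      rw [hr]
      ring
    rwa [h4] at h2
  set P : ℝ := ∏ p ∈ pr w Z1, (1 - 1 / ((p : ℝ) - 2)) with hP
  set P' : ℝ := ∏ p ∈ pr w Z1 \ B, (1 - 1 / ((p : ℝ) - 2)) with hP'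
  have hf : ∀ p ∈ pr w Z1, 0 ≤ 1 - 1 / ((p : ℝ) - 2) ∧ 1 - 1 / ((p : ℝ) - 2) ≤ 1 := by
    intro p h
    have h2 := hp p h
    constructor
    · rw [sub_nonneg, div_le_one (by linarith)]
      linarith
    · have : 0 ≤ 1 / ((p : ℝ) - 2) := by
        apply div_nonneg zero_le_one
        linarith
      linarith
  have hP0 : 0 ≤ P := prod_nonneg fun p h => (hf p h).1
  have hP'0 : 0 ≤ P' := prod_nonneg fun p h => (hf p (mem_sdiff.1 h).1).1
  have hPP : P ≤ P' := by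
    rw [hP, hP', ← prod_sdiff (sdiff_subset : pr w Z1 \ B ⊆ pr w Z1)]
    refine mul_le_of_le_one_left (hP'0) ?_
    refine prod_le_one (fun p h => (hf p (mem_sdiff.1 h).1).1)
      (fun p h => (hf p (mem_sdiff.1 h).1).2)
  have hTh : Th g w Z1 * r ^ g = P := by
    unfold Th
    rw [← hP, ← hr]
    rw [mul_comm (r⁻¹ ^ g) P, mul_assoc, ← mul_pow, inv_mul_cancel₀ hr0.ne', one_pow, mul_one]
  have hT0 : 0 ≤ Th g w Z1 := by
    unfold Th
    rw [← hP, ← hr]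
    positivity
  -- the second product
  have h4 : ∏ p ∈ pr w Z1 \ B, (1 - 1 / ((p : ℝ) - 4)) =
      P' * ∏ p ∈ pr w Z1 \ B, (1 - 2 / (((p : ℝ) - 4) * ((p : ℝ) - 3))) := by
    rw [hP', ← prod_mul_distrib]
    refine prod_congr rfl fun p h => ?_
    have h2 := hp p (mem_sdiff.1 h).1
    have h5 : ((p : ℝ) - 4) ≠ 0 := by linarith
    have h6 : ((p : ℝ) - 3) ≠ 0 := by linarith
    have h7 : ((p : ℝ) - 2) ≠ 0 := by linarith
    field_simp
    ring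
  have h5 : 1 - 2 / ((w : ℝ) - 3) ≤
      ∏ p ∈ pr w Z1 \ B, (1 - 2 / (((p : ℝ) - 4) * ((p : ℝ) - 3))) := by
    have h6 := Prt_one_sub_le (pr w Z1 \ B) (fun p : ℕ => 2 / (((p : ℝ) - 4) * ((p : ℝ) - 3)))
      (fun p h => by
        have h2 := hp p (mem_sdiff.1 h).1
        apply div_nonneg (by norm_num)
        apply mul_nonneg <;> linarith)
      (fun p h => by
        have h2 := hp p (mem_sdiff.1 h).1
        rw [div_le_one (by apply mul_pos <;> linarith)]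
        nlinarith)
    have h7 : ∑ p ∈ pr w Z1 \ B, 2 / (((p : ℝ) - 4) * ((p : ℝ) - 3)) ≤
        ∑ n ∈ Ioc w Z1, 2 / (((n : ℝ) - 4) * ((n : ℝ) - 3)) := by
      refine sum_le_sum_of_subset_of_nonneg ?_ ?_
      · intro p h
        exact (mem_filter.1 (mem_sdiff.1 h).1).1
      · intro p h _
        have h2 : (w : ℝ) < p := by exact_mod_cast (mem_Ioc.1 h).1
        apply div_nonneg (by norm_num)
        apply mul_nonneg <;> linarith
    have h8 := Prt_tele w Z1 (by omega) h1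
    have h9 : 0 ≤ 2 / ((Z1 : ℝ) - 3) := by
      have : (w : ℝ) ≤ (Z1 : ℝ) := by exact_mod_cast h1
      apply div_nonneg (by norm_num)
      linarith
    linarith
  have h6 : (0 : ℝ) ≤ 1 - 2 / ((w : ℝ) - 3) := by
    rw [sub_nonneg, div_le_one (by linarith)]
    linarith
  have h7 : (1 - 2 * (g : ℝ) / w) ≤
      (1 - (g : ℝ) / ((w : ℝ) - 1)) * (1 - 2 / ((w : ℝ) - 3)) := by
    have h8 : (g : ℝ) / ((w : ℝ) - 1) ≤ (3 / 2) * g / w := by
      rw [div_le_div_iff₀ (by linarith) (by linarith)]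
      nlinarith
    have h9 : 2 / ((w : ℝ) - 3) ≤ (1 / 2) * g / w := by
      rw [div_le_div_iff₀ (by linarith) (by linarith)]
      nlinarith
    have h10 : 0 ≤ (g : ℝ) / ((w : ℝ) - 1) := by
      apply div_nonneg <;> linarith
    have h11 : 0 ≤ 2 / ((w : ℝ) - 3) := by
      apply div_nonneg <;> linarith
    have h12 : 2 * (g : ℝ) / w = (3 / 2) * g / w + (1 / 2) * g / w := by ring
    nlinarith [mul_nonneg h10 h11]
  have h8 : 0 ≤ r ^ g := (pow_pos hr0 g).le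
  calc Th g w Z1 * (1 - 2 * (g : ℝ) / w)
      ≤ Th g w Z1 * ((1 - (g : ℝ) / ((w : ℝ) - 1)) * (1 - 2 / ((w : ℝ) - 3))) :=
        mul_le_mul_of_nonneg_left h7 hT0
    _ ≤ Th g w Z1 * (r ^ g * (1 - 2 / ((w : ℝ) - 3))) :=
        mul_le_mul_of_nonneg_left (mul_le_mul_of_nonneg_right hrg h6) hT0
    _ = P * (1 - 2 / ((w : ℝ) - 3)) := by rw [← mul_assoc, hTh]
    _ ≤ P' * (1 - 2 / ((w : ℝ) - 3)) := mul_le_mul_of_nonneg_right hPP h6
    _ ≤ P' * ∏ p ∈ pr w Z1 \ B, (1 - 2 / (((p : ℝ) - 4) * ((p : ℝ) - 3))) :=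
        mul_le_mul_of_nonneg_left h5 hP'0
    _ = _ := h4.symm

theorem tPrt : PrtStmt := by
  intro g w Z1 Z k B hg hw hZ1 hZ hB hk hTh hu
  have hG : (100 : ℝ) ≤ (g : ℝ) := by exact_mod_cast hg
  have hgw : 100 * g ≤ w := by
    calc 100 * g ≤ g * g := Nat.mul_le_mul_right g hg
      _ = g ^ 2 := by ring
      _ ≤ g ^ 5 := Nat.pow_le_pow_right (by omega) (by norm_num)
      _ ≤ w := hw
  have hGW : 100 * (g : ℝ) ≤ (w : ℝ) := by exact_mod_cast hgw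
  have hW : (10000 : ℝ) ≤ (w : ℝ) := by linarith
  have hW0 : (0 : ℝ) < (w : ℝ) := by linarith
  have hp : ∀ p ∈ pr w Z1, (w : ℝ) < p := fun p h => by exact_mod_cast (mem_pr.1 h).1
  set Θ : ℝ := Th g w Z1 with hΘ
  set θ : ℝ := ∏ p ∈ pr w Z1 \ B, (1 - 1 / ((p : ℝ) - 4)) with hθ
  have hc : Θ * (1 - 2 * (g : ℝ) / w) ≤ θ := Prt_c g w Z1 B hg hw hZ1
  have ha := Prt_a w Z B (by omega) hB
  have hb := Prt_b g w Z B (by omega) hB
  have hθ1 : θ ≤ 1 := by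
    rw [hθ]
    refine prod_le_one (fun p h => ?_) (fun p h => ?_)
    · have h2 := hp p (mem_sdiff.1 h).1
      rw [sub_nonneg, div_le_one (by linarith)]
      linarith
    · have h2 := hp p (mem_sdiff.1 h).1
      have : 0 ≤ 1 / ((p : ℝ) - 4) := by
        apply div_nonneg zero_le_one
        linarith
      linarith
  have h1 : 1 - θ ≤ (1 - Θ) * Real.exp ((g : ℝ) / w) := by
    have h2 : 0 ≤ (g : ℝ) / w := by positivity
    have h3 := Real.add_one_le_exp ((g : ℝ) / w)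
    have h4 : 2 * (g : ℝ) / w = 2 * ((g : ℝ) / w) := by ring
    rw [h4] at hc
    have h5 : (1 - Θ) * (1 + (g : ℝ) / w) ≤ (1 - Θ) * Real.exp ((g : ℝ) / w) :=
      mul_le_mul_of_nonneg_left (by linarith) (by linarith)
    nlinarith
  have h2 : (1 - θ) ^ k ≤ (1 - Θ) ^ k * Real.exp (2 * (g : ℝ) * g / w) := by
    calc (1 - θ) ^ k ≤ ((1 - Θ) * Real.exp ((g : ℝ) / w)) ^ k :=
          pow_le_pow_left₀ (by linarith) h1 k
      _ = (1 - Θ) ^ k * Real.exp (k * ((g : ℝ) / w)) := by rw [mul_pow, Real.exp_nat_mul]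
      _ ≤ _ := by
          refine mul_le_mul_of_nonneg_left (Real.exp_le_exp.2 ?_) (pow_nonneg (by linarith) k)
          have h3 : (k : ℝ) ≤ 2 * g := by exact_mod_cast hk
          rw [mul_div_assoc]
          exact mul_le_mul_of_nonneg_right h3 (by positivity)
  have hV : 0 ≤ (Vk 2 w Z) ^ 2 := sq_nonneg _
  have hk0 : 0 ≤ (1 - Θ) ^ k := pow_nonneg (by linarith) k
  have h3 : (∏ p ∈ pr w Z \ B, (1 - (4 : ℝ) / p)) * (1 - θ) ^ k ≤
      ((Vk 2 w Z) ^ 2 * Real.exp (5 * (B.card : ℝ) / w)) *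
        ((1 - Θ) ^ k * Real.exp (2 * (g : ℝ) * g / w)) :=
    mul_le_mul ha h2 (pow_nonneg (by linarith) k) (by positivity)
  have h4 : (∏ p ∈ pr w Z \ B, (1 - (4 : ℝ) / p)) * (1 - θ) ^ k *
      ∏ p ∈ B, (1 + 8 * (g : ℝ) / p) ≤
      (((Vk 2 w Z) ^ 2 * Real.exp (5 * (B.card : ℝ) / w)) *
        ((1 - Θ) ^ k * Real.exp (2 * (g : ℝ) * g / w))) *
        Real.exp (8 * (g : ℝ) * (B.card : ℝ) / w) :=
    mul_le_mul h3 hb (prod_nonneg fun p _ => by positivity) (by positivity)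
  have h5 : (((Vk 2 w Z) ^ 2 * Real.exp (5 * (B.card : ℝ) / w)) *
        ((1 - Θ) ^ k * Real.exp (2 * (g : ℝ) * g / w))) *
        Real.exp (8 * (g : ℝ) * (B.card : ℝ) / w) =
      Real.exp (5 * (B.card : ℝ) / w + 2 * (g : ℝ) * g / w + 8 * (g : ℝ) * (B.card : ℝ) / w) *
        ((Vk 2 w Z) ^ 2 * (1 - Θ) ^ k) := by
    rw [Real.exp_add, Real.exp_add]
    ring
  rw [h5] at h4
  refine h4.trans (mul_le_mul_of_nonneg_right ?_ (mul_nonneg hV hk0))
  have hb0 : (0 : ℝ) ≤ (B.card : ℝ) := Nat.cast_nonneg _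
  have h6 : 5 * (B.card : ℝ) / w + 2 * (g : ℝ) * g / w + 8 * (g : ℝ) * (B.card : ℝ) / w ≤
      10 * (g : ℝ) * ((B.card : ℝ) + g) / w := by
    rw [← add_div, ← add_div]
    apply div_le_div_of_nonneg_right _ hW0.le
    nlinarith [mul_nonneg (by linarith : (0 : ℝ) ≤ g - 100) hb0]
  have h7 : 10 * (g : ℝ) * ((B.card : ℝ) + g) / w ≤ 1 := by
    rw [div_le_one hW0]
    exact hu
  have h8 : 0 ≤ 10 * (g : ℝ) * ((B.card : ℝ) + g) / w := by positivity
  calc _ ≤ Real.exp (10 * (g : ℝ) * ((B.card : ℝ) + g) / w) := Real.exp_le_exp.2 h6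
    _ ≤ 1 + 2 * (10 * (g : ℝ) * ((B.card : ℝ) + g) / w) := Prt_exp_le h8 h7
    _ = _ := by ring

end Pool.Agent.Lib.SHK
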