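import Pool.Agent.Lib.SHK.Spec

/-!
MP_9a4459_nt, Lib/SHK, module Qex (helper62): a q ≤ δ g with few small prime factors of q (q + g).
-/

set_option autoImplicit false

namespace Pool.Agent.Lib.SHK

open Finset Filter Topology
open scoped Classical

private lemma Qex_class {g p : ℕ} (hg : Even g) (hp : p.Prime) {q : ℕ}
    (hq : q ≡ (if p ∣ 1 + g then 2 else 1) [MOD p]) : ¬ p ∣ q * (q + g) := by
  intro hd
  have hp1 : ¬ p ∣ 1 := fun h => hp.one_lt.ne' (Nat.dvd_one.1 h)
  by_cases h : p ∣ 1 + g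
  · rw [if_pos h] at hq
    have hp2 : p ≠ 2 := by
      rintro rfl
      obtain ⟨k, hk⟩ := hg
      omega
    rcases (Nat.Prime.dvd_mul hp).1 hd with h1 | h1
    · have h2 : p ∣ 2 := (Nat.modEq_zero_iff_dvd.1 (hq.symm.trans (Nat.modEq_zero_iff_dvd.2 h1)))
      have := Nat.le_of_dvd (by norm_num) h2
      have := hp.two_le
      omega
    · have h3 : q + g ≡ 2 + g [MOD p] := Nat.ModEq.add_right g hq
      have h4 : p ∣ 2 + g := (Nat.modEq_zero_iff_dvd.1 (h3.symm.trans (Nat.modEq_zero_iff_dvd.2 h1)))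
      have h5 : 2 + g = (1 + g) + 1 := by ring
      rw [h5] at h4
      exact hp1 ((Nat.dvd_add_right h).1 h4)
  · rw [if_neg h] at hq
    rcases (Nat.Prime.dvd_mul hp).1 hd with h1 | h1
    · exact hp1 (Nat.modEq_zero_iff_dvd.1 (hq.symm.trans (Nat.modEq_zero_iff_dvd.2 h1)))
    · have h3 : q + g ≡ 1 + g [MOD p] := Nat.ModEq.add_right g hq
      exact h (Nat.modEq_zero_iff_dvd.1 (h3.symm.trans (Nat.modEq_zero_iff_dvd.2 h1)))

private lemma Qex_count {W p c J : ℕ} (hp : p.Prime) (hW : Nat.Coprime p W) :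
    (((range J).filter (fun j => p ∣ c + W * j)).card : ℝ) ≤ J / p + 1 := by
  rcases ((range J).filter (fun j => p ∣ c + W * j)).eq_empty_or_nonempty with h | ⟨v, hv⟩
  · rw [h, card_empty, Nat.cast_zero]
    positivity
  · have hv2 := (mem_filter.1 hv).2
    have hsub : (range J).filter (fun j => p ∣ c + W * j) ⊆ (range J).filter (fun j => j ≡ v [MOD p]) := by
      intro j hj
      obtain ⟨h1, h2⟩ := mem_filter.1 hj
      refine mem_filter.2 ⟨h1, ?_⟩
      have h3 : c + W * j ≡ c + W * v [MOD p] :=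
        (Nat.modEq_zero_iff_dvd.2 h2).trans (Nat.modEq_zero_iff_dvd.2 hv2).symm
      have h4 : W * j ≡ W * v [MOD p] := Nat.ModEq.add_left_cancel' c h3
      exact Nat.ModEq.cancel_left_of_coprime hW h4
    have h5 := card_le_card hsub
    have h6 : ((range J).filter (fun j => j ≡ v [MOD p])).card ≤ J / p + 1 := by
      have h7 := Nat.count_modEq_card J hp.pos v
      rw [Nat.count_eq_card_filter_range] at h7
      have h8 : ((range J).filter (fun j => j ≡ v [MOD p])).card = J / p + if v % p < J % p then 1 else 0 := by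
        rw [← h7]
      rw [h8]
      split_ifs <;> omega
    have h9 : (((range J).filter (fun j => p ∣ c + W * j)).card : ℝ) ≤ ((J / p + 1 : ℕ) : ℝ) := by
      exact_mod_cast h5.trans h6
    refine h9.trans ?_
    push_cast
    have := Nat.cast_div_le (α := ℝ) (m := J) (n := p)
    linarith

/-- the sum of 1/p over P0 < p ≤ y, weighted -/
private lemma Qex_sums {P0 y g J : ℕ} (hP : P0 ≠ 0) (hy : y ≤ g) (hg : 1 ≤ g) :
    ∑ p ∈ pr P0 y, 1 / (p : ℝ) * (2 * ((J : ℝ) / p + 1)) ≤ 2 * J / P0 + 2 * (1 + Real.log g) := by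
  have hP' : (0 : ℝ) < P0 := by exact_mod_cast Nat.pos_of_ne_zero hP
  have hL : 0 ≤ Real.log g := Real.log_nonneg (by exact_mod_cast hg)
  have e1 : ∑ p ∈ pr P0 y, 1 / (p : ℝ) * (2 * ((J : ℝ) / p + 1)) =
      2 * J * ∑ p ∈ pr P0 y, ((p : ℝ) ^ 2)⁻¹ + 2 * ∑ p ∈ pr P0 y, (p : ℝ)⁻¹ := by
    rw [mul_sum, mul_sum, ← sum_add_distrib]
    refine sum_congr rfl (fun p hp => ?_)
    have : (p : ℝ) ≠ 0 := by
      have := pr_pos hp
      positivity
    field_simp
  have e2 : ∑ p ∈ pr P0 y, ((p : ℝ) ^ 2)⁻¹ ≤ 1 / P0 := by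
    rcases le_or_gt P0 y with h | h
    · have h1 : ∑ p ∈ pr P0 y, ((p : ℝ) ^ 2)⁻¹ ≤ ∑ p ∈ Ioc P0 y, ((p : ℝ) ^ 2)⁻¹ :=
        sum_le_sum_of_subset_of_nonneg (filter_subset _ _) (fun p _ _ => by positivity)
      have h2 := sum_Ioc_inv_sq_le_sub (α := ℝ) hP h
      have h3 : (0 : ℝ) ≤ (y : ℝ)⁻¹ := by positivity
      rw [one_div]
      linarith
    · have h1 : pr P0 y = ∅ := by
        unfold pr
        rw [Ioc_eq_empty (by omega), filter_empty]
      rw [h1, sum_empty]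
      positivity
  have e3 : ∑ p ∈ pr P0 y, (p : ℝ)⁻¹ ≤ 1 + Real.log g := by
    have h1 : ∑ p ∈ pr P0 y, (p : ℝ)⁻¹ ≤ ∑ p ∈ Icc 1 g, (p : ℝ)⁻¹ := by
      refine sum_le_sum_of_subset_of_nonneg ?_ (fun p _ _ => by positivity)
      intro p hp
      have := mem_pr.1 hp
      rw [mem_Icc]
      omega
    have h3 := harmonic_le_one_add_log g
    have h4 : ((harmonic g : ℚ) : ℝ) = ∑ s ∈ Icc 1 g, (s : ℝ)⁻¹ := by
      rw [harmonic_eq_sum_Icc]
      push_cast
      rfl
    rw [h4] at h3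
    exact h1.trans h3
  rw [e1]
  have e4 : 2 * (J : ℝ) * ∑ p ∈ pr P0 y, ((p : ℝ) ^ 2)⁻¹ ≤ 2 * J * (1 / P0) :=
    mul_le_mul_of_nonneg_left e2 (by positivity)
  have e5 : 2 * (J : ℝ) * (1 / P0) = 2 * J / P0 := by ring
  linarith

theorem tQex : QexStmt := by
  intro σ δ hσ hδ
  obtain ⟨P1, hP1⟩ := exists_nat_ge (8 / σ)
  set P0 : ℕ := max 100 P1 with hP0
  have hP100 : 100 ≤ P0 := le_max_left _ _
  have hPσ : 8 / σ ≤ P0 := hP1.trans (by exact_mod_cast le_max_right 100 P1)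
  set W : ℕ := primorial P0 with hW
  have hWpos : 0 < W := primorial_pos _
  have hW' : (0 : ℝ) < W := by exact_mod_cast hWpos
  set κ : ℝ := σ * δ / (8 * W) with hκ
  have hκpos : 0 < κ := by positivity
  have hlog : ∀ᶠ g : ℕ in atTop, 1 + Real.log g ≤ κ * g := by
    have h1 := (Real.isLittleO_log_id_atTop.comp_tendsto tendsto_natCast_atTop_atTop).def
      (c := κ / 2) (by positivity)
    have h2 : ∀ᶠ g : ℕ in atTop, 2 / κ ≤ (g : ℝ) := tendsto_natCast_atTop_atTop.eventually_ge_atTop _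
    filter_upwards [h1, h2, eventually_ge_atTop 1] with g hg1 hg2 hg3
    simp only [Function.comp, id, Real.norm_eq_abs] at hg1
    rw [abs_of_nonneg (Real.log_nonneg (by exact_mod_cast hg3)), abs_of_nonneg (Nat.cast_nonneg g)] at hg1
    rw [div_le_iff₀ hκpos] at hg2
    linarith
  have hbig : ∀ᶠ g : ℕ in atTop, 2 * W / δ ≤ (g : ℝ) := tendsto_natCast_atTop_atTop.eventually_ge_atTop _
  obtain ⟨g0, hg0⟩ := eventually_atTop.1 (hlog.and (hbig.and (eventually_ge_atTop 1)))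
  refine ⟨g0, fun g y hg hev hy => ?_⟩
  obtain ⟨hl, hb, hg1⟩ := hg0 g hg
  have hg' : (0 : ℝ) < g := by exact_mod_cast hg1
  -- the class modulo W
  have hcop : Set.Pairwise (pr 0 P0 : Finset ℕ) (Function.onFun Nat.Coprime (fun p : ℕ => p)) := by
    intro p hp q hq hpq
    exact (Nat.coprime_primes (mem_pr.1 (mem_coe.1 hp)).2.2 (mem_pr.1 (mem_coe.1 hq)).2.2).2 hpq
  obtain ⟨c1, hc1⟩ := Nat.chineseRemainderOfFinset (fun p : ℕ => if p ∣ 1 + g then 2 else 1) (fun p : ℕ => p)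
    (pr 0 P0) (fun p hp => (pr_pos hp).ne') hcop
  have hdW : ∀ p : ℕ, p.Prime → p ≤ P0 → p ∣ W := by
    intro p hp hle
    exact (hp.dvd_primorial_iff).2 hle
  have hmod : ∀ j : ℕ, ∀ p ∈ pr 0 P0, c1 % W + W * j ≡ (if p ∣ 1 + g then 2 else 1) [MOD p] := by
    intro j p hp
    have hp' := mem_pr.1 hp
    have h1 : c1 % W + W * j ≡ c1 [MOD W] := by
      unfold Nat.ModEq
      rw [Nat.add_mul_mod_self_left, Nat.mod_mod]
    exact (h1.of_dvd (hdW p hp'.2.2 hp'.2.1)).trans (hc1 p hp)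
  set c : ℕ := c1 % W with hc
  have hnd : ∀ j : ℕ, ∀ p ∈ pr 0 P0, ¬ p ∣ (c + W * j) * (c + W * j + g) := fun j p hp =>
    Qex_class hev (mem_pr.1 hp).2.2 (hmod j p hp)
  have hc0 : 1 ≤ c := by
    by_contra h
    have h0 : c = 0 := by omega
    have h2 := hnd 0 2 (mem_pr.2 ⟨by norm_num, by omega, Nat.prime_two⟩)
    rw [h0] at h2
    simp at h2
  have hcW : c < W := Nat.mod_lt _ hWpos
  set J : ℕ := ⌊δ * g / W⌋₊ with hJ
  have hJle : (J : ℝ) ≤ δ * g / W := Nat.floor_le (by positivity)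
  have hJlt : δ * g / W < J + 1 := Nat.lt_floor_add_one _
  have h2le : 2 ≤ δ * g / W := by
    rw [le_div_iff₀ hW']
    rw [div_le_iff₀ hδ] at hb
    linarith
  have hJge : δ * g / (2 * W) ≤ J := by
    have : δ * g / (2 * W) = (δ * g / W) / 2 := by
      field_simp
    rw [this]
    linarith
  have hJpos : 0 < (J : ℝ) := by linarith
  have hJ1 : 1 ≤ J := by exact_mod_cast hJpos
  -- double counting
  set f : ℕ → ℝ := fun j => ∑ p ∈ (pr 0 y).filter (fun p => p ∣ (c + W * j) * (c + W * j + g)), 1 / (p : ℝ) with hf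
  have hf1 : ∀ j, f j = ∑ p ∈ pr P0 y, if p ∣ (c + W * j) * (c + W * j + g) then 1 / (p : ℝ) else 0 := by
    intro j
    simp only [hf]
    rw [← sum_filter]
    refine sum_congr ?_ (fun _ _ => rfl)
    ext p
    rw [mem_filter, mem_filter, mem_pr, mem_pr]
    constructor
    · rintro ⟨⟨h1, h2, h3⟩, h4⟩
      refine ⟨⟨?_, h2, h3⟩, h4⟩
      by_contra h5
      exact hnd j p (mem_pr.2 ⟨h1, by omega, h3⟩) h4
    · rintro ⟨⟨h1, h2, h3⟩, h4⟩
      exact ⟨⟨by omega, h2, h3⟩, h4⟩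
  have hf2 : ∑ j ∈ range J, f j ≤ ∑ p ∈ pr P0 y, 1 / (p : ℝ) * (2 * ((J : ℝ) / p + 1)) := by
    simp only [hf1]
    rw [sum_comm]
    refine sum_le_sum (fun p hp => ?_)
    have hp' := mem_pr.1 hp
    have hcopW : Nat.Coprime p W := by
      rw [hp'.2.2.coprime_iff_not_dvd]
      intro h
      have := (hp'.2.2.dvd_primorial_iff).1 h
      omega
    have e1 : ∑ j ∈ range J, (if p ∣ (c + W * j) * (c + W * j + g) then 1 / (p : ℝ) else 0) ≤
        1 / (p : ℝ) * (((range J).filter (fun j => p ∣ c + W * j)).card +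
          ((range J).filter (fun j => p ∣ (c + g) + W * j)).card) := by
      rw [card_filter, card_filter]
      push_cast
      rw [← sum_add_distrib, mul_sum]
      refine sum_le_sum (fun j _ => ?_)
      have hpp : (0 : ℝ) ≤ 1 / (p : ℝ) := by positivity
      by_cases h : p ∣ (c + W * j) * (c + W * j + g)
      · rw [if_pos h]
        rcases (Nat.Prime.dvd_mul hp'.2.2).1 h with h1 | h1
        · rw [if_pos h1]
          have : (0 : ℝ) ≤ if p ∣ c + g + W * j then 1 else 0 := by split_ifs <;> norm_num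
          nlinarith
        · have h2 : c + W * j + g = c + g + W * j := by ring
          rw [h2] at h1
          rw [if_pos h1]
          have : (0 : ℝ) ≤ if p ∣ c + W * j then 1 else 0 := by split_ifs <;> norm_num
          nlinarith
      · rw [if_neg h]
        have h1 : (0 : ℝ) ≤ if p ∣ c + g + W * j then 1 else 0 := by split_ifs <;> norm_num
        have h2 : (0 : ℝ) ≤ if p ∣ c + W * j then 1 else 0 := by split_ifs <;> norm_num
        positivity
    refine e1.trans (mul_le_mul_of_nonneg_left ?_ (by positivity))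
    have h1 := Qex_count (c := c) (J := J) hp'.2.2 hcopW
    have h2 := Qex_count (c := c + g) (J := J) hp'.2.2 hcopW
    linarith
  have hf3 : ∑ j ∈ range J, f j ≤ ∑ _j ∈ range J, σ := by
    rw [sum_const, card_range, nsmul_eq_mul]
    refine hf2.trans ((Qex_sums (by omega) hy hg1).trans ?_)
    have hP' : (0 : ℝ) < P0 := by
      have : (100 : ℝ) ≤ P0 := by exact_mod_cast hP100
      linarith
    have h1 : 2 * (J : ℝ) / P0 ≤ J * (σ / 4) := by
      rw [div_le_iff₀ hP']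
      rw [div_le_iff₀ hσ] at hPσ
      nlinarith
    have h2 : κ * g ≤ σ / 4 * (δ * g / (2 * W)) := by
      rw [hκ]
      have : σ / 4 * (δ * g / (2 * W)) = σ * δ / (8 * W) * g := by
        field_simp
        ring
      rw [this]
    have h3 : σ / 4 * (δ * g / (2 * W)) ≤ σ / 4 * J := mul_le_mul_of_nonneg_left hJge (by positivity)
    nlinarith
  obtain ⟨j, hj, hjσ⟩ := exists_le_of_sum_le (nonempty_range_iff.2 (by omega)) hf3
  have hjJ := mem_range.1 hj
  refine ⟨c + W * j, by omega, ?_, ?_, hjσ⟩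
  · have h1 : c + W * j ≤ W * J := by
      calc c + W * j ≤ W + W * j := by omega
        _ = W * (j + 1) := by ring
        _ ≤ W * J := Nat.mul_le_mul_left _ (by omega)
    have h2 : ((c + W * j : ℕ) : ℝ) ≤ W * J := by exact_mod_cast h1
    refine h2.trans ?_
    rw [le_div_iff₀ hW'] at hJle
    linarith
  · intro p hp
    have hp' := mem_pr.1 hp
    exact hnd j p (mem_pr.2 ⟨hp'.1, by omega, hp'.2.2⟩)

end Pool.Agent.Lib.SHK
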