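import Pool.Agent.Lib.SHK.Spec

/-!
MP_9a4459_nt, directory Lib/SHK, module Rat (helper68): comparison of the products.
-/

set_option autoImplicit false

namespace Pool.Agent.Lib.SHK

open Finset Filter Topology
open scoped Classical

private lemma Rat_nu_le (p g j : ℕ) : nu {0, g} p ≤ nu {0, j, g} p := by
  unfold nu
  apply card_le_card
  apply image_subset_image
  intro x hx
  simp only [mem_insert, mem_singleton] at hx ⊢
  rcases hx with h | h
  · exact Or.inl h
  · exact Or.inr (Or.inr h)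

private lemma Rat_nu3 (p g j : ℕ) : nu {0, j, g} p ≤ 3 := card_image_le.trans card_le_three

private lemma Rat_nu2 (p g : ℕ) : nu {0, g} p ≤ 2 := card_image_le.trans card_le_two

private lemma Rat_nu_eq {p g j : ℕ} (hj : j < g) (h : ¬ p ∣ j * (g - j)) :
    nu {0, j, g} p = nu {0, g} p + 1 := by
  unfold nu
  rw [insert_comm, image_insert, card_insert_of_notMem]
  intro hmem
  rw [mem_image] at hmem
  obtain ⟨x, hx, hxj⟩ := hmem
  simp only [mem_insert, mem_singleton] at hx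
  apply h
  rcases hx with h1 | h1
  · subst h1
    rw [Nat.zero_mod] at hxj
    exact dvd_mul_of_dvd_left (Nat.dvd_of_mod_eq_zero hxj.symm) _
  · subst h1
    have h2 : j ≡ x [MOD p] := hxj.symm
    exact dvd_mul_of_dvd_right ((Nat.modEq_iff_dvd' hj.le).1 h2) _

theorem tRat : RatStmt := by
  intro δ hδ
  have hlim : Tendsto (fun y : ℕ => ((1 - 1 / (y : ℝ))⁻¹) ^ 6) atTop (𝓝 1) := by
    have h1 : Tendsto (fun y : ℕ => 1 - 1 / (y : ℝ)) atTop (𝓝 (1 - 0)) :=
      tendsto_const_nhds.sub tendsto_one_div_atTop_nhds_zero_nat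
    rw [sub_zero] at h1
    have h2 := (h1.inv₀ one_ne_zero).pow 6
    rwa [inv_one, one_pow] at h2
  have hev : ∀ᶠ y : ℕ in atTop, ((1 - 1 / (y : ℝ))⁻¹) ^ 6 ≤ 1 + δ :=
    (hlim.eventually (gt_mem_nhds (show (1 : ℝ) < 1 + δ by linarith))).mono fun y hy => hy.le
  obtain ⟨y1, hy1⟩ := eventually_atTop.1 hev
  refine ⟨max 4 y1, le_max_left _ _, ?_⟩
  intro y w g j hy hj0 hjg hg
  have hy4 : 4 ≤ y := (le_max_left _ _).trans hy
  have hyd := hy1 y ((le_max_right _ _).trans hy)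
  have hy4' : (4 : ℝ) ≤ y := by exact_mod_cast hy4
  have hypos : (0 : ℝ) < y := by linarith
  obtain ⟨c, hc⟩ : ∃ c, c = (1 - 1 / (y : ℝ))⁻¹ := ⟨_, rfl⟩
  have h1y : 1 / (y : ℝ) ≤ 1 / 4 := one_div_le_one_div_of_le (by norm_num) hy4'
  have h1y0 : 0 < 1 / (y : ℝ) := by positivity
  have hcinv : 0 < 1 - 1 / (y : ℝ) := by linarith
  have hc1 : 1 ≤ c := by
    rw [hc]
    exact (one_le_inv₀ hcinv).2 (by linarith)
  rw [← hc] at hyd
  -- pointwise bounds
  have hpt : ∀ p ∈ pr y w, 0 ≤ 1 - (nu {0, j, g} p : ℝ) / p ∧ 0 ≤ 1 - (nu {0, g} p : ℝ) / p ∧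
      0 ≤ 1 - ((1 : ℕ) : ℝ) / p ∧
      1 - (nu {0, j, g} p : ℝ) / p ≤ (1 - ((1 : ℕ) : ℝ) / p) * (1 - (nu {0, g} p : ℝ) / p) *
        (if p ∣ j * (g - j) then c else 1) := by
    intro p hp
    rw [mem_pr] at hp
    obtain ⟨hp1, _, hp3⟩ := hp
    have hpy : (y : ℝ) < p := by exact_mod_cast hp1
    have hp0 : (0 : ℝ) < p := by linarith
    have hn3 : (nu {0, j, g} p : ℝ) ≤ 3 := by exact_mod_cast Rat_nu3 p g j
    have hn2 : (nu {0, g} p : ℝ) ≤ 2 := by exact_mod_cast Rat_nu2 p g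
    have hn0 : (0 : ℝ) ≤ (nu {0, g} p : ℝ) := Nat.cast_nonneg _
    have hle : (nu {0, g} p : ℝ) ≤ (nu {0, j, g} p : ℝ) := by exact_mod_cast Rat_nu_le p g j
    have hA : 0 ≤ 1 - (nu {0, j, g} p : ℝ) / p := by
      rw [sub_nonneg, div_le_one hp0]
      linarith
    have hB : 0 ≤ 1 - (nu {0, g} p : ℝ) / p := by
      rw [sub_nonneg, div_le_one hp0]
      linarith
    have hB1 : 1 - (nu {0, g} p : ℝ) / p ≤ 1 := by
      have : 0 ≤ (nu {0, g} p : ℝ) / p := by positivity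
      linarith
    have hp1' : 1 / (p : ℝ) ≤ 1 / y := one_div_le_one_div_of_le hypos hpy.le
    have hp1'' : 0 < 1 / (p : ℝ) := by positivity
    refine ⟨hA, hB, ?_, ?_⟩
    · rw [Nat.cast_one]
      linarith
    · rw [Nat.cast_one]
      by_cases hd : p ∣ j * (g - j)
      · rw [if_pos hd]
        have h1 : 1 - (nu {0, j, g} p : ℝ) / p ≤ 1 - (nu {0, g} p : ℝ) / p := by
          have := div_le_div_of_nonneg_right hle hp0.le
          linarith
        have h2 : 1 ≤ (1 - 1 / (p : ℝ)) * c := by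
          have h3 : (1 - 1 / (y : ℝ)) * c = 1 := by
            rw [hc]
            exact mul_inv_cancel₀ hcinv.ne'
          have h4 : (1 - 1 / (y : ℝ)) * c ≤ (1 - 1 / (p : ℝ)) * c :=
            mul_le_mul_of_nonneg_right (by linarith) (by linarith)
          linarith
        have h5 : (1 - (nu {0, g} p : ℝ) / p) * 1 ≤ (1 - (nu {0, g} p : ℝ) / p) * ((1 - 1 / (p : ℝ)) * c) :=
          mul_le_mul_of_nonneg_left h2 hB
        have h6 : (1 - 1 / (p : ℝ)) * (1 - (nu {0, g} p : ℝ) / p) * c =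
            (1 - (nu {0, g} p : ℝ) / p) * ((1 - 1 / (p : ℝ)) * c) := by ring
        rw [h6]
        linarith
      · rw [if_neg hd, mul_one, Rat_nu_eq hjg hd]
        push_cast
        have h1 : (1 - 1 / (p : ℝ)) * (1 - (nu {0, g} p : ℝ) / p) =
            (1 - (nu {0, g} p : ℝ) / p) - 1 / p * (1 - (nu {0, g} p : ℝ) / p) := by ring
        have h2 : 1 / (p : ℝ) * (1 - (nu {0, g} p : ℝ) / p) ≤ 1 / p * 1 :=
          mul_le_mul_of_nonneg_left hB1 hp1''.le
        rw [h1, add_div]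
        linarith
  have hprod : ∏ p ∈ pr y w, (1 - (nu {0, j, g} p : ℝ) / p) ≤
      ∏ p ∈ pr y w, ((1 - ((1 : ℕ) : ℝ) / p) * (1 - (nu {0, g} p : ℝ) / p) *
        (if p ∣ j * (g - j) then c else 1)) :=
    prod_le_prod (fun p hp => (hpt p hp).1) (fun p hp => (hpt p hp).2.2.2)
  rw [prod_mul_distrib, prod_mul_distrib, prod_ite, prod_const, prod_const_one, mul_one] at hprod
  -- the number of bad primes
  have hbad : ((pr y w).filter (fun p => p ∣ j * (g - j))).card ≤ 6 := by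
    have h1 : ∏ p ∈ (pr y w).filter (fun p => p ∣ j * (g - j)), p ∣ j * (g - j) := by
      apply Finset.prod_primes_dvd
      · intro p hp
        exact (mem_pr.1 (mem_filter.1 hp).1).2.2.prime
      · intro p hp
        exact (mem_filter.1 hp).2
    have hpos : 0 < j * (g - j) := Nat.mul_pos hj0 (by omega)
    have h2 := Nat.le_of_dvd hpos h1
    have h3 : y ^ ((pr y w).filter (fun p => p ∣ j * (g - j))).card ≤
        ∏ p ∈ (pr y w).filter (fun p => p ∣ j * (g - j)), p := by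
      rw [← prod_const]
      apply prod_le_prod'
      intro p hp
      exact (mem_pr.1 (mem_filter.1 hp).1).1.le
    have h4 : j * (g - j) ≤ y ^ 6 := by
      calc j * (g - j) ≤ g * g := Nat.mul_le_mul hjg.le (Nat.sub_le _ _)
        _ ≤ y ^ 3 * y ^ 3 := Nat.mul_le_mul hg hg
        _ = y ^ 6 := by ring
    exact (Nat.pow_le_pow_iff_right (by omega : 1 < y)).1 ((h3.trans h2).trans h4)
  have hcb : c ^ ((pr y w).filter (fun p => p ∣ j * (g - j))).card ≤ 1 + δ :=
    (pow_le_pow_right₀ hc1 hbad).trans hyd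
  have hV0 : 0 ≤ Vk 1 y w * ∏ p ∈ pr y w, (1 - (nu {0, g} p : ℝ) / p) := by
    unfold Vk
    exact mul_nonneg (prod_nonneg fun p hp => (hpt p hp).2.2.1) (prod_nonneg fun p hp => (hpt p hp).2.1)
  have h7 := mul_le_mul_of_nonneg_left hcb hV0
  unfold Vk at h7 ⊢
  rw [mul_comm (1 + δ)]
  exact hprod.trans h7

end Pool.Agent.Lib.SHK
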