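import Pool.Agent.Lib.SHK.Spec

/-!
MP_9a4459_nt, directory Lib/SHK, module Rec (helper68): one more prime.
-/

set_option autoImplicit false

namespace Pool.Agent.Lib.SHK

open Finset Filter Topology
open scoped Classical

private lemma Rec_Av {p : ℕ} {Q F : Finset ℕ} (hp : p ∉ Q) (a : ℕ → ℕ) (r : ℕ) :
    Av (insert p Q) F (Function.update a p r) ↔ (∀ f ∈ F, f % p ≠ r) ∧ Av Q F a := by
  constructor
  · intro h
    constructor
    · intro f hf
      have := h p (mem_insert_self p Q) f hf
      rwa [Function.update_self] at this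
    · intro q hq f hf
      have h1 := h q (mem_insert_of_mem hq) f hf
      have : q ≠ p := fun he => hp (he ▸ hq)
      rwa [Function.update_of_ne this] at h1
  · rintro ⟨h1, h2⟩ q hq f hf
    rcases mem_insert.1 hq with h | h
    · subst h
      rw [Function.update_self]
      exact h1 f hf
    · have : q ≠ p := fun he => hp (he ▸ h)
      rw [Function.update_of_ne this]
      exact h2 q h f hf

private lemma Rec_Ht {p : ℕ} {Q T : Finset ℕ} (hp : p ∉ Q) (a : ℕ → ℕ) (r : ℕ) :
    Ht (insert p Q) T (Function.update a p r) ↔ Ht Q (T.filter (fun t => t % p ≠ r)) a := by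
  constructor
  · intro h t ht
    rw [mem_filter] at ht
    obtain ⟨q, hq, hqt⟩ := h t ht.1
    rcases mem_insert.1 hq with h1 | h1
    · subst h1
      rw [Function.update_self] at hqt
      exact absurd hqt ht.2
    · have : q ≠ p := fun he => hp (he ▸ h1)
      rw [Function.update_of_ne this] at hqt
      exact ⟨q, h1, hqt⟩
  · intro h t ht
    by_cases h1 : t % p = r
    · exact ⟨p, mem_insert_self p Q, by rw [Function.update_self]; exact h1⟩
    · obtain ⟨q, hq, hqt⟩ := h t (mem_filter.2 ⟨ht, h1⟩)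
      have : q ≠ p := fun he => hp (he ▸ hq)
      exact ⟨q, mem_insert_of_mem hq, by rw [Function.update_of_ne this]; exact hqt⟩

private lemma Rec_pe {p : ℕ} {Q F T : Finset ℕ} (hp : p ∉ Q) :
    pe (insert p Q) F T =
      (∑ r ∈ range p, ind (∀ f ∈ F, f % p ≠ r) * pe Q F (T.filter (fun t => t % p ≠ r))) / p := by
  unfold pe
  rw [E_insert hp]
  congr 1
  refine sum_congr rfl fun r _ => ?_
  rw [← E_const_mul]
  refine congrArg (E Q) (funext fun a => ?_)
  rw [← ind_and]
  apply ind_congr
  rw [Rec_Av hp, Rec_Ht hp, and_assoc]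

private lemma Rec_pe_nonneg (Q F T : Finset ℕ) : 0 ≤ pe Q F T := E_nonneg fun _ _ => ind_nonneg _

private lemma Rec_sum {p : ℕ} (hp : 0 < p) (F : Finset ℕ) (c : ℕ → ℝ) :
    ∑ r ∈ range p, ∑ f ∈ F, ind (f % p = r) * c f = ∑ f ∈ F, c f := by
  rw [sum_comm]
  refine sum_congr rfl fun f _ => ?_
  rw [sum_eq_single (f % p)]
  · rw [ind_pos rfl, one_mul]
  · intro r _ hr
    rw [ind_neg (fun h => hr h.symm), zero_mul]
  · intro h
    exact absurd (mem_range.2 (Nat.mod_lt f hp)) h

private lemma Rec_point {p : ℕ} {Q F T : Finset ℕ} (hd : Disjoint F T) (hi : Inj (F ∪ T) p) (r : ℕ) :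
    ind (∀ f ∈ F, f % p ≠ r) * pe Q F (T.filter (fun t => t % p ≠ r)) =
      pe Q F T - ∑ f ∈ F, ind (f % p = r) * pe Q F T - ∑ t ∈ T, ind (t % p = r) * pe Q F T +
        ∑ t ∈ T, ind (t % p = r) * pe Q F (T.erase t) := by
  by_cases hF : ∃ f ∈ F, f % p = r
  · obtain ⟨f0, hf0, hf0r⟩ := hF
    have h1 : ∀ c : ℕ → ℝ, ∑ f ∈ F, ind (f % p = r) * c f = c f0 := by
      intro c
      rw [sum_eq_single f0]
      · rw [ind_pos hf0r, one_mul]
      · intro f hf hne
        rw [ind_neg, zero_mul]
        intro h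
        exact hne (hi f (mem_union_left _ hf) f0 (mem_union_left _ hf0) (h.trans hf0r.symm))
      · intro h
        exact absurd hf0 h
    have h2 : ∀ c : ℕ → ℝ, ∑ t ∈ T, ind (t % p = r) * c t = 0 := by
      intro c
      apply sum_eq_zero
      intro t ht
      rw [ind_neg, zero_mul]
      intro h
      have he := hi t (mem_union_right _ ht) f0 (mem_union_left _ hf0) (h.trans hf0r.symm)
      subst he
      exact (disjoint_left.1 hd) hf0 ht
    rw [h1 (fun _ => pe Q F T), h2 (fun _ => pe Q F T), h2 (fun t => pe Q F (T.erase t)),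
      ind_neg (fun h => h f0 hf0 hf0r)]
    ring
  · have hF' : ∀ f ∈ F, f % p ≠ r := fun f hf h => hF ⟨f, hf, h⟩
    have h1 : ∀ c : ℕ → ℝ, ∑ f ∈ F, ind (f % p = r) * c f = 0 := by
      intro c
      apply sum_eq_zero
      intro f hf
      rw [ind_neg (hF' f hf), zero_mul]
    rw [ind_pos hF', one_mul, h1 (fun _ => pe Q F T)]
    by_cases hT : ∃ t ∈ T, t % p = r
    · obtain ⟨t0, ht0, ht0r⟩ := hT
      have h2 : ∀ c : ℕ → ℝ, ∑ t ∈ T, ind (t % p = r) * c t = c t0 := by
        intro c
        rw [sum_eq_single t0]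
        · rw [ind_pos ht0r, one_mul]
        · intro t ht hne
          rw [ind_neg, zero_mul]
          intro h
          exact hne (hi t (mem_union_right _ ht) t0 (mem_union_right _ ht0) (h.trans ht0r.symm))
        · intro h
          exact absurd ht0 h
      have h3 : T.filter (fun t => t % p ≠ r) = T.erase t0 := by
        ext t
        rw [mem_filter, mem_erase]
        constructor
        · rintro ⟨ht, h⟩
          exact ⟨fun he => h (he ▸ ht0r), ht⟩
        · rintro ⟨hne, ht⟩
          exact ⟨ht, fun h => hne (hi t (mem_union_right _ ht) t0 (mem_union_right _ ht0) (h.trans ht0r.symm))⟩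
      rw [h2 (fun _ => pe Q F T), h2 (fun t => pe Q F (T.erase t)), h3]
      ring
    · have hT' : ∀ t ∈ T, t % p ≠ r := fun t ht h => hT ⟨t, ht, h⟩
      have h2 : ∀ c : ℕ → ℝ, ∑ t ∈ T, ind (t % p = r) * c t = 0 := by
        intro c
        apply sum_eq_zero
        intro t ht
        rw [ind_neg (hT' t ht), zero_mul]
      rw [h2 (fun _ => pe Q F T), h2 (fun t => pe Q F (T.erase t)), filter_true_of_mem hT']
      ring

theorem tRec : RecStmt := by
  constructor
  · intro p Q F T hp hpQ hd hi
    have hp0 : (p : ℝ) ≠ 0 := by positivity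
    rw [Rec_pe hpQ, sum_congr rfl (fun r _ => Rec_point hd hi r), sum_add_distrib, sum_sub_distrib,
      sum_sub_distrib, Rec_sum hp F, Rec_sum hp T, Rec_sum hp T (fun t => pe Q F (T.erase t)), sum_const,
      sum_const, sum_const, card_range, nsmul_eq_mul, nsmul_eq_mul, nsmul_eq_mul, add_div]
    congr 1
    field_simp
    ring
  · intro p Q F T hp hpQ
    rw [Rec_pe hpQ]
    apply div_le_div_of_nonneg_right _ (Nat.cast_nonneg p)
    apply sum_le_sum
    intro r _
    have h := mul_le_mul_of_nonneg_right (ind_le_one (∀ f ∈ F, f % p ≠ r))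
      (Rec_pe_nonneg Q F (T.filter (fun t => t % p ≠ r)))
    rwa [one_mul] at h

end Pool.Agent.Lib.SHK
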