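import Pool.Agent.Lib.SHK.Spec

/-! MP_9a4459_nt, Lib/SHK, module Rgh: the integers up to C y² all of whose prime factors are > y. -/

set_option autoImplicit false

namespace Pool.Agent.Lib.SHK

open Finset Filter Topology
open scoped Classical

/-- products p s of two primes with y < p ≤ w, p² ≤ t, s ≤ t/p -/
private noncomputable def Rgh_P (w y t : ℕ) : Finset ℕ :=
  ((pr y w).filter (fun p => p * p ≤ t)).biUnion (fun p => (pr 0 (t / p)).image (fun s => p * s))

private theorem Rgh_sub {C1 : ℝ} {y t : ℕ} (hC : 1 ≤ C1) (hy : C1 < y)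
    (ht : (t : ℝ) ≤ C1 * (y : ℝ) ^ 2) :
    rgh y t ⊆ ({1} ∪ pr 0 t) ∪ Rgh_P ⌊√C1 * y⌋₊ y t := by
  intro r hr
  rw [rgh, mem_filter, mem_Icc] at hr
  obtain ⟨⟨h1, h2⟩, h3⟩ := hr
  have hy0 : (0 : ℝ) < y := by linarith
  by_cases hr1 : r = 1
  · simp [hr1]
  obtain ⟨p, hp, hpr, hmin⟩ : ∃ p : ℕ, p.Prime ∧ p ∣ r ∧ ∀ q : ℕ, q.Prime → q ∣ r → p ≤ q :=
    ⟨r.minFac, Nat.minFac_prime hr1, Nat.minFac_dvd r,
      fun q hq hqr => Nat.minFac_le_of_dvd hq.two_le hqr⟩
  have hyp : y < p := h3 p hp hpr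
  obtain ⟨s, hs⟩ := hpr
  by_cases hs1 : s = 1
  · have h4 : r = p := by rw [hs, hs1, mul_one]
    refine mem_union_left _ (mem_union_right _ ?_)
    rw [mem_pr]
    exact ⟨by omega, h2, by rw [h4]; exact hp⟩
  obtain ⟨q, hq, u, hu⟩ := Nat.exists_prime_and_dvd hs1
  have hqr : q ∣ r := ⟨p * u, by rw [hs, hu]; ring⟩
  have hpq : p ≤ q := hmin q hq hqr
  have hyq : y < q := h3 q hq hqr
  have hu1 : u = 1 := by
    by_contra hu1
    obtain ⟨v, hv, m, hm⟩ := Nat.exists_prime_and_dvd hu1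
    have hvr : v ∣ r := ⟨p * q * m, by rw [hs, hu, hm]; ring⟩
    have hyv : y < v := h3 v hv hvr
    have hm0 : 0 < m := by
      rcases Nat.eq_zero_or_pos m with h | h
      · rw [h, mul_zero] at hm
        rw [hm, mul_zero] at hu
        rw [hu, mul_zero] at hs
        omega
      · exact h
    have e1 : y * y * y ≤ r := by
      rw [hs, hu, hm]
      calc y * y * y ≤ p * q * v := Nat.mul_le_mul (Nat.mul_le_mul hyp.le hyq.le) hyv.le
        _ ≤ p * q * v * m := Nat.le_mul_of_pos_right _ hm0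
        _ = p * (q * (v * m)) := by ring
    have e2 : (y : ℝ) * y * y ≤ t := by exact_mod_cast e1.trans h2
    have e3 : C1 * ((y : ℝ) * y) < y * (y * y) := mul_lt_mul_of_pos_right hy (by positivity)
    nlinarith
  have hsq : s = q := by rw [hu, hu1, mul_one]
  have hpp : p * p ≤ t := (Nat.mul_le_mul_left p hpq).trans (by rw [← hsq, ← hs]; exact h2)
  refine mem_union_right _ ?_
  rw [Rgh_P, mem_biUnion]
  refine ⟨p, ?_, ?_⟩
  · rw [mem_filter, mem_pr]
    refine ⟨⟨hyp, Nat.le_floor ?_, hp⟩, hpp⟩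
    by_contra hcon
    push Not at hcon
    have e1 : (√C1 * y) ^ 2 < (p : ℝ) ^ 2 :=
      pow_lt_pow_left₀ hcon (by positivity) (by norm_num)
    rw [mul_pow, Real.sq_sqrt (by linarith)] at e1
    have e2 : (p : ℝ) * p ≤ t := by exact_mod_cast hpp
    nlinarith
  · rw [mem_image]
    refine ⟨s, ?_, hs.symm⟩
    rw [mem_pr]
    refine ⟨by rw [hsq]; exact hq.pos, ?_, by rw [hsq]; exact hq⟩
    rw [Nat.le_div_iff_mul_le hp.pos, mul_comm, ← hs]
    exact h2

private theorem Rgh_card {w y t T0 : ℕ} (hy : 3 ≤ y) (hT : T0 ≤ y)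
    (hpi : ∀ t : ℕ, T0 ≤ t → ((pr 0 t).card : ℝ) ≤ (1 + 1) * (t / Real.log t)) :
    ((Rgh_P w y t).card : ℝ) ≤ 2 * (t / Real.log y) * ∑ p ∈ pr y w, 1 / (p : ℝ) := by
  have hy0 : (1 : ℝ) < y := by exact_mod_cast (by omega : 1 < y)
  have hly : 0 < Real.log y := Real.log_pos hy0
  have h1 : (Rgh_P w y t).card ≤
      ∑ p ∈ (pr y w).filter (fun p => p * p ≤ t), (pr 0 (t / p)).card := by
    refine card_biUnion_le.trans (sum_le_sum fun p _ => card_image_le)
  have h2 : ((Rgh_P w y t).card : ℝ) ≤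
      ∑ p ∈ (pr y w).filter (fun p => p * p ≤ t), ((pr 0 (t / p)).card : ℝ) := by
    exact_mod_cast h1
  refine h2.trans ?_
  have h3 : ∀ p ∈ (pr y w).filter (fun p => p * p ≤ t), ((pr 0 (t / p)).card : ℝ) ≤
      2 * (t / Real.log y) * (1 / (p : ℝ)) := by
    intro p hp
    rw [mem_filter, mem_pr] at hp
    obtain ⟨⟨a1, a2, a3⟩, a4⟩ := hp
    have a5 : p ≤ t / p := by
      rw [Nat.le_div_iff_mul_le a3.pos]
      exact a4
    have a6 := hpi (t / p) (by omega)
    have a7 : Real.log y ≤ Real.log ((t / p : ℕ) : ℝ) := by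
      refine Real.log_le_log (by linarith) ?_
      exact_mod_cast (by omega : y ≤ t / p)
    have a8 : ((t / p : ℕ) : ℝ) ≤ (t : ℝ) / p := Nat.cast_div_le
    refine a6.trans ?_
    have hp0 : (0 : ℝ) < p := by exact_mod_cast a3.pos
    have a9 : ((t / p : ℕ) : ℝ) / Real.log ((t / p : ℕ) : ℝ) ≤ ((t : ℝ) / p) / Real.log y :=
      div_le_div₀ (by positivity) a8 hly a7
    calc (1 + 1) * (((t / p : ℕ) : ℝ) / Real.log ((t / p : ℕ) : ℝ))
        ≤ (1 + 1) * (((t : ℝ) / p) / Real.log y) := mul_le_mul_of_nonneg_left a9 (by norm_num)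
      _ = 2 * (t / Real.log y) * (1 / (p : ℝ)) := by
        field_simp
        ring
  refine (sum_le_sum h3).trans ?_
  rw [← mul_sum]
  refine mul_le_mul_of_nonneg_left ?_ (by positivity)
  exact sum_le_sum_of_subset_of_nonneg (filter_subset _ _) fun p _ _ => by positivity

private theorem Rgh_mer {C1 C : ℝ} {y : ℕ} (hC1 : 1 ≤ C1) (hy : 3 ≤ y)
    (hm : ∀ x y : ℝ, 2 ≤ x → x ≤ y →
    |∑ p ∈ (Ioc ⌊x⌋₊ ⌊y⌋₊).filter Nat.Prime, 1 / (p : ℝ) - Real.log (Real.log y / Real.log x)| ≤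
      C / Real.log x) :
    ∑ p ∈ pr y ⌊√C1 * y⌋₊, 1 / (p : ℝ) ≤ (Real.log √C1 + C) / Real.log y := by
  have hy0 : (1 : ℝ) < y := by exact_mod_cast (by omega : 1 < y)
  have hly : 0 < Real.log y := Real.log_pos hy0
  have hs1 : 1 ≤ √C1 := by
    rw [Real.one_le_sqrt]
    exact hC1
  have h1 := hm (y : ℝ) (√C1 * y) (by exact_mod_cast (by omega : 2 ≤ y)) (by nlinarith)
  rw [Nat.floor_natCast] at h1
  have h2 := (abs_le.1 h1).2
  have h3 : Real.log (√C1 * y) = Real.log √C1 + Real.log y :=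
    Real.log_mul (by positivity) (by positivity)
  have h4 : 0 ≤ Real.log √C1 := Real.log_nonneg hs1
  have h5 : 0 < Real.log (√C1 * y) / Real.log y := by
    rw [h3]
    positivity
  have h6 := Real.log_le_sub_one_of_pos h5
  have h7 : Real.log (√C1 * y) / Real.log y - 1 = Real.log √C1 / Real.log y := by
    rw [h3]
    field_simp
    ring
  rw [h7] at h6
  have h8 : (Real.log √C1 + C) / Real.log y = Real.log √C1 / Real.log y + C / Real.log y := by
    rw [add_div]
  rw [h8]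
  have h9 : ∑ p ∈ pr y ⌊√C1 * y⌋₊, 1 / (p : ℝ) =
      ∑ p ∈ (Ioc y ⌊√C1 * y⌋₊).filter Nat.Prime, 1 / (p : ℝ) := rfl
  rw [h9]
  linarith

theorem tRgh (h1 : MrtStmt) (h2 : PiStmt) : RghStmt := by
  intro C1 hC1
  obtain ⟨C, hC, hm⟩ := h1
  obtain ⟨T0, hT⟩ := h2 1 one_pos
  set K : ℝ := Real.log √C1 + C with hK
  have hs1 : 1 ≤ √C1 := by
    rw [Real.one_le_sqrt]
    exact hC1
  have hK0 : 0 < K := by
    have := Real.log_nonneg hs1
    linarith
  refine ⟨2 + 2 * K, by linarith, max (max 3 T0) (⌊C1⌋₊ + 1), (le_max_left _ _).trans (le_max_left _ _), ?_⟩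
  intro y t hy ht htC
  have hy3 : 3 ≤ y := ((le_max_left _ _).trans (le_max_left _ _)).trans hy
  have hyT : T0 ≤ y := ((le_max_right _ _).trans (le_max_left _ _)).trans hy
  have hyC : C1 < y := by
    have a1 : ⌊C1⌋₊ + 1 ≤ y := (le_max_right _ _).trans hy
    have a2 : ((⌊C1⌋₊ : ℕ) : ℝ) + 1 ≤ y := by exact_mod_cast a1
    have a3 := Nat.lt_floor_add_one C1
    linarith
  have hly : 1 ≤ Real.log y := by
    have a1 : (3 : ℝ) ≤ y := by exact_mod_cast hy3
    rw [Real.le_log_iff_exp_le (by linarith)]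
    have := Real.exp_one_lt_d9
    linarith
  have hly0 : 0 < Real.log y := by linarith
  have ht0 : (0 : ℝ) ≤ t := Nat.cast_nonneg t
  have hP : ((Rgh_P ⌊√C1 * y⌋₊ y t).card : ℝ) ≤ 2 * K * (t / (Real.log y) ^ 2) := by
    refine (Rgh_card hy3 hyT hT).trans ?_
    refine (mul_le_mul_of_nonneg_left (Rgh_mer hC1 hy3 hm) (by positivity)).trans (le_of_eq ?_)
    rw [← hK]
    field_simp
  have hsub := Rgh_sub hC1 hyC htC
  have hcard : ((rgh y t).card : ℝ) ≤ 1 + ((pr 0 t).card : ℝ) + 2 * K * (t / (Real.log y) ^ 2) := by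
    have a1 : (rgh y t).card ≤ 1 + (pr 0 t).card + (Rgh_P ⌊√C1 * y⌋₊ y t).card := by
      refine (card_le_card hsub).trans ((card_union_le _ _).trans ?_)
      refine Nat.add_le_add_right ((card_union_le _ _).trans ?_) _
      rw [card_singleton]
    have a2 : ((rgh y t).card : ℝ) ≤
        1 + ((pr 0 t).card : ℝ) + ((Rgh_P ⌊√C1 * y⌋₊ y t).card : ℝ) := by exact_mod_cast a1
    linarith
  have hq0 : 0 ≤ (t : ℝ) / (Real.log y) ^ 2 := by positivity
  constructor
  · rcases le_or_gt t y with hty | hty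
    · have a1 : rgh y t ⊆ {1} := by
        intro r hr
        rw [rgh, mem_filter, mem_Icc] at hr
        obtain ⟨⟨b1, b2⟩, b3⟩ := hr
        rw [mem_singleton]
        by_contra hr1
        have b4 := b3 r.minFac (Nat.minFac_prime hr1) (Nat.minFac_dvd r)
        have b5 := Nat.minFac_le b1
        omega
      have a2 : (rgh y t).card ≤ 1 := (card_le_card a1).trans (by rw [card_singleton])
      have a3 : ((rgh y t).card : ℝ) ≤ 1 := by exact_mod_cast a2
      have a4 : 0 ≤ (2 + 2 * K) * (t / Real.log y) := by positivity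
      linarith
    · have a1 := hT t (by omega)
      have a2 : (t : ℝ) / Real.log t ≤ t / Real.log y := by
        refine div_le_div_of_nonneg_left ht0 hly0 ?_
        refine Real.log_le_log (by exact_mod_cast (by omega : 0 < y)) ?_
        exact_mod_cast hty.le
      have a3 : (t : ℝ) / (Real.log y) ^ 2 ≤ t / Real.log y := by
        refine div_le_div_of_nonneg_left ht0 hly0 ?_
        nlinarith
      have a4 : 2 * K * (t / (Real.log y) ^ 2) ≤ 2 * K * (t / Real.log y) :=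
        mul_le_mul_of_nonneg_left a3 (by linarith)
      have a5 : (2 + 2 * K) * (t / Real.log y) = 2 * (t / Real.log y) + 2 * K * (t / Real.log y) := by
        ring
      rw [a5]
      linarith
  · have a1 : 2 * K * (t / (Real.log y) ^ 2) ≤ (2 + 2 * K) * (t / (Real.log y) ^ 2) :=
      mul_le_mul_of_nonneg_right (by linarith) hq0
    linarith

end Pool.Agent.Lib.SHK
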