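import Pool.Agent.Lib.SHK.Spec

/-!
MP_9a4459_nt, directory Lib/SHK, module Sml: the small primes (helper78).
-/

set_option autoImplicit false

namespace Pool.Agent.Lib.SHK

open Finset Filter Topology
open scoped Classical

/-- a class which avoids two given ones -/
private theorem Sml_class (p g a : ℕ) (hp : 3 ≤ p) :
    ∃ c, c < p ∧ c ≠ a ∧ (c + g) % p ≠ a := by
  by_contra h
  push Not at h
  have key : ∀ c d : ℕ, c < p → d < p → (c + g) % p = a → (d + g) % p = a → c = d := by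
    intro c d hc hd h1 h2
    have h3 : c + g ≡ d + g [MOD p] := by
      unfold Nat.ModEq
      rw [h1, h2]
    have h4 : c ≡ d [MOD p] := Nat.ModEq.add_right_cancel' g h3
    exact Nat.ModEq.eq_of_lt_of_lt h4 hc hd
  have h0 := h 0 (by omega)
  have h1 := h 1 (by omega)
  have h2 := h 2 (by omega)
  by_cases e0 : 0 = a
  · have f1 := h1 (by omega)
    have f2 := h2 (by omega)
    have := key 1 2 (by omega) (by omega) f1 f2
    omega
  · have f0 := h0 e0
    by_cases e1 : 1 = a
    · have f2 := h2 (by omega)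
      have := key 0 2 (by omega) (by omega) f0 f2
      omega
    · have f1 := h1 e1
      have := key 0 1 (by omega) (by omega) f0 f1
      omega

private theorem Sml_mod {y n b p : ℕ} (h : n ≡ b [MOD primorial y]) (hp : p ∈ pr 0 y) :
    n ≡ b [MOD p] := by
  refine Nat.ModEq.of_dvd ?_ h
  unfold primorial
  refine Finset.dvd_prod_of_mem _ ?_
  have h1 := mem_pr.1 hp
  exact mem_filter.2 ⟨mem_range.2 (by omega), h1.2.2⟩

/-- the count of the exceptional set -/
private theorem Sml_card {g q X y : ℕ} {B : Finset ℕ} (hq : q + g ≤ X) :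
    ((Ioo 0 g).filter (fun j => ∀ p : ℕ, p.Prime → p ∣ j + q → p ≤ y → p ∈ B)).card ≤
      ((Icc 1 X).filter (fun m => ∀ p : ℕ, p.Prime → p ∣ m → p ≤ y → p ∈ B)).card := by
  refine Finset.card_le_card_of_injOn (fun j => j + q) ?_ ?_
  · intro j hj
    have hj' := mem_filter.1 (Finset.mem_coe.1 hj)
    have hj1 := mem_Ioo.1 hj'.1
    have e1 : 1 ≤ j + q := by omega
    have e2 : j + q ≤ X := by omega
    exact Finset.mem_coe.2 (mem_filter.2 ⟨mem_Icc.2 ⟨e1, e2⟩, hj'.2⟩)
  · intro i _ j _ hij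
    have : i + q = j + q := hij
    omega

theorem tSml (h1 : QexStmt) (h2 : CntStmt) : SmlStmt := by
  intro δ C1 hδ hδ1 hC1
  obtain ⟨σ, hσ, X0, hX0⟩ := h2 (δ / 8) (2 * C1) (by linarith) (by linarith)
  obtain ⟨g1, hg1⟩ := h1 σ (δ / 8) hσ (by linarith)
  refine ⟨max (max X0 g1) 3, ?_⟩
  intro g y a hg hgev hyg hgy ha
  have hgX0 : X0 ≤ g := le_trans (le_trans (le_max_left _ _) (le_max_left _ _)) hg
  have hgg1 : g1 ≤ g := le_trans (le_trans (le_max_right _ _) (le_max_left _ _)) hg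
  have hg3 : 3 ≤ g := le_trans (le_max_right _ _) hg
  obtain ⟨q, hq1, hqδ, hq100, hqσ⟩ := hg1 g y hgg1 hgev hyg
  have hgR : (3 : ℝ) ≤ g := by exact_mod_cast hg3
  obtain ⟨X, hXdef⟩ : ∃ X : ℕ, X = ⌊(1 + δ / 8) * (g : ℝ)⌋₊ := ⟨_, rfl⟩
  have hXle : (X : ℝ) ≤ (1 + δ / 8) * g := by
    rw [hXdef]
    exact Nat.floor_le (by positivity)
  have hgX : q + g ≤ X := by
    rw [hXdef]
    refine Nat.le_floor ?_
    push_cast
    linarith
  have hqX : q ≤ X := by omega
  have hgX' : g ≤ X := by omega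
  obtain ⟨B, hB⟩ : ∃ B : Finset ℕ, B = (pr 0 y).filter (fun p => p ∣ q * (q + g)) := ⟨_, rfl⟩
  rw [← hB] at hqσ
  have hBmem : ∀ p ∈ B, p ∈ pr 0 y ∧ p ∣ q * (q + g) := by
    intro p hp
    rw [hB] at hp
    exact mem_filter.1 hp
  have hB100 : ∀ p ∈ B, p.Prime ∧ 100 ≤ p ∧ p ≤ y := by
    intro p hp
    have h3 := hBmem p hp
    have h4 := mem_pr.1 h3.1
    refine ⟨h4.2.2, ?_, h4.2.1⟩
    by_contra h5
    exact hq100 p (mem_pr.2 ⟨h4.1, by omega, h4.2.2⟩) h3.2
  have hBprod : ∏ p ∈ B, p ≤ X ^ 2 := by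
    have h3 : ∏ p ∈ B, p ∣ q * (q + g) :=
      Finset.prod_primes_dvd _ (fun p hp => (hB100 p hp).1.prime) (fun p hp => (hBmem p hp).2)
    have h4 : ∏ p ∈ B, p ≤ q * (q + g) := Nat.le_of_dvd (by positivity) h3
    refine h4.trans ?_
    rw [pow_two]
    exact Nat.mul_le_mul hqX hgX
  have hcnt := hX0 X y B (hgX0.trans hgX') (hyg.trans hgX') (by
      have h5 : (X : ℝ) ≤ 2 * g := by nlinarith
      nlinarith) hB100 hBprod hqσ
  -- the classes
  have hc : ∀ p : ℕ, ∃ c : ℕ, (p ∈ pr 0 y → p ∉ B → c = a p + q) ∧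
      (p ∈ B → c < p ∧ c ≠ a p ∧ (c + g) % p ≠ a p) := by
    intro p
    by_cases hp : p ∈ B
    · obtain ⟨c, hc⟩ := Sml_class p g (a p) (by have := (hB100 p hp).2.1; omega)
      exact ⟨c, fun _ h => absurd hp h, fun _ => hc⟩
    · exact ⟨a p + q, fun _ _ => rfl, fun h => absurd h hp⟩
  choose c hc1 hc2 using hc
  obtain ⟨b, hb⟩ := Nat.chineseRemainderOfFinset c (fun p => p) (pr 0 y)
    (fun p hp => (pr_pos hp).ne') (by
      intro p hp r hr hpr
      exact (Nat.coprime_primes (mem_pr.1 (Finset.mem_coe.1 hp)).2.2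
        (mem_pr.1 (Finset.mem_coe.1 hr)).2.2).2 hpr)
  refine ⟨b, (Ioo 0 g).filter (fun j => ∀ p : ℕ, p.Prime → p ∣ j + q → p ≤ y → p ∈ B),
    filter_subset _ _, ?_, ?_⟩
  · have h3 : (((Ioo 0 g).filter (fun j => ∀ p : ℕ, p.Prime → p ∣ j + q → p ≤ y → p ∈ B)).card : ℝ) ≤
        (((Icc 1 X).filter (fun m => ∀ p : ℕ, p.Prime → p ∣ m → p ≤ y → p ∈ B)).card : ℝ) := by
      exact_mod_cast Sml_card hgX
    refine (h3.trans hcnt).trans ?_
    have hlg : 0 < Real.log g := Real.log_pos (by linarith)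
    have hlX : Real.log g ≤ Real.log X :=
      Real.log_le_log (by linarith) (by exact_mod_cast hgX')
    have h4 : (X : ℝ) / Real.log X ≤ (1 + δ / 8) * g / Real.log g :=
      div_le_div₀ (by positivity) hXle hlg hlX
    calc (1 + δ / 8) * ((X : ℝ) / Real.log X) ≤ (1 + δ / 8) * ((1 + δ / 8) * g / Real.log g) :=
          mul_le_mul_of_nonneg_left h4 (by linarith)
      _ = (1 + δ / 8) ^ 2 * (g / Real.log g) := by ring
      _ ≤ (1 + δ) * (g / Real.log g) := by
          refine mul_le_mul_of_nonneg_right ?_ (by positivity)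
          nlinarith
  · intro n hn
    have hn' : ∀ p ∈ pr 0 y, n ≡ c p [MOD p] := fun p hp => (Sml_mod hn hp).trans (hb p hp)
    refine ⟨?_, ?_⟩
    · intro p hp
      have hap := ha p hp
      by_cases hpB : p ∈ B
      · obtain ⟨d1, d2, d3⟩ := hc2 p hpB
        have e1 := hn' p hp
        refine ⟨?_, ?_⟩
        · have e2 : n % p = c p := by
            have : n % p = c p % p := e1
            rw [this, Nat.mod_eq_of_lt d1]
          rw [e2]
          exact d2
        · have e2 : (n + g) % p = (c p + g) % p := Nat.ModEq.add_right g e1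
          rw [e2]
          exact d3
      · have e1 : n ≡ a p + q [MOD p] := by
          rw [← hc1 p hp hpB]
          exact hn' p hp
        have hnot : ∀ m : ℕ, m ∣ q * (q + g) → ¬ (a p + m) % p = a p := by
          intro m hm h5
          have h6 : a p + m ≡ a p + 0 [MOD p] := by
            unfold Nat.ModEq
            rw [h5, add_zero, Nat.mod_eq_of_lt hap]
          have h7 : m ≡ 0 [MOD p] := Nat.ModEq.add_left_cancel' _ h6
          have h8 : p ∣ m := (Nat.modEq_zero_iff_dvd).1 h7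
          refine hpB ?_
          rw [hB]
          exact mem_filter.2 ⟨hp, h8.trans hm⟩
        refine ⟨?_, ?_⟩
        · have e2 : n % p = (a p + q) % p := e1
          rw [e2]
          exact hnot q (Dvd.intro _ rfl)
        · have e2 : (n + g) % p = (a p + q + g) % p := Nat.ModEq.add_right g e1
          rw [e2, add_assoc]
          exact hnot (q + g) (Dvd.intro_left _ rfl)
    · intro j hj hjS
      have h5 : ¬ ∀ p : ℕ, p.Prime → p ∣ j + q → p ≤ y → p ∈ B := fun h =>
        hjS (mem_filter.2 ⟨hj, h⟩)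
      push Not at h5
      obtain ⟨p, hpp, hpd, hpy, hpB⟩ := h5
      have hp : p ∈ pr 0 y := mem_pr.2 ⟨hpp.pos, hpy, hpp⟩
      refine ⟨p, hp, ?_⟩
      have e1 : n ≡ a p + q [MOD p] := by
        rw [← hc1 p hp hpB]
        exact hn' p hp
      have e2 : n + j ≡ a p + q + j [MOD p] := Nat.ModEq.add_right j e1
      have e3 : a p + q + j ≡ a p [MOD p] := by
        have h6 : j + q ≡ 0 [MOD p] := (Nat.modEq_zero_iff_dvd).2 hpd
        have h7 : a p + (j + q) ≡ a p + 0 [MOD p] := Nat.ModEq.add_left _ h6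
        have h8 : a p + q + j = a p + (j + q) := by ring
        rw [h8]
        simpa using h7
      have e4 : (n + j) % p = a p % p := e2.trans e3
      rw [e4, Nat.mod_eq_of_lt (ha p hp)]

end Pool.Agent.Lib.SHK
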