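import Pool.Agent.Lib.SHK.Spec

/-!
MP_9a4459_nt, directory Lib/SHK, module Smo (helper33): smooth numbers, Rankin's bound.
-/

set_option autoImplicit false

namespace Pool.Agent.Lib.SHK

open Finset Filter Topology
open scoped Classical

/-- the completely multiplicative function n^(-s) -/
private noncomputable def Smo_f (s : ℝ) : ℕ →* ℝ where
  toFun n := (n : ℝ) ^ (-s)
  map_one' := by simp
  map_mul' m n := by
    push_cast
    rw [Real.mul_rpow (Nat.cast_nonneg m) (Nat.cast_nonneg n)]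

private lemma Smo_f_apply (s : ℝ) (n : ℕ) : Smo_f s n = (n : ℝ) ^ (-s) := rfl

private lemma Smo_euler (B : Finset ℕ) (X : ℕ) (hB : ∀ p ∈ B, p.Prime) (s : ℝ) (hs : 0 < s) :
    ∑ e ∈ smo B X, (e : ℝ) ^ (-s) ≤ ∏ p ∈ B, (1 - (p : ℝ) ^ (-s))⁻¹ := by
  have h1 : ∀ {p : ℕ}, p.Prime → ‖Smo_f s p‖ < 1 := by
    intro p hp
    rw [Smo_f_apply, Real.norm_of_nonneg (Real.rpow_nonneg (Nat.cast_nonneg p) _)]
    exact Real.rpow_lt_one_of_one_lt_of_neg (by exact_mod_cast hp.one_lt) (by linarith)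
  have h2 := (EulerProduct.summable_and_hasSum_factoredNumbers_prod_filter_prime_geometric
    (f := Smo_f s) h1 B).2
  have h3 : ∀ e ∈ smo B X, e ∈ Nat.factoredNumbers B := by
    intro e he
    unfold smo at he
    rw [mem_filter, mem_Icc] at he
    rw [Nat.mem_factoredNumbers]
    refine ⟨by omega, fun p hp => ?_⟩
    exact he.2 p (Nat.prime_of_mem_primeFactorsList hp) (Nat.dvd_of_mem_primeFactorsList hp)
  have h4 := sum_le_hasSum ((smo B X).subtype (fun e => e ∈ Nat.factoredNumbers B))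
    (fun i _ => by
      rw [Smo_f_apply]
      exact Real.rpow_nonneg (Nat.cast_nonneg _) _) h2
  rw [Finset.sum_subtype_of_mem (fun e => Smo_f s e) h3, Finset.filter_true_of_mem hB] at h4
  simpa only [Smo_f_apply] using h4

theorem tSmo : SmoStmt := by
  intro B X hX hB hprod
  have hXr : (1 : ℝ) ≤ (X : ℝ) := by exact_mod_cast hX
  have hX0 : (0 : ℝ) < (X : ℝ) := by linarith
  constructor
  · -- Rankin with exponent 1/2
    have h1 := Smo_euler B X (fun p hp => (hB p hp).1) (1 / 2) (by norm_num)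
    have h2 : ∏ p ∈ B, (1 - (p : ℝ) ^ (-(1 / 2 : ℝ)))⁻¹ ≤ (10 / 9 : ℝ) ^ B.card := by
      rw [← Finset.prod_const]
      refine Finset.prod_le_prod ?_ ?_
      · intro p hp
        refine inv_nonneg.2 (sub_nonneg.2 ?_)
        have hp1 : (1 : ℝ) ≤ (p : ℝ) := by exact_mod_cast (hB p hp).1.one_lt.le
        exact Real.rpow_le_one_of_one_le_of_nonpos hp1 (by norm_num)
      · intro p hp
        have hp1 : (100 : ℝ) ≤ (p : ℝ) := by exact_mod_cast (hB p hp).2
        have h3 : (p : ℝ) ^ (-(1 / 2 : ℝ)) ≤ 1 / 10 := by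
          rw [Real.rpow_neg (by linarith), ← Real.sqrt_eq_rpow]
          have h4 : (10 : ℝ) ≤ Real.sqrt (p : ℝ) := by
            refine Real.le_sqrt_of_sq_le ?_
            linarith
          rw [← one_div]
          exact one_div_le_one_div_of_le (by norm_num) h4
        have h5 : (9 / 10 : ℝ) ≤ 1 - (p : ℝ) ^ (-(1 / 2 : ℝ)) := by linarith
        have h6 := inv_anti₀ (by norm_num) h5
        refine h6.trans (le_of_eq (by norm_num))
    have h3 : ((10 / 9 : ℝ) ^ B.card) ^ 8 ≤ (X : ℝ) ^ 2 := by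
      have h4 : (100 : ℝ) ^ B.card ≤ (X : ℝ) ^ 2 := by
        have h5 : 100 ^ B.card ≤ ∏ p ∈ B, p := by
          rw [← Finset.prod_const]
          exact Finset.prod_le_prod (fun _ _ => by norm_num) (fun p hp => (hB p hp).2)
        exact_mod_cast h5.trans hprod
      refine le_trans ?_ h4
      rw [← pow_mul, mul_comm, pow_mul]
      exact pow_le_pow_left₀ (by norm_num) (by norm_num) _
    have h4 : (10 / 9 : ℝ) ^ B.card ≤ (X : ℝ) ^ (1 / 4 : ℝ) := by
      have h5 : (10 / 9 : ℝ) ^ B.card = (((10 / 9 : ℝ) ^ B.card) ^ 8) ^ (1 / 8 : ℝ) := by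
        rw [← Real.rpow_natCast _ 8, ← Real.rpow_mul (by positivity)]
        norm_num
      have h6 : (X : ℝ) ^ (1 / 4 : ℝ) = ((X : ℝ) ^ 2) ^ (1 / 8 : ℝ) := by
        rw [← Real.rpow_natCast _ 2, ← Real.rpow_mul hX0.le]
        norm_num
      rw [h5, h6]
      exact Real.rpow_le_rpow (by positivity) h3 (by norm_num)
    have h5 : ((smo B X).card : ℝ) ≤ (X : ℝ) ^ (1 / 2 : ℝ) *
        ∑ e ∈ smo B X, (e : ℝ) ^ (-(1 / 2 : ℝ)) := by
      rw [Finset.mul_sum, Finset.card_eq_sum_ones]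
      push_cast
      refine Finset.sum_le_sum fun e he => ?_
      unfold smo at he
      rw [mem_filter, mem_Icc] at he
      have he1 : (0 : ℝ) < (e : ℝ) := by exact_mod_cast (by omega : 0 < e)
      have he2 : (e : ℝ) ≤ (X : ℝ) := by exact_mod_cast he.1.2
      rw [Real.rpow_neg he1.le, ← div_eq_mul_inv, le_div_iff₀ (Real.rpow_pos_of_pos he1 _), one_mul]
      exact Real.rpow_le_rpow he1.le he2 (by norm_num)
    calc ((smo B X).card : ℝ) ≤ (X : ℝ) ^ (1 / 2 : ℝ) *
        ∑ e ∈ smo B X, (e : ℝ) ^ (-(1 / 2 : ℝ)) := h5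
      _ ≤ (X : ℝ) ^ (1 / 2 : ℝ) * (X : ℝ) ^ (1 / 4 : ℝ) :=
        mul_le_mul_of_nonneg_left (h1.trans (h2.trans h4)) (Real.rpow_nonneg hX0.le _)
      _ = (X : ℝ) ^ ((3 : ℝ) / 4) := by
        rw [← Real.rpow_add hX0]
        norm_num
  · have h1 := Smo_euler B X (fun p hp => (hB p hp).1) 1 (by norm_num)
    have h2 : ∑ e ∈ smo B X, 1 / (e : ℝ) = ∑ e ∈ smo B X, (e : ℝ) ^ (-(1 : ℝ)) := by
      refine Finset.sum_congr rfl fun e _ => ?_
      rw [Real.rpow_neg_one, one_div]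
    rw [h2]
    refine h1.trans ?_
    rw [Finset.mul_sum, Real.exp_sum]
    refine Finset.prod_le_prod ?_ ?_
    · intro p hp
      refine inv_nonneg.2 (sub_nonneg.2 ?_)
      have hp1 : (1 : ℝ) ≤ (p : ℝ) := by exact_mod_cast (hB p hp).1.one_lt.le
      exact Real.rpow_le_one_of_one_le_of_nonpos hp1 (by norm_num)
    · intro p hp
      have hp1 : (100 : ℝ) ≤ (p : ℝ) := by exact_mod_cast (hB p hp).2
      rw [Real.rpow_neg_one]
      have h3 : (p : ℝ)⁻¹ ≤ 1 / 2 := by
        rw [← one_div]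
        exact one_div_le_one_div_of_le (by norm_num) (by linarith)
      have h4 : (0 : ℝ) < (p : ℝ)⁻¹ := inv_pos.2 (by linarith)
      rw [one_div]
      set t := (p : ℝ)⁻¹
      have h5 : 1 + 2 * t ≤ Real.exp (2 * t) := by
        have := Real.add_one_le_exp (2 * t)
        linarith
      rw [inv_le_iff_one_le_mul₀ (by linarith)]
      nlinarith

end Pool.Agent.Lib.SHK
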