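import Pool.Agent.Lib.SHK.Spec

set_option autoImplicit false

namespace Pool.Agent.Lib.SHK

open Finset Filter Topology
open scoped Classical

/-- the number of classes avoided -/
private theorem Spl_sum (F : Finset ℕ) {p : ℕ} (hp : 0 < p) :
    ∑ r ∈ range p, ind (∀ f ∈ F, f % p ≠ r) = (p : ℝ) - ((F.image (· % p)).card : ℝ) := by
  have h1 : ∀ r, ind (∀ f ∈ F, f % p ≠ r) = 1 - (if r ∈ F.image (· % p) then (1 : ℝ) else 0) := by
    intro r
    by_cases h : r ∈ F.image (· % p)
    · rw [if_pos h, ind_neg, sub_self]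
      intro h2
      obtain ⟨f, hf, hf'⟩ := mem_image.1 h
      exact h2 f hf hf'
    · rw [if_neg h, ind_pos, sub_zero]
      intro f hf hf'
      exact h (mem_image.2 ⟨f, hf, hf'⟩)
  have h2 : range p ∩ F.image (· % p) = F.image (· % p) := by
    rw [inter_eq_right]
    intro r hr
    obtain ⟨f, _, hf'⟩ := mem_image.1 hr
    exact mem_range.2 (hf' ▸ Nat.mod_lt f hp)
  simp only [h1]
  rw [sum_sub_distrib, sum_const, card_range, nsmul_eq_mul, mul_one, sum_ite_mem, h2, sum_const,
    nsmul_eq_mul, mul_one]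

private theorem Spl_Av {p : ℕ} {Q : Finset ℕ} (hp : p ∉ Q) (F : Finset ℕ) (a : ℕ → ℕ) (r : ℕ) :
    Av (insert p Q) F (Function.update a p r) ↔ (∀ f ∈ F, f % p ≠ r) ∧ Av Q F a := by
  constructor
  · intro h
    refine ⟨fun f hf => ?_, fun q hq f hf => ?_⟩
    · have := h p (mem_insert_self p Q) f hf
      rwa [Function.update_self] at this
    · have := h q (mem_insert_of_mem hq) f hf
      have hqp : q ≠ p := fun he => hp (he ▸ hq)
      rwa [Function.update_of_ne hqp] at this
  · rintro ⟨h1, h2⟩ q hq f hf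
    rcases mem_insert.1 hq with rfl | hq
    · rw [Function.update_self]
      exact h1 f hf
    · have hqp : q ≠ p := fun he => hp (he ▸ hq)
      rw [Function.update_of_ne hqp]
      exact h2 q hq f hf

/-- the mean of the indicator of Av -/
private theorem Spl_E (F : Finset ℕ) (Q : Finset ℕ) (hQ : ∀ p ∈ Q, 0 < p) :
    E Q (fun a => ind (Av Q F a)) = ∏ p ∈ Q, (1 - ((F.image (· % p)).card : ℝ) / p) := by
  induction Q using Finset.induction_on with
  | empty =>
    rw [E_empty, prod_empty]
    exact ind_pos (by intro p hp; simp at hp)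
  | insert p Q hp ih =>
    have hp0 : 0 < p := hQ p (mem_insert_self p Q)
    have hp1 : (p : ℝ) ≠ 0 := by positivity
    rw [E_insert hp, prod_insert hp, ← ih fun q hq => hQ q (mem_insert_of_mem hq)]
    have h1 : ∀ r ∈ range p, E Q (fun a => ind (Av (insert p Q) F (Function.update a p r))) =
        ind (∀ f ∈ F, f % p ≠ r) * E Q (fun a => ind (Av Q F a)) := by
      intro r _
      rw [← E_const_mul]
      refine E_congr fun a _ => ?_
      rw [← ind_and]
      exact ind_congr (Spl_Av hp F a r)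
    rw [sum_congr rfl h1, ← sum_mul, Spl_sum F hp0]
    field_simp

private theorem Spl_pf (Q Q' F T : Finset ℕ) (h : Disjoint Q Q') :
    pf Q Q' F T = pe Q F T * E Q' (fun a => ind (Av Q' F a)) := by
  unfold pf pe
  rw [← E_mul h]
  · refine E_congr fun a _ => ?_
    rw [← ind_and]
    refine ind_congr ⟨fun h1 => ⟨⟨?_, h1.2⟩, ?_⟩, fun h1 => ⟨?_, h1.1.2⟩⟩
    · exact fun p hp => h1.1 p (mem_union_left _ hp)
    · exact fun p hp => h1.1 p (mem_union_right _ hp)
    · intro p hp
      rcases mem_union.1 hp with hp | hp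
      · exact h1.1.1 p hp
      · exact h1.2 p hp
  · intro a b hab
    refine ind_congr (and_congr ?_ ?_)
    · exact forall₂_congr fun p hp => by rw [hab p hp]
    · exact forall₂_congr fun t _ => exists_congr fun p => and_congr_right fun hp => by rw [hab p hp]
  · intro a b hab
    refine ind_congr ?_
    exact forall₂_congr fun p hp => by rw [hab p hp]

private theorem Spl_le (F : Finset ℕ) {p : ℕ} (hp : 0 < p) :
    0 ≤ 1 - ((F.image (· % p)).card : ℝ) / p ∧ 1 - ((F.image (· % p)).card : ℝ) / p ≤ 1 := by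
  have hp1 : (0 : ℝ) < p := by positivity
  have h1 : (F.image (· % p)).card ≤ p := by
    have h2 : F.image (· % p) ⊆ range p := by
      intro r hr
      obtain ⟨f, _, hf'⟩ := mem_image.1 hr
      exact mem_range.2 (hf' ▸ Nat.mod_lt f hp)
    calc (F.image (· % p)).card ≤ (range p).card := card_le_card h2
      _ = p := card_range p
  have h2 : ((F.image (· % p)).card : ℝ) / p ≤ 1 := by
    rw [div_le_one hp1]
    exact_mod_cast h1
  have h3 : (0 : ℝ) ≤ ((F.image (· % p)).card : ℝ) / p := by positivity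
  constructor <;> linarith

private theorem Spl_card (F : Finset ℕ) (p : ℕ) (h : Inj F p) : (F.image (· % p)).card = F.card :=
  card_image_of_injOn fun s hs t ht hst => h s hs t ht hst

theorem tSpl : SplStmt := by
  intro Q Q' B F T hQ hQ' hB
  have h1 := Spl_pf Q Q' F T hQ
  rw [Spl_E F Q' hQ'] at h1
  have h2 : ∏ p ∈ Q' \ B, (1 - (F.card : ℝ) / p) =
      ∏ p ∈ Q' \ B, (1 - ((F.image (· % p)).card : ℝ) / p) :=
    prod_congr rfl fun p hp => by rw [Spl_card F p (hB p hp)]
  have h3 : 0 ≤ pe Q F T := E_nonneg fun a _ => ind_nonneg _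
  rw [h1, h2]
  constructor
  · refine mul_le_mul_of_nonneg_left ?_ h3
    rw [← prod_sdiff (inter_subset_left : Q' ∩ B ⊆ Q'), sdiff_inter_self_left]
    refine mul_le_of_le_one_right ?_ ?_
    · exact prod_nonneg fun p hp => (Spl_le F (hQ' p (mem_sdiff.1 hp).1)).1
    · exact prod_le_one (fun p hp => (Spl_le F (hQ' p (mem_inter.1 hp).1)).1)
        fun p hp => (Spl_le F (hQ' p (mem_inter.1 hp).1)).2
  · intro h4
    rw [sdiff_eq_self_of_disjoint h4]

end Pool.Agent.Lib.SHK
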