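import Pool.Agent.Lib.SHK.Pi
import Pool.Agent.Lib.SHK.Mta
import Pool.Agent.Lib.SHK.Mtb
import Pool.Agent.Lib.SHK.Mtc
import Pool.Agent.Lib.SHK.Qex
import Pool.Agent.Lib.SHK.Smo
import Pool.Agent.Lib.SHK.Rgh
import Pool.Agent.Lib.SHK.Cnt
import Pool.Agent.Lib.SHK.Sml
import Pool.Agent.Lib.SHK.Bon
import Pool.Agent.Lib.SHK.Prg
import Pool.Agent.Lib.SHK.Rat
import Pool.Agent.Lib.SHK.Med
import Pool.Agent.Lib.SHK.Rec
import Pool.Agent.Lib.SHK.Up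
import Pool.Agent.Lib.SHK.Pk
import Pool.Agent.Lib.SHK.Lo
import Pool.Agent.Lib.SHK.Spl
import Pool.Agent.Lib.SHK.Bad
import Pool.Agent.Lib.SHK.Che
import Pool.Agent.Lib.SHK.Prt
import Pool.Agent.Lib.SHK.Lrg
import Pool.Agent.Lib.SHK.NumA
import Pool.Agent.Lib.SHK.NumB
import Pool.Agent.Lib.SHK.NumC
import Pool.Agent.Lib.SHK.Mf
import Pool.Agent.Lib.SHK.Msr
import Pool.Agent.Lib.SHK.Fin
import Pool.Agent.Lib.SG.Mrt
import Pool.Agent.Lib.MP_3ef1ab_nt.F.Mer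
import Pool.Agent.Lib.BV.Tai
import Pool.Agent.Lib.BV.Gdi
import Pool.Agent.Lib.BV.Gin
import Pool.Agent.Lib.BV.Zse
import Pool.Agent.Lib.BV.Glo
import Pool.Agent.Lib.BV.Zlo
import Pool.Agent.Lib.BV.Cpt
import Pool.Agent.Lib.BV.Idr
import Pool.Agent.Lib.BV.Rec
import Pool.Agent.Lib.BV.Zkk
import Pool.Agent.Lib.BV.Smb
import Pool.Agent.Lib.BV.Ker
import Pool.Agent.Lib.BV.Per
import Pool.Agent.Lib.BV.Uns
import Pool.Agent.Lib.BV.Pas
import Pool.Agent.Lib.BV.Prs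
import Pool.Agent.Lib.BV.Pps
import Pool.Agent.Lib.BV.Lir
import Pool.Agent.Lib.BV.Pnt

/-!
MP_9a4459_nt, directory Lib/SHK (architect helper69): assembly. The prime number theorem is taken from Lib/BV,
Mertens' theorems from Lib/SG and Lib/MP_3ef1ab_nt.
-/

set_option autoImplicit false

namespace Pool.Agent.Lib.SHK

open Finset Filter Topology
open scoped Classical

section pnt

open Pool.Agent.Lib.BV

theorem bZse : Pool.Agent.Lib.BV.ZseStmt :=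
  Pool.Agent.Lib.BV.tZse Pool.Agent.Lib.BV.tTai Pool.Agent.Lib.BV.tGdi Pool.Agent.Lib.BV.tGin

theorem bZkk : Pool.Agent.Lib.BV.ZkkStmt :=
  Pool.Agent.Lib.BV.tZkk Pool.Agent.Lib.BV.tCpt (Pool.Agent.Lib.BV.tRec Pool.Agent.Lib.BV.tIdr) bZse
    (Pool.Agent.Lib.BV.tZlo Pool.Agent.Lib.BV.tGlo bZse)

theorem bPrs : Pool.Agent.Lib.BV.PrsStmt :=
  Pool.Agent.Lib.BV.tPrs (Pool.Agent.Lib.BV.tPer Pool.Agent.Lib.BV.tKer) Pool.Agent.Lib.BV.tUns
    Pool.Agent.Lib.BV.tPas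

theorem bPnt : Pool.Agent.Lib.BV.PntStmt :=
  Pool.Agent.Lib.BV.tPnt bZkk Pool.Agent.Lib.BV.tSmb bPrs Pool.Agent.Lib.BV.tPps
    Pool.Agent.Lib.BV.tLir

end pnt

theorem aPi : PiStmt := tPi bPnt

theorem aMrt : MrtStmt := Pool.Agent.Lib.SG.tMrt

theorem aMer : MerStmt := by
  obtain ⟨c, hc, h⟩ := Pool.Agent.Lib.MP_3ef1ab_nt.tMer Pool.Agent.Lib.SG.tMrt
  refine ⟨c, hc, h.congr fun z => ?_⟩
  unfold Pool.Agent.Lib.MP_3ef1ab_nt.VV
  congr 1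

theorem aMta : MtaStmt := tMta
theorem aMtb : MtbStmt := tMtb
theorem aMtc : MtcStmt := tMtc aMta aMtb aMer
theorem aQex : QexStmt := tQex
theorem aSmo : SmoStmt := tSmo
theorem aRgh : RghStmt := tRgh aMrt aPi
theorem aCnt : CntStmt := tCnt aPi aSmo aRgh
theorem aSml : SmlStmt := tSml aQex aCnt
theorem aBon : BonStmt := tBon
theorem aPrg : PrgStmt := tPrg aBon
theorem aRat : RatStmt := tRat
theorem aMed : MedStmt := tMed aMrt aPrg aRat
theorem aRec : RecStmt := tRec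
theorem aUp : UpStmt := tUp aRec
theorem aPk : PkStmt := tPk
theorem aLo : LoStmt := tLo aRec aPk
theorem aSpl : SplStmt := tSpl
theorem aBad : BadStmt := tBad
theorem aChe : CheStmt := tChe
theorem aPrt : PrtStmt := tPrt
theorem aLrg : LrgStmt := tLrg aUp aLo aSpl aBad aChe aPrt
theorem aNumA : NumAStmt := tNumA
theorem aNumB : NumBStmt := tNumB aMtc
theorem aNumC : NumCStmt := tNumC aNumA aNumB
theorem aMf : MfStmt := tMf aSml aMed aLrg aNumC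
theorem aMsr.{u} : MsrStmt.{u} := tMsr.{u}
theorem aFin.{u} : FinStmt.{u} := tFin.{u} aMf aMsr.{u}

end Pool.Agent.Lib.SHK
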