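import Mathlib

/-! MP_9a4459_nt: random sieves, gaps between consecutive elements of a set of integers. -/

set_option autoImplicit false

namespace Pool.Agent.Results.MP_9a4459_nt

open MeasureTheory

/-- m < m' are consecutive elements of A -/
def Consec (A : ℕ → Prop) (m m' : ℕ) : Prop :=
  A m ∧ A m' ∧ m < m' ∧ ∀ k, m < k → k < m' → ¬ A k

/-- the integers n ≥ 2 which are not congruent to a p mod p for any prime p ≤ z n -/
def Sieved (z a : ℕ → ℕ) (n : ℕ) : Prop :=
  2 ≤ n ∧ ∀ p : ℕ, p.Prime → p ≤ z n → n % p ≠ a p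

/-- the a p are independent, and a p is uniformly distributed in {0, …, p-1} for every prime p -/
structure UniformClasses {Ω : Type*} [MeasurableSpace Ω] (P : Measure Ω) (a : ℕ → Ω → ℕ) : Prop where
  meas : ∀ p, Measurable (a p)
  indep : ProbabilityTheory.iIndepFun a P
  unif : ∀ p : ℕ, p.Prime → ∀ r < p, P {ω | a p ω = r} = ENNReal.ofReal (1 / p)

end Pool.Agent.Results.MP_9a4459_nt
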