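import Pool.Agent.Lib.SHK.Ee
import Pool.Agent.Lib.SHK.Defs

/-!
MP_9a4459_nt (Shanks: log p(g) ~ √g), directory Lib/SHK (architect helper69; paper proof: note 4595).
THEOREM H2: in the random sieve of Banks, Ford and Tao almost surely every large even g is a gap and
log p(g) < c √g for every c > √(e^γ/2) = 0.9437.

RULES. Module X: file Pool/Agent/Lib/SHK/X.lean, first line `import Pool.Agent.Lib.SHK.Spec`, then
`set_option autoImplicit false`, `namespace Pool.Agent.Lib.SHK`, `open Finset Filter Topology` and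
`open scoped Classical`; private lemmas with names starting with X_, final theorem
`theorem tX (h1 : AStmt) ... : XStmt`; the statements listed under Uses are hypotheses of your theorem, in
this order. The docstring contains a complete proof. Never use congr!. Every module below 60 s.
E, ind, pr, Vk, Av, Ht, pe, Inj and their properties: SHK/Ee.lean.
-/

set_option autoImplicit false

namespace Pool.Agent.Lib.SHK

open Finset Filter Topology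
open scoped Classical

/-! ### Part 0: input (all proved elsewhere in Pool/Agent/Lib) -/

/-- Mertens' second theorem (SG.tMrt) -/
def MrtStmt : Prop :=
  ∃ C : ℝ, 0 < C ∧ ∀ x y : ℝ, 2 ≤ x → x ≤ y →
    |∑ p ∈ (Ioc ⌊x⌋₊ ⌊y⌋₊).filter Nat.Prime, 1 / (p : ℝ) - Real.log (Real.log y / Real.log x)| ≤
      C / Real.log x

/-- Mertens' product, some constant (MP_3ef1ab_nt.mer) -/
def MerStmt : Prop :=
  ∃ c : ℝ, 0 < c ∧ Tendsto (fun z : ℕ => (∏ p ∈ (Icc 1 z).filter Nat.Prime, (1 - 1 / (p : ℝ))) *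
    Real.log z) atTop (𝓝 c)

/-- the prime number theorem, upper bound (module Pi, from PntStmt of Lib/BV) -/
def PiStmt : Prop :=
  ∀ ε : ℝ, 0 < ε → ∃ T0 : ℕ, ∀ t : ℕ, T0 ≤ t → ((pr 0 t).card : ℝ) ≤ (1 + ε) * (t / Real.log t)

/-! ### Part 1: the constant in Mertens' theorem -/

/-- Module Mta (theorem tMta; an Abelian theorem). Uses: nothing.
Proof. S(t) = ∑_{k ≤ t} f k, nondecreasing, S(t) = 0 for t < 2, |S(t) - log log t - κ| ≤ C for t ≥ 2 and → 0 (also for real t: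
log log t - log log ⌊t⌋ → 0). Mathlib (NumberTheory/LSeries/SumCoeff: LSeries_eq_mul_integral, LSeriesSummable_of_sum_norm_bigO,
with r = δ/2, S(N) = O(N^r)) at the real point s = δ > 0: ∑ f n n^(-δ) = δ ∫_1^∞ S(t) t^(-δ-1) dt, which is ∫_0^∞ S(e^(v/δ)) e^(-v) dv
(t = e^(v/δ)). For fixed v > 0 and δ → 0+: S(e^(v/δ)) + log δ = log(v/δ) + κ + log δ + o(1) → log v + κ. Domination for 0 < δ < 1/2:
if v/δ ≥ log 2: |S(e^(v/δ)) + log δ| ≤ |log v| + |κ| + C; if v/δ < log 2 it is |log δ| = log (1/δ) ≤ log (log 2/v) ≤ |log v|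
(v < δ log 2 < δ, so 1/δ < 1/v). |log v| e^(-v) is integrable on (0, ∞), and ∫_0^∞ log v e^(-v) dv = Γ'(1) = -γ
(Mathlib: Real.deriv_Gamma_one / Real.eulerMascheroniConstant_eq_neg_deriv, and the derivative of the Gamma integral:
hasDerivAt_GammaIntegral / Complex.hasDerivAt_GammaIntegral). Hence the limit is κ - γ. -/
def MtaStmt : Prop :=
  ∀ (f : ℕ → ℝ) (κ : ℝ), (∀ n, 0 ≤ f n) → f 0 = 0 → f 1 = 0 → (∃ C : ℝ, ∀ n, f n ≤ C) →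
    Tendsto (fun N : ℕ => ∑ k ∈ Icc 1 N, f k - Real.log (Real.log N)) atTop (𝓝 κ) →
    Tendsto (fun δ : ℝ => (∑' n : ℕ, f n * (n : ℝ) ^ (-δ)) + Real.log δ) (𝓝[>] 0)
      (𝓝 (κ - Real.eulerMascheroniConstant))

/-- the sequence -log(1 - 1/p) -/
noncomputable def lp (n : ℕ) : ℝ := if n.Prime then -Real.log (1 - 1 / (n : ℝ)) else 0

/-- Module Mtb (theorem tMtb; Euler product). Uses: nothing.
Proof. For δ > 0: ∑_p -log(1 - p^(-1-δ)) = log ζ(1+δ) (real form of the Euler product, e.g. Mathlib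
riemannZeta_eulerProduct_exp_log or riemannZeta_eulerProduct_tprod; or DirichletCharacter ... ; ζ(1+δ) = ∑ n^(-1-δ) real),
and δ ζ(1+δ) → 1 (tendsto_sub_mul_tsum_nat_rpow), so log ζ(1+δ) + log δ → 0. The difference
∑_p (-log(1 - p^(-1-δ)) + p^(-δ) log(1 - 1/p)) → 0: every term tends to 0, and |-log(1-u) - u| ≤ u² for 0 ≤ u ≤ 1/2, so the
term is at most p^(-2-2δ) + p^(-δ) p^(-2) ≤ 2/p² (the linear terms cancel: p^(-1-δ) - p^(-δ)/p = 0); dominated convergence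
for series (tendsto_tsum_of_dominated_convergence). -/
def MtbStmt : Prop :=
  Tendsto (fun δ : ℝ => (∑' n : ℕ, lp n * (n : ℝ) ^ (-δ)) + Real.log δ) (𝓝[>] 0) (𝓝 0)

/-- Module Mtc (theorem tMtc; Mertens' product with its constant). Uses: Mta, Mtb, Mer.
Proof. c from Mer. -log of the product up to z is ∑_{k ≤ z} lp k, and log (product * log z) → log c, so
∑_{k ≤ N} lp k - log log N → -log c. 0 ≤ lp n ≤ log 2. Mta with κ = -log c: the limit is -log c - γ; by Mtb it is 0; so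
c = e^(-γ). (Icc 1 z and Ioc 0 z are equal.) -/
def MtcStmt : Prop :=
  Tendsto (fun z : ℕ => Vk 1 0 z * Real.log z) atTop (𝓝 (Real.exp (-Real.eulerMascheroniConstant)))

/-! ### Part 2: the small primes -/

/-- Module Qex (theorem tQex). Uses: nothing.
Proof. P0 = max 100 ⌈8/σ⌉, W = primorial P0. For every prime p ≤ P0 there is a class c mod p with c and c + g not 0 mod p
(p = 2: c odd, g even; p ≥ 3: a class different from 0 and -g); Chinese remainder theorem: c mod W. K = the set of the q with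
1 ≤ q ≤ δ g and q = c mod W: card K ≥ δ g/W - 1 ≥ δ g/(2W) for g ≥ g0. For a prime p > P0 the number of q in K divisible by p is
≤ δ g/(p W) + 1 (p and W coprime), the same for q + g. So the sum over q in K of ∑_{P0<p≤y, p | q(q+g)} 1/p is ≤
∑_{P0<p≤g} (2/p)(δ g/(pW) + 1) ≤ (2 δ g/W)(1/P0) + 2 (1 + log g) (∑_{n>P0} 1/n² ≤ 1/P0); dividing by card K: the mean is ≤ 4/P0 +
4 W (1 + log g)/(δ g) ≤ 8/P0 ≤ σ for g ≥ g0. Some q in K is at most the mean; its primes ≤ P0 do not occur in the filter. -/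
def QexStmt : Prop :=
  ∀ σ δ : ℝ, 0 < σ → 0 < δ → ∃ g0 : ℕ, ∀ g y : ℕ, g0 ≤ g → Even g → y ≤ g →
    ∃ q : ℕ, 1 ≤ q ∧ (q : ℝ) ≤ δ * g ∧ (∀ p ∈ pr 0 100, ¬ p ∣ q * (q + g)) ∧
      ∑ p ∈ (pr 0 y).filter (fun p => p ∣ q * (q + g)), 1 / (p : ℝ) ≤ σ

/-- the e ≤ X all of whose prime factors are in B -/
noncomputable def smo (B : Finset ℕ) (X : ℕ) : Finset ℕ :=
  (Icc 1 X).filter (fun e => ∀ p : ℕ, p.Prime → p ∣ e → p ∈ B)

/-- the r ≤ X all of whose prime factors are > y -/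
noncomputable def rgh (y X : ℕ) : Finset ℕ :=
  (Icc 1 X).filter (fun r => ∀ p : ℕ, p.Prime → p ∣ r → y < p)

/-- Module Smo (theorem tSmo). Uses: nothing.
Proof. Rankin. For s = 1/2 and s = 1: ∑_{e ∈ smo B X} e^(-s) ≤ ∏_{p ∈ B} (1 - p^(-s))⁻¹ (Mathlib, NumberTheory/EulerProduct:
EulerProduct.summable_and_hasSum_factoredNumbers_prod_filter_prime_geometric for Nat.factoredNumbers B; or by induction on B).
s = 1: (1 - t)⁻¹ ≤ exp (2t) for t ≤ 1/2. s = 1/2: card ≤ ∑ (X/e)^(1/2) ≤ X^(1/2) (1 - 1/10)^(-card B) (p ≥ 100),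
100^(card B) ≤ ∏ p ≤ X², so card B ≤ 2 log X/log 100 and (10/9)^(card B) ≤ X^(2 log(10/9)/log 100) ≤ X^(1/4). -/
def SmoStmt : Prop :=
  ∀ (B : Finset ℕ) (X : ℕ), 1 ≤ X → (∀ p ∈ B, p.Prime ∧ 100 ≤ p) → ∏ p ∈ B, p ≤ X ^ 2 →
    ((smo B X).card : ℝ) ≤ (X : ℝ) ^ ((3 : ℝ) / 4) ∧
    ∑ e ∈ smo B X, 1 / (e : ℝ) ≤ Real.exp (2 * ∑ p ∈ B, 1 / (p : ℝ))

/-- Module Rgh (theorem tRgh). Uses: Mrt, Pi.
Proof. y0 so large that y³ > C1 y² and Pi (ε = 1) holds for t ≥ y0. If t ≤ y the only r is 1. Let t > y, r ≤ t in rgh y t, r > 1,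
p = minFac r > y. r = p is a prime: at most card (pr 0 t) ≤ 2 t/log t ≤ 2t/log y. Otherwise r = p s, 1 < s ≤ t/p ≤ C1 y, all prime
factors of s are ≥ p > y, so s is prime (else s > y² > C1 y) and p ≤ s, p² ≤ t, p ≤ √C1 y. For given p the number of s is ≤
card (pr 0 (t/p)) ≤ 2 (t/p)/log (t/p) ≤ 2 (t/p)/log y·(t/p ≥ s ≥ p > y; use Pi at the natural number t/p, u/log u increasing), and
∑_{y<p≤√C1 y} 1/p ≤ log (log (√C1 y)/log y) + C/log y ≤ C'/log y (Mrt). So at most C'' t/(log y)² such r. -/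
def RghStmt : Prop :=
  ∀ C1 : ℝ, 1 ≤ C1 → ∃ C : ℝ, 0 < C ∧ ∃ y0 : ℕ, 3 ≤ y0 ∧ ∀ y t : ℕ, y0 ≤ y → 1 ≤ t →
    (t : ℝ) ≤ C1 * (y : ℝ) ^ 2 →
    ((rgh y t).card : ℝ) ≤ 1 + C * (t / Real.log y) ∧
    ((rgh y t).card : ℝ) ≤ 1 + ((pr 0 t).card : ℝ) + C * (t / (Real.log y) ^ 2)

/-- Module Cnt (theorem tCnt). Uses: Pi, Smo, Rgh.
Proof. m ↦ (e, r): e = the y-smooth part of m, r = m/e; e in smo B X, r in rgh y (X/e) (natural division, X/e ≥ 1), m = e r. So the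
number is ≤ ∑_{e ∈ smo B X} card rgh y (X/e). e = 1: ≤ 1 + π(X) + C X/(log y)² ≤ (1 + δ/4) X/log X for X ≥ X0 (log y ≥ (log X - log C1)/2
≥ (log X)/3). e > 1: ≤ ∑ (1 + C (X/e)/log y) ≤ X^(3/4) + 3C (X/log X)(exp (2σ) - 1) because ∑_{e>1} 1/e ≤ exp (2σ) - 1 (Smo). Choose σ with
3C (exp (2σ) - 1) ≤ δ/4. -/
def CntStmt : Prop :=
  ∀ δ C1 : ℝ, 0 < δ → 1 ≤ C1 → ∃ σ : ℝ, 0 < σ ∧ ∃ X0 : ℕ, ∀ (X y : ℕ) (B : Finset ℕ), X0 ≤ X →
    y ≤ X → (X : ℝ) ≤ C1 * (y : ℝ) ^ 2 → (∀ p ∈ B, p.Prime ∧ 100 ≤ p ∧ p ≤ y) → ∏ p ∈ B, p ≤ X ^ 2 →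
    ∑ p ∈ B, 1 / (p : ℝ) ≤ σ →
    (((Icc 1 X).filter (fun m => ∀ p : ℕ, p.Prime → p ∣ m → p ≤ y → p ∈ B)).card : ℝ) ≤
      (1 + δ) * (X / Real.log X)

/-- Module Sml (theorem tSml; the small primes). Uses: Qex, Cnt.
Proof. δ' = δ/8 ≤ 1/8, σ from Cnt (δ', 2 C1), q from Qex (σ, δ'), B = the primes p ≤ y with p | q(q+g); they are > 100;
∏_{p ∈ B} p divides q (q + g) ≤ X², X = ⌊(1 + δ') g⌋ (q + g ≤ X, q ≤ X). S = the j with 0 < j < g such that no prime p ≤ y outside B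
divides j + q: j ↦ j + q ≤ X is injective into the set of Cnt: card S ≤ (1 + δ')(X/log X) ≤ (1 + δ')² g/log g ≤ (1 + δ) g/log g.
b by the Chinese remainder theorem (moduli the primes p ≤ y, product primorial y): b = a p + q mod p for p not in B; for p in B
(p > 100) b mod p is a class different from a p and a p - g. For n = b mod primorial y: p not in B: n - a p = q and
n + g - a p = q + g are not 0 mod p; p in B: by the choice. If 0 < j < g and j is not in S, some prime p ≤ y, p not in B, divides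
j + q, so n + j = a p + q + j = a p mod p, and (n + j) % p = a p because a p < p. If y < 2 everything is trivial or excluded by
g ≤ C1 y² and g0. -/
def SmlStmt : Prop :=
  ∀ δ C1 : ℝ, 0 < δ → δ ≤ 1 → 1 ≤ C1 → ∃ g0 : ℕ, ∀ (g y : ℕ) (a : ℕ → ℕ), g0 ≤ g → Even g →
    y ≤ g → (g : ℝ) ≤ C1 * (y : ℝ) ^ 2 → (∀ p ∈ pr 0 y, a p < p) →
    ∃ (b : ℕ) (S : Finset ℕ), S ⊆ Ioo 0 g ∧ (S.card : ℝ) ≤ (1 + δ) * (g / Real.log g) ∧
      ∀ n : ℕ, n ≡ b [MOD primorial y] →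
        (∀ p ∈ pr 0 y, n % p ≠ a p ∧ (n + g) % p ≠ a p) ∧
        ∀ j ∈ Ioo 0 g, j ∉ S → ∃ p ∈ pr 0 y, (n + j) % p = a p

/-! ### Part 3: the medium primes -/

/-- Module Bon (theorem tBon; Bonferroni). Uses: nothing.
Proof. For a finite set H of p's which hit t: |[H empty] - ∑_{D ⊆ H, |D| < R} (-1)^|D|| ≤ C(|H|, R) = number of D ⊆ H with |D| = R
(∑_{j<R} (-1)^j C(h,j) = (-1)^(R-1) C(h-1,R-1) for h ≥ 1; Mathlib: Int.alternating_sum_range_choose or by induction). Sum over t < N: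
with N_D = #{t < N : t % p ∈ Om p for all p ∈ D} the number differs from ∑_{|D|<R} (-1)^|D| N_D by at most ∑_{|D|=R} N_D, and
|N_D - N ∏_{p∈D} |Om p|/p| ≤ ∏_{p∈D} |Om p| (Chinese remainder theorem; every class mod ∏ p has N/∏p + O(1) elements t < N).
In the same way, with x_p = |Om p|/p in [0,1]: |∏_{p∈Q}(1 - x_p) - ∑_{|D|<R} (-1)^|D| ∏_D x_p| ≤ e_R(x) ≤ (∑ x_p)^R/R!
(induction on Q, or the inequality above integrated over independent events; e_R = elementary symmetric function, R! e_R ≤ (∑ x)^R).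
Total: 2 N (∑ x_p)^R/R! + ∑_{|D|≤R} ∏_D |Om p|, and the last sum is ≤ ∑_{j≤R} (∑ |Om p|)^j/j! ≤ (1 + ∑ |Om p|)^R. -/
def BonStmt : Prop :=
  ∀ (Q : Finset ℕ) (Om : ℕ → Finset ℕ) (R N : ℕ), (∀ p ∈ Q, p.Prime ∧ Om p ⊆ range p) →
    |(((range N).filter (fun t => ∀ p ∈ Q, t % p ∉ Om p)).card : ℝ) -
      N * ∏ p ∈ Q, (1 - ((Om p).card : ℝ) / p)| ≤
    2 * N * ((∑ p ∈ Q, ((Om p).card : ℝ) / p) ^ R / (R.factorial : ℝ)) +
      (1 + ∑ p ∈ Q, ((Om p).card : ℝ)) ^ R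

/-- the number of classes mod p of the members of H -/
noncomputable def nu (H : Finset ℕ) (p : ℕ) : ℕ := (H.image (fun h => h % p)).card

/-- Module Prg (theorem tPrg; a progression). Uses: Bon.
Proof. For p ∈ Q: D is invertible mod p, Om p = the classes t mod p with n0 + D t + h = a p mod p for some h ∈ H; its card is
nu H p (a p < p; t = (a p - h - n0)/D), and (n0 + D t + h) % p = a p iff t % p is in Om p with this h. nu H p ≤ card H. -/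
def PrgStmt : Prop :=
  ∀ (Q H : Finset ℕ) (a : ℕ → ℕ) (n0 D N R : ℕ), (∀ p ∈ Q, p.Prime ∧ p.Coprime D ∧ a p < p) →
    |(((range N).filter (fun t => ∀ p ∈ Q, ∀ h ∈ H, (n0 + D * t + h) % p ≠ a p)).card : ℝ) -
      N * ∏ p ∈ Q, (1 - (nu H p : ℝ) / p)| ≤
    2 * N * ((∑ p ∈ Q, (H.card : ℝ) / p) ^ R / (R.factorial : ℝ)) + (1 + (Q.card : ℝ) * H.card) ^ R

/-- Module Rat (theorem tRat; comparison of the products). Uses: nothing.
Proof. p in pr y w, p > y ≥ 4. nu {0,g} p ≤ 2. If p does not divide j (g - j): j is in no class of {0, g}, nu {0,j,g} p =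
nu {0,g} p + 1, and 1 - (ν+1)/p = (1 - ν/p)(1 - 1/(p-ν)) ≤ (1 - ν/p)(1 - 1/p). If p divides j (g - j) ≤ g²: nu {0,j,g} p ≥ nu {0,g} p;
there are at most 6 such p because y^(number) ≤ g² ≤ y^6. So the left side is ≤ ∏ (1 - ν/p) ∏_{p ∤ j(g-j)} (1 - 1/p) ≤
∏ (1 - ν/p) Vk 1 y w (1 - 1/y)^(-6), and (1 - 1/y)^(-6) ≤ 1 + δ for y ≥ y0. -/
def RatStmt : Prop :=
  ∀ δ : ℝ, 0 < δ → ∃ y0 : ℕ, 4 ≤ y0 ∧ ∀ y w g j : ℕ, y0 ≤ y → 0 < j → j < g → g ≤ y ^ 3 →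
    ∏ p ∈ pr y w, (1 - (nu {0, j, g} p : ℝ) / p) ≤
      (1 + δ) * (Vk 1 y w * ∏ p ∈ pr y w, (1 - (nu {0, g} p : ℝ) / p))

/-- Module Med (theorem tMed; the medium primes, for ANY classes a p). Uses: Mrt, Prg, Rat.
Proof. y ≥ y0 ≥ 100. ∑_{y<p≤w} 1/p ≤ log 12 + C/log 2 =: C2 (Mrt, w ≤ y^12). c0 = exp (-6 C2): since 1 - t ≥ exp (-2t) for 0 ≤ t ≤ 1/2, all
the products ∏ (1 - ν/p), ν ≤ 3, and Vk 1 y w are ≥ c0. R0 with 2 (3 C2)^R0/R0! ≤ (δ/32) c0², R = 2 R0 + 1, y0 such that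
(1 + 3w)^R0 ≤ (δ/32) c0² w^R for w ≥ y0 (and Rat with δ/16). So by Prg (R0) for H = {0,g} and H = {0,j,g} the number of t is
N ∏ (1 - nu H p/p) up to (δ/16) c0² N. Let Π = ∏ (1 - nu {0,g} p/p), V = Vk 1 y w. A = number of t with n0+Dt, n0+Dt+g not hit ≥ (1 - δ/16) N Π;
∑ over these t of K(t) (K(t) = #{j ∈ S : n0+Dt+j not hit}) is ∑_{j∈S} (number for {0,j,g}) ≤ |S| N Π V (1 + δ/16 + δ/16).
If S is empty done (K = 0). Otherwise K(t) > (1+δ)|S| V holds for at most N Π (1 + δ/8)/(1 + δ) of them, so at least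
N Π (1 - δ/16 - (1 + δ/8)/(1 + δ)) ≥ N Π δ/4 ≥ (δ/4) c0 N remain (δ ≤ 1). -/
def MedStmt : Prop :=
  ∀ δ : ℝ, 0 < δ → δ ≤ 1 → ∃ c : ℝ, 0 < c ∧ ∃ R y0 : ℕ, ∀ (y w g N n0 D : ℕ) (a : ℕ → ℕ)
    (S : Finset ℕ), y0 ≤ y → y ≤ w → w ≤ y ^ 12 → 0 < g → g ≤ y ^ 3 → w ^ R ≤ N → S ⊆ Ioo 0 g →
    (∀ p ∈ pr y w, p.Coprime D ∧ a p < p) →
    c * N ≤ (((range N).filter (fun t =>
      (∀ p ∈ pr y w, (n0 + D * t) % p ≠ a p ∧ (n0 + D * t + g) % p ≠ a p) ∧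
      ((S.filter (fun j => ∀ p ∈ pr y w, (n0 + D * t + j) % p ≠ a p)).card : ℝ) ≤
        (1 + δ) * (S.card * Vk 1 y w))).card : ℝ)

/-! ### Part 4: the large primes -/

/-- Module Rec (theorem tRec; one more prime). Uses: nothing.
Proof. E_insert. For q ∈ Q (q ≠ p) Function.update a p r q = a q. So the event for update a p r is: f % p ≠ r for f ∈ F, Av Q F a, and every
t ∈ T has t % p = r or is hit by Q. (1) The members of F ∪ T are in different classes mod p: for the card F classes r of F the event is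
empty, for r = t % p, t ∈ T, it is Av Q F a ∧ Ht Q (T.erase t) a, for the other p - card F - card T classes it is Av Q F a ∧ Ht Q T a.
(2) Drop the condition f % p ≠ r. -/
def RecStmt : Prop :=
  (∀ (p : ℕ) (Q F T : Finset ℕ), 0 < p → p ∉ Q → Disjoint F T → Inj (F ∪ T) p →
    pe (insert p Q) F T = (1 - ((F.card : ℝ) + T.card) / p) * pe Q F T +
      (∑ t ∈ T, pe Q F (T.erase t)) / p) ∧
  (∀ (p : ℕ) (Q F T : Finset ℕ), 0 < p → p ∉ Q →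
    pe (insert p Q) F T ≤ (∑ r ∈ range p, pe Q F (T.filter (fun t => t % p ≠ r))) / p)

/-- Module Up (theorem tUp; upper bound). Uses: Rec.
Proof. (1) Q = G, B = ∅, by induction on G: pe G F T ≤ ∏ (1 - f/p) (1 - θ)^k, f = card F, k = card T (for all T at once). G = ∅: θ = 1, pe = 1 if
T = ∅ and 0 otherwise. Step: m = p - f, q = 1/m, k ≤ m (Inj: f + k ≤ p): Rec (1) gives (1 - f/p)((1 - k q) pe(T) + q ∑ pe(T.erase t)) ≤
(1 - f/p) Π (1-θ)^(k-1) ((1 - kq)(1 - θ) + kq) = (1 - f/p) Π ((1-θ)^k + k q θ (1-θ)^(k-1)) ≤ (1 - f/p) Π (1 - θ + qθ)^k and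
1 - θ + qθ = 1 - (1 - q)θ. (2) Induction on B with Rec (2): of the p filters at most k are ≠ T (r = t % p), they have at least k - 2
elements, for these the bound is at most (1-θ)^(-2) ≤ 4 times the bound U for T (θ ≤ 1/2; the factors 1 + 4k/p are monotone in k, and the
bound is increasing when T shrinks). So pe ≤ ((p - k) U + k 4U)/p ≤ (1 + 4k/p) U (if k > p: ≤ 4U ≤ (1 + 4k/p) U). -/
def UpStmt : Prop :=
  ∀ (G B F T : Finset ℕ), Disjoint G B → Disjoint F T → (∀ p ∈ G, F.card < p ∧ Inj (F ∪ T) p) →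
    (∀ p ∈ B, 0 < p ∧ ∀ r, (T.filter (fun t => t % p = r)).card ≤ 2) →
    ∏ p ∈ G, (1 - 1 / ((p : ℝ) - F.card)) ≤ 1 / 2 →
    pe (G ∪ B) F T ≤ (∏ p ∈ G, (1 - (F.card : ℝ) / p)) *
      (1 - ∏ p ∈ G, (1 - 1 / ((p : ℝ) - F.card))) ^ T.card * ∏ p ∈ B, (1 + 4 * (T.card : ℝ) / p)

/-- P_k(θ) -/
noncomputable def PP (r θ : ℝ) (k : ℕ) : ℝ := ∏ i ∈ range k, max 0 (1 - r ^ i * θ)

/-- Module Pk (theorem tPk). Uses: nothing.
Proof. (1) Induction on k (k replaced by k + 1). b = max 0 (1 - r^k θ), b' = max 0 (1 - r^k (1-q) θ). 1 - b = min 1 (r^k θ),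
1 - b' = min 1 ((1-q) r^k θ) ≥ (1-q) min 1 (r^k θ), so b' ≤ b + q (1 - b). k = 0: PP ((1-q)θ) 1 = b' ≤ (1 - q) b + q. k ≥ 1: by induction
PP ((1-q)θ) k ≤ (1 - kq) PP θ k + kq PP θ (k-1) (1 - kq ≥ 0). Multiply by b' ≥ 0: PP θ (k-1) b' ≤ PP θ (k-1) max 0 (1 - r^(k-1) θ) = PP θ k, as
r^k (1-q) ≥ r^(k-1). So PP ((1-q)θ) (k+1) ≤ PP θ k ((1 - kq) b' + kq) ≤ PP θ k (b + (k+1) q (1 - b)) =
(1 - (k+1)q) PP θ (k+1) + (k+1) q PP θ k: indeed (1-kq)(b + q(1-b)) + kq = b + (k+1) q (1-b) - k q² (1-b). (2) every factor is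
≥ 1 - r^k θ ≥ 0 (r ≥ 1). -/
def PkStmt : Prop :=
  (∀ (r q θ : ℝ) (k : ℕ), 1 ≤ r → 0 ≤ q → q ≤ 1 → 1 ≤ r * (1 - q) → 0 ≤ θ → ((k : ℝ) + 1) * q ≤ 1 →
    PP r ((1 - q) * θ) (k + 1) ≤ (1 - ((k : ℝ) + 1) * q) * PP r θ (k + 1) + ((k : ℝ) + 1) * q * PP r θ k) ∧
  (∀ (r θ : ℝ) (k : ℕ), 1 ≤ r → 0 ≤ θ → r ^ k * θ ≤ 1 → (1 - r ^ k * θ) ^ k ≤ PP r θ k)

/-- Module Lo (theorem tLo; lower bound). Uses: Rec, Pk.
Proof. r = (1 - q0)⁻¹ ≥ 1. By induction on Q, for all T with card T q0 ≤ 1: pe Q F T ≥ ∏ (1 - f/p) PP r θ (card T), θ = ∏ (1 - 1/(p - f)).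
Q = ∅: θ = 1, PP r 1 0 = 1, PP r 1 k = 0 for k ≥ 1. Step: q = 1/(p - f) ≤ q0, k = card T, k q ≤ 1, r (1 - q) ≥ 1; Rec (1) and Pk (1):
(1 - f/p) Π ((1 - kq) PP r θ k + kq PP r θ (k-1)) ≥ (1 - f/p) Π PP r ((1-q)θ) k. At the end Pk (2); k ≤ K gives r^k θ ≤ r^K θ ≤ 1 and
(1 - r^k θ)^k ≥ (1 - r^K θ)^k. -/
def LoStmt : Prop :=
  ∀ (Q F T : Finset ℕ) (q0 : ℝ) (K : ℕ), Disjoint F T → 0 < q0 → q0 < 1 → (K : ℝ) * q0 ≤ 1 → T.card ≤ K →
    (∀ p ∈ Q, F.card < p ∧ 1 / ((p : ℝ) - F.card) ≤ q0 ∧ Inj (F ∪ T) p) →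
    ((1 - q0)⁻¹) ^ K * ∏ p ∈ Q, (1 - 1 / ((p : ℝ) - F.card)) ≤ 1 →
    (∏ p ∈ Q, (1 - (F.card : ℝ) / p)) *
      (1 - ((1 - q0)⁻¹) ^ K * ∏ p ∈ Q, (1 - 1 / ((p : ℝ) - F.card))) ^ T.card ≤ pe Q F T

/-- the probability that F is avoided by Q ∪ Q' and T is hit by Q -/
noncomputable def pf (Q Q' F T : Finset ℕ) : ℝ :=
  E (Q ∪ Q') (fun a => ind (Av (Q ∪ Q') F a ∧ Ht Q T a))

/-- Module Spl (theorem tSpl; splitting off the last primes). Uses: nothing.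
Proof. Av (Q ∪ Q') F a iff Av Q F a and Av Q' F a; E_mul (ind_and): pf = pe Q F T * E Q' (ind (Av Q' F a)). The mean over Q' is
∏_{p ∈ Q'} (1 - #(classes of F mod p)/p) (induction, E_insert); for Inj F p the number of classes is card F; drop the p in B
(factor ≤ 1). Equality if no p of Q' is in B. -/
def SplStmt : Prop :=
  ∀ (Q Q' B F T : Finset ℕ), Disjoint Q Q' → (∀ p ∈ Q', 0 < p) → (∀ p ∈ Q' \ B, Inj F p) →
    pf Q Q' F T ≤ pe Q F T * ∏ p ∈ Q' \ B, (1 - (F.card : ℝ) / p) ∧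
    (Disjoint Q' B → pf Q Q' F T = pe Q F T * ∏ p ∈ Q' \ B, (1 - (F.card : ℝ) / p))

/-- the primes p in (w, Z] for which the intervals [n, n+g] and [n', n'+g] have a common class -/
noncomputable def bad (w Z g n n' : ℕ) : Finset ℕ :=
  (pr w Z).filter (fun p => ∃ i ∈ Icc 0 g, ∃ i' ∈ Icc 0 g, (n + i) % p = (n' + i') % p)

/-- Module Bad (theorem tBad). Uses: nothing.
Proof. Wlog n + g < n' (symmetric in n, n'). A p in the set divides some D = n' - n + i' - i = n' - n - g + s, 0 ≤ s ≤ 2g, a positive integer ≤ 2X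
(n' + g - n ≤ 2X). For each of the 2g + 1 values of D the primes p > w dividing D: w^(number) ≤ ∏ p ≤ D ≤ 2X. Sum over s. -/
def BadStmt : Prop :=
  ∀ w Z g n n' X : ℕ, 2 ≤ w → n ≤ X → n' ≤ X → g ≤ X → (n + g < n' ∨ n' + g < n) →
    ((bad w Z g n n').card : ℝ) * Real.log w ≤ (2 * (g : ℝ) + 1) * Real.log (2 * X)

/-- Module Che (theorem tChe; second moment). Uses: nothing.
Proof. X a = ∑_{n∈M} ind (A n a), μ = ∑ p n, p n = E Q (ind (A n a)). E X² = ∑_{n,n'} E (ind (A n a ∧ A n' a)) ≤ μ + (1 + ρ) μ² (the diagonal is μ,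
off the diagonal the hypothesis; ρ ≥ 0). E (X - μ)² = E X² - μ² ≤ μ + ρ μ² (E of a constant: E_const, members of Q positive), and
μ² ind (no A n a) ≤ (X a - μ)². Divide by μ². -/
def CheStmt : Prop :=
  ∀ (Q M : Finset ℕ) (A : ℕ → (ℕ → ℕ) → Prop) (ρ : ℝ), (∀ p ∈ Q, 0 < p) → 0 ≤ ρ →
    0 < ∑ n ∈ M, E Q (fun a => ind (A n a)) →
    (∀ n ∈ M, ∀ n' ∈ M, n ≠ n' → E Q (fun a => ind (A n a ∧ A n' a)) ≤
      (1 + ρ) * (E Q (fun a => ind (A n a)) * E Q (fun a => ind (A n' a)))) →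
    E Q (fun a => ind (∀ n ∈ M, ¬ A n a)) ≤ 1 / (∑ n ∈ M, E Q (fun a => ind (A n a))) + ρ

/-- the parameter Θ -/
noncomputable def Th (g w Z1 : ℕ) : ℝ :=
  ((1 - 1 / ((w : ℝ) - 1))⁻¹) ^ g * ∏ p ∈ pr w Z1, (1 - 1 / ((p : ℝ) - 2))

/-- Module Prt (theorem tPrt; numerical comparison). Uses: nothing.
Proof. Θ = Th g w Z1, θ = the product of 1 - 1/(p-4) over pr w Z1 \ B. All primes are > w ≥ g^5 ≥ 10^10. (a) 1 - 4/p ≤ (1 - 2/p)², and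
(1 - 2/p)^(-2) ≤ exp (5/w): the first product is ≤ (Vk 2 w Z)² exp (5 |B|/w). (b) ∏_{B} (1 + 8g/p) ≤ exp (8 g |B|/w).
(c) θ/Θ ≥ (1 - 1/(w-1))^g ∏_{p ∈ pr w Z1 \ B} (1 - 1/(p-4))/(1 - 1/(p-2)) (the primes of B only help), 1 - 1/(w-1))^g ≥ 1 - g/(w-1),
(1 - 1/(p-4))/(1 - 1/(p-2)) = 1 - 2/((p-4)(p-3)), and ∑_{p>w} 2/((p-4)(p-3)) ≤ 2/(w-4) (telescoping); so θ ≥ Θ (1 - 2g/w)
(g/(w-1) + 2/(w-4) ≤ 2g/w). (1 - θ)/(1 - Θ) = 1 + (Θ - θ)/(1 - Θ) ≤ 1 + (4/3)(1/4)(2g/w) ≤ exp (g/w), to the power k ≤ 2g: exp (2g²/w).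
Total exponent ≤ (5 + 8g)|B|/w + 2g²/w ≤ 10 g (|B| + g)/w =: u, and exp u ≤ 1 + 2u for 0 ≤ u ≤ 1. -/
def PrtStmt : Prop :=
  ∀ (g w Z1 Z k : ℕ) (B : Finset ℕ), 100 ≤ g → g ^ 5 ≤ w → w ≤ Z1 → Z1 ≤ Z → B ⊆ pr w Z → k ≤ 2 * g →
    Th g w Z1 ≤ 1 / 4 → 10 * (g : ℝ) * ((B.card : ℝ) + g) ≤ w →
    (∏ p ∈ pr w Z \ B, (1 - (4 : ℝ) / p)) *
        (1 - ∏ p ∈ pr w Z1 \ B, (1 - 1 / ((p : ℝ) - 4))) ^ k * ∏ p ∈ B, (1 + 8 * (g : ℝ) / p) ≤
      (1 + 20 * (g : ℝ) * ((B.card : ℝ) + g) / w) * ((Vk 2 w Z) ^ 2 * (1 - Th g w Z1) ^ k)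

/-- the event: n, n+g are avoided by all primes in (w, Z], all members of T are hit by primes in (w, Z1] -/
def Ev (g w Z1 Z n : ℕ) (T : Finset ℕ) (a : ℕ → ℕ) : Prop :=
  Av (pr w Z) {n, n + g} a ∧ Ht (pr w Z1) T a

/-- Module Lrg (theorem tLrg; the large primes). Uses: Up, Lo, Spl, Bad, Che, Prt.
Proof. Q = pr w Z1, Q' = pr Z1 Z, Q ∪ Q' = pr w Z. All p > w ≥ g^5 > 2g. (1) Lower bound: F = {n, n+g} (card 2), T n in (n, n+g): Inj (F ∪ T n) p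
(differences ≤ g < p), 1/(p - 2) ≤ q0 := 1/(w-1), K = g, T n has at most g members; Spl (B = ∅) and Lo: p n := E (ind (Ev ..)) ≥
Vk 2 w Z (1 - Θ)^(card (T n)) (Vk 2 w Z1 * Vk 2 Z1 Z = Vk 2 w Z) ≥ Vk 2 w Z (1 - Θ)^k0 =: π0; so ∑ p n ≥ card M π0 ≥ g² > 0. (2) Pairs n ≠ n': B = bad w Z g n n'
(card ≤ (2g+1) log(2X)/log w ≤ (2g+1) g/log w ≤ g² as log w ≥ 20), G = Q \ B, F = {n,n+g,n',n'+g} (card 4, the intervals are disjoint), T = T n ∪ T n'. For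
p not in B: Inj (F ∪ T) p; for p in B every class has at most one element of each interval. The product of 1 - 1/(p-4) over G is ≤ 1/2: it is
≤ Θ ∏_{B} (1 - 1/(p-2))^(-1) ≤ (1/4) exp (2 g²/w) ≤ 1/2. Spl and Up (Q = G ∪ (Q ∩ B), disjoint): E (ind (Ev n ∧ Ev n')) ≤ left side of Prt with k = card T n + card T n'
(card T = that; 4 card T ≤ 8 g; the factors for p in B \ Q are ≥ 1) ≤ (1 + ρ) (Vk 2 w Z)² (1 - Θ)^k ≤ (1 + ρ) p n p n',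
ρ = 20 g (g² + g)/w·≤ 30 g³/w ≤ 30/g² (monotone in card B; condition 10 g (g² + g) ≤ w holds). (3) Che: ≤ 1/g² + 30/g². -/
def LrgStmt : Prop :=
  ∀ (g w Z1 Z X : ℕ) (M : Finset ℕ) (T : ℕ → Finset ℕ) (k0 : ℝ), 100 ≤ g → g ^ 5 ≤ w → w ≤ Z1 →
    Z1 ≤ Z → g ≤ X → (∀ n ∈ M, n ≤ X ∧ T n ⊆ Ioo n (n + g) ∧ ((T n).card : ℝ) ≤ k0) →
    (∀ n ∈ M, ∀ n' ∈ M, n ≠ n' → n + 2 * g < n' ∨ n' + 2 * g < n) → Real.log (2 * X) ≤ g →
    Th g w Z1 ≤ 1 / 4 → (g : ℝ) ^ 2 ≤ M.card * (Vk 2 w Z * (1 - Th g w Z1) ^ k0) →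
    E (pr w Z) (fun a => ind (∀ n ∈ M, ¬ Ev g w Z1 Z n (T n) a)) ≤ 200 / (g : ℝ) ^ 2

/-! ### Part 5: parameters and assembly -/

/-- the condition on the function z of the random sieve -/
def ZFun (z : ℕ → ℕ) : Prop :=
  Monotone z ∧ Tendsto (fun n : ℕ => Vk 1 0 (z n) * Real.log n) atTop (𝓝 1)

/-- x -/
noncomputable def xx (c : ℝ) (g : ℕ) : ℕ := ⌊Real.exp (c * √(g : ℝ))⌋₊

/-- y -/
noncomputable def yy (η : ℝ) (g : ℕ) : ℕ := ⌊η * √(g : ℝ)⌋₊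

/-- the length N of the progression -/
noncomputable def NN (c η : ℝ) (g : ℕ) : ℕ := (xx c g / 2 - g) / primorial (yy η g)

/-- Module NumA (theorem tNumA). Uses: nothing.
Proof. s = √g → ∞. η s - 1 < y ≤ η s, so y → ∞, y ≤ g, g = s² ≤ (2/η²) y² (y ≥ η s/√2 for large s), g ≤ y³, y ≤ g^5, g^5 ≤ y^12 (y^12 ≥ (η s/2)^12
= (η/2)^12 g^6). x ≥ exp (c s) - 1; primorial y ≤ 4^y (primorial_le_4_pow) ≤ exp (1.4 η s); x/2 - g ≥ exp (c s)/4, so N ≥ exp (c s - 1.4 η s)/4 - 1 ≥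
exp ((c - 2η) s) for large s, c - 2η ≥ 3/10; so N ≥ g^(5R), x ≥ g. log (2x) ≤ log 2 + c s ≤ g. primorial y > 2g: by Bertrand's postulate (Nat.exists_prime_lt_and_le_two_mul) there are
primes p1 in (y/8, y/4], p2 in (y/4, y/2], p3 in (y/2, y] roughly, distinct, so primorial y ≥ c y³ > 2g for large y (or any other proof). -/
def NumAStmt : Prop :=
  ∀ c η : ℝ, 1 / 2 ≤ c → c ≤ 1 → 0 < η → η ≤ 1 / 10 → ∀ R y0 : ℕ, ∃ g0 : ℕ, ∀ g : ℕ, g0 ≤ g →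
    100 ≤ g ∧ y0 ≤ yy η g ∧ yy η g ≤ g ∧ (g : ℝ) ≤ 2 / η ^ 2 * (yy η g : ℝ) ^ 2 ∧ g ≤ (yy η g) ^ 3 ∧
    yy η g ≤ g ^ 5 ∧ g ^ 5 ≤ (yy η g) ^ 12 ∧ (g ^ 5) ^ R ≤ NN c η g ∧
    Real.exp ((c - 2 * η) * √(g : ℝ)) ≤ NN c η g ∧ 2 * g < primorial (yy η g) ∧ g ≤ xx c g ∧
    Real.log (2 * (xx c g : ℝ)) ≤ g

/-- Module NumB (theorem tNumB). Uses: Mtc.
Proof. w = g^5, x = xx c g, y = yy η g, Z1 = z (x/2), Z = z x; x/2 → ∞ and log (x/2) = (1 + o(1)) c √g, the same for log x. Z1 ≤ Z: z is monotone.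
Vk 1 0 Z1 = (1 + o(1))/(c √g) → 0, while Vk 1 0 w ≥ c1/log w = c1/(5 log g) (Mtc) is much larger: so w ≤ Z1 (Vk 1 0 is nonincreasing), and
Vk 1 w Z1 = Vk 1 0 Z1/Vk 1 0 w (pr_union, prod_union; all factors > 0) ≤ C log g/√g → 0. ((1 - 1/(w-1))⁻¹)^g → 1 (g/(w-1) → 0), 1 - 1/(p-2) ≤ 1 - 1/p, so
Th ≤ (1 + o(1)) Vk 1 w Z1 → 0. Vk 2 w Z ≥ (Vk 1 0 Z)^3 ≥ (1/(2 √g))^3 ≥ 1/g^4 (1 - 2/p ≥ (1 - 1/p)^3 for p ≥ 3; c ≤ 1). Last inequality: Th * Vk 1 y w ≤ (1 + o(1)) Vk 1 y Z1 =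
(1 + o(1)) Vk 1 0 Z1/Vk 1 0 y = (1 + o(1)) (1/(c √g)) e^γ log y (Mtc; y → ∞) and log y ≤ (1/2) log g (η ≤ 1); multiply by g/log g. -/
def NumBStmt : Prop :=
  ∀ (c η δ : ℝ) (z : ℕ → ℕ), 1 / 2 ≤ c → c ≤ 1 → 0 < η → η ≤ 1 / 10 → 0 < δ → ZFun z →
    ∃ g0 : ℕ, ∀ g : ℕ, g0 ≤ g →
      g ^ 5 ≤ z (xx c g / 2) ∧ z (xx c g / 2) ≤ z (xx c g) ∧
      1 / (g : ℝ) ^ 4 ≤ Vk 2 (g ^ 5) (z (xx c g)) ∧ 0 ≤ Th g (g ^ 5) (z (xx c g / 2)) ∧
      Th g (g ^ 5) (z (xx c g / 2)) ≤ δ ∧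
      Th g (g ^ 5) (z (xx c g / 2)) * (Vk 1 (yy η g) (g ^ 5) * (g / Real.log g)) ≤
        (1 + δ) * (Real.exp Real.eulerMascheroniConstant / (2 * c) * √(g : ℝ))

/-- Module NumC (theorem tNumC). Uses: NumA, NumB.
Proof. K = e^γ/(2c) < c (c² > e^γ/2; c > 1/2 as e^γ > 1). Choose η ≤ 1/10, δ ≤ 1/4 with c - 2η ≥ (1 + δ)^4 K + η. NumA (R, y0), NumB (δ). With Th ≤ δ ≤ 1/4:
1 - t ≥ exp (-t - t²) ≥ exp (-(1+δ) t) for 0 ≤ t ≤ δ ≤ 1/4 (e.g. from Real.one_sub_inv_le_log_of_pos: log (1-t) ≥ -t/(1-t), use t ≤ δ' = δ/(1+δ) instead), so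
(1 - Th)^k0 ≥ exp (-(1+δ) Th k0), Th k0 = (1+δ)² Th (g/log g) Vk 1 y w ≤ (1+δ)³ K √g. So the right side is ≥ c' exp ((c - 2η) √g) g^(-4) exp (-(1+δ)^4 K √g) ≥
c' g^(-4) exp (η √g) ≥ g² for large g. -/
def NumCStmt : Prop :=
  ∀ (c : ℝ) (z : ℕ → ℕ), √(Real.exp Real.eulerMascheroniConstant / 2) < c → c ≤ 1 → ZFun z →
    ∃ η δ : ℝ, 0 < η ∧ 0 < δ ∧ δ ≤ 1 / 4 ∧ ∀ (c' : ℝ) (R y0 : ℕ), 0 < c' → ∃ g0 : ℕ, ∀ g : ℕ, g0 ≤ g →
      100 ≤ g ∧ y0 ≤ yy η g ∧ yy η g ≤ g ∧ (g : ℝ) ≤ 2 / η ^ 2 * (yy η g : ℝ) ^ 2 ∧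
      g ≤ (yy η g) ^ 3 ∧ yy η g ≤ g ^ 5 ∧ g ^ 5 ≤ (yy η g) ^ 12 ∧ (g ^ 5) ^ R ≤ NN c η g ∧
      2 * g < primorial (yy η g) ∧ g ≤ xx c g ∧ Real.log (2 * (xx c g : ℝ)) ≤ g ∧
      g ^ 5 ≤ z (xx c g / 2) ∧ z (xx c g / 2) ≤ z (xx c g) ∧
      Th g (g ^ 5) (z (xx c g / 2)) ≤ 1 / 4 ∧
      (g : ℝ) ^ 2 ≤ c' * NN c η g * (Vk 2 (g ^ 5) (z (xx c g)) *
        (1 - Th g (g ^ 5) (z (xx c g / 2))) ^
          ((1 + δ) * ((1 + δ) * (g / Real.log g) * Vk 1 (yy η g) (g ^ 5))))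

/-- the event: some n with x/2 < n, n + g ≤ x such that n and n + g are not hit by the primes up to Z and all
integers between them are hit by primes up to Z1 -/
def Good (x g Z1 Z : ℕ) (a : ℕ → ℕ) : Prop :=
  ∃ n : ℕ, x / 2 < n ∧ n + g ≤ x ∧ Av (pr 0 Z) {n, n + g} a ∧
    ∀ j ∈ Ioo 0 g, ∃ p ∈ pr 0 Z1, (n + j) % p = a p

/-- Module Mf (theorem tMf; all primes). Uses: Sml, Med, Lrg, NumC.
Proof. η, δ from NumC (c, z); Sml with δ, C1 = 2/η² (≥ 1 as η ≤ 1 — if not, use max 1); Med with δ: c', R, y0; NumC with c', R, y0: g0. g ≥ all bounds. Write x, y = yy η g,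
w = g^5, Z1 = z (x/2), Z = z x, D = primorial y, N = NN c η g. pr 0 Z = pr 0 w ∪ pr w Z (pr_union, E_union). Fix the classes a for the p ≤ w (Box, so a p < p) and let b be
the classes for pr w Z. Sml: β, S. n0 = the least integer > x/2 with n0 = β mod D, n0 ≤ x/2 + D. For t < N: n = n0 + D t = β mod D, n + g ≤ x/2 + D N + g ≤ x. Med (pr y w
is coprime to D: the primes dividing primorial y are ≤ y): M = the image of the good t (injective, D > 0), card M ≥ c' N. T n = {n + j : j ∈ S, (n+j) % p ≠ a p for p in pr y w}, card T n ≤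
k0 := (1+δ)(1+δ)(g/log g) Vk 1 y w. If Ev g w Z1 Z n (T n) b for an n ∈ M, then Good for the combined classes: n, n+g are not hit by p ≤ y (Sml), y < p ≤ w (Med), w < p ≤ Z
(Ev); n + j is hit by a p ≤ y if j is not in S, by a p in (y, w] or (T n) by a p in (w, Z1] if j ∈ S. So ind (¬ Good) ≤ ind (∀ n ∈ M, ¬ Ev ..), and Lrg (X = x; different members of M
differ by at least D > 2g; M.card ≥ c' N and NumC) gives E (pr w Z) ≤ 200/g². Then E_le and E_const over pr 0 w. -/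
def MfStmt : Prop :=
  ∀ (c : ℝ) (z : ℕ → ℕ), √(Real.exp Real.eulerMascheroniConstant / 2) < c → c ≤ 1 → ZFun z →
    ∃ g0 : ℕ, ∀ g : ℕ, g0 ≤ g → Even g →
      E (pr 0 (z (xx c g))) (fun a => ind (¬ Good (xx c g) g (z (xx c g / 2)) (z (xx c g)) a)) ≤
        200 / (g : ℝ) ^ 2

open MeasureTheory Pool.Agent.Results.MP_9a4459_nt in
/-- Module Msr (theorem tMsr.{u} : MsrStmt.{u}; from means to probabilities). Uses: nothing.
Proof. Induction on Q (for all Φ). Q = ∅: Φ does not depend on a at all. insert p Q: the event is the disjoint union over r < p (a.s.; the p values have total probability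
p (1/p) = 1) of {a p = r} ∩ {Φ (update .. p r)}; the second event depends only on the coordinates in Q, hence is independent of a p
(iIndepFun.indepFun_finset or iIndepFun.indepFun_prodMk.. for the disjoint sets {p} and Q); E_insert. -/
def MsrStmt.{u} : Prop :=
  ∀ (Ω : Type u) (_ : MeasurableSpace Ω) (P : Measure Ω) (_ : IsProbabilityMeasure P) (a : ℕ → Ω → ℕ),
    UniformClasses P a → ∀ (Q : Finset ℕ) (Φ : (ℕ → ℕ) → Prop), (∀ p ∈ Q, p.Prime) →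
      (∀ a b : ℕ → ℕ, (∀ p ∈ Q, a p = b p) → (Φ a ↔ Φ b)) →
      P {ω | Φ (fun p => a p ω)} = ENNReal.ofReal (E Q (fun a => ind (Φ a)))

open MeasureTheory Pool.Agent.Results.MP_9a4459_nt in
/-- Module Fin (theorem tFin.{u} (h1 : MfStmt) (h2 : MsrStmt.{u}) : FinStmt.{u}; the theorem). Uses: Mf, Msr.
Proof. e^γ/2 < 1 because γ < 2/3 (Real.eulerMascheroniConstant_lt_two_thirds) and exp (2/3) < 2. The hypothesis on z is ZFun z (Icc 1 z = Ioc 0 z). It is enough to treat c = c_k ≤ 1, c_k decreasing to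
κ = √(e^γ/2) (rational c in (κ, 1], countably many), in the form log (m + g) ≤ c √g. Fix c. For even g the event B_g = {¬ Good (x) g Z1 Z (a · ω)} depends on the primes in pr 0 Z only, so P(B_g) =
ENNReal.ofReal (E ..) ≤ 200/g² for g ≥ g0 (Msr, Mf). Borel-Cantelli (measure_limsup_eq_zero / ae_eventually_notMem): a.s. Good holds for all large even g. Then n, n + g are consecutive elements of
Sieved z a: z n ≤ z x = Z, z (n+g) ≤ Z (monotone), 2 ≤ n, so both are in it; for 0 < j < g: n + j > x/2, z (n+j) ≥ z (x/2) = Z1, so it is hit by a prime ≤ z (n+j). n + g ≤ x ≤ exp (c √g). -/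
def FinStmt.{u} : Prop :=
  √(Real.exp Real.eulerMascheroniConstant / 2) < 1 ∧
  ∀ (Ω : Type u) (_ : MeasurableSpace Ω) (P : Measure Ω) (_ : IsProbabilityMeasure P) (a : ℕ → Ω → ℕ)
    (z : ℕ → ℕ), UniformClasses P a → Monotone z →
    Tendsto (fun n : ℕ => (∏ p ∈ (Icc 1 (z n)).filter Nat.Prime, (1 - 1 / (p : ℝ))) * Real.log n)
      atTop (𝓝 1) →
    ∀ᵐ ω ∂P, ∀ c : ℝ, √(Real.exp Real.eulerMascheroniConstant / 2) < c →
      ∃ G : ℕ, ∀ g : ℕ, G ≤ g → Even g →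
        ∃ m : ℕ, Consec (Sieved z (fun p => a p ω)) m (m + g) ∧
          Real.log ((m : ℝ) + g) < c * √(g : ℝ)

end Pool.Agent.Lib.SHK
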