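import Mathlib

/-!
MP_9a4459_nt, directory Lib/SHK: the mean value over finitely many independent uniform residue classes.
`EL l F`: the mean of F(a) over all a with a p < p for p in the list l and a p = 0 otherwise.
`E Q F`: the same for a finite set Q.
-/

set_option autoImplicit false

namespace Pool.Agent.Lib.SHK

open Finset

/-- the mean over the classes modulo the members of a list -/
noncomputable def EL : List ℕ → ((ℕ → ℕ) → ℝ) → ℝ
  | [], F => F (fun _ => 0)
  | p :: l, F => (∑ r ∈ range p, EL l (fun a => F (Function.update a p r))) / p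

theorem EL_nil (F : (ℕ → ℕ) → ℝ) : EL [] F = F (fun _ => 0) := rfl

theorem EL_cons (p : ℕ) (l : List ℕ) (F : (ℕ → ℕ) → ℝ) :
    EL (p :: l) F = (∑ r ∈ range p, EL l (fun a => F (Function.update a p r))) / p := rfl

theorem EL_perm {l l' : List ℕ} (h : l.Perm l') (hn : l.Nodup) : ∀ F, EL l F = EL l' F := by
  induction h with
  | nil => intro F; rfl
  | cons p _ ih =>
    intro F
    rw [EL_cons, EL_cons]
    congr 1
    refine sum_congr rfl fun r _ => ih (List.nodup_cons.1 hn).2 _
  | swap p q l =>
    intro F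
    have hpq : q ≠ p := by
      intro h
      subst h
      simp at hn
    simp only [EL_cons]
    rw [sum_div, sum_div]
    simp only [sum_div]
    rw [sum_comm]
    refine sum_congr rfl fun r _ => sum_congr rfl fun s _ => ?_
    rw [div_div, div_div, mul_comm (p : ℝ)]
    congr 1
    refine congrArg (EL l) (funext fun a => ?_)
    rw [Function.update_comm hpq]
  | trans h1 _ ih1 ih2 =>
    intro F
    rw [ih1 hn, ih2 (h1.nodup_iff.1 hn)]

/-- the mean over the classes modulo the members of a finite set -/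
noncomputable def E (Q : Finset ℕ) (F : (ℕ → ℕ) → ℝ) : ℝ := EL Q.toList F

theorem E_empty (F : (ℕ → ℕ) → ℝ) : E ∅ F = F (fun _ => 0) := by
  simp [E, EL_nil]

theorem E_insert {p : ℕ} {Q : Finset ℕ} (hp : p ∉ Q) (F : (ℕ → ℕ) → ℝ) :
    E (insert p Q) F = (∑ r ∈ range p, E Q (fun a => F (Function.update a p r))) / p := by
  unfold E
  rw [EL_perm (Finset.toList_insert hp) (Finset.nodup_toList _), EL_cons]

/-- a is a system of residue classes for the members of Q, and 0 outside -/
def Box (Q : Finset ℕ) (a : ℕ → ℕ) : Prop := (∀ p ∈ Q, a p < p) ∧ ∀ p, p ∉ Q → a p = 0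

theorem Box_update {p : ℕ} {Q : Finset ℕ} {a : ℕ → ℕ} (hp : p ∉ Q) (ha : Box Q a) {r : ℕ}
    (hr : r < p) : Box (insert p Q) (Function.update a p r) := by
  constructor
  · intro q hq
    rcases mem_insert.1 hq with h | h
    · subst h
      simpa using hr
    · have : q ≠ p := fun he => hp (he ▸ h)
      rw [Function.update_of_ne this]
      exact ha.1 q h
  · intro q hq
    rw [mem_insert, not_or] at hq
    rw [Function.update_of_ne hq.1]
    exact ha.2 q hq.2

/-- monotonicity; only the values on the box matter -/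
theorem E_le {Q : Finset ℕ} {F G : (ℕ → ℕ) → ℝ} (h : ∀ a, Box Q a → F a ≤ G a) :
    E Q F ≤ E Q G := by
  induction Q using Finset.induction_on generalizing F G with
  | empty =>
    rw [E_empty, E_empty]
    exact h _ ⟨by simp, by simp⟩
  | insert p Q hp ih =>
    rw [E_insert hp, E_insert hp]
    refine div_le_div_of_nonneg_right (sum_le_sum fun r hr => ih fun a ha => ?_) (Nat.cast_nonneg p)
    exact h _ (Box_update hp ha (mem_range.1 hr))

theorem E_congr {Q : Finset ℕ} {F G : (ℕ → ℕ) → ℝ} (h : ∀ a, Box Q a → F a = G a) :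
    E Q F = E Q G :=
  le_antisymm (E_le fun a ha => (h a ha).le) (E_le fun a ha => (h a ha).ge)

theorem E_add (Q : Finset ℕ) (F G : (ℕ → ℕ) → ℝ) :
    E Q (fun a => F a + G a) = E Q F + E Q G := by
  induction Q using Finset.induction_on generalizing F G with
  | empty => simp [E_empty]
  | insert p Q hp ih =>
    rw [E_insert hp, E_insert hp, E_insert hp, ← add_div, ← sum_add_distrib]
    congr 1
    exact sum_congr rfl fun r _ => ih _ _

theorem E_const_mul (Q : Finset ℕ) (c : ℝ) (F : (ℕ → ℕ) → ℝ) :
    E Q (fun a => c * F a) = c * E Q F := by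
  induction Q using Finset.induction_on generalizing F with
  | empty => simp [E_empty]
  | insert p Q hp ih =>
    rw [E_insert hp, E_insert hp, mul_div_assoc', mul_sum]
    congr 1
    exact sum_congr rfl fun r _ => ih _

theorem E_zero (Q : Finset ℕ) : E Q (fun _ => 0) = 0 := by
  have := E_const_mul Q 0 (fun _ => 0)
  simpa using this

theorem E_sub (Q : Finset ℕ) (F G : (ℕ → ℕ) → ℝ) :
    E Q (fun a => F a - G a) = E Q F - E Q G := by
  have h1 := E_add Q F (fun a => (-1) * G a)
  rw [E_const_mul] at h1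
  have h2 : (fun a => F a - G a) = fun a => F a + (-1) * G a := by
    funext a
    ring
  rw [h2, h1]
  ring

theorem E_sum {ι : Type*} (Q : Finset ℕ) (s : Finset ι) (F : ι → (ℕ → ℕ) → ℝ) :
    E Q (fun a => ∑ i ∈ s, F i a) = ∑ i ∈ s, E Q (F i) := by
  classical
  induction s using Finset.induction_on with
  | empty => simpa using E_zero Q
  | insert i s hi ih =>
    rw [sum_insert hi, ← ih, ← E_add]
    congr 1
    funext a
    rw [sum_insert hi]

theorem E_nonneg {Q : Finset ℕ} {F : (ℕ → ℕ) → ℝ} (h : ∀ a, Box Q a → 0 ≤ F a) : 0 ≤ E Q F := by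
  rw [← E_zero Q]
  exact E_le h

theorem E_const {Q : Finset ℕ} (hQ : ∀ p ∈ Q, 0 < p) (c : ℝ) : E Q (fun _ => c) = c := by
  induction Q using Finset.induction_on with
  | empty => rw [E_empty]
  | insert p Q hp ih =>
    have hp0 : (p : ℝ) ≠ 0 := by
      have := hQ p (mem_insert_self p Q)
      positivity
    rw [E_insert hp]
    simp only [ih fun q hq => hQ q (mem_insert_of_mem hq)]
    rw [sum_const, card_range, nsmul_eq_mul]
    field_simp

/-- Fubini -/
theorem E_union {Q R : Finset ℕ} (h : Disjoint Q R) (F : (ℕ → ℕ) → ℝ) :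
    E (Q ∪ R) F = E Q (fun a => E R (fun b => F (fun p => if p ∈ Q then a p else b p))) := by
  induction Q using Finset.induction_on generalizing F with
  | empty => simp [E_empty]
  | insert p Q hp ih =>
    rw [disjoint_insert_left] at h
    have hp' : p ∉ Q ∪ R := by
      rw [mem_union, not_or]
      exact ⟨hp, h.1⟩
    rw [insert_union, E_insert hp', E_insert hp]
    congr 1
    refine sum_congr rfl fun r _ => ?_
    rw [ih h.2]
    refine congrArg (E Q) (funext fun a => congrArg (E R) (funext fun b => congrArg F ?_))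
    funext q
    by_cases hq : q = p
    · subst hq
      simp
    · rw [Function.update_of_ne hq]
      by_cases hq2 : q ∈ Q
      · simp [hq2, Function.update_of_ne hq]
      · have : q ∉ insert p Q := by
          rw [mem_insert, not_or]
          exact ⟨hq, hq2⟩
        simp [hq2, this]

/-- independence -/
theorem E_mul {Q R : Finset ℕ} (h : Disjoint Q R) (F G : (ℕ → ℕ) → ℝ)
    (hF : ∀ a b, (∀ p ∈ Q, a p = b p) → F a = F b)
    (hG : ∀ a b, (∀ p ∈ R, a p = b p) → G a = G b) :
    E (Q ∪ R) (fun a => F a * G a) = E Q F * E R G := by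
  rw [E_union h]
  have h1 : ∀ a : ℕ → ℕ, E R (fun b => F (fun p => if p ∈ Q then a p else b p) *
      G (fun p => if p ∈ Q then a p else b p)) = E R G * F a := by
    intro a
    rw [mul_comm, ← E_const_mul]
    congr 1
    funext b
    congr 1
    · refine hF _ _ fun p hp => ?_
      simp [hp]
    · refine hG _ _ fun p hp => ?_
      have : p ∉ Q := fun hq => (disjoint_left.1 h) hq hp
      simp [this]
  simp only [h1]
  rw [E_const_mul, mul_comm]

/-! ### indicators -/

/-- 1 if s holds, 0 otherwise -/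
noncomputable def ind (s : Prop) : ℝ := by
  classical exact if s then 1 else 0

theorem ind_pos {s : Prop} (h : s) : ind s = 1 := by
  simp [ind, h]

theorem ind_neg {s : Prop} (h : ¬ s) : ind s = 0 := by
  simp [ind, h]

theorem ind_nonneg (s : Prop) : 0 ≤ ind s := by
  by_cases h : s
  · rw [ind_pos h]; exact zero_le_one
  · rw [ind_neg h]

theorem ind_le_one (s : Prop) : ind s ≤ 1 := by
  by_cases h : s
  · rw [ind_pos h]
  · rw [ind_neg h]; exact zero_le_one

theorem ind_mono {s t : Prop} (h : s → t) : ind s ≤ ind t := by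
  by_cases hs : s
  · rw [ind_pos hs, ind_pos (h hs)]
  · rw [ind_neg hs]; exact ind_nonneg t

theorem ind_congr {s t : Prop} (h : s ↔ t) : ind s = ind t :=
  le_antisymm (ind_mono h.1) (ind_mono h.2)

theorem ind_and (s t : Prop) : ind (s ∧ t) = ind s * ind t := by
  by_cases hs : s
  · by_cases ht : t
    · rw [ind_pos hs, ind_pos ht, ind_pos ⟨hs, ht⟩, one_mul]
    · rw [ind_neg ht, ind_neg (fun h => ht h.2), mul_zero]
  · rw [ind_neg hs, ind_neg (fun h => hs h.1), zero_mul]

theorem ind_not (s : Prop) : ind (¬ s) = 1 - ind s := by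
  by_cases hs : s
  · rw [ind_pos hs, ind_neg (not_not.2 hs), sub_self]
  · rw [ind_neg hs, ind_pos hs, sub_zero]

/-! ### the events -/

/-- the primes in (x, y] -/
def pr (x y : ℕ) : Finset ℕ := (Ioc x y).filter Nat.Prime

theorem mem_pr {x y p : ℕ} : p ∈ pr x y ↔ x < p ∧ p ≤ y ∧ p.Prime := by
  simp [pr, and_assoc]

theorem pr_pos {x y p : ℕ} (h : p ∈ pr x y) : 0 < p := (mem_pr.1 h).2.2.pos

theorem pr_union {x y z : ℕ} (h : x ≤ y) (h' : y ≤ z) : pr x y ∪ pr y z = pr x z := by
  ext p
  rw [mem_union, mem_pr, mem_pr, mem_pr]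
  constructor
  · rintro (⟨a, b, c⟩ | ⟨a, b, c⟩)
    · exact ⟨a, b.trans h', c⟩
    · exact ⟨lt_of_le_of_lt h a, b, c⟩
  · rintro ⟨a, b, c⟩
    rcases le_or_gt p y with hp | hp
    · exact Or.inl ⟨a, hp, c⟩
    · exact Or.inr ⟨hp, b, c⟩

theorem pr_disjoint (x y z : ℕ) : Disjoint (pr x y) (pr y z) := by
  rw [disjoint_left]
  intro p h1 h2
  have h3 := (mem_pr.1 h1).2.1
  have h4 := (mem_pr.1 h2).1
  omega

/-- the product of 1 - k/p over the primes in (x, y] -/
noncomputable def Vk (k x y : ℕ) : ℝ := ∏ p ∈ pr x y, (1 - (k : ℝ) / p)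

/-- the members of F are not hit by the classes a p, p in Q -/
def Av (Q F : Finset ℕ) (a : ℕ → ℕ) : Prop := ∀ p ∈ Q, ∀ f ∈ F, f % p ≠ a p

/-- all members of T are hit by the classes a p, p in Q -/
def Ht (Q T : Finset ℕ) (a : ℕ → ℕ) : Prop := ∀ t ∈ T, ∃ p ∈ Q, t % p = a p

/-- the probability that F is avoided and T is hit by the primes in Q -/
noncomputable def pe (Q F T : Finset ℕ) : ℝ := E Q (fun a => ind (Av Q F a ∧ Ht Q T a))

/-- the members of A lie in different classes mod p -/
def Inj (A : Finset ℕ) (p : ℕ) : Prop := ∀ s ∈ A, ∀ t ∈ A, s % p = t % p → s = t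

end Pool.Agent.Lib.SHK
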