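import Pool.Agent.Lib.SHK.Spec

/-! MP_9a4459_nt, SHK, module Nv (helper69): the model exists. -/

set_option autoImplicit false

namespace Pool.Agent.Lib.SHK

open Finset Filter Topology
open scoped Classical

open MeasureTheory ProbabilityTheory Pool.Agent.Results.MP_9a4459_nt in
/-- independent, uniformly distributed classes exist -/
theorem nvP : ∃ (Ω : Type) (_ : MeasurableSpace Ω) (P : Measure Ω) (_ : IsProbabilityMeasure P)
    (a : ℕ → Ω → ℕ), UniformClasses P a := by
  have hpr : ∀ p : ℕ, IsProbabilityMeasure (uniformOn ((range (p + 1) : Finset ℕ) : Set ℕ)) := by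
    intro p
    exact isProbabilityMeasure_uniformOn (Finset.finite_toSet _) ⟨0, by simp⟩
  obtain ⟨Ω, mΩ, P, a, h1, h2, h3, h4⟩ := exists_hasLaw_indepFun (fun _ : ℕ => ℕ)
    (fun p : ℕ => uniformOn ((range (p - 1 + 1) : Finset ℕ) : Set ℕ))
  refine ⟨Ω, mΩ, P, h4, a, ⟨h1, h3, ?_⟩⟩
  intro p hp r hr
  have e : p - 1 + 1 = p := Nat.succ_pred_eq_of_pos hp.pos
  have h5 : P {ω | a p ω = r} = (P.map (a p)) {r} := by
    rw [Measure.map_apply (h1 p) (measurableSet_singleton r)]
    rfl
  rw [h5, (h2 p).map_eq, e]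
  have h6 := uniformOn_apply_finset (s := range p) (t := {r})
  rw [Finset.coe_singleton] at h6
  rw [h6]
  have h7 : range p ∩ {r} = {r} := by
    ext x
    simp only [mem_inter, mem_range, mem_singleton]
    constructor
    · exact fun h => h.2
    · rintro rfl
      exact ⟨hr, rfl⟩
  rw [h7, card_singleton, card_range, ENNReal.ofReal_div_of_pos (by exact_mod_cast hp.pos),
    ENNReal.ofReal_one, ENNReal.ofReal_natCast, Nat.cast_one]

/-- the product over the primes up to k -/
noncomputable def VM (k : ℕ) : ℝ := ∏ p ∈ (Icc 1 k).filter Nat.Prime, (1 - 1 / (p : ℝ))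

theorem VM_pos (k : ℕ) : 0 < VM k := by
  unfold VM
  refine prod_pos fun p hp => ?_
  have h := (mem_filter.1 hp).2
  have h2 : (1 : ℝ) < p := by exact_mod_cast h.one_lt
  have : 1 / (p : ℝ) < 1 := by rw [div_lt_one (by linarith)]; exact h2
  linarith

theorem VM_succ (k : ℕ) : (1 - 1 / ((k : ℝ) + 1)) * VM k ≤ VM (k + 1) ∧ VM (k + 1) ≤ VM k := by
  have hk := VM_pos k
  have h0 : (0 : ℝ) ≤ 1 / ((k : ℝ) + 1) := by positivity
  by_cases hp : (k + 1).Prime
  · have e : VM (k + 1) = (1 - 1 / ((k : ℝ) + 1)) * VM k := by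
      unfold VM
      have : (Icc 1 (k + 1)).filter Nat.Prime = insert (k + 1) ((Icc 1 k).filter Nat.Prime) := by
        ext x
        simp only [mem_filter, mem_Icc, mem_insert]
        constructor
        · rintro ⟨⟨a, b⟩, c⟩
          by_cases h : x = k + 1
          · exact Or.inl h
          · exact Or.inr ⟨⟨a, by omega⟩, c⟩
        · rintro (h | ⟨⟨a, b⟩, c⟩)
          · subst h; exact ⟨⟨by omega, le_rfl⟩, hp⟩
          · exact ⟨⟨a, by omega⟩, c⟩
      rw [this, prod_insert (by simp)]
      push_cast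
      ring
    refine ⟨e.ge, ?_⟩
    rw [e]
    nlinarith
  · have e : VM (k + 1) = VM k := by
      unfold VM
      congr 1
      ext x
      simp only [mem_filter, mem_Icc]
      constructor
      · rintro ⟨⟨a, b⟩, c⟩
        have : x ≠ k + 1 := fun h => hp (h ▸ c)
        exact ⟨⟨a, by omega⟩, c⟩
      · rintro ⟨⟨a, b⟩, c⟩
        exact ⟨⟨a, by omega⟩, c⟩
    rw [e]
    exact ⟨by nlinarith, le_rfl⟩

theorem VM_anti : Antitone VM := antitone_nat_of_succ_le fun k => (VM_succ k).2

theorem VM_tend (h : MerStmt) : Tendsto VM atTop (𝓝 0) := by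
  obtain ⟨c, hc, h⟩ := h
  have hlog : Tendsto (fun z : ℕ => Real.log z) atTop atTop :=
    Real.tendsto_log_atTop.comp tendsto_natCast_atTop_atTop
  have h1 := h.mul hlog.inv_tendsto_atTop
  rw [mul_zero] at h1
  refine h1.congr' ?_
  filter_upwards [eventually_ge_atTop 2] with k hk
  have : Real.log k ≠ 0 := (Real.log_pos (by exact_mod_cast (by omega : 1 < k))).ne'
  show VM k * Real.log k * (Real.log k)⁻¹ = VM k
  field_simp

/-- the choice of Banks, Ford and Tao -/
noncomputable def zB (n : ℕ) : ℕ := sSup {k : ℕ | 1 / Real.log n ≤ VM k}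

theorem zB_bdd (h : MerStmt) {n : ℕ} (hn : 2 ≤ n) : BddAbove {k : ℕ | 1 / Real.log n ≤ VM k} := by
  have hL : 0 < Real.log n := Real.log_pos (by exact_mod_cast (by omega : 1 < n))
  have h1 := (VM_tend h).eventually (gt_mem_nhds (show (0 : ℝ) < 1 / Real.log n by positivity))
  obtain ⟨K, hK⟩ := eventually_atTop.1 h1
  refine ⟨K, fun k hk => ?_⟩
  by_contra hlt
  exact absurd (hK k (by omega)) (not_lt.2 hk)

theorem zB_small {n : ℕ} (hn : n < 3) : zB n = 0 := by
  have h1 : ∀ m : ℕ, m ≤ 1 → zB m = 0 := by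
    intro m hm
    unfold zB
    have : ({k : ℕ | 1 / Real.log m ≤ VM k} : Set ℕ) = Set.univ := by
      ext k
      simp only [Set.mem_setOf_eq, Set.mem_univ, iff_true]
      have : Real.log m = 0 := by
        interval_cases m <;> simp
      rw [this, div_zero]
      exact (VM_pos k).le
    rw [this]
    exact Nat.sSup_of_not_bddAbove (by
      intro hb
      obtain ⟨K, hK⟩ := hb
      exact absurd (hK (Set.mem_univ (K + 1))) (by omega))
  by_cases h : n ≤ 1
  · exact h1 n h
  · have e : n = 2 := by omega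
    subst e
    unfold zB
    have hl : Real.log ((2 : ℕ) : ℝ) < 1 := by
      have := Real.log_two_lt_d9
      push_cast
      linarith
    have hl0 : 0 < Real.log ((2 : ℕ) : ℝ) := Real.log_pos (by norm_num)
    have : ({k : ℕ | 1 / Real.log ((2 : ℕ) : ℝ) ≤ VM k} : Set ℕ) = ∅ := by
      ext k
      simp only [Set.mem_setOf_eq, Set.mem_empty_iff_false, iff_false, not_le]
      have h2 : VM k ≤ VM 0 := VM_anti (Nat.zero_le k)
      have h3 : VM 0 = 1 := by simp [VM]
      have h4 : 1 < 1 / Real.log ((2 : ℕ) : ℝ) := by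
        rw [lt_div_iff₀ hl0]; linarith
      linarith
    rw [this]
    simp

theorem zB_mono (h : MerStmt) : Monotone zB := by
  intro m n hmn
  by_cases hm : m < 3
  · rw [zB_small hm]; exact Nat.zero_le _
  · unfold zB
    refine csSup_le_csSup (zB_bdd h (by omega)) ⟨0, ?_⟩ ?_
    · show 1 / Real.log m ≤ VM 0
      have h3 : VM 0 = 1 := by simp [VM]
      rw [h3]
      have h4 : (1 : ℝ) ≤ Real.log m := by
        rw [Real.le_log_iff_exp_le (by exact_mod_cast (by omega : 0 < m))]
        have : Real.exp 1 < 2.7182818286 := Real.exp_one_lt_d9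
        have h5 : (3 : ℝ) ≤ m := by exact_mod_cast (by omega : 3 ≤ m)
        linarith
      rw [div_le_one (by linarith)]
      exact h4
    · intro k hk
      have hk' : 1 / Real.log m ≤ VM k := hk
      refine le_trans ?_ hk'
      have h1 : 0 < Real.log m := Real.log_pos (by exact_mod_cast (by omega : 1 < m))
      exact one_div_le_one_div_of_le h1 (Real.log_le_log (by exact_mod_cast (by omega : 0 < m))
        (by exact_mod_cast hmn))

theorem zB_tend (h : MerStmt) : Tendsto (fun n : ℕ => VM (zB n) * Real.log n) atTop (𝓝 1) := by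
  have hlog : Tendsto (fun z : ℕ => Real.log z) atTop atTop :=
    Real.tendsto_log_atTop.comp tendsto_natCast_atTop_atTop
  -- `zB n → ∞`
  have hz : Tendsto zB atTop atTop := by
    refine tendsto_atTop.2 fun K => ?_
    have h1 := hlog.eventually_ge_atTop (1 / VM K)
    filter_upwards [h1, eventually_ge_atTop 3] with n hn hn3
    refine le_csSup (zB_bdd h (by omega)) ?_
    show 1 / Real.log n ≤ VM K
    have hL : 0 < Real.log n := Real.log_pos (by exact_mod_cast (by omega : 1 < n))
    rw [div_le_iff₀ (VM_pos K)] at hn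
    rw [div_le_iff₀ hL]
    linarith
  have hmem : ∀ n : ℕ, 3 ≤ n → 1 / Real.log n ≤ VM (zB n) ∧ VM (zB n + 1) < 1 / Real.log n := by
    intro n hn
    constructor
    · have : zB n ∈ {k : ℕ | 1 / Real.log n ≤ VM k} := by
        refine Nat.sSup_mem ⟨0, ?_⟩ (zB_bdd h (by omega))
        show 1 / Real.log n ≤ VM 0
        have h3 : VM 0 = 1 := by simp [VM]
        rw [h3]
        have h4 : (1 : ℝ) ≤ Real.log n := by
          rw [Real.le_log_iff_exp_le (by exact_mod_cast (by omega : 0 < n))]
          have : Real.exp 1 < 2.7182818286 := Real.exp_one_lt_d9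
          have h5 : (3 : ℝ) ≤ n := by exact_mod_cast hn
          linarith
        rw [div_le_one (by linarith)]
        exact h4
      exact this
    · by_contra hc
      have : zB n + 1 ≤ zB n := le_csSup (zB_bdd h (by omega)) (not_lt.1 hc)
      omega
  have hup : ∀ n : ℕ, 3 ≤ n → 1 ≤ VM (zB n) * Real.log n ∧
      VM (zB n) * Real.log n * (1 - 1 / ((zB n : ℝ) + 1)) ≤ 1 := by
    intro n hn
    have hL : 0 < Real.log n := Real.log_pos (by exact_mod_cast (by omega : 1 < n))
    obtain ⟨a, b⟩ := hmem n hn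
    constructor
    · rw [div_le_iff₀ hL] at a; exact a
    · have c := (VM_succ (zB n)).1
      have d := c.trans b.le
      rw [le_div_iff₀ hL] at d
      linarith [d]
  have hs : Tendsto (fun n : ℕ => 1 - 1 / ((zB n : ℝ) + 1)) atTop (𝓝 1) := by
    have h1 : Tendsto (fun n : ℕ => 1 / ((zB n : ℝ) + 1)) atTop (𝓝 0) :=
      tendsto_one_div_add_atTop_nhds_zero_nat.comp hz
    simpa using tendsto_const_nhds.sub h1
  have hinv : Tendsto (fun n : ℕ => (1 - 1 / ((zB n : ℝ) + 1))⁻¹) atTop (𝓝 1) := by
    simpa using hs.inv₀ one_ne_zero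
  refine tendsto_of_tendsto_of_tendsto_of_le_of_le' tendsto_const_nhds hinv ?_ ?_
  · filter_upwards [eventually_ge_atTop 3] with n hn using (hup n hn).1
  · have h2 := hs.eventually (lt_mem_nhds (show (0 : ℝ) < 1 by norm_num))
    filter_upwards [eventually_ge_atTop 3, h2] with n hn hp
    rw [← one_div, le_div_iff₀ hp]
    exact (hup n hn).2

end Pool.Agent.Lib.SHK
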