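import Pool.Agent.Lib.SHK.Spec
import Pool.Agent.Lib.MP_3ef1ab_nt.E.Pc

/-! MP_9a4459_nt, SHK, module Pi (helper69): the prime number theorem, upper bound. -/

set_option autoImplicit false

namespace Pool.Agent.Lib.SHK

open Finset Filter Topology
open scoped Classical

theorem tPi (h : Pool.Agent.Lib.BV.PntStmt) : PiStmt := by
  intro ε hε
  have h1 := (Pool.Agent.Lib.MP_3ef1ab_nt.tPc h).comp tendsto_natCast_atTop_atTop
  have h3 := h1.eventually (gt_mem_nhds (show (1 : ℝ) < 1 + ε by linarith))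
  obtain ⟨T0, hT0⟩ := eventually_atTop.1 h3
  refine ⟨max T0 2, fun t ht => ?_⟩
  have ht0 : T0 ≤ t := le_trans (le_max_left _ _) ht
  have ht2 : 2 ≤ t := le_trans (le_max_right _ _) ht
  have hT : (0 : ℝ) < t := by exact_mod_cast (by omega : 0 < t)
  have hL : 0 < Real.log t := Real.log_pos (by exact_mod_cast (by omega : 1 < t))
  have h4 := hT0 t ht0
  simp only [Function.comp_apply] at h4
  rw [div_lt_iff₀ hT] at h4
  have h5 : (pr 0 t).card = Pool.Agent.Lib.MP_3ef1ab_nt.ct Nat.Prime (t : ℝ) := by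
    unfold pr Pool.Agent.Lib.MP_3ef1ab_nt.ct
    rw [Nat.floor_natCast]
    congr 1
    ext p
    simp only [mem_filter, mem_Ioc, mem_Icc]
    constructor
    · rintro ⟨⟨a, b⟩, c⟩
      exact ⟨⟨by omega, b⟩, c⟩
    · rintro ⟨⟨a, b⟩, c⟩
      exact ⟨⟨by omega, b⟩, c⟩
  rw [h5, ← mul_div_assoc, le_div_iff₀ hL]
  exact h4.le

end Pool.Agent.Lib.SHK
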