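import Pool.Agent.Lib.SHK.Spec

/-!
MP_9a4459_nt, Lib/SHK, module Up: upper bound by recursion (helper28).
-/

set_option autoImplicit false

namespace Pool.Agent.Lib.SHK

open Finset Filter Topology
open scoped Classical

private theorem Up_pow (x d : ℝ) (hx : 0 ≤ x) (hd : 0 ≤ d) (k : ℕ) :
    x ^ (k + 1) + ((k : ℝ) + 1) * x ^ k * d ≤ (x + d) ^ (k + 1) := by
  induction k with
  | zero => simp
  | succ k ih =>
    have h1 : (x ^ (k + 1) + ((k : ℝ) + 1) * x ^ k * d) * (x + d) ≤ (x + d) ^ (k + 1) * (x + d) :=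
      mul_le_mul_of_nonneg_right ih (by positivity)
    have h2 : 0 ≤ ((k : ℝ) + 1) * x ^ k * d * d := by positivity
    have h3 : (x ^ (k + 1) + ((k : ℝ) + 1) * x ^ k * d) * (x + d) =
        x ^ (k + 1 + 1) + (((k + 1 : ℕ) : ℝ) + 1) * x ^ (k + 1) * d +
          ((k : ℝ) + 1) * x ^ k * d * d := by
      push_cast
      ring
    rw [pow_succ (x + d) (k + 1)]
    linarith

private theorem Up_fac (f p : ℕ) (h : f < p) :
    0 ≤ 1 - 1 / ((p : ℝ) - f) ∧ 1 - 1 / ((p : ℝ) - f) ≤ 1 := by
  have h1 : (1 : ℝ) ≤ (p : ℝ) - f := by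
    have : (f : ℝ) + 1 ≤ p := by exact_mod_cast h
    linarith
  have h2 : 0 < (p : ℝ) - f := by linarith
  constructor
  · have := (div_le_one h2).2 h1
    linarith
  · have : 0 ≤ 1 / ((p : ℝ) - f) := by positivity
    linarith

private theorem Up_fac2 (f p : ℕ) (h : f < p) : 0 ≤ 1 - (f : ℝ) / p := by
  have h0 : (0 : ℝ) < p := by
    have : 0 < p := by omega
    exact_mod_cast this
  have h1 : (f : ℝ) ≤ p := by exact_mod_cast h.le
  have := (div_le_one h0).2 h1
  linarith

private theorem Up_th (f : ℕ) (G : Finset ℕ) (hG : ∀ p ∈ G, f < p) :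
    0 ≤ ∏ p ∈ G, (1 - 1 / ((p : ℝ) - f)) ∧ ∏ p ∈ G, (1 - 1 / ((p : ℝ) - f)) ≤ 1 :=
  ⟨prod_nonneg fun p hp => (Up_fac f p (hG p hp)).1,
    prod_le_one (fun p hp => (Up_fac f p (hG p hp)).1) fun p hp => (Up_fac f p (hG p hp)).2⟩

private theorem Up_card (A : Finset ℕ) (p : ℕ) (hp : 0 < p) (h : Inj A p) : A.card ≤ p := by
  have h1 : A.card ≤ (range p).card := by
    refine card_le_card_of_injOn (fun s => s % p) ?_ ?_
    · intro s _
      exact mem_coe.2 (mem_range.2 (Nat.mod_lt _ hp))
    · intro s hs t ht hst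
      exact h s hs t ht hst
  simpa using h1

private theorem Up_step (f p k : ℕ) (P x : ℝ) (hfp : f < p) (hP : 0 ≤ P) (hx : 0 ≤ x)
    (hx1 : x ≤ 1) :
    (1 - ((f : ℝ) + (k + 1)) / p) * (P * x ^ (k + 1)) + ((k : ℝ) + 1) * (P * x ^ k) / p ≤
      (1 - (f : ℝ) / p) * P * (1 - (1 - 1 / ((p : ℝ) - f)) * (1 - x)) ^ (k + 1) := by
  have h0 : (0 : ℝ) < p := by
    have : 0 < p := by omega
    exact_mod_cast this
  have hm : (0 : ℝ) < (p : ℝ) - f := by
    have : (f : ℝ) < p := by exact_mod_cast hfp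
    linarith
  have hd : 0 ≤ (1 - x) / ((p : ℝ) - f) := div_nonneg (by linarith) hm.le
  have h1 := Up_pow x ((1 - x) / ((p : ℝ) - f)) hx hd k
  have h2 : 1 - (1 - 1 / ((p : ℝ) - f)) * (1 - x) = x + (1 - x) / ((p : ℝ) - f) := by
    field_simp
    ring
  rw [h2]
  have h3 : (1 - ((f : ℝ) + (k + 1)) / p) * (P * x ^ (k + 1)) + ((k : ℝ) + 1) * (P * x ^ k) / p =
      (1 - (f : ℝ) / p) * P *
        (x ^ (k + 1) + ((k : ℝ) + 1) * x ^ k * ((1 - x) / ((p : ℝ) - f))) := by
    field_simp
    ring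
  rw [h3]
  exact mul_le_mul_of_nonneg_left h1 (mul_nonneg (Up_fac2 f p hfp) hP)

private theorem Up_one (h1 : RecStmt) (F G : Finset ℕ) : (∀ p ∈ G, F.card < p) →
    ∀ T : Finset ℕ, Disjoint F T → (∀ p ∈ G, Inj (F ∪ T) p) →
    pe G F T ≤ (∏ p ∈ G, (1 - (F.card : ℝ) / p)) *
      (1 - ∏ p ∈ G, (1 - 1 / ((p : ℝ) - F.card))) ^ T.card := by
  induction G using Finset.induction_on with
  | empty =>
    intro _ T _ _
    rw [prod_empty, prod_empty, one_mul, sub_self]
    unfold pe
    rw [E_empty]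
    rcases T.eq_empty_or_nonempty with hT | hT
    · subst hT
      simpa using ind_le_one _
    · rw [ind_neg]
      · exact pow_nonneg le_rfl _
      · rintro ⟨_, h⟩
        obtain ⟨t, ht⟩ := hT
        obtain ⟨p, hp, _⟩ := h t ht
        simp at hp
  | insert p G hp ih =>
    intro hG T hFT hI
    have hpF := hG p (mem_insert_self p G)
    have hp0 : 0 < p := by omega
    have hG' : ∀ q ∈ G, F.card < q := fun q hq => hG q (mem_insert_of_mem hq)
    have hI' : ∀ q ∈ G, Inj (F ∪ T) q := fun q hq => hI q (mem_insert_of_mem hq)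
    have hIp := hI p (mem_insert_self p G)
    have hrec := h1.1 p G F T hp0 hp hFT hIp
    have hP : 0 ≤ ∏ q ∈ G, (1 - (F.card : ℝ) / q) :=
      prod_nonneg fun q hq => Up_fac2 _ _ (hG' q hq)
    obtain ⟨ht0, ht1⟩ := Up_th F.card G hG'
    have hT := ih hG' T hFT hI'
    rw [prod_insert hp, prod_insert hp, hrec]
    set P : ℝ := ∏ q ∈ G, (1 - (F.card : ℝ) / q) with hPdef
    set θ : ℝ := ∏ q ∈ G, (1 - 1 / ((q : ℝ) - F.card)) with hθ
    have hcard : F.card + T.card ≤ p := by
      have h := Up_card _ p hp0 hIp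
      rwa [card_union_of_disjoint hFT] at h
    have hpR : (0 : ℝ) < p := by exact_mod_cast hp0
    have hc1 : 0 ≤ 1 - ((F.card : ℝ) + T.card) / p := by
      have h : ((F.card : ℝ) + T.card) ≤ p := by exact_mod_cast hcard
      have := (div_le_one hpR).2 h
      linarith
    rcases Nat.eq_zero_or_pos T.card with h0 | hpos
    · have hTe : T = ∅ := card_eq_zero.1 h0
      subst hTe
      simp only [card_empty, pow_zero, mul_one, sum_empty, zero_div, add_zero, Nat.cast_zero]
        at hT ⊢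
      exact mul_le_mul_of_nonneg_left hT (Up_fac2 _ _ hpF)
    · obtain ⟨k, hk⟩ : ∃ k, T.card = k + 1 := ⟨T.card - 1, by omega⟩
      have hsum : ∑ t ∈ T, pe G F (T.erase t) ≤ ((k : ℝ) + 1) * (P * (1 - θ) ^ k) := by
        have hb : ∀ t ∈ T, pe G F (T.erase t) ≤ P * (1 - θ) ^ k := by
          intro t ht
          have hsub : T.erase t ⊆ T := erase_subset t T
          have h := ih hG' (T.erase t) (disjoint_of_subset_right hsub hFT) fun q hq =>
            fun s hs s' hs' => hI' q hq s (union_subset_union_right hsub hs) s'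
              (union_subset_union_right hsub hs')
          rw [card_erase_of_mem ht, hk, Nat.add_sub_cancel] at h
          exact h
        have h := sum_le_card_nsmul T _ _ hb
        rw [nsmul_eq_mul, hk] at h
        push_cast at h
        exact h
      rw [hk] at hT hc1 ⊢
      push_cast at hc1 ⊢
      calc (1 - ((F.card : ℝ) + (k + 1)) / p) * pe G F T + (∑ t ∈ T, pe G F (T.erase t)) / p
          ≤ (1 - ((F.card : ℝ) + (k + 1)) / p) * (P * (1 - θ) ^ (k + 1)) +
            ((k : ℝ) + 1) * (P * (1 - θ) ^ k) / p :=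
            add_le_add (mul_le_mul_of_nonneg_left hT hc1)
              (div_le_div_of_nonneg_right hsum hpR.le)
        _ ≤ (1 - (F.card : ℝ) / p) * P *
            (1 - (1 - 1 / ((p : ℝ) - F.card)) * (1 - (1 - θ))) ^ (k + 1) :=
            Up_step F.card p k P (1 - θ) hpF hP (by linarith) (by linarith)
        _ = _ := by rw [sub_sub_cancel]

theorem tUp (h1 : RecStmt) : UpStmt := by
  intro G B F T hGB hFT hG hB hθ
  have hG' : ∀ q ∈ G, F.card < q := fun q hq => (hG q hq).1
  obtain ⟨ht0, ht1⟩ := Up_th F.card G hG'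
  have hP : 0 ≤ ∏ q ∈ G, (1 - (F.card : ℝ) / q) :=
    prod_nonneg fun q hq => Up_fac2 _ _ (hG' q hq)
  have hone := Up_one h1 F G hG'
  set P : ℝ := ∏ q ∈ G, (1 - (F.card : ℝ) / q) with hPdef
  set θ : ℝ := ∏ q ∈ G, (1 - 1 / ((q : ℝ) - F.card)) with hθd
  have hx0 : 0 ≤ 1 - θ := by linarith
  have hx1 : 1 - θ ≤ 1 := by linarith
  have hxh : 1 / 2 ≤ 1 - θ := by linarith
  have hI : ∀ p ∈ G, Inj (F ∪ T) p := fun q hq => (hG q hq).2
  clear hG
  induction B using Finset.induction_on generalizing T with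
  | empty =>
    rw [union_empty, prod_empty, mul_one]
    exact hone T hFT hI
  | insert p B hp ih =>
    have hpB := hB p (mem_insert_self p B)
    have hp0 : 0 < p := hpB.1
    have hpR : (0 : ℝ) < p := by exact_mod_cast hp0
    rw [disjoint_insert_right] at hGB
    have hpn : p ∉ G ∪ B := by
      rw [mem_union, not_or]
      exact ⟨hGB.1, hp⟩
    rw [union_insert, prod_insert hp]
    refine le_trans (h1.2 p (G ∪ B) F T hp0 hpn) ?_
    rw [div_le_iff₀ hpR]
    have hWn : 0 ≤ ∏ q ∈ B, (1 + 4 * (T.card : ℝ) / q) :=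
      prod_nonneg fun q _ => by positivity
    set W : ℝ := ∏ q ∈ B, (1 + 4 * (T.card : ℝ) / q) with hW
    have hb : ∀ r ∈ range p, pe (G ∪ B) F (T.filter (fun t => t % p ≠ r)) ≤
        (1 + 4 * ((T.filter (fun t => t % p = r)).card : ℝ)) * (P * (1 - θ) ^ T.card * W) := by
      intro r _
      have hsub : T.filter (fun t => t % p ≠ r) ⊆ T := filter_subset _ T
      have h := ih (T := T.filter (fun t => t % p ≠ r)) hGB.2
        (disjoint_of_subset_right hsub hFT)
        (fun q hq => ⟨(hB q (mem_insert_of_mem hq)).1, fun r' =>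
          le_trans (card_le_card (filter_subset_filter _ hsub))
            ((hB q (mem_insert_of_mem hq)).2 r')⟩)
        (fun q hq s hs s' hs' => hI q hq s (union_subset_union_right hsub hs) s'
              (union_subset_union_right hsub hs'))
      refine le_trans h ?_
      have hc : (T.filter (fun t => t % p = r)).card +
          (T.filter (fun t => t % p ≠ r)).card = T.card :=
        card_filter_add_card_filter_not _
      have hc2 := hpB.2 r
      set c : ℕ := (T.filter (fun t => t % p = r)).card with hcd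
      set m : ℕ := (T.filter (fun t => t % p ≠ r)).card with hmd
      have hWm : ∏ q ∈ B, (1 + 4 * (m : ℝ) / q) ≤ W := by
        refine prod_le_prod (fun q _ => by positivity) fun q _ => ?_
        have : (m : ℝ) ≤ T.card := by
          have : m ≤ T.card := by omega
          exact_mod_cast this
        gcongr
      have hpow : (1 - θ) ^ m ≤ (1 + 4 * (c : ℝ)) * (1 - θ) ^ T.card := by
        rcases Nat.eq_zero_or_pos c with h0 | hpos
        · have : m = T.card := by omega
          rw [h0, this]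
          simp
        · have e1 : (1 - θ) ^ (m + 2) ≤ (1 - θ) ^ T.card :=
            pow_le_pow_of_le_one hx0 hx1 (by omega)
          have e2 : 0 ≤ (1 - θ) ^ m := pow_nonneg hx0 m
          have e3 : (1 - θ) ^ (m + 2) = (1 - θ) ^ m * (1 - θ) ^ 2 := pow_add _ _ _
          have e4 : (1 : ℝ) / 4 ≤ (1 - θ) ^ 2 := by nlinarith
          have e5 : (1 - θ) ^ m * (1 / 4) ≤ (1 - θ) ^ T.card := by
            rw [e3] at e1
            exact le_trans (mul_le_mul_of_nonneg_left e4 e2) e1
          have e6 : (1 : ℝ) ≤ c := by exact_mod_cast hpos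
          have e7 : 0 ≤ (1 - θ) ^ T.card := pow_nonneg hx0 _
          nlinarith
      have hpn' : 0 ≤ (1 - θ) ^ m := pow_nonneg hx0 m
      calc P * (1 - θ) ^ m * ∏ q ∈ B, (1 + 4 * (m : ℝ) / q)
          ≤ P * (1 - θ) ^ m * W := mul_le_mul_of_nonneg_left hWm (mul_nonneg hP hpn')
        _ ≤ P * ((1 + 4 * (c : ℝ)) * (1 - θ) ^ T.card) * W :=
            mul_le_mul_of_nonneg_right (mul_le_mul_of_nonneg_left hpow hP) hWn
        _ = _ := by ring
    refine le_trans (sum_le_sum hb) ?_
    rw [← sum_mul, sum_add_distrib, ← mul_sum]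
    have hcs : ∑ r ∈ range p, ((T.filter (fun t => t % p = r)).card : ℝ) = T.card := by
      have h := card_eq_sum_card_fiberwise (f := fun t => t % p) (s := T) (t := range p)
        (fun t _ => mem_coe.2 (mem_range.2 (Nat.mod_lt _ hp0)))
      rw [h]
      push_cast
      rfl
    rw [hcs, sum_const, card_range, nsmul_eq_mul, mul_one]
    refine le_of_eq ?_
    field_simp

end Pool.Agent.Lib.SHK
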